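import Pool.Agent.Helper8.LQ.Def

/-!
# PRIMES (MP_fd8838_nt): the definitions and the statements of the blocks

README with the complete proof: `/team-store/h28_PR_README.md`. A block which needs another block takes its statement
(a `Prop` of this file) as a hypothesis.
-/

set_option autoImplicit false

namespace Pool.Agent.Helper28.PR

open Filter Topology MeasureTheory
open Pool.Agent.Helper68.Moeller Pool.Agent.Helper52.Tao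

/-! ## Primes in windows -/

/-- (PW) Every interval `(N, N + l]`, `l ≥ N ^ (1 - η)`, contains `≥ c l / log N` primes. -/
def PWStmt : Prop := ∃ (η c : ℝ) (N0 : ℕ), 0 < η ∧ η < 1 ∧ 0 < c ∧ ∀ N l : ℕ, N0 ≤ N →
  (N : ℝ) ^ (1 - η) ≤ l → (l : ℝ) ≤ N / Real.log N →
    c * (l / Real.log N) ≤ ({p : ℕ | p.Prime ∧ N < p ∧ p ≤ N + l}.ncard : ℝ)

/-! ## The sieve and the words -/

/-- `|h| / φ(|h|)`. -/
noncomputable def sing (h : ℤ) : ℝ := (h.natAbs : ℝ) / (Nat.totient h.natAbs : ℝ)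

/-- (S1) Pairs of primes `p`, `p + h` with `p ≡ b (mod 2 ^ k)`. -/
def S1Stmt : Prop := ∃ (C : ℝ) (H0 : ℕ), 0 < C ∧ ∀ k b u H : ℕ, ∀ h : ℤ, H0 ≤ H → (2 ^ k) ^ 2 ≤ H → H ≤ u →
  b % 2 = 1 → h ≠ 0 → 2 * |h| ≤ H →
    ({p : ℕ | p.Prime ∧ u < p ∧ p ≤ u + H ∧ p ≡ b [MOD 2 ^ k] ∧
      ∃ p' : ℕ, p'.Prime ∧ (p' : ℤ) = p + h}.ncard : ℝ) ≤
        C * sing h ^ 2 * (H / (2 ^ k * Real.log H ^ 2))

/-- `w'` has as many ones as `w`, and both end at the same residues modulo `3 ^ sg w`. -/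
def Rel (r : ℤ → ℤ) (w' w : List ℕ) : Prop :=
  sg w' = sg w ∧ (3 : ℤ) ^ sg w ∣ Off 2 3 r w' - Off 2 3 r w

/-- The number of the words `w'` of length `k` related to `w`. -/
noncomputable def mult (r : ℤ → ℤ) (k : ℕ) (w : List ℕ) : ℝ := cW 2 k (fun w' => Rel r w' w)

/-- The same with a congruence modulo `3 ^ sg w * q`. -/
noncomputable def multq (r : ℤ → ℤ) (k q : ℕ) (w : List ℕ) : ℝ :=
  cW 2 k (fun w' => sg w' = sg w ∧ (3 : ℤ) ^ sg w * q ∣ Off 2 3 r w' - Off 2 3 r w)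

/-- The difference of the starting points with the words `w'`, `w` and the same end point. -/
def hh (r : ℤ → ℤ) (w' w : List ℕ) : ℤ := (Off 2 3 r w' - Off 2 3 r w) / 3 ^ sg w

/-- (S2) Most words have a bounded multiplicity (relative to the mean). -/
def S2Stmt (r : ℤ → ℤ) : Prop := ∀ δ : ℝ, 0 < δ → ∃ (K : ℝ) (k0 : ℕ), 0 < K ∧ ∀ k : ℕ, k0 ≤ k →
  cW 2 k (fun w => K * ((k.choose (sg w) : ℝ) / 3 ^ sg w) < mult r k w) ≤ δ * 2 ^ k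

/-- (S3) For most words the related words are distributed modulo all primes `q ≤ k`. -/
def S3Stmt (r : ℤ → ℤ) : Prop := ∃ k0 : ℕ, ∀ k : ℕ, k0 ≤ k →
  cW 2 k (fun w => k ≤ 3 * sg w ∧ ∃ q : ℕ, q.Prime ∧ 5 ≤ q ∧ q ≤ k ∧ 2 * mult r k w / q < multq r k q w) ≤
    2 ^ k / k

/-- (S4) The singular series on average. -/
def S4Stmt : Prop := ∃ C : ℝ, 0 < C ∧ ∀ (ι : Type) (s : Finset ι) (h : ι → ℤ) (k : ℕ) (N : ℝ), 2 ≤ k →
  (∀ i ∈ s, h i ≠ 0 ∧ |h i| ≤ 3 ^ k) → (s.card : ℝ) ≤ N →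
  (∀ q : ℕ, q.Prime → 5 ≤ q → q ≤ k → (({i ∈ s | (q : ℤ) ∣ h i} : Finset ι).card : ℝ) ≤ 2 * N / q) →
    ∑ i ∈ s, sing (h i) ^ 2 ≤ C * N

/-- The number of steps at height `y`. -/
noncomputable def ky (y : ℝ) : ℕ := ⌈10 * Real.log (Real.log y)⌉₊

/-- (S5) Transference: if few integers of `(y, y + H]` are sent to `B`, then few primes are. -/
def S5Stmt (r : ℤ → ℤ) : Prop := ∀ θ η : ℝ, 0 < θ → 0 < η → ∃ ε : ℝ, 0 < ε ∧ ∃ Y : ℕ, ∀ y H : ℕ, Y ≤ y →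
  (y : ℝ) ^ θ ≤ H → H ≤ y → ∀ B : Set ℤ,
    ({n : ℤ | (y : ℤ) < n ∧ n ≤ y + H ∧ (T 2 3 r)^[ky y] n ∈ B}.ncard : ℝ) ≤ ε * H →
    ({p : ℕ | p.Prime ∧ y < p ∧ p ≤ y + H ∧ (T 2 3 r)^[ky y] (p : ℤ) ∈ B}.ncard : ℝ) ≤ η * (H / Real.log y)

end Pool.Agent.Helper28.PR
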