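import Pool.Agent.Helper28.PR.Defs

/-!
# PRIMES, general maps: the statements of the blocks
-/

set_option autoImplicit false

namespace Pool.Agent.Helper28.PR

open Filter Topology
open Pool.Agent.Helper68.Moeller Pool.Agent.Helper52.Tao

/-- (S1g) Pairs of primes `p`, `p + h` with `p ≡ b (mod q)`. -/
def S1gStmt : Prop := ∃ (C : ℝ) (H0 : ℕ), 0 < C ∧ ∀ q b u H : ℕ, ∀ h : ℤ, H0 ≤ H → 1 ≤ q → q ^ 2 ≤ H → H ≤ u →
  Nat.Coprime b q → h ≠ 0 → 2 * |h| ≤ H →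
    ({p : ℕ | p.Prime ∧ u < p ∧ p ≤ u + H ∧ p ≡ b [MOD q] ∧
      ∃ p' : ℕ, p'.Prime ∧ (p' : ℤ) = p + h}.ncard : ℝ) ≤
        C * (q / Nat.totient q) ^ 2 * sing h ^ 2 * (H / (q * Real.log H ^ 2))

/-- `w'` has as many non-zero digits as `w`, and both end at the same residues modulo `m ^ sg w`. -/
def Relg (d m : ℕ) (r : ℤ → ℤ) (w' w : List ℕ) : Prop :=
  sg w' = sg w ∧ (m : ℤ) ^ sg w ∣ Off d m r w' - Off d m r w

/-- The number of the words `w'` of length `k` related to `w`. -/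
noncomputable def multg (d m : ℕ) (r : ℤ → ℤ) (k : ℕ) (w : List ℕ) : ℝ := cW d k (fun w' => Relg d m r w' w)

/-- The same with a congruence modulo `m ^ sg w * q`. -/
noncomputable def multqg (d m : ℕ) (r : ℤ → ℤ) (k q : ℕ) (w : List ℕ) : ℝ :=
  cW d k (fun w' => sg w' = sg w ∧ (m : ℤ) ^ sg w * q ∣ Off d m r w' - Off d m r w)

/-- The difference of the starting points with the words `w'`, `w` and the same end point. -/
def hhg (d m : ℕ) (r : ℤ → ℤ) (w' w : List ℕ) : ℤ := (Off d m r w' - Off d m r w) / (m : ℤ) ^ sg w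

/-- The mean multiplicity. -/
noncomputable def rhg (d m k : ℕ) (w : List ℕ) : ℝ := (k.choose (sg w) : ℝ) * ((d : ℝ) - 1) ^ sg w / (m : ℝ) ^ sg w

/-- (S2g) Most words have a bounded multiplicity (relative to the mean). -/
def S2gStmt (d m : ℕ) (r : ℤ → ℤ) : Prop := ∀ δ : ℝ, 0 < δ → ∃ (K : ℝ) (k0 : ℕ), 0 < K ∧ ∀ k : ℕ, k0 ≤ k →
  cW d k (fun w => K * rhg d m k w < multg d m r k w) ≤ δ * (d : ℝ) ^ k

/-- (S3g) For most words the related words are distributed modulo all primes `q`, `q0 ≤ q ≤ k`. -/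
def S3gStmt (d m : ℕ) (r : ℤ → ℤ) : Prop := ∃ q0 k0 : ℕ, ∀ k : ℕ, k0 ≤ k →
  cW d k (fun w => k ≤ 3 * sg w ∧ ∃ q : ℕ, q.Prime ∧ q0 ≤ q ∧ q ≤ k ∧
    2 * multg d m r k w / q < multqg d m r k q w) ≤ (d : ℝ) ^ k / k

/-- (S4g) The singular series on average. -/
def S4gStmt : Prop := ∀ q0 M : ℕ, ∃ C : ℝ, 0 < C ∧ ∀ (ι : Type) (s : Finset ι) (h : ι → ℤ) (k : ℕ) (N : ℝ), 2 ≤ k →
  (∀ i ∈ s, h i ≠ 0 ∧ |h i| ≤ (M : ℤ) ^ k) → (s.card : ℝ) ≤ N →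
  (∀ q : ℕ, q.Prime → q0 ≤ q → q ≤ k → (({i ∈ s | (q : ℤ) ∣ h i} : Finset ι).card : ℝ) ≤ 2 * N / q) →
    ∑ i ∈ s, sing (h i) ^ 2 ≤ C * N

/-- The number of steps at height `y`. -/
noncomputable def kyg (K : ℕ) (y : ℝ) : ℕ := ⌈K * Real.log (Real.log y)⌉₊

/-- (S5g) Transference: if few integers of `(y, y + H]` are sent to `B`, then few primes are. -/
def S5gStmt (d m : ℕ) (r : ℤ → ℤ) : Prop := ∃ K : ℕ, 0 < K ∧ ∀ θ η : ℝ, 0 < θ → 0 < η → ∃ ε : ℝ, 0 < ε ∧ ∃ Y : ℕ,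
  ∀ y H : ℕ, Y ≤ y → (y : ℝ) ^ θ ≤ H → H ≤ y → ∀ B : Set ℤ,
    ({n : ℤ | (y : ℤ) < n ∧ n ≤ y + H ∧ (T d m r)^[kyg K y] n ∈ B}.ncard : ℝ) ≤ ε * H →
    ({p : ℕ | p.Prime ∧ y < p ∧ p ≤ y + H ∧ (T d m r)^[kyg K y] (p : ℤ) ∈ B}.ncard : ℝ) ≤ η * (H / Real.log y)

end Pool.Agent.Helper28.PR
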