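import Pool.Agent.Helper28.PR.T4
import Pool.Agent.Helper8.SI.Eq

/-!
# PRIMES, block S6, part 1: the primes of the good windows
-/

set_option autoImplicit false

namespace Pool.Agent.Helper28.PR

open Filter Topology
open Pool.Agent.Helper68.Moeller Pool.Agent.Helper52.Tao Pool.Agent.Helper8.ND Pool.Agent.Helper8

variable {ρ : ℤ}

theorem half_le_T (hρ : ρ = 1 ∨ ρ = -1) {n : ℤ} (hn : 0 < n) : n ≤ 2 * T 2 3 (fun _ => ρ) n := by
  unfold T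
  split_ifs with h
  · push_cast at h ⊢
    omega
  · push_cast at h ⊢
    rcases hρ with rfl | rfl <;> omega

theorem le_iter (hρ : ρ = 1 ∨ ρ = -1) {n : ℤ} (hn : 0 < n) (i : ℕ) : n ≤ 2 ^ i * (T 2 3 (fun _ => ρ))^[i] n := by
  induction i with
  | zero => simp
  | succ i ih =>
    rw [Function.iterate_succ_apply']
    have h1 := half_le_T hρ (SI.iter_pos hρ hn i)
    have h2 : (0 : ℤ) < 2 ^ i := by positivity
    calc n ≤ 2 ^ i * (T 2 3 (fun _ => ρ))^[i] n := ih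
      _ ≤ 2 ^ i * (2 * T 2 3 (fun _ => ρ) ((T 2 3 (fun _ => ρ))^[i] n)) := mul_le_mul_of_nonneg_left h1 h2.le
      _ = _ := by ring

theorem mem_path {G : Set ℤ} {z : ℝ} (hG : TInv 2 3 (fun _ => ρ) G z) {n : ℤ} (k : ℕ)
    (h : ∀ i < k, z < ((T 2 3 (fun _ => ρ))^[i] n : ℝ)) : n ∈ G ↔ (T 2 3 (fun _ => ρ))^[k] n ∈ G := by
  induction k with
  | zero => exact Iff.rfl
  | succ k ih =>
    rw [Function.iterate_succ_apply']
    exact (ih fun i hi => h i (by omega)).trans (hG _ (h k (by omega)))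

/-- A good window contains many primes of `G`. -/
theorem good_primes (hρ : ρ = 1 ∨ ρ = -1) (hPW : PWStmt) (h5 : S5Stmt (fun _ => ρ)) : ∃ θ ε c : ℝ, 0 < θ ∧ θ < 1 ∧
    0 < ε ∧ ε ≤ 1 ∧ 0 < c ∧ ∀ z : ℝ, 0 ≤ z → ∃ X : ℝ, ∀ (G : Set ℤ), TInv 2 3 (fun _ => ρ) G z → ∀ n : ℕ, X ≤ n →
      SI.Good ρ θ ε z G n → c * (((⌊(n : ℝ) ^ θ⌋₊ : ℕ) : ℝ) / Real.log n) ≤
        ({p : ℕ | p.Prime ∧ n < p ∧ p ≤ n + ⌊(n : ℝ) ^ θ⌋₊ ∧ (p : ℤ) ∈ G}.ncard : ℝ) := by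
  obtain ⟨η, c1, N0, hη0, hη1, hc1, hpw⟩ := hPW
  obtain ⟨θ, hθ⟩ : ∃ θ : ℝ, θ = 1 - η / 2 := ⟨_, rfl⟩
  have hθ0 : 0 < θ := by rw [hθ]; linarith
  have hθ1 : θ < 1 := by rw [hθ]; linarith
  obtain ⟨ε0, hε0, Y, hY⟩ := h5 (θ / 2) (c1 / 2) (by positivity) (by positivity)
  refine ⟨θ, min (ε0 / 2) 1, c1 / 2, hθ0, hθ1, by positivity, min_le_right _ _, by positivity, fun z hz => ?_⟩
  have t1 : Tendsto (fun n : ℕ => (n : ℝ) ^ (η / 2)) atTop atTop :=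
    (tendsto_rpow_atTop (by positivity)).comp tendsto_natCast_atTop_atTop
  have t2 : Tendsto (fun n : ℕ => (n : ℝ) ^ (θ / 2)) atTop atTop :=
    (tendsto_rpow_atTop (by positivity)).comp tendsto_natCast_atTop_atTop
  have t3 : ∀ᶠ n : ℕ in atTop, Real.log n ≤ (n : ℝ) ^ (η / 2) := by
    have h1 := isLittleO_log_rpow_atTop (show (0 : ℝ) < η / 2 by positivity)
    have h2 := (tendsto_natCast_atTop_atTop (R := ℝ)).eventually (h1.bound one_pos)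
    filter_upwards [h2, eventually_ge_atTop 1] with n hn hn1
    have hn1' : (1 : ℝ) ≤ n := by exact_mod_cast hn1
    rw [one_mul, Real.norm_of_nonneg (Real.log_nonneg hn1'), Real.norm_of_nonneg (Real.rpow_nonneg (by linarith) _)] at hn
    exact hn
  have t4 := ky_small (θ := 1) one_pos (z + 1) (by linarith)
  have key : ∀ᶠ n : ℕ in atTop, ∀ (G : Set ℤ), TInv 2 3 (fun _ => ρ) G z →
      SI.Good ρ θ (min (ε0 / 2) 1) z G n → c1 / 2 * (((⌊(n : ℝ) ^ θ⌋₊ : ℕ) : ℝ) / Real.log n) ≤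
        ({p : ℕ | p.Prime ∧ n < p ∧ p ≤ n + ⌊(n : ℝ) ^ θ⌋₊ ∧ (p : ℤ) ∈ G}.ncard : ℝ) := by
    filter_upwards [t1.eventually_ge_atTop 2, t2.eventually_ge_atTop 2, t3, t4, eventually_ge_atTop N0,
      eventually_ge_atTop Y, eventually_ge_atTop 3] with n a1 a2 a3 a4 a5 a6 a7 G hG hgood
    obtain ⟨s, v, -, hv, hpath, hwin⟩ := hgood
    obtain ⟨H, hH⟩ : ∃ H : ℕ, H = ⌊(n : ℝ) ^ θ⌋₊ := ⟨_, rfl⟩
    rw [← hH]
    have hn0 : (0 : ℝ) < n := by exact_mod_cast (by omega : 0 < n)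
    have hn1 : (1 : ℝ) ≤ n := by exact_mod_cast (by omega : 1 ≤ n)
    have hn3 : (3 : ℝ) ≤ n := by exact_mod_cast a7
    have hlog1 : 1 ≤ Real.log n := by
      rw [Real.le_log_iff_exp_le hn0]
      have := Real.exp_one_lt_d9
      linarith
    have hnθ0 : 0 ≤ (n : ℝ) ^ θ := Real.rpow_nonneg hn0.le _
    have hHle : (H : ℝ) ≤ (n : ℝ) ^ θ := by rw [hH]; exact Nat.floor_le hnθ0
    have hHge : (n : ℝ) ^ θ < H + 1 := by rw [hH]; exact Nat.lt_floor_add_one _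
    have e1 : (n : ℝ) ^ θ = (n : ℝ) ^ (θ / 2) * (n : ℝ) ^ (θ / 2) := by
      rw [← Real.rpow_add hn0]; congr 1; ring
    have e2 : (n : ℝ) ^ θ = (n : ℝ) ^ (1 - η) * (n : ℝ) ^ (η / 2) := by
      rw [← Real.rpow_add hn0, hθ]; congr 1; ring
    have e3 : (n : ℝ) = (n : ℝ) ^ θ * (n : ℝ) ^ (η / 2) := by
      rw [← Real.rpow_add hn0, hθ]
      conv_lhs => rw [← Real.rpow_one (n : ℝ)]
      congr 1; ring
    have b1 : (n : ℝ) ^ (θ / 2) ≤ H := by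
      have : (n : ℝ) ^ (θ / 2) * 2 ≤ (n : ℝ) ^ θ := by rw [e1]; exact mul_le_mul_of_nonneg_left a2 (by linarith)
      linarith
    have b2 : (n : ℝ) ^ (1 - η) ≤ H := by
      have h1 : 1 ≤ (n : ℝ) ^ (1 - η) := Real.one_le_rpow hn1 (by linarith)
      have : (n : ℝ) ^ (1 - η) * 2 ≤ (n : ℝ) ^ θ := by rw [e2]; exact mul_le_mul_of_nonneg_left a1 (by linarith)
      linarith
    have b3 : (H : ℝ) ≤ n / Real.log n := by
      rw [le_div_iff₀ (by linarith)]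
      calc (H : ℝ) * Real.log n ≤ (n : ℝ) ^ θ * (n : ℝ) ^ (η / 2) := mul_le_mul hHle a3 (by linarith) hnθ0
        _ = n := e3.symm
    have b4 : H ≤ n := by
      have : (H : ℝ) ≤ n := b3.trans (div_le_self hn0.le hlog1)
      exact_mod_cast this
    have b5 : (n : ℝ) ^ θ ≤ 2 * H := by
      have : (1 : ℝ) ≤ H := by
        have h1 : (1 : ℝ) ≤ (n : ℝ) ^ (θ / 2) := by linarith
        linarith
      linarith
    have c1' := hpw n H a5 b2 b3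
    obtain ⟨k, hk⟩ : ∃ k : ℕ, k = ky (n : ℝ) := ⟨_, rfl⟩
    have c2 := hY n H a6 b1 b4 Gᶜ
    rw [← hk] at c2 a4
    -- membership
    have hz2 : ∀ m : ℤ, (n : ℤ) ≤ m → ∀ i < k, z < ((T 2 3 (fun _ => ρ))^[i] m : ℝ) := by
      intro m hm i hi
      have hm0 : 0 < m := by omega
      have h1 := le_iter hρ hm0 i
      have h2 : (n : ℝ) ≤ 2 ^ i * ((T 2 3 (fun _ => ρ))^[i] m : ℝ) := by
        have : (n : ℤ) ≤ 2 ^ i * (T 2 3 (fun _ => ρ))^[i] m := hm.trans h1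
        exact_mod_cast this
      rw [Real.rpow_one] at a4
      have h3 : (2 : ℝ) ^ i ≤ 4 ^ k := by
        calc (2 : ℝ) ^ i ≤ 2 ^ k := pow_le_pow_right₀ (by norm_num) hi.le
          _ ≤ 4 ^ k := pow_le_pow_left₀ (by norm_num) (by norm_num) k
      have h2i : (0 : ℝ) < 2 ^ i := by positivity
      have h4 : (z + 1) * 2 ^ i ≤ n := by
        calc (z + 1) * 2 ^ i ≤ (z + 1) * 4 ^ k := mul_le_mul_of_nonneg_left h3 (by linarith)
          _ ≤ (z + 1) * 4 ^ k * Real.log n := le_mul_of_one_le_right (by positivity) hlog1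
          _ ≤ n := a4
      have h5 : (z + 1) * 2 ^ i ≤ ((T 2 3 (fun _ => ρ))^[i] m : ℝ) * 2 ^ i := by linarith
      have h6 := le_of_mul_le_mul_right h5 h2i
      linarith
    have hmem : ∀ m : ℤ, (n : ℤ) ≤ m → ((T 2 3 (fun _ => ρ))^[k] m ∈ Gᶜ → (T 2 3 (fun _ => ρ))^[s] m ≠ v) := by
      intro m hm hB he
      apply hB
      have hm0 : 0 < m := by omega
      rw [← mem_path hG k (hz2 m hm)]
      rw [mem_path hG s ?_, he]
      · exact hv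
      · intro i hi
        by_contra hcon
        push Not at hcon
        refine hpath _ (s - i) (SI.iter_pos hρ hm0 i) hcon (Nat.sub_le _ _) ?_
        rw [← Function.iterate_add_apply, Nat.sub_add_cancel hi.le]
        exact he
    have c3 : ({n' : ℤ | (n : ℤ) < n' ∧ n' ≤ n + H ∧ (T 2 3 (fun _ => ρ))^[k] n' ∈ Gᶜ}.ncard : ℝ) ≤ ε0 * H := by
      have hfin : {h : ℤ | 0 ≤ h ∧ (h : ℝ) ≤ (((n : ℕ) : ℤ) : ℝ) ^ θ ∧ (T 2 3 (fun _ => ρ))^[s] (((n : ℕ) : ℤ) + h) ≠ v}.Finite :=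
        SI.window_finite _ _
      have h1 : {n' : ℤ | (n : ℤ) < n' ∧ n' ≤ n + H ∧ (T 2 3 (fun _ => ρ))^[k] n' ∈ Gᶜ}.ncard ≤
          {h : ℤ | 0 ≤ h ∧ (h : ℝ) ≤ (((n : ℕ) : ℤ) : ℝ) ^ θ ∧ (T 2 3 (fun _ => ρ))^[s] (((n : ℕ) : ℤ) + h) ≠ v}.ncard := by
        refine Set.ncard_le_ncard_of_injOn (fun n' => n' - n) ?_ ?_ hfin
        · rintro n' ⟨g1, g2, g3⟩
          refine ⟨by omega, ?_, ?_⟩
          · push_cast
            have : (n' : ℝ) ≤ n + H := by exact_mod_cast g2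
            linarith
          · have := hmem n' g1.le g3
            simpa using this
        · intro a _ b _ hab
          simpa using hab
      have h2 : ({n' : ℤ | (n : ℤ) < n' ∧ n' ≤ n + H ∧ (T 2 3 (fun _ => ρ))^[k] n' ∈ Gᶜ}.ncard : ℝ) ≤
          min (ε0 / 2) 1 * (n : ℝ) ^ θ := by
        refine (Nat.cast_le.2 h1).trans ?_
        have := hwin
        simpa using this
      calc _ ≤ min (ε0 / 2) 1 * (n : ℝ) ^ θ := h2
        _ ≤ ε0 / 2 * (n : ℝ) ^ θ := mul_le_mul_of_nonneg_right (min_le_left _ _) hnθ0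
        _ ≤ ε0 / 2 * (2 * H) := mul_le_mul_of_nonneg_left b5 (by positivity)
        _ = ε0 * H := by ring
    have c4 := c2 c3
    have hfinP : {p : ℕ | p.Prime ∧ n < p ∧ p ≤ n + H ∧ (p : ℤ) ∈ G}.Finite :=
      (Set.finite_Icc 0 (n + H)).subset fun p hp => ⟨Nat.zero_le _, hp.2.2.1⟩
    have hfinB : {p : ℕ | p.Prime ∧ n < p ∧ p ≤ n + H ∧ (T 2 3 (fun _ => ρ))^[k] (p : ℤ) ∈ Gᶜ}.Finite :=
      (Set.finite_Icc 0 (n + H)).subset fun p hp => ⟨Nat.zero_le _, hp.2.2.1⟩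
    have c5 : {p : ℕ | p.Prime ∧ n < p ∧ p ≤ n + H}.ncard ≤
        {p : ℕ | p.Prime ∧ n < p ∧ p ≤ n + H ∧ (p : ℤ) ∈ G}.ncard +
        {p : ℕ | p.Prime ∧ n < p ∧ p ≤ n + H ∧ (T 2 3 (fun _ => ρ))^[k] (p : ℤ) ∈ Gᶜ}.ncard := by
      refine le_trans (Set.ncard_le_ncard ?_ (hfinP.union hfinB)) (Set.ncard_union_le _ _)
      rintro p ⟨g1, g2, g3⟩
      by_cases hp : (p : ℤ) ∈ G
      · exact Or.inl ⟨g1, g2, g3, hp⟩
      · right
        refine ⟨g1, g2, g3, ?_⟩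
        rw [Set.mem_compl_iff, ← mem_path hG k (hz2 p (by omega))]
        exact hp
    have c6 : ({p : ℕ | p.Prime ∧ n < p ∧ p ≤ n + H}.ncard : ℝ) ≤
        ({p : ℕ | p.Prime ∧ n < p ∧ p ≤ n + H ∧ (p : ℤ) ∈ G}.ncard : ℝ) +
        ({p : ℕ | p.Prime ∧ n < p ∧ p ≤ n + H ∧ (T 2 3 (fun _ => ρ))^[k] (p : ℤ) ∈ Gᶜ}.ncard : ℝ) := by
      exact_mod_cast c5
    linarith
  obtain ⟨X, hX⟩ := eventually_atTop.1 key
  exact ⟨X, fun G hG n hn => hX n (by exact_mod_cast hn) G hG⟩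

end Pool.Agent.Helper28.PR
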