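import Pool.Agent.Helper28.PR.F1

/-!
# PRIMES, block S6, part 2: the primes of invariant sets
-/

set_option autoImplicit false

namespace Pool.Agent.Helper28.PR

open Filter Topology
open Pool.Agent.Helper68.Moeller Pool.Agent.Helper52.Tao Pool.Agent.Helper8.ND Pool.Agent.Helper8

variable {ρ : ℤ}

/-- The number of the primes `p ∈ [x, 2x)` with the property `P`. -/
noncomputable def np (P : ℕ → Prop) (x : ℝ) : ℝ := ({p : ℕ | p.Prime ∧ x ≤ p ∧ (p : ℝ) < 2 * x ∧ P p}.ncard : ℝ)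

open Classical in
/-- Double counting. -/
theorem double_count {A : Finset ℤ} {S : Finset ℕ} {H : ℤ → ℕ} {a b : ℝ} (hb : 0 ≤ b) (hA : ∀ n ∈ A, 0 ≤ n)
    (h1 : ∀ n ∈ A, a ≤ ((S.filter (fun p : ℕ => n < p ∧ (p : ℤ) ≤ n + H n)).card : ℝ)) (h2 : ∀ n ∈ A, (H n : ℝ) ≤ b) :
    A.card * a ≤ S.card * (b + 1) := by
  have h3 : ∑ n ∈ A, ((S.filter (fun p : ℕ => n < p ∧ (p : ℤ) ≤ n + H n)).card : ℝ) =
      ∑ p ∈ S, ((A.filter (fun n : ℤ => n < p ∧ (p : ℤ) ≤ n + H n)).card : ℝ) := by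
    simp only [Finset.card_filter]
    push_cast
    rw [Finset.sum_comm]
  have h4 : A.card * a ≤ ∑ n ∈ A, ((S.filter (fun p : ℕ => n < p ∧ (p : ℤ) ≤ n + H n)).card : ℝ) := by
    rw [← nsmul_eq_mul, ← Finset.sum_const]
    exact Finset.sum_le_sum h1
  have h5 : ∀ p ∈ S, ((A.filter (fun n : ℤ => n < p ∧ (p : ℤ) ≤ n + H n)).card : ℝ) ≤ b + 1 := by
    intro p _
    have h6 : A.filter (fun n : ℤ => n < p ∧ (p : ℤ) ≤ n + H n) ⊆ Finset.Ico ((p : ℤ) - ⌊b⌋) p := by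
      intro n hn
      rw [Finset.mem_filter] at hn
      obtain ⟨g1, g2, g3⟩ := hn
      rw [Finset.mem_Ico]
      refine ⟨?_, g2⟩
      have : (H n : ℤ) ≤ ⌊b⌋ := by
        rw [Int.le_floor]
        exact_mod_cast h2 n g1
      omega
    have h7 := Finset.card_le_card h6
    rw [Int.card_Ico] at h7
    have h8 : (0 : ℤ) ≤ ⌊b⌋ := Int.floor_nonneg.2 hb
    have h9 : (((p : ℤ) - ((p : ℤ) - ⌊b⌋)).toNat : ℤ) = ⌊b⌋ := by
      rw [Int.toNat_of_nonneg (by omega)]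
      ring
    have h10 : ((((p : ℤ) - ((p : ℤ) - ⌊b⌋)).toNat : ℕ) : ℝ) = (⌊b⌋ : ℝ) := by exact_mod_cast h9
    have h11 : ((A.filter (fun n : ℤ => n < p ∧ (p : ℤ) ≤ n + H n)).card : ℝ) ≤ (⌊b⌋ : ℝ) := by
      rw [← h10]
      exact_mod_cast h7
    have := Int.floor_le b
    linarith
  calc A.card * a ≤ ∑ n ∈ A, ((S.filter (fun p : ℕ => n < p ∧ (p : ℤ) ≤ n + H n)).card : ℝ) := h4
    _ = ∑ p ∈ S, ((A.filter (fun n : ℤ => n < p ∧ (p : ℤ) ≤ n + H n)).card : ℝ) := h3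
    _ ≤ ∑ p ∈ S, (b + 1) := Finset.sum_le_sum h5
    _ = S.card * (b + 1) := by rw [Finset.sum_const, nsmul_eq_mul]

open Classical in
/-- **The primes of invariant sets.** -/
theorem inv_primes (hρ : ρ = 1 ∨ ρ = -1) (hl : PW.LevelD 2 3 (fun _ => ρ)) (hF : SI.FlowI 2 3 (fun _ => ρ))
    (hPW : PWStmt) (h5 : S5Stmt (fun _ => ρ)) : ∃ c : ℝ, 0 < c ∧ ∀ z D : ℝ, 0 ≤ z → 0 < D → ∃ X : ℝ, ∀ G : Set ℤ,
      TInv 2 3 (fun _ => ρ) G z → (∀ᶠ x in atTop, D ≤ fd G x) → ∀ x : ℝ, X ≤ x →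
        c * D * (x / Real.log x) ≤ np (fun p => (p : ℤ) ∈ G) x := by
  obtain ⟨θ, ε, c1, hθ0, hθ1, hε, hε1, hc1, hgp⟩ := good_primes hρ hPW h5
  obtain ⟨c, hc, hmain⟩ := SI.main hρ hl hF hθ0 hθ1 hε hε1
  refine ⟨c * c1 / 64, by positivity, fun z D hz hD => ?_⟩
  obtain ⟨X1, hX1⟩ := hmain z D hz hD
  obtain ⟨X2, hX2⟩ := hgp z hz
  have t1 : ∀ᶠ x : ℝ in atTop, 4 * x ^ θ * Real.log x ≤ c * c1 / 64 * D * x := by
    have h1 := isLittleO_log_rpow_atTop (show (0 : ℝ) < 1 - θ by linarith)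
    have h2 := h1.bound (show (0 : ℝ) < c * c1 / 64 * D / 4 by positivity)
    filter_upwards [h2, eventually_ge_atTop 1] with x hx hx1
    have hx0 : 0 < x := by linarith
    rw [Real.norm_of_nonneg (Real.log_nonneg hx1), Real.norm_of_nonneg (Real.rpow_nonneg hx0.le _)] at hx
    have e : x = x ^ θ * x ^ (1 - θ) := by
      rw [← Real.rpow_add hx0]
      conv_lhs => rw [← Real.rpow_one x]
      congr 1; ring
    calc 4 * x ^ θ * Real.log x ≤ 4 * x ^ θ * (c * c1 / 64 * D / 4 * x ^ (1 - θ)) :=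
        mul_le_mul_of_nonneg_left hx (by positivity)
      _ = c * c1 / 64 * D * (x ^ θ * x ^ (1 - θ)) := by ring
      _ = _ := by rw [← e]
  have t2 : ∀ᶠ x : ℝ in atTop, (2 : ℝ) ≤ x ^ θ := (tendsto_rpow_atTop hθ0).eventually_ge_atTop 2
  obtain ⟨X3, hX3⟩ := eventually_atTop.1 (t1.and t2)
  refine ⟨max (max X1 X2) (max X3 3), fun G hG hGD x hx => ?_⟩
  have hx1 : X1 ≤ x := (le_max_left _ _).trans ((le_max_left _ _).trans hx)
  have hx2 : X2 ≤ x := (le_max_right _ _).trans ((le_max_left _ _).trans hx)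
  have hx3 : X3 ≤ x := (le_max_left _ _).trans ((le_max_right _ _).trans hx)
  have hx4 : 3 ≤ x := (le_max_right _ _).trans ((le_max_right _ _).trans hx)
  obtain ⟨g1, g2⟩ := hX3 x hx3
  have hx0 : 0 < x := by linarith
  have hlog1 : 1 ≤ Real.log x := by
    rw [Real.le_log_iff_exp_le hx0]
    have := Real.exp_one_lt_d9
    linarith
  have hmn := hX1 G hG hGD x hx1
  have hfinA : {n : ℤ | x ≤ n ∧ (n : ℝ) < 2 * x ∧ SI.Good ρ θ ε z G n}.Finite := SI.dyadic_finite x _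
  obtain ⟨A, hA⟩ : ∃ A : Finset ℤ, A = hfinA.toFinset := ⟨_, rfl⟩
  have hAcard : ({n : ℤ | x ≤ n ∧ (n : ℝ) < 2 * x ∧ SI.Good ρ θ ε z G n}.ncard : ℝ) = A.card := by
    rw [hA, Set.ncard_eq_toFinset_card _ hfinA]
  rw [hAcard] at hmn
  obtain ⟨S, hS⟩ : ∃ S : Finset ℕ, S = (Finset.range ⌈2 * x + 4 * x ^ θ⌉₊).filter (fun p : ℕ => p.Prime ∧ x ≤ p ∧ (p : ℤ) ∈ G) := ⟨_, rfl⟩
  have hxθ : (2 * x) ^ θ ≤ 2 * x ^ θ := by
    rw [Real.mul_rpow (by norm_num) hx0.le]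
    refine mul_le_mul_of_nonneg_right ?_ (by positivity)
    calc (2 : ℝ) ^ θ ≤ 2 ^ (1 : ℝ) := Real.rpow_le_rpow_of_exponent_le (by norm_num) hθ1.le
      _ = 2 := Real.rpow_one 2
  have hmemA : ∀ n ∈ A, x ≤ n ∧ (n : ℝ) < 2 * x ∧ SI.Good ρ θ ε z G n := by
    intro n hn
    rw [hA, Set.Finite.mem_toFinset] at hn
    exact hn
  have hHb : ∀ n ∈ A, ((⌊(n.toNat : ℝ) ^ θ⌋₊ : ℕ) : ℝ) ≤ 2 * x ^ θ ∧ x ^ θ / 2 ≤ ((⌊(n.toNat : ℝ) ^ θ⌋₊ : ℕ) : ℝ) ∧ (n.toNat : ℤ) = n := by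
    intro n hn
    obtain ⟨k1, k2, -⟩ := hmemA n hn
    have hn0 : (0 : ℤ) ≤ n := by
      have : (0 : ℝ) < n := by linarith
      exact_mod_cast this.le
    have e : (n.toNat : ℤ) = n := Int.toNat_of_nonneg hn0
    have e' : (n.toNat : ℝ) = n := by exact_mod_cast e
    refine ⟨?_, ?_, e⟩
    · rw [e']
      refine (Nat.floor_le (Real.rpow_nonneg (by linarith) _)).trans (le_trans ?_ hxθ)
      exact Real.rpow_le_rpow (by linarith) k2.le hθ0.le
    · rw [e']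
      have h6 := Nat.lt_floor_add_one ((n : ℝ) ^ θ)
      have h7 : x ^ θ ≤ (n : ℝ) ^ θ := Real.rpow_le_rpow hx0.le k1 hθ0.le
      linarith
  have hcount := double_count (A := A) (S := S) (H := fun n => ⌊(n.toNat : ℝ) ^ θ⌋₊) (a := c1 * (x ^ θ / (4 * Real.log x)))
    (b := 2 * x ^ θ) (by positivity)
    (fun n hn => by
      have := (hmemA n hn).1
      have : (0 : ℝ) < n := by linarith
      exact_mod_cast this.le)
    (fun n hn => by
      obtain ⟨k1, k2, k3⟩ := hmemA n hn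
      obtain ⟨k4, k5, k6⟩ := hHb n hn
      have k6' : (n.toNat : ℝ) = n := by exact_mod_cast k6
      have h6 := hX2 G hG n.toNat (by rw [k6']; linarith) (by rw [k6]; exact k3)
      have h7 : c1 * (x ^ θ / (4 * Real.log x)) ≤ c1 * (((⌊(n.toNat : ℝ) ^ θ⌋₊ : ℕ) : ℝ) / Real.log (n.toNat : ℝ)) := by
        refine mul_le_mul_of_nonneg_left ?_ hc1.le
        rw [k6'] at k5 ⊢
        have hn1 : 0 < Real.log n := Real.log_pos (by linarith)
        have h8 : Real.log n ≤ 2 * Real.log x := by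
          have : Real.log n ≤ Real.log (2 * x) := Real.log_le_log (by linarith) k2.le
          rw [Real.log_mul (by norm_num) hx0.ne'] at this
          have := Real.log_two_lt_d9
          linarith
        rw [div_le_div_iff₀ (by positivity) hn1]
        have hxθ0 : 0 ≤ x ^ θ := by positivity
        calc x ^ θ * Real.log n ≤ x ^ θ * (2 * Real.log x) := mul_le_mul_of_nonneg_left h8 hxθ0
          _ = x ^ θ / 2 * (4 * Real.log x) := by ring
          _ ≤ _ := mul_le_mul_of_nonneg_right k5 (by positivity)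
      refine h7.trans (h6.trans ?_)
      rw [← Set.ncard_coe_finset]
      refine Nat.cast_le.2 (Set.ncard_le_ncard ?_ (Finset.finite_toSet _))
      rintro p ⟨q1, q2, q3, q4⟩
      have q2' : n < p := by omega
      have q3' : (p : ℤ) ≤ n + ⌊(n.toNat : ℝ) ^ θ⌋₊ := by
        have : (p : ℤ) ≤ n.toNat + ⌊(n.toNat : ℝ) ^ θ⌋₊ := by exact_mod_cast q3
        rwa [k6] at this
      have q2r : (n : ℝ) < p := by exact_mod_cast q2'
      have q3r : (p : ℝ) ≤ n + ((⌊(n.toNat : ℝ) ^ θ⌋₊ : ℕ) : ℝ) := by exact_mod_cast q3'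
      rw [Finset.mem_coe, Finset.mem_filter, hS, Finset.mem_filter, Finset.mem_range, Nat.lt_ceil]
      refine ⟨⟨?_, q1, by linarith, q4⟩, q2', q3'⟩
      have : 0 < x ^ θ := by positivity
      linarith)
    (fun n hn => (hHb n hn).1)
  -- the primes beyond `2x`
  have hSle : (S.card : ℝ) ≤ np (fun p => (p : ℤ) ∈ G) x + 5 * x ^ θ := by
    have hfin : {p : ℕ | p.Prime ∧ x ≤ p ∧ (p : ℝ) < 2 * x ∧ (p : ℤ) ∈ G}.Finite :=
      (Set.finite_Icc 0 ⌊2 * x⌋₊).subset fun p hp => ⟨Nat.zero_le _, Nat.le_floor hp.2.2.1.le⟩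
    have h6 : (S : Set ℕ) ⊆ {p : ℕ | p.Prime ∧ x ≤ p ∧ (p : ℝ) < 2 * x ∧ (p : ℤ) ∈ G} ∪
        ((Finset.Ico ⌈2 * x⌉₊ ⌈2 * x + 4 * x ^ θ⌉₊ : Finset ℕ) : Set ℕ) := by
      intro p hp
      rw [hS, Finset.mem_coe, Finset.mem_filter, Finset.mem_range] at hp
      obtain ⟨q1, q2, q3, q4⟩ := hp
      by_cases h : (p : ℝ) < 2 * x
      · exact Or.inl ⟨q2, q3, h, q4⟩
      · right
        rw [Finset.mem_coe, Finset.mem_Ico]
        exact ⟨Nat.ceil_le.2 (not_lt.1 h), q1⟩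
    have h7 := Set.ncard_le_ncard h6 (hfin.union (Finset.finite_toSet _))
    have h8 := h7.trans (Set.ncard_union_le _ _)
    rw [Set.ncard_coe_finset, Set.ncard_coe_finset, Nat.card_Ico] at h8
    have h9 : ((⌈2 * x + 4 * x ^ θ⌉₊ - ⌈2 * x⌉₊ : ℕ) : ℝ) ≤ 5 * x ^ θ := by
      have k1 := Nat.ceil_lt_add_one (show 0 ≤ 2 * x + 4 * x ^ θ by positivity)
      have k2 := Nat.le_ceil (2 * x)
      have k3 : ⌈2 * x⌉₊ ≤ ⌈2 * x + 4 * x ^ θ⌉₊ := Nat.ceil_le_ceil (by linarith [show 0 ≤ x ^ θ by positivity])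
      rw [Nat.cast_sub k3]
      linarith
    unfold np
    have h10 : (S.card : ℝ) ≤ ({p : ℕ | p.Prime ∧ x ≤ p ∧ (p : ℝ) < 2 * x ∧ (p : ℤ) ∈ G}.ncard : ℝ) +
      ((⌈2 * x + 4 * x ^ θ⌉₊ - ⌈2 * x⌉₊ : ℕ) : ℝ) := by exact_mod_cast h8
    linarith
  have hxθ0 : 0 < x ^ θ := by positivity
  -- the conclusion
  have h6 : c * D * x * (c1 * (x ^ θ / (4 * Real.log x))) ≤ S.card * (3 * x ^ θ) := by
    calc c * D * x * (c1 * (x ^ θ / (4 * Real.log x))) ≤ A.card * (c1 * (x ^ θ / (4 * Real.log x))) :=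
        mul_le_mul_of_nonneg_right hmn (by positivity)
      _ ≤ S.card * (2 * x ^ θ + 1) := hcount
      _ ≤ S.card * (3 * x ^ θ) := mul_le_mul_of_nonneg_left (by linarith) (by positivity)
  have h7 : c * c1 * D / 12 * (x / Real.log x) ≤ S.card := by
    have e : c * D * x * (c1 * (x ^ θ / (4 * Real.log x))) = c * c1 * D / 12 * (x / Real.log x) * (3 * x ^ θ) := by
      field_simp
      norm_num
    rw [e] at h6
    exact le_of_mul_le_mul_right h6 (by positivity)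
  have h8 : 5 * x ^ θ ≤ 2 * (c * c1 / 64 * D * (x / Real.log x)) := by
    have : 4 * x ^ θ ≤ c * c1 / 64 * D * (x / Real.log x) := by
      rw [← mul_div_assoc, le_div_iff₀ (by linarith)]
      exact g1
    linarith
  have h9 : 0 ≤ c * c1 * D * (x / Real.log x) := by positivity
  have e : c * c1 / 64 * D * (x / Real.log x) = c * c1 * D * (x / Real.log x) / 64 := by ring
  have e2 : c * c1 * D / 12 * (x / Real.log x) = c * c1 * D * (x / Real.log x) / 12 := by ring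
  rw [e] at h8 ⊢
  rw [e2] at h7
  linarith

end Pool.Agent.Helper28.PR
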