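import Pool.Agent.Helper28.PR.G3

/-!
# PRIMES, general maps, part 4: the transference
-/

set_option autoImplicit false

namespace Pool.Agent.Helper28.PR

open Filter Topology
open Pool.Agent.Helper68.Moeller Pool.Agent.Helper52.Tao Pool.Agent.Helper8.ND Pool.Agent.Helper91.PL

variable {d m : ℕ} {r : ℤ → ℤ}

theorem exists_bound (d : ℕ) (r : ℤ → ℤ) : ∃ B₀ : ℕ, ∀ j : ℤ, 0 < j → j < (d : ℤ) → |r j| ≤ B₀ := by
  refine ⟨∑ j ∈ Finset.range d, (r j).natAbs, fun j h0 h1 => ?_⟩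
  have h2 : (r ((j.toNat : ℕ) : ℤ)).natAbs ≤ ∑ j ∈ Finset.range d, (r j).natAbs :=
    Finset.single_le_sum (f := fun j : ℕ => (r (j : ℤ)).natAbs) (fun _ _ => Nat.zero_le _) (Finset.mem_range.2 (by omega))
  rw [Int.toNat_of_nonneg h0.le] at h2
  rw [Int.abs_eq_natAbs]
  exact_mod_cast h2

open Classical in
/-- **Transference.** -/
theorem s5g (hd : 2 ≤ d) (hdm : d < m) (hg : 0 < gam d m) (hco : Nat.Coprime m d) (hadm : Admissible d m r)
    (h1 : S1gStmt) (h2 : S2gStmt d m r) (h3 : S3gStmt d m r) (h4 : S4gStmt) : S5gStmt d m r := by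
  obtain ⟨B₀, hB₀⟩ := exists_bound d r
  obtain ⟨δ₀, K, hδ0, hδ1, hK0, hsk⟩ := small_kg hd hdm hg
  refine ⟨K, hK0, ?_⟩
  obtain ⟨Cs, H0, hCs, h1⟩ := h1
  obtain ⟨q0, k3, h3⟩ := h3
  obtain ⟨C4, hC4, h4⟩ := h4 q0 ((2 * B₀ + 1) * m)
  obtain ⟨Cb, hCb, hbt⟩ := word_primesg
  have hd0 : (0 : ℝ) < d := by exact_mod_cast (by omega : 0 < d)
  suffices H : ∀ θ η : ℝ, 0 < θ → θ ≤ 1 → 0 < η → ∃ ε : ℝ, 0 < ε ∧ ∃ Y : ℕ, ∀ y H : ℕ, Y ≤ y →
      (y : ℝ) ^ θ ≤ H → H ≤ y → ∀ B : Set ℤ,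
      ({n : ℤ | (y : ℤ) < n ∧ n ≤ y + H ∧ (T d m r)^[kyg K y] n ∈ B}.ncard : ℝ) ≤ ε * H →
      ({p : ℕ | p.Prime ∧ y < p ∧ p ≤ y + H ∧ (T d m r)^[kyg K y] (p : ℤ) ∈ B}.ncard : ℝ) ≤ η * (H / Real.log y) by
    intro θ η hθ hη
    obtain ⟨ε, hε, Y, hY⟩ := H (min θ 1) η (lt_min hθ one_pos) (min_le_right _ _) hη
    refine ⟨ε, hε, max Y 1, fun y H hy hH hHy B hB => ?_⟩
    refine hY y H ((le_max_left _ _).trans hy) (le_trans ?_ hH) hHy B hB
    have : (1 : ℝ) ≤ y := by exact_mod_cast (le_max_right _ _).trans hy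
    exact Real.rpow_le_rpow_of_exponent_le this (min_le_left _ _)
  intro θ η hθ hθ1 hη
  set C1 : ℝ := Cb * d / θ with hC1d
  have hC1 : 0 < C1 := by rw [hC1d]; positivity
  set κ : ℝ := η / (8 * C1) with hκd
  have hκ : 0 < κ := by rw [hκd]; positivity
  obtain ⟨K2, k2, hK2, h2⟩ := h2 κ hκ
  obtain ⟨k5, hk5⟩ := hsk κ hκ
  set Dc : ℝ := (C1 + Cs * d ^ 2 / θ ^ 2 * (C4 * K2)) / κ with hDd
  have hD : 0 < Dc := by rw [hDd]; positivity
  set ε : ℝ := (η / 4) ^ 2 / Dc with hεd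
  have hε : 0 < ε := by rw [hεd]; positivity
  set A : ℝ := 32 * B₀ / η + (4 * B₀ + 1) + H0 with hAd
  have hA0 : 0 ≤ A := by rw [hAd]; positivity
  obtain ⟨Y1, hY1⟩ := eventually_atTop.1 ((kyg_small hK0 hθ A hA0 (M := m * m) (by nlinarith)).and ((kyg_tendsto hK0).eventually_ge_atTop (max (max k2 k3) (max k5 2))))
  refine ⟨ε, hε, max Y1 (max 3 d), fun y H hy hH hHy B hB => ?_⟩
  obtain ⟨hsm, hkk⟩ := hY1 y ((le_max_left _ _).trans hy)
  have hy3 : 3 ≤ y := (le_max_left _ _).trans ((le_max_right _ _).trans hy)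
  have hdy : d ≤ y := (le_max_right _ _).trans ((le_max_right _ _).trans hy)
  set k := kyg K (y : ℝ) with hkd
  have hkk2 : k2 ≤ k := (le_max_left _ _).trans ((le_max_left _ _).trans hkk)
  have hkk3 : k3 ≤ k := (le_max_right _ _).trans ((le_max_left _ _).trans hkk)
  have hkk5 : k5 ≤ k := (le_max_left _ _).trans ((le_max_right _ _).trans hkk)
  have hk2 : 2 ≤ k := (le_max_right _ _).trans ((le_max_right _ _).trans hkk)
  have hy0 : (0 : ℝ) < y := by exact_mod_cast (by omega : 0 < y)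
  have hyR : (3 : ℝ) ≤ y := by exact_mod_cast hy3
  have hL1 : 1 ≤ Real.log y := by
    rw [Real.le_log_iff_exp_le hy0]
    have := Real.exp_one_lt_d9
    linarith
  set L : ℝ := Real.log y with hLd
  have hL0 : 0 < L := by linarith
  have h2k : (0 : ℝ) < (d : ℝ) ^ k := by positivity
  have hm1 : (1 : ℝ) ≤ m := by exact_mod_cast (by omega : 1 ≤ m)
  have hdmR : (d : ℝ) ≤ m := by exact_mod_cast hdm.le
  have h4k : (1 : ℝ) ≤ ((m * m : ℕ) : ℝ) ^ k := one_le_pow₀ (by push_cast; nlinarith)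
  set X : ℝ := ((m * m : ℕ) : ℝ) ^ k with hXd
  have h4L : X ≤ X * L := by nlinarith
  have hmX : (m : ℝ) ^ k ≤ X := by
    rw [hXd]
    exact pow_le_pow_left₀ (by linarith) (by push_cast; nlinarith) k
  have hHR : (0 : ℝ) < H := lt_of_lt_of_le (Real.rpow_pos_of_pos hy0 _) hH
  have hA1 : A * (X * L) ≤ (y : ℝ) ^ θ := by rw [← mul_assoc]; exact hsm
  have hB0R : (0 : ℝ) ≤ B₀ := Nat.cast_nonneg _
  have hA2 : 0 ≤ 32 * B₀ / η := by positivity
  have hH0' : (0 : ℝ) ≤ H0 := Nat.cast_nonneg _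
  have hXL : 1 ≤ X * L := h4k.trans h4L
  have f1 : ((d : ℝ) ^ k) ^ 2 ≤ (y : ℝ) ^ θ := by
    have e1 : ((d : ℝ) ^ k) ^ 2 ≤ X := by
      rw [hXd, ← pow_mul, mul_comm k 2, pow_mul]
      push_cast
      exact pow_le_pow_left₀ (by positivity) (by rw [sq]; exact mul_self_le_mul_self hd0.le hdmR) k
    refine e1.trans (h4L.trans (le_trans ?_ hA1))
    have : 1 ≤ A := by rw [hAd]; linarith
    nlinarith
  have f2 : H0 ≤ H := by
    have : (H0 : ℝ) ≤ H := by
      refine le_trans ?_ (hA1.trans hH)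
      have : (H0 : ℝ) ≤ A := by rw [hAd]; linarith
      nlinarith
    exact_mod_cast this
  obtain ⟨D, hDn⟩ : ∃ D : ℕ, D = 2 * B₀ * m ^ k := ⟨_, rfl⟩
  have hDR : (D : ℝ) = 2 * B₀ * (m : ℝ) ^ k := by rw [hDn]; push_cast; ring
  have f3 : 2 * (D : ℝ) ≤ η / 8 * (H / L) := by
    have a2 : 32 * B₀ / η * (X * L) ≤ H := by
      refine le_trans ?_ (hA1.trans hH)
      refine mul_le_mul_of_nonneg_right ?_ (by linarith)
      rw [hAd]
      linarith
    have a3 : 32 * B₀ / η * X ≤ H / L := by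
      rw [le_div_iff₀ hL0]
      linarith
    calc 2 * (D : ℝ) = 4 * B₀ * (m : ℝ) ^ k := by rw [hDR]; ring
      _ ≤ 4 * B₀ * X := mul_le_mul_of_nonneg_left hmX (by positivity)
      _ = η / 8 * (32 * B₀ / η * X) := by field_simp; ring
      _ ≤ _ := mul_le_mul_of_nonneg_left a3 (by positivity)
  have f4 : 2 * D ≤ H := by
    have : 2 * (D : ℝ) ≤ H := by
      refine le_trans ?_ (hA1.trans hH)
      calc 2 * (D : ℝ) = 4 * B₀ * (m : ℝ) ^ k := by rw [hDR]; ring
        _ ≤ 4 * B₀ * (X * L) := mul_le_mul_of_nonneg_left (hmX.trans h4L) (by positivity)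
        _ ≤ A * (X * L) := by
          refine mul_le_mul_of_nonneg_right ?_ (by linarith)
          rw [hAd]
          linarith
    exact_mod_cast this
  have hDh : ∀ w ∈ W d k, ∀ w' ∈ W d k, |hhg d m r w' w| ≤ (D : ℤ) := fun w hw w' hw' => by
    have := hhg_le hd hdm hB₀ hw hw'
    rw [hDn]
    push_cast
    exact this
  have hDM : D ≤ ((2 * B₀ + 1) * m) ^ k := by
    rw [hDn, mul_pow]
    refine Nat.mul_le_mul_right _ ?_
    calc 2 * B₀ ≤ 2 * B₀ + 1 := Nat.le_succ _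
      _ = (2 * B₀ + 1) ^ 1 := (pow_one _).symm
      _ ≤ (2 * B₀ + 1) ^ k := Nat.pow_le_pow_right (by omega) (by omega)
  -- the primes
  set P := (Finset.Ioc y (y + H)).filter Nat.Prime with hPd
  have hPp : ∀ p ∈ P, p.Prime := fun p hp => (Finset.mem_filter.1 hp).2
  set β : ℝ := C1 * (H / ((d : ℝ) ^ k * L)) with hβd
  have hβ0 : 0 ≤ β := by rw [hβd]; positivity
  have hβ : ∀ w : List ℕ, ((P.filter (fun p : ℕ => wd d m r k (p : ℤ) = w)).card : ℝ) ≤ β := fun w =>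
    hbt d m r hd hco hadm θ k y H hθ (by omega) (by omega) hdy f1 hH hHy w
  set γ : ℝ := Cs * d ^ 2 / θ ^ 2 * (H / ((d : ℝ) ^ k * L ^ 2)) with hγd
  have hγ0 : 0 ≤ γ := by rw [hγd]; positivity
  have hγ : ∀ w ∈ W d k, ∀ w' ∈ W d k, hhg d m r w' w ≠ 0 →
      ((P.filter (fun p : ℕ => wd d m r k (p : ℤ) = w ∧ ∃ p' : ℕ, p'.Prime ∧ (p' : ℤ) = p + hhg d m r w' w)).card : ℝ) ≤
        γ * sing (hhg d m r w' w) ^ 2 := fun w hw w' hw' hne =>
    word_pairsg hCs h1 hd hco hadm hθ (by omega) (by omega) hdy hDh f4 f1 hH hHy f2 hw hw' hne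
  -- the good words with `j` non-zero digits
  set G : ℕ → Finset (List ℕ) := fun j => (W d k).filter (fun w => Gdg d m r k q0 κ K2 L w ∧ sg w = j) with hGd
  set Q : ℕ → Finset ℕ := fun j => P.filter (fun p : ℕ => (y + D < p ∧ p + D ≤ y + H) ∧
    Gdg d m r k q0 κ K2 L (wd d m r k (p : ℤ)) ∧ (T d m r)^[k] (p : ℤ) ∈ B ∧ sg (wd d m r k (p : ℤ)) = j) with hQd
  set E : ℕ → ℝ := fun j => (((Finset.Ioc (y : ℤ) (y + H)).filter
    (fun n => (T d m r)^[k] n ∈ B ∧ sg (wd d m r k n) = j)).card : ℝ) with hEd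
  have hE0 : ∀ j, 0 ≤ E j := fun j => by rw [hEd]; positivity
  have hlev : ∀ j ∈ Finset.range (k + 1), ((Q j).card : ℝ) ≤ Real.sqrt (Dc * (H / ((d : ℝ) ^ k * L ^ 2))) *
      (Real.sqrt (E j) * Real.sqrt ((G j).card : ℝ)) := by
    intro j _
    set ρ : ℝ := (k.choose j : ℝ) * ((d : ℝ) - 1) ^ j / (m : ℝ) ^ j with hρd
    have hd1 : (0 : ℝ) ≤ (d : ℝ) - 1 := by
      have : (2 : ℝ) ≤ d := by exact_mod_cast hd
      linarith
    have hρ0 : 0 ≤ ρ := by rw [hρd]; positivity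
    rcases lt_or_ge ρ L with hρL | hρL
    · have hQe : Q j = ∅ := by
        rw [Finset.eq_empty_iff_forall_notMem]
        intro p hp
        rw [hQd] at hp
        simp only [Finset.mem_filter] at hp
        obtain ⟨-, -, ⟨g1, -⟩, -, g2⟩ := hp
        unfold rhg at g1
        rw [g2] at g1
        exact absurd g1 (not_le.2 hρL)
      rw [hQe, Finset.card_empty]
      push_cast
      positivity
    · have hρpos : 0 < ρ := lt_of_lt_of_le hL0 hρL
      have h5 := one_levelg (d := d) (m := m) (r := r) (k := k) (j := j) (y := y) (H := H) (D := D) (q0 := q0) hd (by omega) hco hadm hDh hDM hk2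
        hC4.le h4 (P := P) (Q := Q j) (G := G j)
        (β := β) (γ := γ) (a := κ * ρ) (b := K2 * ρ) B hPp (Finset.filter_subset _ _) (Finset.filter_subset _ _)
        (fun p hp => by
          rw [hQd] at hp
          simp only [Finset.mem_filter] at hp
          obtain ⟨-, ⟨g1, g2⟩, g3, g4, g5⟩ := hp
          refine ⟨g1, g2, ?_, g4⟩
          rw [hGd]
          simp only [Finset.mem_filter]
          exact ⟨wd_mem hd r k _, g3, g5⟩)
        (fun w hw => by
          rw [hGd] at hw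
          simp only [Finset.mem_filter] at hw
          obtain ⟨-, ⟨g1, g2, g3, g4⟩, g5⟩ := hw
          unfold rhg at g2 g3
          rw [g5] at g2 g3
          exact ⟨g5, g2, g3, g4⟩)
        hβ0 hγ0 (by positivity) (fun w _ => hβ w)
        (fun w hw w' hw' _ hne => hγ w (Finset.filter_subset _ _ hw) w' hw' hne)
      have h6 : β + γ * (C4 * (K2 * ρ)) ≤ κ * ρ * (Dc * (H / ((d : ℝ) ^ k * L ^ 2))) := by
        have e1 : κ * ρ * (Dc * (H / ((d : ℝ) ^ k * L ^ 2))) = ρ * (C1 * (H / ((d : ℝ) ^ k * L ^ 2))) + γ * (C4 * (K2 * ρ)) := by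
          rw [hDd, hγd]
          field_simp
        have e2 : β ≤ ρ * (C1 * (H / ((d : ℝ) ^ k * L ^ 2))) := by
          rw [hβd]
          have e3 : (H : ℝ) / ((d : ℝ) ^ k * L) = L * (H / ((d : ℝ) ^ k * L ^ 2)) := by field_simp
          rw [e3]
          have e4 : 0 ≤ C1 * (H / ((d : ℝ) ^ k * L ^ 2)) := by positivity
          nlinarith
        rw [e1]
        linarith
      have h7 : ((Q j).card : ℝ) ^ 2 ≤ Dc * (H / ((d : ℝ) ^ k * L ^ 2)) * (E j * (G j).card) := by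
        have h8 : ((Q j).card : ℝ) ^ 2 * (κ * ρ) ≤ (Dc * (H / ((d : ℝ) ^ k * L ^ 2)) * (E j * (G j).card)) * (κ * ρ) := by
          refine h5.trans ?_
          calc E j * ((G j).card * (β + γ * (C4 * (K2 * ρ)))) ≤ E j * ((G j).card * (κ * ρ * (Dc * (H / ((d : ℝ) ^ k * L ^ 2))))) :=
                mul_le_mul_of_nonneg_left (mul_le_mul_of_nonneg_left h6 (by positivity)) (hE0 j)
            _ = _ := by ring
        exact le_of_mul_le_mul_right h8 (by positivity)
      rw [← Real.sqrt_mul (hE0 j), ← Real.sqrt_mul (by positivity)]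
      exact Real.le_sqrt_of_sq_le h7
  have hsum : ∑ j ∈ Finset.range (k + 1), ((Q j).card : ℝ) ≤ η / 4 * (H / L) := by
    have hES : ∑ j ∈ Finset.range (k + 1), E j ≤ ε * H := by
      refine le_trans ?_ hB
      have e1 : ∑ j ∈ Finset.range (k + 1), ((Finset.Ioc (y : ℤ) (y + H)).filter
          (fun n => (T d m r)^[k] n ∈ B ∧ sg (wd d m r k n) = j)).card ≤
          ((Finset.Ioc (y : ℤ) (y + H)).filter (fun n => (T d m r)^[k] n ∈ B)).card := by
        rw [← Finset.card_biUnion]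
        · refine Finset.card_le_card fun n hn => ?_
          rw [Finset.mem_biUnion] at hn
          obtain ⟨j, -, hj⟩ := hn
          rw [Finset.mem_filter] at hj ⊢
          exact ⟨hj.1, hj.2.1⟩
        · intro j _ j' _ hjj
          rw [Function.onFun, Finset.disjoint_left]
          intro n hn hn'
          exact hjj ((Finset.mem_filter.1 hn).2.2.symm.trans (Finset.mem_filter.1 hn').2.2)
      have e2 : {n : ℤ | (y : ℤ) < n ∧ n ≤ y + H ∧ (T d m r)^[k] n ∈ B} =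
          (((Finset.Ioc (y : ℤ) (y + H)).filter (fun n => (T d m r)^[k] n ∈ B) : Finset ℤ) : Set ℤ) := by
        ext n
        simp only [Set.mem_setOf_eq, Finset.coe_filter, Finset.mem_Ioc]
        tauto
      rw [e2, Set.ncard_coe_finset]
      simp only [hEd]
      exact_mod_cast e1
    have hGS : ∑ j ∈ Finset.range (k + 1), ((G j).card : ℝ) ≤ (d : ℝ) ^ k := by
      have e1 : ∑ j ∈ Finset.range (k + 1), (G j).card ≤ (W d k).card := by
        rw [← Finset.card_biUnion]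
        · refine Finset.card_le_card fun w hw => ?_
          rw [Finset.mem_biUnion] at hw
          obtain ⟨j, -, hj⟩ := hw
          exact Finset.filter_subset _ _ hj
        · intro j _ j' _ hjj
          rw [Function.onFun, Finset.disjoint_left]
          intro w hw hw'
          exact hjj ((Finset.mem_filter.1 hw).2.2.symm.trans (Finset.mem_filter.1 hw').2.2)
      rw [card_W] at e1
      exact_mod_cast e1
    calc ∑ j ∈ Finset.range (k + 1), ((Q j).card : ℝ)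
        ≤ ∑ j ∈ Finset.range (k + 1), Real.sqrt (Dc * (H / ((d : ℝ) ^ k * L ^ 2))) *
          (Real.sqrt (E j) * Real.sqrt ((G j).card : ℝ)) := Finset.sum_le_sum hlev
      _ = Real.sqrt (Dc * (H / ((d : ℝ) ^ k * L ^ 2))) * ∑ j ∈ Finset.range (k + 1),
          (Real.sqrt (E j) * Real.sqrt ((G j).card : ℝ)) := by rw [Finset.mul_sum]
      _ ≤ Real.sqrt (Dc * (H / ((d : ℝ) ^ k * L ^ 2))) * (Real.sqrt (∑ j ∈ Finset.range (k + 1), E j) *
          Real.sqrt (∑ j ∈ Finset.range (k + 1), ((G j).card : ℝ))) := by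
          refine mul_le_mul_of_nonneg_left ?_ (Real.sqrt_nonneg _)
          exact Real.sum_sqrt_mul_sqrt_le _ hE0 (fun j => by positivity)
      _ ≤ Real.sqrt (Dc * (H / ((d : ℝ) ^ k * L ^ 2))) * (Real.sqrt (ε * H) * Real.sqrt ((d : ℝ) ^ k)) := by
          refine mul_le_mul_of_nonneg_left ?_ (Real.sqrt_nonneg _)
          exact mul_le_mul (Real.sqrt_le_sqrt hES) (Real.sqrt_le_sqrt hGS) (Real.sqrt_nonneg _) (Real.sqrt_nonneg _)
      _ = Real.sqrt ((η / 4 * (H / L)) ^ 2) := by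
          rw [← Real.sqrt_mul (by positivity), ← Real.sqrt_mul (by positivity)]
          congr 1
          rw [hεd]
          field_simp
      _ = η / 4 * (H / L) := Real.sqrt_sq (by positivity)
  -- the bad words
  have hbadw := bad_countg (d := d) (m := m) (r := r) hd hdm (k := k) (q0 := q0) (by omega) (κ := κ) (K := K2) (L := L) (δ := κ) (δ₀ := δ₀)
    hκ.le hL0.le hδ0 hδ1 (h2 k hkk2) (h3 k hkk3)
  have hsmall := hk5 k hkk5 L hL0.le (log_le_kyg hK0 (by omega))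
  have hbadp : ((P.filter (fun p : ℕ => ¬ Gdg d m r k q0 κ K2 L (wd d m r k (p : ℤ)))).card : ℝ) ≤ 3 * η / 8 * (H / L) := by
    have e1 : (P.filter (fun p : ℕ => ¬ Gdg d m r k q0 κ K2 L (wd d m r k (p : ℤ)))).card =
        ∑ w ∈ (W d k).filter (fun w => ¬ Gdg d m r k q0 κ K2 L w),
          ((P.filter (fun p : ℕ => ¬ Gdg d m r k q0 κ K2 L (wd d m r k (p : ℤ)))).filter (fun p : ℕ => wd d m r k (p : ℤ) = w)).card := by
      refine Finset.card_eq_sum_card_fiberwise fun p hp => ?_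
      rw [Finset.mem_coe, Finset.mem_filter] at hp
      exact Finset.mem_coe.2 (Finset.mem_filter.2 ⟨wd_mem hd r k _, hp.2⟩)
    have e2 : ((P.filter (fun p : ℕ => ¬ Gdg d m r k q0 κ K2 L (wd d m r k (p : ℤ)))).card : ℝ) ≤
        cW d k (fun w => ¬ Gdg d m r k q0 κ K2 L w) * β := by
      rw [e1]
      push_cast
      have e3 : ∀ w ∈ (W d k).filter (fun w => ¬ Gdg d m r k q0 κ K2 L w),
          ((((P.filter (fun p : ℕ => ¬ Gdg d m r k q0 κ K2 L (wd d m r k (p : ℤ)))).filter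
            (fun p : ℕ => wd d m r k (p : ℤ) = w)).card : ℕ) : ℝ) ≤ β := by
        intro w _
        refine le_trans (Nat.cast_le.2 (Finset.card_le_card ?_)) (hβ w)
        intro p hp
        rw [Finset.mem_filter, Finset.mem_filter] at hp
        exact Finset.mem_filter.2 ⟨hp.1.1, hp.2⟩
      refine (Finset.sum_le_sum e3).trans ?_
      rw [Finset.sum_const, nsmul_eq_mul]
      exact mul_le_mul_of_nonneg_right (card_le_cWg fun w hw => Finset.mem_filter.1 hw) hβ0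
    refine e2.trans ?_
    have e4 : cW d k (fun w => ¬ Gdg d m r k q0 κ K2 L w) ≤ 3 * κ * (d : ℝ) ^ k := by linarith
    calc cW d k (fun w => ¬ Gdg d m r k q0 κ K2 L w) * β ≤ 3 * κ * (d : ℝ) ^ k * β := mul_le_mul_of_nonneg_right e4 hβ0
      _ = 3 * η / 8 * (H / L) := by
        rw [hβd, hκd]
        field_simp
  -- the primes near the end points
  have hend : ((P.filter (fun p : ℕ => ¬ (y + D < p ∧ p + D ≤ y + H))).card : ℝ) ≤ 2 * (D : ℝ) := by
    have e1 : P.filter (fun p : ℕ => ¬ (y + D < p ∧ p + D ≤ y + H)) ⊆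
        Finset.Ioc y (y + D) ∪ Finset.Ioc (y + H - D) (y + H) := by
      intro p hp
      rw [Finset.mem_filter, hPd, Finset.mem_filter, Finset.mem_Ioc] at hp
      obtain ⟨⟨⟨a1, a2⟩, a3⟩, a4⟩ := hp
      rw [Finset.mem_union, Finset.mem_Ioc, Finset.mem_Ioc]
      by_cases h : y + D < p
      · right
        have : ¬ (p + D ≤ y + H) := fun h' => a4 ⟨h, h'⟩
        omega
      · left
        omega
    have e2 := (Finset.card_le_card e1).trans (Finset.card_union_le _ _)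
    rw [Nat.card_Ioc, Nat.card_Ioc] at e2
    have e3 : y + D - y + (y + H - (y + H - D)) ≤ 2 * D := by omega
    exact_mod_cast e2.trans e3
  -- the sum
  have htot : {p : ℕ | p.Prime ∧ y < p ∧ p ≤ y + H ∧ (T d m r)^[k] (p : ℤ) ∈ B} ⊆
      (((P.filter (fun p : ℕ => ¬ (y + D < p ∧ p + D ≤ y + H))) ∪
        (P.filter (fun p : ℕ => ¬ Gdg d m r k q0 κ K2 L (wd d m r k (p : ℤ)))) ∪ (Finset.range (k + 1)).biUnion Q : Finset ℕ) : Set ℕ) := by
    rintro p ⟨a1, a2, a3, a4⟩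
    have hpP : p ∈ P := Finset.mem_filter.2 ⟨Finset.mem_Ioc.2 ⟨a2, a3⟩, a1⟩
    rw [Finset.mem_coe, Finset.mem_union, Finset.mem_union]
    by_cases c1 : y + D < p ∧ p + D ≤ y + H
    · by_cases c2 : Gdg d m r k q0 κ K2 L (wd d m r k (p : ℤ))
      · right
        rw [Finset.mem_biUnion]
        have hl := sg_le_length (wd d m r k (p : ℤ))
        rw [length_of_mem_W (wd_mem hd r k (p : ℤ))] at hl
        refine ⟨sg (wd d m r k (p : ℤ)), Finset.mem_range.2 (by omega), ?_⟩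
        rw [hQd]
        exact Finset.mem_filter.2 ⟨hpP, c1, c2, a4, rfl⟩
      · left; right
        exact Finset.mem_filter.2 ⟨hpP, c2⟩
    · left; left
      exact Finset.mem_filter.2 ⟨hpP, c1⟩
  have hcard := Set.ncard_le_ncard htot (Finset.finite_toSet _)
  rw [Set.ncard_coe_finset] at hcard
  have hcard2 := hcard.trans ((Finset.card_union_le _ _).trans (Nat.add_le_add ((Finset.card_union_le _ _)) Finset.card_biUnion_le))
  have hcard3 : ({p : ℕ | p.Prime ∧ y < p ∧ p ≤ y + H ∧ (T d m r)^[k] (p : ℤ) ∈ B}.ncard : ℝ) ≤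
      (((P.filter (fun p : ℕ => ¬ (y + D < p ∧ p + D ≤ y + H))).card : ℝ) +
      ((P.filter (fun p : ℕ => ¬ Gdg d m r k q0 κ K2 L (wd d m r k (p : ℤ)))).card : ℝ)) +
      ∑ j ∈ Finset.range (k + 1), ((Q j).card : ℝ) := by exact_mod_cast hcard2
  have hHL : 0 ≤ H / L := by positivity
  nlinarith [hcard3, hend, f3, hbadp, hsum]

end Pool.Agent.Helper28.PR
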