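import Pool.Agent.Helper28.PR.F2
import Pool.Agent.Helper28.PR.G4
import Pool.Agent.Helper28.POSB.Basins
import Mathlib.NumberTheory.Chebyshev

/-!
# PRIMES, block S6, part 3: almost all primes
-/

set_option autoImplicit false

namespace Pool.Agent.Helper28.PR

open Filter Topology
open Pool.Agent.Helper68.Moeller Pool.Agent.Helper52.Tao Pool.Agent.Helper8.ND Pool.Agent.Helper8 Pool.Agent.Helper91

variable {d m : ℕ} {r : ℤ → ℤ}

/-- The number of the primes `p ≤ x` with the property `P`. -/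
noncomputable def cp (P : ℕ → Prop) (x : ℝ) : ℝ := ({p : ℕ | p.Prime ∧ (p : ℝ) ≤ x ∧ P p}.ncard : ℝ)

theorem finite_cp (P : ℕ → Prop) (x : ℝ) : {p : ℕ | p.Prime ∧ (p : ℝ) ≤ x ∧ P p}.Finite :=
  (Set.finite_Icc 0 ⌊x⌋₊).subset fun p hp => ⟨Nat.zero_le _, Nat.le_floor hp.2.1⟩

theorem cp_nonneg (P : ℕ → Prop) (x : ℝ) : 0 ≤ cp P x := Nat.cast_nonneg _

theorem cp_mono {P Q : ℕ → Prop} (h : ∀ p, p.Prime → P p → Q p) (x : ℝ) : cp P x ≤ cp Q x := by
  unfold cp
  refine Nat.cast_le.2 (Set.ncard_le_ncard ?_ (finite_cp Q x))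
  rintro p ⟨h1, h2, h3⟩
  exact ⟨h1, h2, h p h1 h3⟩

theorem cp_split (P : ℕ → Prop) (x : ℝ) : cp P x + cp (fun p => ¬ P p) x = cp (fun _ => True) x := by
  unfold cp
  rw [← Nat.cast_add, ← Set.ncard_union_eq _ (finite_cp _ x) (finite_cp _ x)]
  · congr 2
    ext p
    simp only [Set.mem_union, Set.mem_setOf_eq]
    tauto
  · rw [Set.disjoint_left]
    rintro p ⟨-, -, h⟩ ⟨-, -, h'⟩
    exact h' h

theorem cp_top (x : ℝ) : cp (fun _ => True) x = (Nat.primeCounting ⌊x⌋₊ : ℝ) := by
  unfold cp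
  congr 1
  rw [Nat.primeCounting, Nat.primeCounting', Nat.count_eq_card_filter_range, ← Set.ncard_coe_finset]
  rcases lt_or_ge x 0 with hx | hx
  · have e : ⌊x⌋₊ = 0 := Nat.floor_of_nonpos hx.le
    rw [e]
    congr 1
    ext p
    simp only [Set.mem_setOf_eq, Finset.coe_filter, Finset.mem_range]
    constructor
    · rintro ⟨-, h, -⟩
      have : (0 : ℝ) ≤ p := Nat.cast_nonneg p
      linarith
    · rintro ⟨h, h'⟩
      have : p = 0 := by omega
      rw [this] at h'
      exact absurd h' Nat.not_prime_zero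
  · congr 1
    ext p
    simp only [Set.mem_setOf_eq, Finset.coe_filter, Finset.mem_range]
    rw [Nat.lt_succ_iff, Nat.le_floor_iff hx]
    tauto

/-- Chebyshev. -/
theorem cp_low : ∀ᶠ x : ℝ in atTop, 1 / 2 * (x / Real.log x) ≤ cp (fun _ => True) x := by
  have h1 : ∀ᶠ x : ℝ in atTop, Real.log (x + 2) ≤ 1 / 10 * x := by
    have h2 := Real.isLittleO_log_id_atTop.bound (show (0 : ℝ) < 1 / 20 by norm_num)
    have h3 := (tendsto_atTop_add_const_right atTop (2 : ℝ) tendsto_id).eventually h2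
    filter_upwards [h3, eventually_ge_atTop 2] with x hx hx2
    rw [id_eq, id_eq, Real.norm_of_nonneg (Real.log_nonneg (by linarith)), Real.norm_of_nonneg (by linarith)] at hx
    linarith
  filter_upwards [h1, eventually_ge_atTop 10] with x hx hx10
  have hl : 0 < Real.log x := Real.log_pos (by linarith)
  have h2 := Chebyshev.pi_ge' (x := x) (by linarith)
  rw [cp_top]
  refine le_trans ?_ h2
  rw [← mul_div_assoc]
  refine div_le_div_of_nonneg_right ?_ hl.le
  have := Real.log_two_gt_d9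
  nlinarith

theorem cp_up : ∀ᶠ x : ℝ in atTop, cp (fun _ => True) x ≤ 2 * (x / Real.log x) := by
  filter_upwards [Chebyshev.eventually_primeCounting_le (ε := 1 / 2) (by norm_num), eventually_ge_atTop 2] with x hx hx2
  have hl : 0 < Real.log x := Real.log_pos (by linarith)
  rw [cp_top]
  refine hx.trans ?_
  rw [mul_div_assoc]
  refine mul_le_mul_of_nonneg_right ?_ (by positivity)
  have h1 : Real.log 4 = 2 * Real.log 2 := by
    rw [show (4 : ℝ) = 2 ^ 2 by norm_num, Real.log_pow]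
    norm_num
  have := Real.log_two_lt_d9
  linarith

theorem div_log_mono {x y : ℝ} (hx : 3 ≤ x) (hxy : x ≤ y) : x / Real.log x ≤ y / Real.log y := by
  have h1 := Real.log_div_self_antitoneOn (show x ∈ {x : ℝ | Real.exp 1 ≤ x} by
    have := Real.exp_one_lt_d9
    rw [Set.mem_setOf_eq]
    linarith) (show y ∈ {x : ℝ | Real.exp 1 ≤ x} by
    have := Real.exp_one_lt_d9
    rw [Set.mem_setOf_eq]
    linarith) hxy
  have hlx : 0 < Real.log x := Real.log_pos (by linarith)
  have hly : 0 < Real.log y := Real.log_pos (by linarith)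
  have h2 : Real.log y / y ≤ Real.log x / x := h1
  rw [div_le_div_iff₀ (by linarith) (by linarith)] at h2
  rw [div_le_div_iff₀ hlx hly]
  linarith

theorem div_log_tendsto : Tendsto (fun x : ℝ => x / Real.log x) atTop atTop := by
  have h := (Real.tendsto_pow_log_div_mul_add_atTop 1 0 1 one_ne_zero)
  have h1 : Tendsto (fun x : ℝ => Real.log x / x) atTop (𝓝[>] 0) := by
    rw [tendsto_nhdsWithin_iff]
    refine ⟨?_, ?_⟩
    · refine h.congr fun x => ?_
      rw [pow_one, one_mul, add_zero]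
    · filter_upwards [eventually_gt_atTop 1] with x hx
      exact div_pos (Real.log_pos hx) (by linarith)
  refine (tendsto_inv_nhdsGT_zero.comp h1).congr fun x => ?_
  rw [Function.comp_apply, inv_div]

/-- From dyadic intervals to `[1, x]`. -/
theorem dyadic_sum {P : ℕ → Prop} {η : ℝ} (hη : 0 < η) {Y : ℕ} (h : ∀ y : ℕ, Y ≤ y →
    ({p : ℕ | p.Prime ∧ y < p ∧ p ≤ y + y ∧ P p}.ncard : ℝ) ≤ η * (y / Real.log y)) :
    ∀ᶠ x : ℝ in atTop, cp P x ≤ 3 * η * (x / Real.log x) := by
  have t1 : ∀ᶠ y : ℕ in atTop, 1 / η * (4 * Real.log y) ≤ y := by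
    have h1 := Real.isLittleO_log_id_atTop.bound (show (0 : ℝ) < η / 4 by positivity)
    filter_upwards [tendsto_natCast_atTop_atTop.eventually h1, eventually_ge_atTop 1] with y hy hy1
    have hy1' : (1 : ℝ) ≤ y := by exact_mod_cast hy1
    rw [id_eq, Real.norm_of_nonneg (Real.log_nonneg hy1'), Real.norm_of_nonneg (by linarith)] at hy
    calc 1 / η * (4 * Real.log y) ≤ 1 / η * (4 * (η / 4 * y)) := by
          refine mul_le_mul_of_nonneg_left (by linarith) (by positivity)
      _ = y := by field_simp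
  have t2 : ∀ᶠ y : ℕ in atTop, 9 * Real.log 2 ≤ Real.log y :=
    (Real.tendsto_log_atTop.comp tendsto_natCast_atTop_atTop).eventually_ge_atTop _
  obtain ⟨Y1, hY1⟩ := eventually_atTop.1 (t1.and t2)
  obtain ⟨Z, hZ⟩ : ∃ Z : ℕ, Z = max (max Y Y1) 3 := ⟨_, rfl⟩
  have hZY : Y ≤ Z := by rw [hZ]; exact (le_max_left _ _).trans (le_max_left _ _)
  have hZY1 : Y1 ≤ Z := by rw [hZ]; exact (le_max_right _ _).trans (le_max_left _ _)
  have hZ3 : 3 ≤ Z := by rw [hZ]; exact le_max_right _ _
  have hfin : ∀ a b : ℕ, {p : ℕ | p.Prime ∧ a < p ∧ p ≤ b ∧ P p}.Finite := fun a b =>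
    (Set.finite_Icc 0 b).subset fun p hp => ⟨Nat.zero_le _, hp.2.2.1⟩
  have key : ∀ n : ℕ, Z ≤ n → ({p : ℕ | p.Prime ∧ 0 < p ∧ p ≤ n ∧ P p}.ncard : ℝ) ≤ (2 * Z + 1 : ℕ) + 2 * η * (n / Real.log n) := by
    intro n
    induction n using Nat.strong_induction_on with
    | _ n ih =>
      intro hn
      have hn3 : 3 ≤ n := by omega
      have hnR : (3 : ℝ) ≤ n := by exact_mod_cast hn3
      have hln : 0 < Real.log n := Real.log_pos (by linarith)
      rcases lt_or_ge n (2 * Z + 2) with hc | hc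
      · have h1 : {p : ℕ | p.Prime ∧ 0 < p ∧ p ≤ n ∧ P p} ⊆ ((Finset.Ioc 0 n : Finset ℕ) : Set ℕ) := by
          rintro p ⟨-, h1, h2, -⟩
          exact Finset.mem_coe.2 (Finset.mem_Ioc.2 ⟨h1, h2⟩)
        have h2 := Set.ncard_le_ncard h1 (Finset.finite_toSet _)
        rw [Set.ncard_coe_finset, Nat.card_Ioc] at h2
        have h3 : ({p : ℕ | p.Prime ∧ 0 < p ∧ p ≤ n ∧ P p}.ncard : ℝ) ≤ (2 * Z + 1 : ℕ) := by
          exact_mod_cast h2.trans (by omega)
        have h4 : 0 ≤ 2 * η * (n / Real.log n) := by positivity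
        linarith
      · obtain ⟨y, hy⟩ : ∃ y : ℕ, y = n / 2 := ⟨_, rfl⟩
        have hyZ : Z ≤ y := by omega
        have hyn : y < n := by omega
        have hy2 : 2 * y ≤ n := by omega
        have hy3 : n ≤ 2 * y + 1 := by omega
        have h1 := ih y hyn hyZ
        have h2 := h y (hZY.trans hyZ)
        obtain ⟨g1, g2⟩ := hY1 y (hZY1.trans hyZ)
        have hyR : (3 : ℝ) ≤ y := by exact_mod_cast hZ3.trans hyZ
        have hly : 0 < Real.log y := Real.log_pos (by linarith)
        have h3 : {p : ℕ | p.Prime ∧ 0 < p ∧ p ≤ n ∧ P p} ⊆ ({p : ℕ | p.Prime ∧ 0 < p ∧ p ≤ y ∧ P p} ∪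
            {p : ℕ | p.Prime ∧ y < p ∧ p ≤ y + y ∧ P p}) ∪ {n} := by
          rintro p ⟨a1, a2, a3, a4⟩
          by_cases c1 : p ≤ y
          · exact Or.inl (Or.inl ⟨a1, a2, c1, a4⟩)
          · by_cases c2 : p ≤ y + y
            · exact Or.inl (Or.inr ⟨a1, by omega, c2, a4⟩)
            · right
              rw [Set.mem_singleton_iff]
              omega
        have h4 := (Set.ncard_le_ncard h3 (((hfin 0 y).union (hfin y (y + y))).union (Set.finite_singleton n))).trans
          ((Set.ncard_union_le _ _).trans (Nat.add_le_add_right (Set.ncard_union_le _ _) _))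
        rw [Set.ncard_singleton] at h4
        have h5 : ({p : ℕ | p.Prime ∧ 0 < p ∧ p ≤ n ∧ P p}.ncard : ℝ) ≤ ({p : ℕ | p.Prime ∧ 0 < p ∧ p ≤ y ∧ P p}.ncard : ℝ) +
            ({p : ℕ | p.Prime ∧ y < p ∧ p ≤ y + y ∧ P p}.ncard : ℝ) + 1 := by exact_mod_cast h4
        have h6 : 3 * η * (y / Real.log y) + 1 ≤ 2 * η * (n / Real.log n) := by
          have e1 : Real.log n ≤ Real.log y + 2 * Real.log 2 := by
            have : (n : ℝ) ≤ 2 ^ 2 * y := by
              have : (n : ℝ) ≤ 2 * y + 1 := by exact_mod_cast hy3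
              linarith
            have h7 := Real.log_le_log (by linarith) this
            rw [Real.log_mul (by norm_num) (by linarith), Real.log_pow] at h7
            push_cast at h7
            linarith
          have e2 : 1 ≤ η * (y / (4 * Real.log y)) := by
            rw [← mul_div_assoc, le_div_iff₀ (by positivity), one_mul]
            calc 4 * Real.log y = η * (1 / η * (4 * Real.log y)) := by field_simp
              _ ≤ η * y := mul_le_mul_of_nonneg_left g1 hη.le
          have e3 : 3 * (y / Real.log y) + y / (4 * Real.log y) ≤ 2 * (n / Real.log n) := by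
            have e4 : (2 * y : ℝ) ≤ n := by exact_mod_cast hy2
            have e5 : 3 * ((y : ℝ) / Real.log y) + y / (4 * Real.log y) = 13 * y / (4 * Real.log y) := by
              field_simp
              ring
            rw [e5, ← mul_div_assoc, div_le_div_iff₀ (by positivity) hln]
            have hl2 : 0 < Real.log 2 := Real.log_pos (by norm_num)
            have hy0 : (0 : ℝ) < y := by linarith
            calc 13 * y * Real.log n ≤ 13 * y * (Real.log y + 2 * Real.log 2) :=
                  mul_le_mul_of_nonneg_left e1 (by positivity)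
              _ ≤ 2 * (2 * y) * (4 * Real.log y) := by nlinarith [mul_le_mul_of_nonneg_left g2 hy0.le, mul_pos hy0 hl2]
              _ ≤ 2 * n * (4 * Real.log y) := by
                refine mul_le_mul_of_nonneg_right ?_ (by positivity)
                linarith
          calc 3 * η * (y / Real.log y) + 1 ≤ 3 * η * (y / Real.log y) + η * (y / (4 * Real.log y)) := by linarith
            _ = η * (3 * (y / Real.log y) + y / (4 * Real.log y)) := by ring
            _ ≤ η * (2 * (n / Real.log n)) := mul_le_mul_of_nonneg_left e3 hη.le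
            _ = _ := by ring
        linarith
  have t3 : ∀ᶠ x : ℝ in atTop, (2 * Z + 1 : ℕ) ≤ η * (x / Real.log x) :=
    (div_log_tendsto.const_mul_atTop hη).eventually_ge_atTop _
  filter_upwards [t3, eventually_ge_atTop ((Z : ℝ) + 4)] with x hx hxZ
  have hfl : Z + 3 ≤ ⌊x⌋₊ := Nat.le_floor (by push_cast; linarith)
  have h1 := key ⌊x⌋₊ (by omega)
  have hfl3 : (3 : ℝ) ≤ ⌊x⌋₊ := by exact_mod_cast (by omega : 3 ≤ ⌊x⌋₊)
  have h2 : ((⌊x⌋₊ : ℕ) : ℝ) / Real.log (⌊x⌋₊ : ℕ) ≤ x / Real.log x :=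
    div_log_mono hfl3 (Nat.floor_le (by linarith [(Nat.cast_nonneg Z : (0 : ℝ) ≤ Z)]))
  have h3 : cp P x = ({p : ℕ | p.Prime ∧ 0 < p ∧ p ≤ ⌊x⌋₊ ∧ P p}.ncard : ℝ) := by
    unfold cp
    congr 2
    ext p
    simp only [Set.mem_setOf_eq]
    rw [Nat.le_floor_iff (by linarith [(Nat.cast_nonneg Z : (0 : ℝ) ≤ Z)])]
    constructor
    · rintro ⟨a, b, c⟩
      exact ⟨a, a.pos, b, c⟩
    · rintro ⟨a, -, b, c⟩
      exact ⟨a, b, c⟩
  rw [h3]
  have h4 := mul_le_mul_of_nonneg_left h2 (by positivity : 0 ≤ 2 * η)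
  linarith

end Pool.Agent.Helper28.PR
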