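import Pool.Agent.Helper28.PR.F3

/-!
# PRIMES, block S6, part 4: invariant sets with a small density; almost all primes have small elements on their orbits
-/

set_option autoImplicit false

namespace Pool.Agent.Helper28.PR

open Filter Topology
open Pool.Agent.Helper68.Moeller Pool.Agent.Helper52.Tao Pool.Agent.Helper8.ND Pool.Agent.Helper8 Pool.Agent.Helper91

variable {d m : ℕ} {r : ℤ → ℤ}

theorem T_geg (hd : 2 ≤ d) (hm : 1 ≤ m) (hadm : Admissible d m r) {B₀ : ℕ} (hB : ∀ j : ℤ, 0 < j → j < (d : ℤ) → |r j| ≤ B₀) {n : ℤ}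
    (hn : 0 < n) : n + B₀ ≤ d * (T d m r n + B₀) := by
  have hd' : (2 : ℤ) ≤ d := by exact_mod_cast hd
  have hB0 : (0 : ℤ) ≤ B₀ := Nat.cast_nonneg _
  by_cases h : (d : ℤ) ∣ n
  · have h1 : (d : ℤ) * T d m r n = n := d_mul_T_of_dvd h
    nlinarith
  · have h0 : 0 < n % d := lt_of_le_of_ne (Int.emod_nonneg _ (by omega)) fun e => h (Int.dvd_of_emod_eq_zero e.symm)
    have h2 : n % d < d := Int.emod_lt_of_pos _ (by omega)
    have h1 : (d : ℤ) * T d m r n = m * n - r (n % d) := d_mul_T_of_not_dvd hadm hd h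
    have h5 := abs_le.1 (hB _ h0 h2)
    have hm' : (1 : ℤ) ≤ m := by exact_mod_cast hm
    nlinarith

theorem iter_geg (hd : 2 ≤ d) (hm : 1 ≤ m) (hadm : Admissible d m r) {B₀ : ℕ} (hB : ∀ j : ℤ, 0 < j → j < (d : ℤ) → |r j| ≤ B₀)
    {k : ℕ} {n : ℤ} (hn : (d : ℤ) ^ k * B₀ < n + B₀) (i : ℕ) (hi : i ≤ k) : n + B₀ ≤ (d : ℤ) ^ i * ((T d m r)^[i] n + B₀) := by
  have hd' : (2 : ℤ) ≤ d := by exact_mod_cast hd
  have hB0 : (0 : ℤ) ≤ B₀ := Nat.cast_nonneg _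
  induction i with
  | zero => simp
  | succ i ih =>
    have h1 := ih (by omega)
    have hdi : (0 : ℤ) < (d : ℤ) ^ i := by positivity
    have h2 : (d : ℤ) ^ i ≤ (d : ℤ) ^ k := pow_le_pow_right₀ (by omega) (by omega)
    have h3 : (d : ℤ) ^ i * B₀ < (d : ℤ) ^ i * ((T d m r)^[i] n + B₀) := by
      have := mul_le_mul_of_nonneg_right h2 hB0
      omega
    have h4 := lt_of_mul_lt_mul_left h3 hdi.le
    have h5 := T_geg hd hm hadm hB (by omega : 0 < (T d m r)^[i] n)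
    rw [Function.iterate_succ_apply', pow_succ, mul_assoc]
    exact h1.trans (mul_le_mul_of_nonneg_left h5 hdi.le)

theorem mem_pathg {G : Set ℤ} {z : ℝ} (hG : TInv d m r G z) {n : ℤ} (k : ℕ)
    (h : ∀ i < k, z < ((T d m r)^[i] n : ℝ)) : n ∈ G ↔ (T d m r)^[k] n ∈ G := by
  induction k with
  | zero => exact Iff.rfl
  | succ k ih =>
    rw [Function.iterate_succ_apply']
    exact (ih fun i hi => h i (by omega)).trans (hG _ (h k (by omega)))

/-- The first steps from a large integer are large. -/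
theorem high_path (hd : 2 ≤ d) (hm : 1 ≤ m) (hadm : Admissible d m r) {K : ℕ} (hK : 0 < K) {z : ℝ} (hz : 0 ≤ z) :
    ∀ᶠ y : ℕ in atTop, ∀ n : ℤ, (y : ℤ) < n → ∀ i < kyg K (y : ℝ), z < ((T d m r)^[i] n : ℝ) := by
  obtain ⟨B₀, hB⟩ := exists_bound d r
  have hd2 : (2 : ℝ) ≤ d := by exact_mod_cast hd
  have hB0 : (0 : ℝ) ≤ B₀ := Nat.cast_nonneg _
  filter_upwards [kyg_small hK (θ := 1) one_pos (z + B₀ + 1) (by positivity) (M := d) (by omega), eventually_ge_atTop 3] with y hy hy3 n hn i hi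
  have hyR : (3 : ℝ) ≤ y := by exact_mod_cast hy3
  have hL : 1 ≤ Real.log y := by
    rw [Real.le_log_iff_exp_le (by linarith)]
    have := Real.exp_one_lt_d9
    linarith
  rw [Real.rpow_one] at hy
  obtain ⟨k, hk⟩ : ∃ k : ℕ, k = kyg K (y : ℝ) := ⟨_, rfl⟩
  rw [← hk] at hy hi
  have hdk : (1 : ℝ) ≤ (d : ℝ) ^ k := one_le_pow₀ (by linarith)
  have h1 : (z + B₀ + 1) * (d : ℝ) ^ k ≤ y := by
    refine le_trans ?_ hy
    exact le_mul_of_one_le_right (by positivity) hL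
  have hnR : (y : ℝ) < n := by exact_mod_cast hn
  have h2 : (d : ℤ) ^ k * B₀ < n + B₀ := by
    have : (d : ℝ) ^ k * B₀ < n + B₀ := by nlinarith
    exact_mod_cast this
  have h3 := iter_geg hd hm hadm hB h2 i hi.le
  have h4 : (n : ℝ) + B₀ ≤ (d : ℝ) ^ i * (((T d m r)^[i] n : ℤ) + B₀) := by exact_mod_cast h3
  have hdi : (0 : ℝ) < (d : ℝ) ^ i := by positivity
  have h5 : (d : ℝ) ^ i ≤ (d : ℝ) ^ k := pow_le_pow_right₀ (by linarith) hi.le
  have h6 : (d : ℝ) ^ i * (z + B₀) < (d : ℝ) ^ i * (((T d m r)^[i] n : ℤ) + B₀) := by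
    refine lt_of_lt_of_le ?_ h4
    have : (d : ℝ) ^ i * (z + B₀) ≤ (d : ℝ) ^ k * (z + B₀) := mul_le_mul_of_nonneg_right h5 (by positivity)
    nlinarith
  have h7 := lt_of_mul_lt_mul_left h6 hdi.le
  linarith

/-- Invariant sets with few elements have few primes. -/
theorem small_primesg (hd : 2 ≤ d) (hm : 1 ≤ m) (hadm : Admissible d m r) (h5 : S5gStmt d m r) {η : ℝ} (hη : 0 < η) :
    ∃ ε : ℝ, 0 < ε ∧ ∀ z : ℝ, 0 ≤ z → ∃ Y : ℕ, ∀ G : Set ℤ, TInv d m r G z → ∀ y : ℕ, Y ≤ y →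
      ({n : ℤ | (y : ℤ) < n ∧ n ≤ y + y ∧ n ∈ G}.ncard : ℝ) ≤ ε * y →
      ({p : ℕ | p.Prime ∧ y < p ∧ p ≤ y + y ∧ (p : ℤ) ∈ G}.ncard : ℝ) ≤ η * (y / Real.log y) := by
  obtain ⟨K, hK, h5⟩ := h5
  obtain ⟨ε, hε, Y, hY⟩ := h5 1 η one_pos hη
  refine ⟨ε, hε, fun z hz => ?_⟩
  obtain ⟨Y1, hY1⟩ := eventually_atTop.1 (high_path hd hm hadm hK hz)
  refine ⟨max Y Y1, fun G hG y hy hsm => ?_⟩
  have h1 := hY1 y ((le_max_right _ _).trans hy)
  have h2 := hY y y ((le_max_left _ _).trans hy) (by rw [Real.rpow_one]) le_rfl G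
  have e1 : {n : ℤ | (y : ℤ) < n ∧ n ≤ y + y ∧ (T d m r)^[kyg K y] n ∈ G} = {n : ℤ | (y : ℤ) < n ∧ n ≤ y + y ∧ n ∈ G} := by
    ext n
    simp only [Set.mem_setOf_eq]
    constructor
    · rintro ⟨a, b, c⟩
      exact ⟨a, b, (mem_pathg hG _ (h1 n a)).2 c⟩
    · rintro ⟨a, b, c⟩
      exact ⟨a, b, (mem_pathg hG _ (h1 n a)).1 c⟩
  have e2 : {p : ℕ | p.Prime ∧ y < p ∧ p ≤ y + y ∧ (T d m r)^[kyg K y] (p : ℤ) ∈ G} =
      {p : ℕ | p.Prime ∧ y < p ∧ p ≤ y + y ∧ (p : ℤ) ∈ G} := by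
    ext p
    simp only [Set.mem_setOf_eq]
    constructor
    · rintro ⟨a, b, c, e⟩
      exact ⟨a, b, c, (mem_pathg hG _ (h1 p (by exact_mod_cast b))).2 e⟩
    · rintro ⟨a, b, c, e⟩
      exact ⟨a, b, c, (mem_pathg hG _ (h1 p (by exact_mod_cast b))).1 e⟩
  rw [e1, e2] at h2
  exact h2 hsm

/-- **Almost all primes have small elements on their orbits.** -/
theorem tao_primes (h : POSB.Std d m r) (h5 : S5gStmt d m r) {f : ℕ → ℝ} (hf : Tendsto f atTop atTop) :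
    Tendsto (fun x : ℝ => cp (fun p => ∃ t : ℕ, ((T d m r)^[t] (p : ℤ) : ℝ) ≤ f p) x / cp (fun _ => True) x) atTop (𝓝 1) := by
  have hm : 1 ≤ m := by have := h.hd; have := h.hdm; omega
  obtain ⟨C, δ, hC, hδ, hstay⟩ := POSB.exists_stay h
  -- the other primes
  have key : ∀ ξ : ℝ, 0 < ξ → ∀ᶠ x : ℝ in atTop,
      cp (fun p => ¬ ∃ t : ℕ, ((T d m r)^[t] (p : ℤ) : ℝ) ≤ f p) x ≤ ξ * cp (fun _ => True) x := by
    intro ξ hξ
    obtain ⟨ε, hε, hsm⟩ := small_primesg h.hd hm h.hr h5 (η := ξ / 12) (by positivity)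
    have t1 : ∀ᶠ F : ℝ in atTop, C * 2 * F ^ (-δ) ≤ ε := by
      have h1 := (tendsto_rpow_neg_atTop hδ).const_mul (C * 2)
      rw [mul_zero] at h1
      exact (h1.eventually (gt_mem_nhds hε)).mono fun F hF => hF.le
    obtain ⟨F, hF, hF1⟩ := (t1.and (eventually_ge_atTop 1)).exists
    obtain ⟨Y, hY⟩ := hsm F (by linarith)
    have h1 := dyadic_sum (P := fun p => (p : ℤ) ∈ POSB.Above d m r F) (η := ξ / 12) (by positivity) (Y := max Y 1) (fun y hy => by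
      refine hY _ (POSB.tinv_Above F) y ((le_max_left _ _).trans hy) ?_
      have hy1 : (1 : ℝ) ≤ y := by exact_mod_cast (le_max_right _ _).trans hy
      have h2 := hstay (2 * y) F (by linarith) hF1
      have h3 : ({n : ℤ | (y : ℤ) < n ∧ n ≤ y + y ∧ n ∈ POSB.Above d m r F}.ncard : ℝ) ≤
          cN {n : ℤ | ∀ k : ℕ, F < ((T d m r)^[k] n : ℝ)} (2 * y) := by
        unfold cN
        refine Nat.cast_le.2 (Set.ncard_le_ncard ?_ (finite_cN _ _))
        rintro n ⟨a, b, c⟩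
        refine ⟨c, by omega, ?_⟩
        have : (n : ℝ) ≤ y + y := by exact_mod_cast b
        linarith
      calc _ ≤ _ := h3
        _ ≤ C * (2 * y) * F ^ (-δ) := h2
        _ = C * 2 * F ^ (-δ) * y := by ring
        _ ≤ ε * y := mul_le_mul_of_nonneg_right hF (by linarith))
    obtain ⟨P0, hP0⟩ := eventually_atTop.1 (hf.eventually_ge_atTop F)
    have t2 : ∀ᶠ x : ℝ in atTop, (P0 : ℝ) ≤ ξ / 4 * (x / Real.log x) :=
      (div_log_tendsto.const_mul_atTop (by positivity)).eventually_ge_atTop _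
    filter_upwards [h1, t2, cp_low] with x hx1 hx2 hx3
    have h4 : cp (fun p => ¬ ∃ t : ℕ, ((T d m r)^[t] (p : ℤ) : ℝ) ≤ f p) x ≤
        cp (fun p => (p : ℤ) ∈ POSB.Above d m r F) x + P0 := by
      unfold cp
      have h5 : {p : ℕ | p.Prime ∧ (p : ℝ) ≤ x ∧ ¬ ∃ t : ℕ, ((T d m r)^[t] (p : ℤ) : ℝ) ≤ f p} ⊆
          {p : ℕ | p.Prime ∧ (p : ℝ) ≤ x ∧ (p : ℤ) ∈ POSB.Above d m r F} ∪ ((Finset.range P0 : Finset ℕ) : Set ℕ) := by
        rintro p ⟨a, b, c⟩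
        rcases lt_or_ge p P0 with hp | hp
        · exact Or.inr (Finset.mem_coe.2 (Finset.mem_range.2 hp))
        · refine Or.inl ⟨a, b, fun k => ?_⟩
          push Not at c
          exact lt_of_le_of_lt (hP0 p hp) (c k)
      have h6 := (Set.ncard_le_ncard h5 ((finite_cp _ x).union (Finset.finite_toSet _))).trans (Set.ncard_union_le _ _)
      rw [Set.ncard_coe_finset, Finset.card_range] at h6
      exact_mod_cast h6
    have h7 : ξ / 2 * (x / Real.log x) ≤ ξ * cp (fun _ => True) x := by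
      have := mul_le_mul_of_nonneg_left hx3 hξ.le
      linarith
    linarith
  have h0 : Tendsto (fun x : ℝ => cp (fun p => ¬ ∃ t : ℕ, ((T d m r)^[t] (p : ℤ) : ℝ) ≤ f p) x / cp (fun _ => True) x) atTop (𝓝 0) := by
    rw [Metric.tendsto_atTop']
    intro ξ hξ
    obtain ⟨X, hX⟩ := eventually_atTop.1 ((key (ξ / 2) (by positivity)).and (cp_low.and (eventually_ge_atTop 3)))
    refine ⟨X, fun x hx => ?_⟩
    obtain ⟨h1, h2, h3⟩ := hX x hx.le
    have hl : 0 < Real.log x := Real.log_pos (by linarith)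
    have h4 : 0 < cp (fun _ => True) x := lt_of_lt_of_le (by positivity) h2
    rw [Real.dist_eq, sub_zero, abs_of_nonneg (div_nonneg (cp_nonneg _ _) h4.le), div_lt_iff₀ h4]
    nlinarith
  have h1 : ∀ᶠ x : ℝ in atTop, 1 - cp (fun p => ¬ ∃ t : ℕ, ((T d m r)^[t] (p : ℤ) : ℝ) ≤ f p) x / cp (fun _ => True) x =
      cp (fun p => ∃ t : ℕ, ((T d m r)^[t] (p : ℤ) : ℝ) ≤ f p) x / cp (fun _ => True) x := by
    filter_upwards [cp_low, eventually_ge_atTop 3] with x hx hx3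
    have hl : 0 < Real.log x := Real.log_pos (by linarith)
    have h4 : 0 < cp (fun _ => True) x := lt_of_lt_of_le (by positivity) hx
    have h5 := cp_split (fun p => ∃ t : ℕ, ((T d m r)^[t] (p : ℤ) : ℝ) ≤ f p) x
    rw [eq_div_iff h4.ne', sub_mul, div_mul_cancel₀ _ h4.ne']
    linarith
  have h2 := (tendsto_const_nhds (x := (1 : ℝ))).sub h0
  rw [sub_zero] at h2
  exact h2.congr' h1

end Pool.Agent.Helper28.PR
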