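import Pool.Agent.Helper28.PR.F4
import Pool.Agent.Helper28.NL.Equ

/-!
# PRIMES, block S6, part 5: the maps `3x + 1` and `3x - 1`
-/

set_option autoImplicit false

namespace Pool.Agent.Helper28.PR

open Filter Topology
open Pool.Agent.Helper68.Moeller Pool.Agent.Helper52.Tao Pool.Agent.Helper8.ND Pool.Agent.Helper8 Pool.Agent.Helper91

variable {d m : ℕ} {r : ℤ → ℤ} {ρ : ℤ}

/-- Almost all primes have the property `P`. -/
def AAP (P : ℕ → Prop) : Prop := Tendsto (fun x : ℝ => cp P x / cp (fun _ => True) x) atTop (𝓝 1)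

theorem aap_of {P : ℕ → Prop} (key : ∀ ξ : ℝ, 0 < ξ → ∀ᶠ x : ℝ in atTop, cp (fun p => ¬ P p) x ≤ ξ * cp (fun _ => True) x) :
    AAP P := by
  have h0 : Tendsto (fun x : ℝ => cp (fun p => ¬ P p) x / cp (fun _ => True) x) atTop (𝓝 0) := by
    rw [Metric.tendsto_atTop']
    intro ξ hξ
    obtain ⟨X, hX⟩ := eventually_atTop.1 ((key (ξ / 2) (by positivity)).and (cp_low.and (eventually_ge_atTop 3)))
    refine ⟨X, fun x hx => ?_⟩
    obtain ⟨h1, h2, h3⟩ := hX x hx.le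
    have hl : 0 < Real.log x := Real.log_pos (by linarith)
    have h4 : 0 < cp (fun _ => True) x := lt_of_lt_of_le (by positivity) h2
    rw [Real.dist_eq, sub_zero, abs_of_nonneg (div_nonneg (cp_nonneg _ _) h4.le), div_lt_iff₀ h4]
    nlinarith
  have h1 : ∀ᶠ x : ℝ in atTop, 1 - cp (fun p => ¬ P p) x / cp (fun _ => True) x = cp P x / cp (fun _ => True) x := by
    filter_upwards [cp_low, eventually_ge_atTop 3] with x hx hx3
    have hl : 0 < Real.log x := Real.log_pos (by linarith)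
    have h4 : 0 < cp (fun _ => True) x := lt_of_lt_of_le (by positivity) hx
    have h5 := cp_split P x
    rw [eq_div_iff h4.ne', sub_mul, div_mul_cancel₀ _ h4.ne']
    linarith
  have h2 := (tendsto_const_nhds (x := (1 : ℝ))).sub h0
  rw [sub_zero] at h2
  exact h2.congr' h1

theorem aap_all {P : ℕ → Prop} (h : ∀ p : ℕ, p.Prime → P p) : AAP P := by
  refine aap_of fun ξ hξ => Eventually.of_forall fun x => ?_
  have : cp (fun p => ¬ P p) x = 0 := by
    unfold cp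
    have : {p : ℕ | p.Prime ∧ (p : ℝ) ≤ x ∧ ¬ P p} = ∅ := by
      ext p
      simp only [Set.mem_setOf_eq, Set.mem_empty_iff_false, iff_false]
      rintro ⟨h1, -, h2⟩
      exact h2 (h p h1)
    rw [this, Set.ncard_empty, Nat.cast_zero]
  rw [this]
  exact mul_nonneg hξ.le (cp_nonneg _ _)

theorem aap_not {P : ℕ → Prop} (h : AAP P) {ξ : ℝ} (hξ : 0 < ξ) :
    ∀ᶠ x : ℝ in atTop, cp (fun p => ¬ P p) x ≤ ξ * (x / Real.log x) := by
  have h1 := (tendsto_order.1 h).1 (1 - ξ / 2) (by linarith)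
  filter_upwards [h1, cp_low, cp_up, eventually_ge_atTop 3] with x hx1 hx2 hx3 hx4
  have hl : 0 < Real.log x := Real.log_pos (by linarith)
  have h4 : 0 < cp (fun _ => True) x := lt_of_lt_of_le (by positivity) hx2
  rw [lt_div_iff₀ h4] at hx1
  have h5 := cp_split P x
  nlinarith

theorem finite_np (P : ℕ → Prop) (x : ℝ) : {p : ℕ | p.Prime ∧ x ≤ p ∧ (p : ℝ) < 2 * x ∧ P p}.Finite :=
  (Set.finite_Icc 0 ⌊2 * x⌋₊).subset fun p hp => ⟨Nat.zero_le _, Nat.le_floor hp.2.2.1.le⟩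

theorem np_le_cp (P : ℕ → Prop) (x : ℝ) : np P x ≤ cp P (2 * x) := by
  unfold np cp
  refine Nat.cast_le.2 (Set.ncard_le_ncard ?_ (finite_cp _ _))
  rintro p ⟨h1, h2, h3, h4⟩
  exact ⟨h1, h3.le, h4⟩

theorem np_mono {P Q : ℕ → Prop} (h : ∀ p, p.Prime → P p → Q p) (x : ℝ) : np P x ≤ np Q x := by
  unfold np
  refine Nat.cast_le.2 (Set.ncard_le_ncard ?_ (finite_np Q x))
  rintro p ⟨h1, h2, h3, h4⟩
  exact ⟨h1, h2, h3, h p h1 h4⟩

/-- The number of the primes of `[x, 2x)`. -/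
theorem np_up : ∀ᶠ x : ℝ in atTop, np (fun _ => True) x ≤ 4 * (x / Real.log x) := by
  have h1 := (tendsto_id.const_mul_atTop (by norm_num : (0 : ℝ) < 2)).eventually cp_up
  filter_upwards [h1, eventually_ge_atTop 3] with x hx hx3
  have hl : 0 < Real.log x := Real.log_pos (by linarith)
  have h2 : Real.log x ≤ Real.log (2 * x) := Real.log_le_log (by linarith) (by linarith)
  refine (np_le_cp _ x).trans (hx.trans ?_)
  calc 2 * (2 * id x / Real.log (2 * id x)) = 2 * (2 * x / Real.log (2 * x)) := rfl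
    _ ≤ 2 * (2 * x / Real.log x) := by
      refine mul_le_mul_of_nonneg_left (div_le_div_of_nonneg_left (by linarith) hl h2) (by norm_num)
    _ = 4 * (x / Real.log x) := by ring

theorem aap_contra {P : ℕ → Prop} (h : AAP P) {c : ℝ} (hc : 0 < c)
    (h1 : ∀ᶠ x : ℝ in atTop, c * (x / Real.log x) ≤ np (fun p => ¬ P p) x) : False := by
  have h2 := (tendsto_id.const_mul_atTop (by norm_num : (0 : ℝ) < 2)).eventually (aap_not h (ξ := c / 4) (by positivity))
  obtain ⟨x, h3, h4, h5⟩ := (h1.and (h2.and (eventually_ge_atTop 3))).exists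
  have hl : 0 < Real.log x := Real.log_pos (by linarith)
  have h6 : Real.log x ≤ Real.log (2 * x) := Real.log_le_log (by linarith) (by linarith)
  have h7 : cp (fun p => ¬ P p) (2 * x) ≤ c / 4 * (2 * x / Real.log (2 * x)) := h4
  have h8 : 2 * x / Real.log (2 * x) ≤ 2 * x / Real.log x := div_le_div_of_nonneg_left (by linarith) hl h6
  have h9 := np_le_cp (fun p => ¬ P p) x
  have h10 : 0 < x / Real.log x := by positivity
  have h11 : c / 4 * (2 * x / Real.log (2 * x)) ≤ c / 2 * (x / Real.log x) := by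
    calc c / 4 * (2 * x / Real.log (2 * x)) ≤ c / 4 * (2 * x / Real.log x) := mul_le_mul_of_nonneg_left h8 (by positivity)
      _ = c / 2 * (x / Real.log x) := by ring
  nlinarith [mul_pos hc h10]

/-- Invariant sets with a small density (uniformly), all maps. -/
theorem small_dens (h : POSB.Std d m r) (h5 : S5gStmt d m r) {η : ℝ} (hη : 0 < η) : ∃ ε : ℝ, 0 < ε ∧ ∀ z : ℝ, 0 ≤ z → ∃ X : ℝ,
    ∀ G : Set ℤ, TInv d m r G z → PL.dens G ≤ ε → ∀ x : ℝ, X ≤ x → np (fun p => (p : ℤ) ∈ G) x ≤ η * (x / Real.log x) := by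
  have hm : 1 ≤ m := by have := h.hd; have := h.hdm; omega
  obtain ⟨ε, hε, hsm⟩ := small_primesg h.hd hm h.hr h5 (η := η / 4) (by positivity)
  refine ⟨ε / 4, by positivity, fun z hz => ?_⟩
  obtain ⟨Y, hY⟩ := hsm z hz
  obtain ⟨z0, hz0⟩ := PL.stab h.hd h.hdm h.hco h.hr h.gam h.mix (ε := 1) one_pos (η := ε / 4) (by positivity)
  have t1 : ∀ᶠ x : ℝ in atTop, 2 ≤ η / 4 * (x / Real.log x) :=
    (div_log_tendsto.const_mul_atTop (by positivity)).eventually_ge_atTop _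
  have t2 : ∀ᶠ x : ℝ in atTop, 2 ≤ ε / 2 * x := (tendsto_id.const_mul_atTop (by positivity)).eventually_ge_atTop _
  obtain ⟨X1, hX1⟩ := eventually_atTop.1 (t1.and t2)
  refine ⟨max (max X1 (Y + 1)) (max ((max z (max z0 1)) ^ ((1 : ℝ) + 1)) 4), fun G hG hD x hx => ?_⟩
  have hx1 : X1 ≤ x := (le_max_left _ _).trans ((le_max_left _ _).trans hx)
  have hx2 : (Y : ℝ) + 1 ≤ x := (le_max_right _ _).trans ((le_max_left _ _).trans hx)
  have hx3 : (max z (max z0 1)) ^ ((1 : ℝ) + 1) ≤ x := (le_max_left _ _).trans ((le_max_right _ _).trans hx)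
  have hx4 : 4 ≤ x := (le_max_right _ _).trans ((le_max_right _ _).trans hx)
  obtain ⟨g1, g2⟩ := hX1 x hx1
  have h1 := hz0 (max z (max z0 1)) ((le_max_left _ _).trans (le_max_right _ _)) G (PL.tinv_mono hG (le_max_left _ _)) x hx3
  have h2 : fd G x ≤ ε / 2 := by
    have := (abs_le.1 h1).2
    linarith
  have hx0 : 0 < x := by linarith
  have h3 : ({n : ℤ | x ≤ n ∧ (n : ℝ) < 2 * x ∧ n ∈ G}.ncard : ℝ) ≤ ε / 2 * x := by
    unfold fd at h2
    rwa [div_le_iff₀ hx0] at h2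
  obtain ⟨y, hy⟩ : ∃ y : ℕ, y = ⌊x⌋₊ := ⟨_, rfl⟩
  have hy1 : (y : ℝ) ≤ x := by rw [hy]; exact Nat.floor_le hx0.le
  have hy2 : x < y + 1 := by rw [hy]; exact Nat.lt_floor_add_one x
  have hyY : Y ≤ y := by
    have : (Y : ℝ) ≤ y := by linarith
    exact_mod_cast this
  have hyR : (3 : ℝ) ≤ y := by linarith
  have h4 := hY G hG y hyY (by
    have e1 : ({n : ℤ | (y : ℤ) < n ∧ n ≤ y + y ∧ n ∈ G}.ncard : ℝ) ≤ ({n : ℤ | x ≤ n ∧ (n : ℝ) < 2 * x ∧ n ∈ G}.ncard : ℝ) + 1 := by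
      have e2 : {n : ℤ | (y : ℤ) < n ∧ n ≤ y + y ∧ n ∈ G} ⊆ {n : ℤ | x ≤ n ∧ (n : ℝ) < 2 * x ∧ n ∈ G} ∪ {((2 * y : ℕ) : ℤ)} := by
        rintro n ⟨a, b, c⟩
        by_cases hn : n = ((2 * y : ℕ) : ℤ)
        · right
          exact hn
        · left
          have hb : n + 1 ≤ y + y := by omega
          have ha : (y : ℤ) + 1 ≤ n := by omega
          have haR : (y : ℝ) + 1 ≤ n := by exact_mod_cast ha
          have hbR : (n : ℝ) + 1 ≤ y + y := by exact_mod_cast hb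
          exact ⟨by linarith, by linarith, c⟩
      have hf : {n : ℤ | x ≤ n ∧ (n : ℝ) < 2 * x ∧ n ∈ G}.Finite := SI.dyadic_finite x _
      have e3 := (Set.ncard_le_ncard e2 (hf.union (Set.finite_singleton _))).trans (Set.ncard_union_le _ _)
      rw [Set.ncard_singleton] at e3
      exact_mod_cast e3
    nlinarith)
  have h5 : np (fun p => (p : ℤ) ∈ G) x ≤ ({p : ℕ | p.Prime ∧ y < p ∧ p ≤ y + y ∧ (p : ℤ) ∈ G}.ncard : ℝ) + 2 := by
    have e2 : {p : ℕ | p.Prime ∧ x ≤ p ∧ (p : ℝ) < 2 * x ∧ (p : ℤ) ∈ G} ⊆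
        {p : ℕ | p.Prime ∧ y < p ∧ p ≤ y + y ∧ (p : ℤ) ∈ G} ∪ (({y, 2 * y + 1} : Finset ℕ) : Set ℕ) := by
      rintro p ⟨a, b, c, e⟩
      have hb : (y : ℝ) ≤ p := hy1.trans b
      have hb' : y ≤ p := by exact_mod_cast hb
      have hc : (p : ℝ) < 2 * y + 2 := by linarith
      have hc' : p < 2 * y + 2 := by exact_mod_cast hc
      by_cases h1 : p = y
      · right
        rw [h1]
        simp
      · by_cases h2 : p = 2 * y + 1
        · right
          rw [h2]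
          simp
        · left
          exact ⟨a, by omega, by omega, e⟩
    have hf : {p : ℕ | p.Prime ∧ y < p ∧ p ≤ y + y ∧ (p : ℤ) ∈ G}.Finite :=
      (Set.finite_Icc 0 (y + y)).subset fun p hp => ⟨Nat.zero_le _, hp.2.2.1⟩
    have e3 := (Set.ncard_le_ncard e2 (hf.union (Finset.finite_toSet _))).trans (Set.ncard_union_le _ _)
    rw [Set.ncard_coe_finset] at e3
    have e4 := e3.trans (Nat.add_le_add_left Finset.card_le_two _)
    unfold np
    exact_mod_cast e4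
  have h6 := div_log_mono hyR hy1
  have h7 : η / 4 * (y / Real.log y) ≤ η / 4 * (x / Real.log x) := mul_le_mul_of_nonneg_left h6 (by positivity)
  have hl : 0 < Real.log x := Real.log_pos (by linarith)
  have h8 : 0 ≤ η * (x / Real.log x) := by positivity
  linarith

/-- **The primes and the density of an invariant set, `3x ± 1`.** -/
theorem dens_primes (hρ : ρ = 1 ∨ ρ = -1) (hstd : POSB.Std 2 3 (fun _ => ρ))
    (hin : ∃ c : ℝ, 0 < c ∧ ∀ z D : ℝ, 0 ≤ z → 0 < D → ∃ X : ℝ, ∀ G : Set ℤ,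
      TInv 2 3 (fun _ => ρ) G z → (∀ᶠ x in atTop, D ≤ fd G x) → ∀ x : ℝ, X ≤ x →
        c * D * (x / Real.log x) ≤ np (fun p => (p : ℤ) ∈ G) x) :
    ∃ c : ℝ, 0 < c ∧ ∀ z D : ℝ, 0 ≤ z → 0 < D → ∃ X : ℝ, ∀ G : Set ℤ,
      TInv 2 3 (fun _ => ρ) G z → D ≤ PL.dens G → ∀ x : ℝ, X ≤ x →
        c * D * np (fun _ => True) x ≤ np (fun p => (p : ℤ) ∈ G) x := by
  obtain ⟨c, hc, h⟩ := hin
  refine ⟨c / 8, by positivity, fun z D hz hD => ?_⟩
  obtain ⟨X, hX⟩ := h z (D / 2) hz (by positivity)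
  obtain ⟨X1, hX1⟩ := eventually_atTop.1 np_up
  refine ⟨max X X1, fun G hG hGD x hx => ?_⟩
  have h1 : ∀ᶠ x in atTop, D / 2 ≤ fd G x := by
    have h := (PL.stab_tendsto hstd.hd hstd.hdm hstd.hco hstd.hr hstd.gam hstd.mix hG).eventually
      (lt_mem_nhds (by linarith : D / 2 < PL.dens G))
    exact h.mono fun x hx => hx.le
  have h2 := hX G hG h1 x ((le_max_left _ _).trans hx)
  have h3 := hX1 x ((le_max_right _ _).trans hx)
  calc c / 8 * D * np (fun _ => True) x ≤ c / 8 * D * (4 * (x / Real.log x)) := mul_le_mul_of_nonneg_left h3 (by positivity)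
    _ = c * (D / 2) * (x / Real.log x) := by ring
    _ ≤ _ := h2

/-- The integers which reach `1`, and the primes. -/
theorem three_primes (hin : ∃ c : ℝ, 0 < c ∧ ∀ z D : ℝ, 0 ≤ z → 0 < D → ∃ X : ℝ, ∀ G : Set ℤ,
      TInv 2 3 (fun _ => -1) G z → (∀ᶠ x in atTop, D ≤ fd G x) → ∀ x : ℝ, X ≤ x →
        c * D * (x / Real.log x) ≤ np (fun p => (p : ℤ) ∈ G) x) :
    (∀ n : ℤ, 0 < n → ∃ t : ℕ, (T 2 3 (fun _ => -1))^[t] n = 1) ↔
      AAP (fun p => ∃ t : ℕ, (T 2 3 (fun _ => -1))^[t] (p : ℤ) = 1) := by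
  constructor
  · intro h
    exact aap_all fun p hp => h p (by exact_mod_cast hp.pos)
  · intro h
    by_contra hno
    obtain ⟨η, hη, hG, hfd⟩ := NL.three_compl hno
    obtain ⟨c, hc, h1⟩ := hin
    obtain ⟨X, hX⟩ := h1 0 η le_rfl hη
    refine aap_contra h (c := c * η) (by positivity) ?_
    filter_upwards [eventually_ge_atTop X] with x hx
    exact hX _ hG hfd x hx

/-- The exceptional set and the primes. -/
theorem exc_primes {r : ℤ → ℤ} (hstd : POSB.Std 2 3 r)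
    (hin : ∃ c : ℝ, 0 < c ∧ ∀ z D : ℝ, 0 ≤ z → 0 < D → ∃ X : ℝ, ∀ G : Set ℤ,
      TInv 2 3 (fun _ => r 1) G z → (∀ᶠ x in atTop, D ≤ fd G x) → ∀ x : ℝ, X ≤ x →
        c * D * (x / Real.log x) ≤ np (fun p => (p : ℤ) ∈ G) x) :
    (E 2 3 r).Finite ↔ ∃ B : ℝ, AAP (fun p => ∃ t : ℕ, ((T 2 3 r)^[t] (p : ℤ) : ℝ) ≤ B) := by
  constructor
  · intro hfin
    obtain ⟨B, hB⟩ := PRE.stay_empty (le_refl 2) hstd.hr hfin
    refine ⟨B, aap_all fun p _ => ?_⟩
    have h1 := hB (p : ℤ)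
    push Not at h1
    obtain ⟨t, -, ht⟩ := h1 0
    exact ⟨t, ht⟩
  · rintro ⟨B, hB⟩
    by_contra hinf
    obtain ⟨β, hβ, hE⟩ := POSB.above hstd
    have hβ0 : β (max B 0) ≠ 0 := fun h0 => hinf (hE.2 ⟨_, h0⟩)
    have hβ1 : 0 < β (max B 0) := by
      refine lt_of_le_of_ne (ge_of_tendsto (hβ (max B 0)) ?_) hβ0.symm
      filter_upwards [eventually_gt_atTop 0] with x hx
      exact div_nonneg (cN_nonneg _ x) hx.le
    have hTc : T 2 3 r = T 2 3 (fun _ => r 1) := CO.T_eq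
    have hti : TInv 2 3 r (POSB.Above 2 3 r (max B 0)) (max B 0) := POSB.tinv_Above (max B 0)
    have hti' : TInv 2 3 (fun _ => r 1) (POSB.Above 2 3 r (max B 0)) (max B 0) := fun n hn => by
      rw [hti n hn, hTc]
    have hdens : PL.dens (POSB.Above 2 3 r (max B 0)) = β (max B 0) :=
      tendsto_nhds_unique (POSB.tendsto_dens hstd hti) (hβ (max B 0))
    have hfd : ∀ᶠ x in atTop, β (max B 0) / 2 ≤ fd (POSB.Above 2 3 r (max B 0)) x := by
      have h := (PL.stab_tendsto hstd.hd hstd.hdm hstd.hco hstd.hr hstd.gam hstd.mix hti).eventually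
        (lt_mem_nhds (by rw [hdens]; linarith : β (max B 0) / 2 < PL.dens (POSB.Above 2 3 r (max B 0))))
      exact h.mono fun x hx => hx.le
    obtain ⟨c, hc, h⟩ := hin
    obtain ⟨X, hX⟩ := h (max B 0) (β (max B 0) / 2) (le_max_right _ _) (by linarith)
    refine aap_contra hB (c := c * (β (max B 0) / 2)) (by positivity) ?_
    filter_upwards [eventually_ge_atTop X] with x hx
    refine (hX _ hti' hfd x hx).trans (np_mono (fun p _ hp => ?_) x)
    rintro ⟨t, ht⟩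
    have h1 := hp t
    have := le_max_left B 0
    linarith

/-- The primes with `a` on their orbit. -/
theorem pred_primes (hin : ∃ c : ℝ, 0 < c ∧ ∀ z D : ℝ, 0 ≤ z → 0 < D → ∃ X : ℝ, ∀ G : Set ℤ,
      TInv 2 3 (fun _ => -1) G z → D ≤ PL.dens G → ∀ x : ℝ, X ≤ x →
        c * D * np (fun _ => True) x ≤ np (fun p => (p : ℤ) ∈ G) x) :
    ∃ c : ℝ, 0 < c ∧ ∀ a : ℤ, 1 ≤ a → ¬ (3 : ℤ) ∣ a → ∃ X : ℝ, ∀ x : ℝ, X ≤ x →
      c / a * np (fun _ => True) x ≤ np (fun p => ∃ t : ℕ, (T 2 3 (fun _ => -1))^[t] (p : ℤ) = a) x := by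
  have h := POSB.std_three
  obtain ⟨c1, hc1, h1⟩ := POS.density_one h.hd h.hdm h.hco h.hw h.hr
  obtain ⟨c, hc, h2⟩ := hin
  refine ⟨c * c1, by positivity, fun a ha h3 => ?_⟩
  have haR : (1 : ℝ) ≤ a := by exact_mod_cast ha
  obtain ⟨X, hX⟩ := h2 a (c1 / a) (by linarith) (by positivity)
  have hdens : c1 / a ≤ PL.dens (PL.Pr 2 3 (fun _ => -1) a) := by
    refine POSB.le_dens_of (POSB.tendsto_dens h (PL.tinv_Pr 2 3 _ a)) (X := a) fun x hx => ?_
    have h4 := h1 a x ha (fun hdead => h3 ((PL.dead_three a).1 hdead)) hx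
    calc c1 / a * x = c1 * x / a := by ring
      _ ≤ _ := h4
  refine ⟨X, fun x hx => ?_⟩
  have h5 := hX _ (PL.tinv_Pr 2 3 _ a) hdens x hx
  rw [mul_div_assoc]
  exact h5

end Pool.Agent.Helper28.PR
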