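import Pool.Agent.Helper28.PR.F5
import Pool.Agent.Helper8.ST.Lim

/-!
# PRIMES, block S6, part 6: almost all primes reach small values in time
-/

set_option autoImplicit false

namespace Pool.Agent.Helper28.PR

open Filter Topology ProbabilityTheory
open Pool.Agent.Helper68.Moeller Pool.Agent.Helper52.Tao Pool.Agent.Helper8.ND Pool.Agent.Helper8 Pool.Agent.Helper91

variable {d m : ℕ} {r : ℤ → ℤ}

/-- `n` reaches `(-∞, B]` within `log n / γ + w √(log n)` steps. -/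
def Fast (d m : ℕ) (r : ℤ → ℤ) (B w : ℝ) (n : ℤ) : Prop :=
  ∃ t : ℕ, (t : ℝ) ≤ Real.log n / PL.gam d m + w * Real.sqrt (Real.log n) ∧ ((T d m r)^[t] n : ℝ) ≤ B

theorem dens_hit (h : POSB.Std d m r) {ε : ℝ} (hε : 0 < ε) :
    ∃ B : ℝ, 1 ≤ B ∧ 1 - ε ≤ PL.dens (ST.hitI d m r {n : ℤ | (n : ℝ) ≤ B}) := by
  obtain ⟨C, δ, hC, hδ, hstay⟩ := POSB.exists_stay h
  have t1 : ∀ᶠ B : ℝ in atTop, C * B ^ (-δ) ≤ ε := by
    have h1 := (tendsto_rpow_neg_atTop hδ).const_mul C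
    rw [mul_zero] at h1
    exact (h1.eventually (gt_mem_nhds hε)).mono fun F hF => hF.le
  obtain ⟨B, hB, hB1⟩ := (t1.and (eventually_ge_atTop 1)).exists
  refine ⟨B, hB1, ?_⟩
  have e : ST.hitI d m r {n : ℤ | (n : ℝ) ≤ B} = (POSB.Above d m r B)ᶜ := by
    ext n
    simp only [ST.hitI, POSB.Above, Set.mem_setOf_eq, Set.mem_compl_iff, not_forall, not_lt]
  have hti := POSB.tinv_Above (d := d) (m := m) (r := r) B
  have h1 := POSB.dens_union h hti hti.compl disjoint_compl_right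
  rw [Set.union_compl_self, POSB.dens_univ h (fun n _ => Iff.rfl) fun n _ => Set.mem_univ n] at h1
  have h2 : PL.dens (POSB.Above d m r B) ≤ C * B ^ (-δ) := by
    refine POSB.dens_le_of (POSB.tendsto_dens h hti) (X := 1) fun x hx => ?_
    have := hstay x B hx hB1
    calc cN (POSB.Above d m r B) x ≤ C * x * B ^ (-δ) := this
      _ = _ := by ring
  rw [e]
  linarith

/-- The primes which are slow. -/
theorem slow_primes (h : POSB.Std d m r) (h5 : S5gStmt d m r) {η : ℝ} (hη : 0 < η) : ∃ (B w : ℝ) (Y : ℕ), ∀ y : ℕ, Y ≤ y →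
    ({p : ℕ | p.Prime ∧ y < p ∧ p ≤ y + y ∧ ¬ Fast d m r B w (p : ℤ)}.ncard : ℝ) ≤ η * (y / Real.log y) := by
  have hm : 1 ≤ m := by have := h.hd; have := h.hdm; omega
  have hγ : 0 < PL.gam d m := h.gam
  obtain ⟨K, hK, h5⟩ := h5
  obtain ⟨ε, hε, Y0, hY0⟩ := h5 1 η one_pos hη
  obtain ⟨B, hB1, hB⟩ := dens_hit h (ε := min ε 1 / 8) (by positivity)
  have hε8 : min ε 1 / 8 ≤ 1 / 8 := by linarith [min_le_right ε 1]
  obtain ⟨u, hu0, hu⟩ : ∃ u : ℝ, 0 ≤ u ∧ 1 - min ε 1 / 8 ≤ cdf (gaussianReal 0 1) u := by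
    have h1 := (tendsto_cdf_atTop (μ := gaussianReal 0 1)).eventually (lt_mem_nhds (show 1 - min ε 1 / 8 < 1 by
      have : 0 < min ε 1 := lt_min hε one_pos
      linarith))
    obtain ⟨u, hu1, hu2⟩ := (h1.and (eventually_ge_atTop 0)).exists
    exact ⟨u, hu2, hu1.le⟩
  have hF : ∀ n ∈ {n : ℤ | (n : ℝ) ≤ B}, (n : ℝ) ≤ B := fun n hn => hn
  have hclt := ST.clt h (by linarith : 0 ≤ B) hF u
  have hfd : ∀ᶠ x : ℝ in atTop, 1 - ε / 2 ≤ fd (ST.early d m r {n : ℤ | (n : ℝ) ≤ B} u) x := by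
    refine (hclt.eventually (lt_mem_nhds ?_)).mono fun x hx => hx.le
    have h0 : 0 < min ε 1 := lt_min hε one_pos
    have h1 : min ε 1 ≤ ε := min_le_left _ _
    have h2 : (1 - min ε 1 / 8) * (1 - min ε 1 / 8) ≤
        PL.dens (ST.hitI d m r {n : ℤ | (n : ℝ) ≤ B}) * cdf (gaussianReal 0 1) u :=
      mul_le_mul hB hu (by linarith) (by linarith)
    nlinarith
  set σ := ST.sd d m with hσd
  have hσ0 : 0 ≤ σ := by
    rw [hσd]
    unfold ST.sd
    have : 0 ≤ Real.log m := Real.log_natCast_nonneg m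
    have hg := hγ.le
    positivity
  obtain ⟨w, hw⟩ : ∃ w : ℝ, w = u * σ + 1 := ⟨_, rfl⟩
  have hw0 : 0 ≤ w := by rw [hw]; positivity
  have t1 : ∀ᶠ y : ℕ in atTop, Real.log 2 / PL.gam d m + u * σ ≤ Real.sqrt (Real.log (y : ℝ)) :=
    (Real.tendsto_sqrt_atTop.comp (Real.tendsto_log_atTop.comp tendsto_natCast_atTop_atTop)).eventually_ge_atTop _
  have t2 : ∀ᶠ y : ℕ in atTop, 1 - ε / 2 ≤ fd (ST.early d m r {n : ℤ | (n : ℝ) ≤ B} u) (y : ℝ) :=
    tendsto_natCast_atTop_atTop.eventually hfd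
  have t3 : ∀ᶠ y : ℕ in atTop, 1 ≤ ε / 2 * (y : ℝ) :=
    (tendsto_natCast_atTop_atTop.const_mul_atTop (by positivity)).eventually_ge_atTop _
  obtain ⟨Y1, hY1⟩ := eventually_atTop.1 ((t1.and t2).and (t3.and (high_path h.hd hm h.hr hK (z := B) (by linarith))))
  refine ⟨B, w, max (max Y0 Y1) 3, fun y hy => ?_⟩
  obtain ⟨⟨g1, g2⟩, g3, g4⟩ := hY1 y ((le_max_right _ _).trans ((le_max_left _ _).trans hy))
  have hy3 : 3 ≤ y := (le_max_right _ _).trans hy
  have hyR : (3 : ℝ) ≤ y := by exact_mod_cast hy3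
  have hL0 : 0 < Real.log y := Real.log_pos (by linarith)
  obtain ⟨k, hk⟩ : ∃ k : ℕ, k = kyg K (y : ℝ) := ⟨_, rfl⟩
  obtain ⟨W, hW⟩ : ∃ W : Set ℤ, W = {b : ℤ | ¬ ∃ t : ℕ, ((t + k : ℕ) : ℝ) ≤ Real.log y / PL.gam d m + w * Real.sqrt (Real.log y) ∧
    ((T d m r)^[t] b : ℝ) ≤ B} := ⟨_, rfl⟩
  have h6 := hY0 y y ((le_max_left _ _).trans ((le_max_left _ _).trans hy)) (by rw [Real.rpow_one]) le_rfl W
  rw [← hk] at h6 g4
  -- the integers
  have h7 : ({n : ℤ | (y : ℤ) < n ∧ n ≤ y + y ∧ (T d m r)^[k] n ∈ W}.ncard : ℝ) ≤ ε * y := by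
    obtain ⟨A, hA⟩ : ∃ A : Set ℤ, A = {n : ℤ | (y : ℝ) ≤ n ∧ (n : ℝ) < 2 * y ∧ n ∈ ST.early d m r {n : ℤ | (n : ℝ) ≤ B} u} := ⟨_, rfl⟩
    obtain ⟨S, hS⟩ : ∃ S : Set ℤ, S = {n : ℤ | (y : ℤ) < n ∧ n ≤ y + y ∧ (T d m r)^[k] n ∈ W} := ⟨_, rfl⟩
    have hAc : (1 - ε / 2) * y ≤ (A.ncard : ℝ) := by
      have : fd (ST.early d m r {n : ℤ | (n : ℝ) ≤ B} u) (y : ℝ) = (A.ncard : ℝ) / y := by
        unfold fd
        rw [hA]
      rw [this, le_div_iff₀ (by linarith)] at g2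
      exact g2
    have hsubA : A ⊆ ((Finset.Icc (y : ℤ) (y + y) : Finset ℤ) : Set ℤ) := by
      rw [hA]
      rintro n ⟨a, b, -⟩
      have a' : (y : ℤ) ≤ n := by exact_mod_cast a
      have b' : n < 2 * (y : ℤ) := by exact_mod_cast b
      exact Finset.mem_coe.2 (Finset.mem_Icc.2 ⟨a', by omega⟩)
    have hsubS : S ⊆ ((Finset.Icc (y : ℤ) (y + y) : Finset ℤ) : Set ℤ) := by
      rw [hS]
      rintro n ⟨a, b, -⟩
      exact Finset.mem_coe.2 (Finset.mem_Icc.2 ⟨a.le, b⟩)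
    have hdisj : Disjoint A S := by
      rw [Set.disjoint_left, hA, hS]
      rintro n ⟨a1, a2, t, a3, a4⟩ ⟨b1, b2, b3⟩
      have hkt : k ≤ t := by
        by_contra hcon
        push Not at hcon
        have h8 := g4 n b1 t hcon
        have h9 : (((T d m r)^[t] n : ℤ) : ℝ) ≤ B := a3
        linarith
      obtain ⟨s, rfl⟩ := Nat.exists_eq_add_of_le' hkt
      rw [hW] at b3
      apply b3
      refine ⟨s, ?_, ?_⟩
      · have hn2 : (n : ℝ) ≤ 2 * y := a2.le
        have hn0 : (0 : ℝ) < n := by linarith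
        have e1 : Real.log n ≤ Real.log y + Real.log 2 := by
          have := Real.log_le_log hn0 hn2
          rw [Real.log_mul (by norm_num) (by linarith)] at this
          linarith
        have hl2 : Real.log 2 ≤ 1 := by
          have := Real.log_two_lt_d9
          linarith
        have hl20 : 0 < Real.log 2 := Real.log_pos (by norm_num)
        have e2 : Real.sqrt (Real.log n) ≤ Real.sqrt (Real.log y) + 1 := by
          calc Real.sqrt (Real.log n) ≤ Real.sqrt (Real.log y + Real.log 2) := Real.sqrt_le_sqrt e1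
            _ ≤ Real.sqrt (Real.log y) + 1 := by
              rw [Real.sqrt_le_iff]
              have h10 := Real.sq_sqrt hL0.le
              have h11 := Real.sqrt_nonneg (Real.log (y : ℝ))
              exact ⟨by positivity, by nlinarith⟩
        have e3 : Real.log n / PL.gam d m ≤ Real.log y / PL.gam d m + Real.log 2 / PL.gam d m := by
          rw [← add_div]
          exact div_le_div_of_nonneg_right e1 hγ.le
        refine a4.trans ?_
        rw [← hσd]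
        have e4 : u * σ * Real.sqrt (Real.log n) ≤ u * σ * (Real.sqrt (Real.log y) + 1) :=
          mul_le_mul_of_nonneg_left e2 (by positivity)
        rw [hw]
        nlinarith
      · rw [← Function.iterate_add_apply]
        exact a3
    have h8 : A.ncard + S.ncard ≤ y + 1 := by
      rw [← Set.ncard_union_eq hdisj ((Finset.finite_toSet _).subset hsubA) ((Finset.finite_toSet _).subset hsubS)]
      have h9 := Set.ncard_le_ncard (Set.union_subset hsubA hsubS) (Finset.finite_toSet _)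
      rw [Set.ncard_coe_finset, Int.card_Icc] at h9
      omega
    have h9 : (A.ncard : ℝ) + (S.ncard : ℝ) ≤ y + 1 := by exact_mod_cast h8
    rw [← hS]
    linarith
  refine le_trans (Nat.cast_le.2 (Set.ncard_le_ncard ?_ ?_)) (h6 h7)
  · rintro p ⟨a1, a2, a3, a4⟩
    refine ⟨a1, a2, a3, ?_⟩
    rw [hW]
    rintro ⟨t, b1, b2⟩
    apply a4
    have hpR : (y : ℝ) ≤ (((p : ℤ)) : ℝ) := by exact_mod_cast a2.le
    have e1 : Real.log y ≤ Real.log (((p : ℤ)) : ℝ) := Real.log_le_log (by linarith) hpR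
    refine ⟨t + k, b1.trans ?_, ?_⟩
    · have e2 := div_le_div_of_nonneg_right e1 hγ.le
      have e3 := mul_le_mul_of_nonneg_left (Real.sqrt_le_sqrt e1) hw0
      linarith
    · rw [Function.iterate_add_apply]
      exact b2
  · exact (Set.finite_Icc 0 (y + y)).subset fun p hp => ⟨Nat.zero_le _, hp.2.2.1⟩

/-- **Almost all primes reach small values in time.** -/
theorem tao_time (h : POSB.Std d m r) (h5 : S5gStmt d m r) {f : ℕ → ℝ} (hf : Tendsto f atTop atTop) :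
    AAP (fun p => ∃ t : ℕ, (t : ℝ) ≤ Real.log p / PL.gam d m + f p * Real.sqrt (Real.log p) ∧
      ((T d m r)^[t] (p : ℤ) : ℝ) ≤ f p) := by
  refine aap_of fun ξ hξ => ?_
  obtain ⟨B, w, Y, hY⟩ := slow_primes h h5 (η := ξ / 12) (by positivity)
  have h1 := dyadic_sum (P := fun p => ¬ Fast d m r B w (p : ℤ)) (η := ξ / 12) (by positivity) hY
  obtain ⟨P0, hP0⟩ := eventually_atTop.1 (hf.eventually_ge_atTop (max B w))
  have t2 : ∀ᶠ x : ℝ in atTop, (P0 : ℝ) ≤ ξ / 4 * (x / Real.log x) :=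
    (div_log_tendsto.const_mul_atTop (by positivity)).eventually_ge_atTop _
  filter_upwards [h1, t2, cp_low] with x hx1 hx2 hx3
  have h4 : cp (fun p => ¬ ∃ t : ℕ, (t : ℝ) ≤ Real.log p / PL.gam d m + f p * Real.sqrt (Real.log p) ∧
      ((T d m r)^[t] (p : ℤ) : ℝ) ≤ f p) x ≤ cp (fun p => ¬ Fast d m r B w (p : ℤ)) x + P0 := by
    unfold cp
    have h5 : {p : ℕ | p.Prime ∧ (p : ℝ) ≤ x ∧ ¬ ∃ t : ℕ, (t : ℝ) ≤ Real.log p / PL.gam d m + f p * Real.sqrt (Real.log p) ∧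
        ((T d m r)^[t] (p : ℤ) : ℝ) ≤ f p} ⊆
        {p : ℕ | p.Prime ∧ (p : ℝ) ≤ x ∧ ¬ Fast d m r B w (p : ℤ)} ∪ ((Finset.range P0 : Finset ℕ) : Set ℕ) := by
      rintro p ⟨a, b, c⟩
      rcases lt_or_ge p P0 with hp | hp
      · exact Or.inr (Finset.mem_coe.2 (Finset.mem_range.2 hp))
      · refine Or.inl ⟨a, b, fun ⟨t, ht1, ht2⟩ => c ⟨t, ?_, ?_⟩⟩
        · have h8 := hP0 p hp
          have h9 : w ≤ f p := (le_max_right _ _).trans h8
          have h10 := mul_le_mul_of_nonneg_right h9 (Real.sqrt_nonneg (Real.log (p : ℝ)))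
          have e : (((p : ℤ)) : ℝ) = (p : ℝ) := by push_cast; rfl
          rw [e] at ht1
          linarith
        · exact ht2.trans ((le_max_left _ _).trans (hP0 p hp))
    have h6 := (Set.ncard_le_ncard h5 ((finite_cp _ x).union (Finset.finite_toSet _))).trans (Set.ncard_union_le _ _)
    rw [Set.ncard_coe_finset, Finset.card_range] at h6
    exact_mod_cast h6
  have h7 : ξ / 2 * (x / Real.log x) ≤ ξ * cp (fun _ => True) x := by
    have := mul_le_mul_of_nonneg_left hx3 hξ.le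
    linarith
  linarith

end Pool.Agent.Helper28.PR
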