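import Pool.Agent.Helper28.PR.F6

/-!
# PRIMES, block S6, part 7: sets of density zero and one
-/

set_option autoImplicit false

namespace Pool.Agent.Helper28.PR

open Filter Topology
open Pool.Agent.Helper68.Moeller Pool.Agent.Helper52.Tao Pool.Agent.Helper8.ND Pool.Agent.Helper8 Pool.Agent.Helper91

variable {d m : ℕ} {r : ℤ → ℤ} {ρ : ℤ}

theorem cum_of_np {P : ℕ → Prop} {η X : ℝ} (hη : 0 < η) (h : ∀ x : ℝ, X ≤ x → np P x ≤ η * (x / Real.log x)) :
    ∀ᶠ x : ℝ in atTop, cp P x ≤ 6 * η * (x / Real.log x) := by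
  have h1 := dyadic_sum (P := P) (η := 2 * η) (by positivity) (Y := max ⌈X⌉₊ 3) (fun y hy => by
    have hy1 : X ≤ y := (Nat.le_ceil X).trans (by exact_mod_cast (le_max_left _ _).trans hy)
    have hy3 : 3 ≤ y := (le_max_right _ _).trans hy
    have hyR : (3 : ℝ) ≤ y := by exact_mod_cast hy3
    have h2 := h ((y : ℝ) + 1 / 2) (by linarith)
    have h3 : ({p : ℕ | p.Prime ∧ y < p ∧ p ≤ y + y ∧ P p}.ncard : ℝ) ≤ np P ((y : ℝ) + 1 / 2) := by
      unfold np
      refine Nat.cast_le.2 (Set.ncard_le_ncard ?_ (finite_np P _))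
      rintro p ⟨a, b, c, e⟩
      have b' : (y : ℝ) + 1 ≤ p := by exact_mod_cast b
      have c' : (p : ℝ) ≤ y + y := by exact_mod_cast c
      exact ⟨a, by linarith, by linarith, e⟩
    have hl : 0 < Real.log y := Real.log_pos (by linarith)
    have h4 : ((y : ℝ) + 1 / 2) / Real.log ((y : ℝ) + 1 / 2) ≤ 2 * (y / Real.log y) := by
      rw [← mul_div_assoc]
      refine div_le_div₀ (by positivity) (by linarith) hl (Real.log_le_log (by linarith) (by linarith))
    calc _ ≤ η * (((y : ℝ) + 1 / 2) / Real.log ((y : ℝ) + 1 / 2)) := h3.trans h2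
      _ ≤ η * (2 * (y / Real.log y)) := mul_le_mul_of_nonneg_left h4 hη.le
      _ = _ := by ring)
  filter_upwards [h1] with x hx
  calc cp P x ≤ 3 * (2 * η) * (x / Real.log x) := hx
    _ = _ := by ring

/-- Invariant sets of density zero contain almost no primes. -/
theorem null_primes (h : POSB.Std d m r) (h5 : S5gStmt d m r) {z : ℝ} (hz : 0 ≤ z) {G : Set ℤ} (hG : TInv d m r G z)
    (hD : PL.dens G = 0) : AAP (fun p => (p : ℤ) ∉ G) := by
  refine aap_of fun ξ hξ => ?_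
  obtain ⟨ε, hε, h1⟩ := small_dens h h5 (η := ξ / 12) (by positivity)
  obtain ⟨X, hX⟩ := h1 z hz
  have h2 := cum_of_np (P := fun p => (p : ℤ) ∈ G) (η := ξ / 12) (by positivity) (hX G hG (by rw [hD]; exact hε.le))
  filter_upwards [h2, cp_low] with x hx1 hx2
  have h3 : cp (fun p : ℕ => ¬ ((p : ℤ) ∉ G)) x ≤ cp (fun p : ℕ => (p : ℤ) ∈ G) x :=
    cp_mono (fun p _ hp => not_not.1 hp) x
  have h4 := mul_le_mul_of_nonneg_left hx2 hξ.le
  linarith

theorem dens_le_one (h : POSB.Std d m r) {z : ℝ} {G : Set ℤ} (hG : TInv d m r G z) : PL.dens G ≤ 1 := by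
  refine le_of_tendsto (POSB.tendsto_dens h hG) ?_
  filter_upwards [eventually_gt_atTop 0] with x hx
  rw [div_le_one hx]
  exact cN_le G hx.le

theorem dens_compl (h : POSB.Std d m r) {z : ℝ} {G : Set ℤ} (hG : TInv d m r G z) : PL.dens Gᶜ = 1 - PL.dens G := by
  have h1 := POSB.dens_union h hG hG.compl disjoint_compl_right
  rw [Set.union_compl_self, POSB.dens_univ h (fun n _ => Iff.rfl) fun n _ => Set.mem_univ n] at h1
  linarith

/-- Almost all primes belong to an invariant set if and only if its density is `1`. -/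
theorem one_primes {r : ℤ → ℤ} (h : POSB.Std 2 3 r) (h5 : S5gStmt 2 3 r)
    (hin : ∃ c : ℝ, 0 < c ∧ ∀ z D : ℝ, 0 ≤ z → 0 < D → ∃ X : ℝ, ∀ G : Set ℤ,
      TInv 2 3 r G z → (∀ᶠ x in atTop, D ≤ fd G x) → ∀ x : ℝ, X ≤ x →
        c * D * (x / Real.log x) ≤ np (fun p => (p : ℤ) ∈ G) x)
    {z : ℝ} (hz : 0 ≤ z) {G : Set ℤ} (hG : TInv 2 3 r G z) :
    AAP (fun p => (p : ℤ) ∈ G) ↔ PL.dens G = 1 := by
  constructor
  · intro hA
    by_contra hne
    have h1 := dens_compl h hG
    have h2 : 0 < PL.dens Gᶜ := by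
      rw [h1]
      have := lt_of_le_of_ne (dens_le_one h hG) hne
      linarith
    obtain ⟨c, hc, h3⟩ := hin
    obtain ⟨X, hX⟩ := h3 z (PL.dens Gᶜ / 2) hz (by positivity)
    have hfd : ∀ᶠ x in atTop, PL.dens Gᶜ / 2 ≤ fd Gᶜ x := by
      have h := (PL.stab_tendsto h.hd h.hdm h.hco h.hr h.gam h.mix hG.compl).eventually
        (lt_mem_nhds (by linarith : PL.dens Gᶜ / 2 < PL.dens Gᶜ))
      exact h.mono fun x hx => hx.le
    refine aap_contra hA (c := c * (PL.dens Gᶜ / 2)) (by positivity) ?_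
    filter_upwards [eventually_ge_atTop X] with x hx
    exact hX _ hG.compl hfd x hx
  · intro hD
    have h1 := null_primes h h5 hz hG.compl (by rw [dens_compl h hG, hD, sub_self])
    have e : (fun p : ℕ => (p : ℤ) ∉ Gᶜ) = fun p : ℕ => (p : ℤ) ∈ G := by
      funext p
      exact propext not_not
    rw [e] at h1
    exact h1

end Pool.Agent.Helper28.PR
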