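import Pool.Agent.Helper28.PR.Defs
import Pool.Agent.Helper28.POSB.Inv
import Pool.Agent.Helper91.PL.DT
import Pool.Agent.Helper52.Tao.A3

/-!
# PRIMES (MP_fd8838_nt), block S2: most words have a bounded multiplicity
-/

set_option autoImplicit false

namespace Pool.Agent.Helper28.PR

open Pool.Agent.Helper68.Moeller Pool.Agent.Helper52.Tao Pool.Agent.Helper8.ND
  Pool.Agent.Helper8.CL Pool.Agent.Helper91.PL Filter Topology

/-- The number of the words with `j` ones. -/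
theorem s2_card (k j : ℕ) : cW 2 k (fun w => sg w = j) = (k.choose j : ℝ) := by
  classical
  have h := card_sg_eq 0 k j
  rw [Polynomial.C_0, zero_mul, add_zero, Polynomial.coeff_one_add_X_pow] at h
  unfold cW
  rw [← Nat.cast_id (k.choose j), ← h]
  congr!

/-- Removing `t` digits divides a binomial coefficient near the centre by almost `2 ^ t`. -/
theorem s2_ratio (k0 : ℕ) (ε : ℝ) (hε : 0 ≤ ε) (t : ℕ) : ∀ (s j : ℕ) (D : ℝ), s ≤ t → s ≤ j →
    |2 * (j : ℝ) - ((k0 : ℝ) + t)| ≤ D → D + t ≤ ε * (k0 + 1) →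
      (k0.choose (j - s) : ℝ) ≤ ((1 + ε) / 2) ^ t * ((k0 + t).choose j : ℝ) := by
  induction t with
  | zero =>
    intro s j D hs _ _ _
    obtain rfl : s = 0 := by omega
    simp
  | succ t ih =>
    intro s j D hs hsj hD hDt
    rw [abs_le] at hD
    push_cast at hD hDt
    have hk0 : (0 : ℝ) ≤ k0 := by positivity
    have ht0 : (0 : ℝ) ≤ t := by positivity
    have hD0 : 0 ≤ D := by linarith [hD.1, hD.2]
    -- the factor of one step
    have hfac : ((k0 : ℝ) + t + 1) + D ≤ (1 + ε) * ((k0 : ℝ) + t + 1) := by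
      have : ε * (k0 + 1) ≤ ε * (k0 + t + 1) := mul_le_mul_of_nonneg_left (by linarith) hε
      linarith
    rcases Nat.eq_zero_or_pos s with rfl | hs0
    · -- remove a zero
      have h1 := ih 0 j (D + 1) (Nat.zero_le _) (Nat.zero_le _) (by rw [abs_le]; constructor <;> linarith)
        (by linarith)
      refine h1.trans ?_
      rw [pow_succ, mul_assoc]
      refine mul_le_mul_of_nonneg_left ?_ (by positivity)
      rw [show k0 + (t + 1) = (k0 + t) + 1 by ring]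
      rcases Nat.lt_or_ge (k0 + t + 1) j with hj | hj
      · rw [Nat.choose_eq_zero_of_lt (show k0 + t < j by omega)]
        rw [Nat.cast_zero]
        positivity
      · have h2 := Nat.choose_mul_succ_eq (k0 + t) j
        have h3 : ((k0 + t).choose j : ℝ) * ((k0 : ℝ) + t + 1) =
            ((k0 + t + 1).choose j : ℝ) * ((k0 : ℝ) + t + 1 - j) := by
          have h4 : (((k0 + t).choose j * (k0 + t + 1) : ℕ) : ℝ) =
              (((k0 + t + 1).choose j * (k0 + t + 1 - j) : ℕ) : ℝ) := by exact_mod_cast h2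
          rw [Nat.cast_mul, Nat.cast_mul, Nat.cast_sub hj] at h4
          push_cast at h4
          exact h4
        have hC0 : (0 : ℝ) ≤ ((k0 + t + 1).choose j : ℝ) := by positivity
        have hp : (0 : ℝ) < (k0 : ℝ) + t + 1 := by positivity
        refine le_of_mul_le_mul_right ?_ hp
        rw [h3]
        have h5 : (k0 : ℝ) + t + 1 - j ≤ (1 + ε) / 2 * ((k0 : ℝ) + t + 1) := by linarith [hD.1]
        calc ((k0 + t + 1).choose j : ℝ) * ((k0 : ℝ) + t + 1 - j)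
            ≤ ((k0 + t + 1).choose j : ℝ) * ((1 + ε) / 2 * ((k0 : ℝ) + t + 1)) :=
              mul_le_mul_of_nonneg_left h5 hC0
          _ = (1 + ε) / 2 * ((k0 + t + 1).choose j : ℝ) * ((k0 : ℝ) + t + 1) := by ring
    · -- remove a one
      obtain ⟨s', rfl⟩ : ∃ s', s = s' + 1 := ⟨s - 1, by omega⟩
      obtain ⟨j', rfl⟩ : ∃ j', j = j' + 1 := ⟨j - 1, by omega⟩
      push_cast at hD
      have h1 := ih s' j' (D + 1) (by omega) (by omega) (by rw [abs_le]; constructor <;> linarith)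
        (by linarith)
      rw [show j' + 1 - (s' + 1) = j' - s' by omega]
      refine h1.trans ?_
      rw [pow_succ, mul_assoc]
      refine mul_le_mul_of_nonneg_left ?_ (by positivity)
      rw [show k0 + (t + 1) = (k0 + t) + 1 by ring]
      have h2 := Nat.add_one_mul_choose_eq (k0 + t) j'
      have h3 : ((k0 : ℝ) + t + 1) * ((k0 + t).choose j' : ℝ) =
          ((k0 + t + 1).choose (j' + 1) : ℝ) * ((j' : ℝ) + 1) := by exact_mod_cast h2
      have hC0 : (0 : ℝ) ≤ ((k0 + t + 1).choose (j' + 1) : ℝ) := by positivity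
      have hp : (0 : ℝ) < (k0 : ℝ) + t + 1 := by positivity
      refine le_of_mul_le_mul_left ?_ hp
      rw [h3]
      have h5 : (j' : ℝ) + 1 ≤ (1 + ε) / 2 * ((k0 : ℝ) + t + 1) := by linarith [hD.2]
      calc ((k0 + t + 1).choose (j' + 1) : ℝ) * ((j' : ℝ) + 1)
          ≤ ((k0 + t + 1).choose (j' + 1) : ℝ) * ((1 + ε) / 2 * ((k0 : ℝ) + t + 1)) :=
            mul_le_mul_of_nonneg_left h5 hC0
        _ = ((k0 : ℝ) + t + 1) * ((1 + ε) / 2 * ((k0 + t + 1).choose (j' + 1) : ℝ)) := by ring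

variable {r : ℤ → ℤ}

/-- Related words in terms of `F`. -/
theorem s2_rel {k : ℕ} {e : ℤ} (he : (3 : ℤ) ^ k ∣ 2 * e - 1) {w w' : List ℕ} (hw : w ∈ W 2 k) (hw' : w' ∈ W 2 k)
    {j : ℕ} (hj : j ≤ k) : (3 : ℤ) ^ j ∣ Off 2 3 r w' - Off 2 3 r w ↔ (3 : ℤ) ^ j ∣ F 3 r e w' - F 3 r e w := by
  have he' : (3 : ℤ) ^ j ∣ ((2 : ℕ) : ℤ) * e - 1 := (pow_dvd_pow _ hj).trans (by exact_mod_cast he)
  have h1 := F_modEq (d := 2) (m := 3) (r := r) he' w
  have h2 := F_modEq (d := 2) (m := 3) (r := r) he' w'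
  rw [length_of_mem_W hw] at h1
  rw [length_of_mem_W hw'] at h2
  have h3 : (3 : ℤ) ^ j ∣ (2 : ℤ) ^ k * e ^ k - 1 := by
    rw [← mul_pow]
    have h4 : (2 : ℤ) * e - 1 ∣ (2 * e) ^ k - 1 := by simpa using sub_dvd_pow_sub_pow ((2 : ℤ) * e) 1 k
    exact he'.trans (by exact_mod_cast h4)
  constructor
  · intro h
    have h5 : F 3 r e w' - F 3 r e w = (F 3 r e w' + e ^ k * Off 2 3 r w') - (F 3 r e w + e ^ k * Off 2 3 r w) -
        e ^ k * (Off 2 3 r w' - Off 2 3 r w) := by ring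
    rw [h5]
    exact _root_.dvd_sub (_root_.dvd_sub h2 h1) (h.mul_left _)
  · intro h
    have h5 : Off 2 3 r w' - Off 2 3 r w = 2 ^ k * (((F 3 r e w' + e ^ k * Off 2 3 r w') -
        (F 3 r e w + e ^ k * Off 2 3 r w)) - (F 3 r e w' - F 3 r e w)) -
        ((2 : ℤ) ^ k * e ^ k - 1) * (Off 2 3 r w' - Off 2 3 r w) := by ring
    rw [h5]
    exact _root_.dvd_sub ((_root_.dvd_sub (_root_.dvd_sub h2 h1) h).mul_left _) (h3.mul_right _)

/-- The multiplicity as a count of the words with a given residue. -/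
theorem s2_mult {k : ℕ} {e : ℤ} (he : (3 : ℤ) ^ k ∣ 2 * e - 1) {w : List ℕ} (hw : w ∈ W 2 k) {X : ℕ}
    (hX : (3 : ℤ) ^ sg w ∣ (X : ℤ) - F 3 r e w) : mult r k w = MX2.p 2 3 r e k (sg w) (sg w) X := by
  have hj : sg w ≤ k := by
    have := sg_le_length w
    rwa [length_of_mem_W hw] at this
  unfold mult MX2.p
  refine cW_congr fun w' hw' => ?_
  unfold Rel
  refine and_congr_right fun _ => ?_
  rw [s2_rel he hw hw' hj]
  have h1 : (X : ℤ) - F 3 r e w' = ((X : ℤ) - F 3 r e w) - (F 3 r e w' - F 3 r e w) := by ring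
  constructor
  · intro h
    have h2 := _root_.dvd_sub hX h
    rw [← h1] at h2
    exact_mod_cast h2
  · intro h
    have h' : (3 : ℤ) ^ sg w ∣ (X : ℤ) - F 3 r e w' := by exact_mod_cast h
    have h2 := _root_.dvd_sub hX h'
    have h3 : ((X : ℤ) - F 3 r e w) - ((X : ℤ) - F 3 r e w') = F 3 r e w' - F 3 r e w := by ring
    rwa [h3] at h2

/-- The words with `j` ones and a large multiplicity. -/
theorem s2_level {k : ℕ} {e : ℤ} (he : (3 : ℤ) ^ k ∣ 2 * e - 1) (j : ℕ) (V : ℝ) :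
    cW 2 k (fun w => sg w = j ∧ V < mult r k w) ≤
      ∑ X ∈ Finset.range (3 ^ j), if V < MX2.p 2 3 r e k j j X then MX2.p 2 3 r e k j j X else 0 := by
  classical
  rw [← Finset.sum_filter]
  refine le_trans ?_ (cW_exists_le 2 k _ (fun X w => sg w = j ∧ ((3 : ℕ) : ℤ) ^ j ∣ ((X : ℕ) : ℤ) - F 3 r e w))
  refine cW_mono fun w hw hw2 => ?_
  obtain ⟨hsj, hV⟩ := hw2
  have h3 : (0 : ℤ) < 3 ^ j := by positivity
  refine ⟨(F 3 r e w % 3 ^ j).toNat, ?_, hsj, ?_⟩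
  · have h1 : (((F 3 r e w % 3 ^ j).toNat : ℕ) : ℤ) = F 3 r e w % 3 ^ j := Int.toNat_of_nonneg (Int.emod_nonneg _ h3.ne')
    have h2 : (3 : ℤ) ^ sg w ∣ (((F 3 r e w % 3 ^ j).toNat : ℕ) : ℤ) - F 3 r e w := by
      rw [h1, hsj]
      exact Int.dvd_sub_self_of_emod_eq rfl
    rw [Finset.mem_filter, Finset.mem_range]
    constructor
    · have h4 : F 3 r e w % 3 ^ j < 3 ^ j := Int.emod_lt_of_pos _ h3
      rw [← h1] at h4
      exact_mod_cast h4
    · have h5 := s2_mult he hw h2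
      rw [hsj] at h5
      rwa [h5] at hV
  · have h1 : (((F 3 r e w % 3 ^ j).toNat : ℕ) : ℤ) = F 3 r e w % 3 ^ j := Int.toNat_of_nonneg (Int.emod_nonneg _ h3.ne')
    rw [h1]
    have := Int.dvd_sub_self_of_emod_eq (a := F 3 r e w) (b := 3 ^ j) rfl
    exact_mod_cast this

/-- From the residues modulo `3 ^ j` to the residues modulo `3 ^ l`. -/
theorem s2_osc {k j l : ℕ} {e : ℤ} (hlj : l ≤ j) (V : ℝ) :
    (∑ X ∈ Finset.range (3 ^ j), if V < MX2.p 2 3 r e k j j X then MX2.p 2 3 r e k j j X else 0) ≤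
      2 * Osc 2 3 r e k j j l +
        ∑ Y ∈ Finset.range (3 ^ l), if V / 2 * 3 ^ (j - l) < MX2.p 2 3 r e k j l Y then 2 * MX2.p 2 3 r e k j l Y else 0 := by
  have hlift := MX2.sum_p_lift (m := 3) (by norm_num) hlj
    (fun Y => if V / 2 * 3 ^ (j - l) < MX2.p 2 3 r e k j l Y then 2 * MX2.p 2 3 r e k j l Y else 0)
    (fun X => by simp only [MX2.p_add_pow le_rfl])
  rw [← hlift, MX2.Osc_eq, Finset.mul_sum, ← Finset.sum_add_distrib]
  refine Finset.sum_le_sum fun X _ => ?_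
  have hp0 := MX2.p_nonneg (d := 2) (m := 3) (r := r) (e := e) (t := k) (S := j) j X
  have hg0 := MX2.p_nonneg (d := 2) (m := 3) (r := r) (e := e) (t := k) (S := j) l X
  obtain ⟨a, ha⟩ : ∃ a : ℝ, a = MX2.p 2 3 r e k j j X := ⟨_, rfl⟩
  obtain ⟨g, hg⟩ : ∃ g : ℝ, g = MX2.p 2 3 r e k j l X := ⟨_, rfl⟩
  rw [← ha] at hp0 ⊢
  rw [← hg] at hg0 ⊢
  have h3 : (0 : ℝ) < (3 : ℝ) ^ (j - l) := by positivity
  have hcast : ((3 : ℕ) : ℝ) = 3 := by norm_num
  rw [hcast]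
  obtain ⟨g', hg'⟩ : ∃ g' : ℝ, g' = g / 3 ^ (j - l) := ⟨_, rfl⟩
  have hgg : g = g' * 3 ^ (j - l) := by rw [hg']; field_simp
  have hg'0 : 0 ≤ g' := by rw [hg']; exact div_nonneg hg0 h3.le
  rw [← hg']
  have habs := neg_abs_le (a - g')
  have habs2 := le_abs_self (a - g')
  have habs3 := abs_nonneg (a - g')
  by_cases hV : V < a
  · rw [if_pos hV]
    by_cases hV2 : V / 2 * 3 ^ (j - l) < g
    · rw [if_pos hV2]
      have : 2 * g / (3 : ℝ) ^ (j - l) = 2 * g' := by rw [hg']; ring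
      rw [this]
      linarith
    · rw [if_neg hV2, zero_div]
      have h5 : g' ≤ V / 2 := by
        rw [hg', div_le_iff₀ h3]
        exact not_lt.1 hV2
      linarith
  · rw [if_neg hV]
    by_cases hV2 : V / 2 * 3 ^ (j - l) < g
    · rw [if_pos hV2]
      have : 2 * g / (3 : ℝ) ^ (j - l) = 2 * g' := by rw [hg']; ring
      rw [this]
      linarith
    · rw [if_neg hV2, zero_div]
      linarith

/-- The head of the word determines the residue modulo `3 ^ l`. -/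
theorem s2_head {k j l t : ℕ} {e : ℤ} (he : (3 : ℤ) ^ k ∣ 2 * e - 1) (hlt : l ≤ t) (htk : t ≤ k) {c : ℝ}
    (hratio : ∀ s : ℕ, s ≤ t → cW 2 (k - t) (fun v => s + sg v = j) ≤ c / 2 ^ t) (Y : ℕ) :
    MX2.p 2 3 r e k j l Y ≤ c * nut 2 3 r t l Y +
      cW 2 k (fun w => (sg w = j ∧ sg (w.take t) < l) ∧ Hit 2 3 r l (Y : ℤ) w) := by
  classical
  have hek : ((3 : ℕ) : ℤ) ^ k ∣ ((2 : ℕ) : ℤ) * e - 1 := by exact_mod_cast he
  have het : ((3 : ℕ) : ℤ) ^ t ∣ ((2 : ℕ) : ℤ) * e - 1 := (pow_dvd_pow _ htk).trans hek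
  have hkt : k = t + (k - t) := by omega
  have h1 : MX2.p 2 3 r e k j l Y = cW 2 k (fun w => sg w = j ∧ Hit 2 3 r l (Y : ℤ) w) := by
    unfold MX2.p
    refine cW_congr fun w hw => and_congr_right fun _ => ?_
    exact dt_hit_iff hek (hlt.trans htk) hw _
  have h2 : cW 2 k (fun w => sg w = j ∧ Hit 2 3 r l (Y : ℤ) w) ≤
      cW 2 k (fun w => (sg w = j ∧ Hit 2 3 r l (Y : ℤ) w) ∧ l ≤ sg (w.take t)) +
        cW 2 k (fun w => (sg w = j ∧ sg (w.take t) < l) ∧ Hit 2 3 r l (Y : ℤ) w) := by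
    refine le_trans (cW_mono fun w _ hw => ?_) (cW_or_le _ _ _ _)
    rcases Nat.lt_or_ge (sg (w.take t)) l with h | h
    · exact Or.inr ⟨⟨hw.1, h⟩, hw.2⟩
    · exact Or.inl ⟨hw, h⟩
  rw [h1]
  refine h2.trans (add_le_add ?_ le_rfl)
  -- the main part
  have h3 : cW 2 k (fun w => (sg w = j ∧ Hit 2 3 r l (Y : ℤ) w) ∧ l ≤ sg (w.take t)) =
      ∑ u ∈ W 2 t, cW 2 (k - t) (fun v => (sg (u ++ v) = j ∧ Hit 2 3 r l (Y : ℤ) (u ++ v)) ∧
        l ≤ sg ((u ++ v).take t)) := by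
    conv_lhs => rw [hkt]
    rw [cW_add]
  rw [h3]
  have h4 : ∀ u ∈ W 2 t, cW 2 (k - t) (fun v => (sg (u ++ v) = j ∧ Hit 2 3 r l (Y : ℤ) (u ++ v)) ∧
        l ≤ sg ((u ++ v).take t)) ≤ if l ≤ sg u ∧ Hit 2 3 r l (Y : ℤ) u then c / 2 ^ t else 0 := by
    intro u hu
    have htake : ∀ v : List ℕ, (u ++ v).take t = u := by
      intro v
      rw [← length_of_mem_W hu]
      exact List.take_left
    have hsu : sg u ≤ t := by
      have := sg_le_length u
      rwa [length_of_mem_W hu] at this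
    split_ifs with hif
    · refine le_trans (cW_mono fun v _ hv => ?_) (hratio (sg u) hsu)
      rw [← sg_append]
      exact hv.1.1
    · have h5 : cW 2 (k - t) (fun v => (sg (u ++ v) = j ∧ Hit 2 3 r l (Y : ℤ) (u ++ v)) ∧
          l ≤ sg ((u ++ v).take t)) ≤ cW 2 (k - t) (fun _ => False) := by
        refine cW_mono fun v _ hv => hif ?_
        rw [htake v] at hv
        exact ⟨hv.2, nua_hit_of_append (d := 2) (m := 3) (by norm_num) hv.2 hv.1.2⟩
      refine h5.trans (le_of_eq ?_)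
      simp [cW]
  refine (Finset.sum_le_sum h4).trans (le_of_eq ?_)
  unfold nut
  rw [cW_eq_sum, ← Finset.sum_filter, ← Finset.sum_filter, Finset.sum_const, Finset.sum_const, nsmul_eq_mul, nsmul_eq_mul]
  push_cast
  ring

/-- Uniform integrability of the densities of the limit law. -/
theorem s2_ui (hmix : Mixing 2 3 r) {δ : ℝ} (hδ : 0 < δ) : ∃ (K : ℝ) (l0 : ℕ), 0 < K ∧ ∀ l : ℕ, l0 ≤ l →
    (∑ Y ∈ Finset.range (3 ^ l), if K < 3 ^ l * nu 2 3 r l Y then nu 2 3 r l Y else 0) ≤ δ := by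
  obtain ⟨k0, h0⟩ := nu_cauchy (d := 2) (m := 3) (r := r) (by norm_num) (by norm_num) (by norm_num) hmix
    (ε := δ / 2) (by positivity)
  refine ⟨2 * 3 ^ k0, k0, by positivity, fun l hl => ?_⟩
  have h1 := h0 k0 l le_rfl hl
  have h2 : (∑ Y ∈ Finset.range (3 ^ l), if (2 : ℝ) * 3 ^ k0 < 3 ^ l * nu 2 3 r l Y then nu 2 3 r l Y else 0) ≤
      ∑ Y ∈ Finset.range (3 ^ l), 2 * |nu 2 3 r l Y - nu 2 3 r k0 Y / ((3 : ℕ) : ℝ) ^ (l - k0)| := by
    refine Finset.sum_le_sum fun Y _ => ?_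
    split_ifs with hY
    · have h3 : nu 2 3 r k0 (Y : ℤ) ≤ 1 := nu_le_one _ _
      obtain ⟨A, hA⟩ : ∃ A : ℝ, A = ((3 : ℕ) : ℝ) ^ (l - k0) := ⟨_, rfl⟩
      obtain ⟨v, hv⟩ : ∃ v : ℝ, v = nu 2 3 r l (Y : ℤ) := ⟨_, rfl⟩
      rw [← hA, ← hv]
      rw [← hv] at hY
      have h4 : A * 3 ^ k0 = 3 ^ l := by
        rw [hA, show ((3 : ℕ) : ℝ) = 3 by norm_num, ← pow_add]
        congr 1
        omega
      have h5 : (0 : ℝ) < A := by rw [hA]; positivity
      have h6 : nu 2 3 r k0 (Y : ℤ) / A ≤ v / 2 := by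
        rw [div_le_iff₀ h5]
        rw [← h4] at hY
        have h7 : (0 : ℝ) < 3 ^ k0 := by positivity
        have h8 : 2 < A * v := by
          refine lt_of_mul_lt_mul_right ?_ h7.le
          linarith
        linarith
      have h7 := le_abs_self (v - nu 2 3 r k0 Y / A)
      linarith
    · positivity
  refine h2.trans ?_
  rw [← Finset.mul_sum]
  linarith

/-- Everything except the choice of the parameters. -/
theorem s2_core {k l t : ℕ} {e : ℤ} {R K : ℝ} (he : (3 : ℤ) ^ k ∣ 2 * e - 1) (hlt : l ≤ t) (htk : t ≤ k)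
    (J : Finset ℕ) (hJ : ∀ j : ℕ, j ∈ J ↔ j < k + 1 ∧ |(j : ℝ) - (1 - 1 / ((2 : ℕ) : ℝ)) * k| ≤ R)
    (hlj : ∀ j ∈ J, l ≤ j) (hratio : ∀ j ∈ J, ∀ s : ℕ, s ≤ t →
      cW 2 (k - t) (fun v => s + sg v = j) ≤ 2 * (k.choose j : ℝ) / 2 ^ t) :
    cW 2 k (fun w => K * ((k.choose (sg w) : ℝ) / 3 ^ sg w) < mult r k w) ≤
      cW 2 k (fun w => R < |(sg w : ℝ) - (1 - 1 / ((2 : ℕ) : ℝ)) * k|) + ∑ j ∈ J, 2 * Osc 2 3 r e k j j l +
        4 * cW 2 k (fun w => sg (w.take t) < l) +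
          8 * 2 ^ k * ∑ Y ∈ Finset.range (3 ^ l), if K / 8 < 3 ^ l * nu 2 3 r l Y then nu 2 3 r l Y else 0 := by
  classical
  -- the sum over the number of ones
  have hJ' : (Finset.range (k + 1)).filter (fun j : ℕ => j ∈ J) = J := by
    ext j
    rw [Finset.mem_filter, Finset.mem_range]
    exact ⟨fun h => h.2, fun h => ⟨((hJ j).1 h).1, h⟩⟩
  have h1 : cW 2 k (fun w => K * ((k.choose (sg w) : ℝ) / 3 ^ sg w) < mult r k w) ≤
      cW 2 k (fun w => R < |(sg w : ℝ) - (1 - 1 / ((2 : ℕ) : ℝ)) * k|) +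
        ∑ j ∈ J, cW 2 k (fun w => sg w = j ∧ K * ((k.choose j : ℝ) / 3 ^ j) < mult r k w) := by
    have h2 := dt_fiber (d := 2) k (fun j => j ∈ J) (fun w => K * ((k.choose (sg w) : ℝ) / 3 ^ sg w) < mult r k w)
    rw [hJ'] at h2
    have h3 : ∑ j ∈ J, cW 2 k (fun w => sg w = j ∧ K * ((k.choose j : ℝ) / 3 ^ j) < mult r k w) =
        ∑ j ∈ J, cW 2 k (fun w => sg w = j ∧ K * ((k.choose (sg w) : ℝ) / 3 ^ sg w) < mult r k w) := by
      refine Finset.sum_congr rfl fun j _ => cW_congr fun w _ => and_congr_right fun hw => ?_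
      rw [hw]
    rw [h3, ← h2]
    refine le_trans (cW_mono fun w hw hw2 => ?_) (cW_or_le _ _ _ _)
    rcases lt_or_ge R |(sg w : ℝ) - (1 - 1 / ((2 : ℕ) : ℝ)) * k| with h | h
    · exact Or.inl h
    · refine Or.inr ⟨(hJ _).2 ⟨?_, h⟩, hw2⟩
      have := sg_le_length w
      rw [length_of_mem_W hw] at this
      omega
  -- one `j`
  have h2 : ∀ j ∈ J, cW 2 k (fun w => sg w = j ∧ K * ((k.choose j : ℝ) / 3 ^ j) < mult r k w) ≤
      2 * Osc 2 3 r e k j j l + (4 * ∑ Y ∈ Finset.range (3 ^ l),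
        cW 2 k (fun w => (sg w = j ∧ sg (w.take t) < l) ∧ Hit 2 3 r l (Y : ℤ) w) +
        8 * (k.choose j : ℝ) * ∑ Y ∈ Finset.range (3 ^ l), if K / 8 < 3 ^ l * nu 2 3 r l Y then nu 2 3 r l Y else 0) := by
    intro j hj
    refine (s2_level he j _).trans ((s2_osc (hlj j hj) _).trans (add_le_add le_rfl ?_))
    rw [Finset.mul_sum, Finset.mul_sum, ← Finset.sum_add_distrib]
    refine Finset.sum_le_sum fun Y _ => ?_
    have h3 := s2_head (r := r) he hlt htk (hratio j hj) Y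
    have h4 : nut 2 3 r t l (Y : ℤ) ≤ nu 2 3 r l Y := nut_le_nu _ _ _
    have h5 : 0 ≤ nu 2 3 r l (Y : ℤ) := nu_nonneg _ _
    have h6 : (0 : ℝ) ≤ (k.choose j : ℝ) := by positivity
    have h7 := MX2.p_nonneg (d := 2) (m := 3) (r := r) (e := e) (t := k) (S := j) l Y
    have h8 := cW_nonneg 2 k (fun w => (sg w = j ∧ sg (w.take t) < l) ∧ Hit 2 3 r l (Y : ℤ) w)
    obtain ⟨g, hg⟩ : ∃ g : ℝ, g = MX2.p 2 3 r e k j l Y := ⟨_, rfl⟩
    obtain ⟨ρ, hρ⟩ : ∃ ρ : ℝ, ρ = cW 2 k (fun w => (sg w = j ∧ sg (w.take t) < l) ∧ Hit 2 3 r l (Y : ℤ) w) := ⟨_, rfl⟩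
    obtain ⟨v, hv⟩ : ∃ v : ℝ, v = nu 2 3 r l (Y : ℤ) := ⟨_, rfl⟩
    obtain ⟨b, hb⟩ : ∃ b : ℝ, b = (k.choose j : ℝ) := ⟨_, rfl⟩
    rw [← hg, ← hρ, ← hb] at h3
    rw [← hv] at h4 h5 ⊢
    rw [← hg] at h7 ⊢
    rw [← hρ] at h8 ⊢
    rw [← hb] at h6 ⊢
    have h9 : g ≤ 2 * b * v + ρ := h3.trans (by
      have : 2 * b * nut 2 3 r t l (Y : ℤ) ≤ 2 * b * v := mul_le_mul_of_nonneg_left h4 (by linarith)
      linarith)
    split_ifs with c1 c2 c2
    · rcases le_or_gt (g / 2) ρ with h | h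
      · have : 0 ≤ 8 * b * v := by positivity
        linarith
      · linarith
    · rcases le_or_gt (g / 2) ρ with h | h
      · linarith
      · exfalso
        have h10 : g < 4 * b * v := by linarith
        have h11 : K * (b / 3 ^ j) / 2 * 3 ^ (j - l) < 4 * b * v := c1.trans h10
        have h12 : (3 : ℝ) ^ j = 3 ^ (j - l) * 3 ^ l := by
          rw [← pow_add]
          congr 1
          have := hlj j hj
          omega
        have h13 : K * (b / 3 ^ j) / 2 * 3 ^ (j - l) = K * b / 2 / 3 ^ l := by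
          rw [h12]
          field_simp
        rw [h13, div_lt_iff₀ (by positivity)] at h11
        have h14 : b ≠ 0 := by
          rintro h
          rw [h] at h11
          simp at h11
        have h15 : 0 < b := lt_of_le_of_ne h6 (Ne.symm h14)
        apply c2
        refine lt_of_mul_lt_mul_left ?_ h15.le
        linarith
    · positivity
    · linarith
  -- the sum over `j`
  have h3 : ∑ j ∈ J, ∑ Y ∈ Finset.range (3 ^ l),
      cW 2 k (fun w => (sg w = j ∧ sg (w.take t) < l) ∧ Hit 2 3 r l (Y : ℤ) w) ≤ cW 2 k (fun w => sg (w.take t) < l) := by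
    have h4 : ∀ j ∈ J, ∑ Y ∈ Finset.range (3 ^ l),
        cW 2 k (fun w => (sg w = j ∧ sg (w.take t) < l) ∧ Hit 2 3 r l (Y : ℤ) w) ≤
          cW 2 k (fun w => sg w = j ∧ sg (w.take t) < l) := fun j _ =>
      dt_sum_hit_le (d := 2) (m := 3) (by norm_num) k l _
    refine (Finset.sum_le_sum h4).trans ?_
    have h5 := dt_fiber (d := 2) k (fun j => j ∈ J) (fun w => sg (w.take t) < l)
    rw [hJ'] at h5
    rw [← h5]
    exact cW_mono fun w _ hw => hw.2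
  have h4 : ∑ j ∈ J, (k.choose j : ℝ) ≤ 2 ^ k := by
    have h5 : ∑ j ∈ J, (k.choose j : ℝ) ≤ ∑ j ∈ Finset.range (k + 1), (k.choose j : ℝ) := by
      refine Finset.sum_le_sum_of_subset_of_nonneg (fun j hj => ?_) fun _ _ _ => by positivity
      exact Finset.mem_range.2 ((hJ j).1 hj).1
    refine h5.trans (le_of_eq ?_)
    exact_mod_cast Nat.sum_range_choose k
  obtain ⟨U, hU⟩ : ∃ U : ℝ, U = ∑ Y ∈ Finset.range (3 ^ l), if K / 8 < 3 ^ l * nu 2 3 r l Y then nu 2 3 r l Y else 0 :=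
    ⟨_, rfl⟩
  have hU0 : 0 ≤ U := by
    rw [hU]
    refine Finset.sum_nonneg fun Y _ => ?_
    split_ifs
    · exact nu_nonneg _ _
    · exact le_rfl
  rw [← hU] at h2 ⊢
  have h5 := Finset.sum_le_sum h2
  rw [Finset.sum_add_distrib, Finset.sum_add_distrib, ← Finset.mul_sum, ← Finset.sum_mul, ← Finset.mul_sum] at h5
  have h6 : (∑ j ∈ J, 8 * (k.choose j : ℝ)) = 8 * ∑ j ∈ J, (k.choose j : ℝ) := by rw [Finset.mul_sum]
  have h7 : 8 * (∑ j ∈ J, (k.choose j : ℝ)) * U ≤ 8 * 2 ^ k * U :=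
    mul_le_mul_of_nonneg_right (by linarith) hU0
  have h8 : (∑ j ∈ J, 2 * Osc 2 3 r e k j j l) = 2 * ∑ j ∈ J, Osc 2 3 r e k j j l := by rw [Finset.mul_sum]
  rw [h8]
  try rw [h6] at h5
  linarith

/-- The integer part of the eighth root. -/
theorem s2_root (k : ℕ) : ∃ n : ℕ, n ^ 8 ≤ k ∧ k < (n + 1) ^ 8 := by
  refine ⟨Nat.sqrt (Nat.sqrt (Nat.sqrt k)), ?_, ?_⟩
  · have h1 := Nat.sqrt_le' (Nat.sqrt (Nat.sqrt k))
    have h2 := Nat.sqrt_le' (Nat.sqrt k)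
    have h3 := Nat.sqrt_le' k
    calc (Nat.sqrt (Nat.sqrt (Nat.sqrt k))) ^ 8 = ((Nat.sqrt (Nat.sqrt (Nat.sqrt k))) ^ 2) ^ 4 := by ring
      _ ≤ (Nat.sqrt (Nat.sqrt k)) ^ 4 := Nat.pow_le_pow_left h1 4
      _ = ((Nat.sqrt (Nat.sqrt k)) ^ 2) ^ 2 := by ring
      _ ≤ (Nat.sqrt k) ^ 2 := Nat.pow_le_pow_left h2 2
      _ ≤ k := h3
  · have h1 := Nat.succ_le_succ_sqrt' (Nat.sqrt (Nat.sqrt k))
    have h2 := Nat.succ_le_succ_sqrt' (Nat.sqrt k)
    have h3 := Nat.succ_le_succ_sqrt' k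
    have h4 : k + 1 ≤ (Nat.sqrt (Nat.sqrt (Nat.sqrt k)) + 1) ^ 8 := by
      calc k + 1 ≤ (Nat.sqrt k + 1) ^ 2 := h3
        _ ≤ ((Nat.sqrt (Nat.sqrt k) + 1) ^ 2) ^ 2 := Nat.pow_le_pow_left h2 2
        _ ≤ (((Nat.sqrt (Nat.sqrt (Nat.sqrt k)) + 1) ^ 2) ^ 2) ^ 2 :=
          Nat.pow_le_pow_left (Nat.pow_le_pow_left h1 2) 2
        _ = _ := by ring
    omega

/-- (S2) -/
theorem s2_of (hmix : Mixing 2 3 r) : S2Stmt r := by
  classical
  intro δ hδ
  obtain ⟨K1, l0, hK1, hui⟩ := s2_ui hmix (δ := δ / 16) (by positivity)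
  obtain ⟨C, hC, hC2⟩ := hmix 9
  obtain ⟨n0, hn0⟩ := exists_nat_ge ((5 + 1024 * C) * 2 / δ)
  refine ⟨8 * K1, (max (max l0 n0) 100 + 1) ^ 8, by positivity, fun k hk => ?_⟩
  obtain ⟨n, hn1, hn2⟩ := s2_root k
  have hnn : max (max l0 n0) 100 ≤ n := by
    by_contra h
    push Not at h
    have h1 : (n + 1) ^ 8 ≤ (max (max l0 n0) 100 + 1) ^ 8 := Nat.pow_le_pow_left (by omega) 8
    omega
  simp only [max_le_iff] at hnn
  obtain ⟨⟨hnl, hnn0⟩, hn100⟩ := hnn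
  have hnr : (100 : ℝ) ≤ n := by exact_mod_cast hn100
  have hn0r : (0 : ℝ) < n := by linarith
  have hk1 : (n : ℝ) ^ 8 ≤ k := by exact_mod_cast hn1
  have hk2 : (k : ℝ) + 1 ≤ 2 * 256 * (n : ℝ) ^ 8 := by
    have h1 : k < (2 * n) ^ 8 := hn2.trans_le (Nat.pow_le_pow_left (by omega) 8)
    have h2 : (k : ℝ) < (2 * (n : ℝ)) ^ 8 := by exact_mod_cast h1
    have h3 : (1 : ℝ) ≤ (n : ℝ) ^ 8 := one_le_pow₀ (by linarith)
    nlinarith
  have hk0 : (0 : ℝ) < k := lt_of_lt_of_le (by positivity) hk1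
  -- `k` is much larger than the powers of `n`
  have hn5 : (10 : ℝ) ^ 10 ≤ (n : ℝ) ^ 5 := by
    calc (10 : ℝ) ^ 10 = 100 ^ 5 := by norm_num
      _ ≤ (n : ℝ) ^ 5 := pow_le_pow_left₀ (by norm_num) hnr 5
  have hkn3 : (10 : ℝ) ^ 10 * (n : ℝ) ^ 3 ≤ k := by
    refine le_trans ?_ hk1
    calc (10 : ℝ) ^ 10 * (n : ℝ) ^ 3 ≤ (n : ℝ) ^ 5 * (n : ℝ) ^ 3 := mul_le_mul_of_nonneg_right hn5 (by positivity)
      _ = (n : ℝ) ^ 8 := by ring
  have hn3 : (n : ℝ) * 10 ^ 4 ≤ (n : ℝ) ^ 3 := by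
    have : (10 : ℝ) ^ 4 ≤ (n : ℝ) ^ 2 := by nlinarith
    nlinarith
  have h10n : 10 * n ≤ k := by
    have h1 : (10 : ℝ) * n ≤ k := by nlinarith
    exact_mod_cast h1
  obtain ⟨e, he⟩ := exists_e (d := 2) (m := 3) (by norm_num) k
  have he' : (3 : ℤ) ^ k ∣ 2 * e - 1 := by exact_mod_cast he
  obtain ⟨R, hR⟩ : ∃ R : ℝ, R = k / (n : ℝ) ^ 2 := ⟨_, rfl⟩
  have hR0 : 0 < R := by rw [hR]; positivity
  have hR4 : R * 10 ^ 4 ≤ k := by
    rw [hR, div_mul_eq_mul_div, div_le_iff₀ (by positivity)]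
    have : (10 : ℝ) ^ 4 ≤ (n : ℝ) ^ 2 := by nlinarith
    exact mul_le_mul_of_nonneg_left this hk0.le
  obtain ⟨J, hJ⟩ : ∃ J : Finset ℕ, J = (Finset.range (k + 1)).filter
    (fun j : ℕ => |(j : ℝ) - (1 - 1 / ((2 : ℕ) : ℝ)) * k| ≤ R) := ⟨_, rfl⟩
  have hJm : ∀ j : ℕ, j ∈ J ↔ j < k + 1 ∧ |(j : ℝ) - (1 - 1 / ((2 : ℕ) : ℝ)) * k| ≤ R := by
    intro j
    rw [hJ, Finset.mem_filter, Finset.mem_range]
  have hJj : ∀ j ∈ J, k / 2 - R ≤ (j : ℝ) ∧ (j : ℝ) ≤ k / 2 + R := by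
    intro j hj
    have h1 := ((hJm j).1 hj).2
    rw [abs_le] at h1
    push_cast at h1
    constructor <;> linarith [h1.1, h1.2]
  have hlj : ∀ j ∈ J, n ≤ j := by
    intro j hj
    have h1 := (hJj j hj).1
    have h2 : (n : ℝ) ≤ j := by nlinarith
    exact_mod_cast h2
  -- the ratio
  have hratio : ∀ j ∈ J, ∀ s : ℕ, s ≤ 10 * n →
      cW 2 (k - 10 * n) (fun v => s + sg v = j) ≤ 2 * (k.choose j : ℝ) / 2 ^ (10 * n) := by
    intro j hj s hs
    obtain ⟨k1, hk1'⟩ : ∃ k1 : ℕ, k1 = k - 10 * n := ⟨_, rfl⟩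
    have hkk : k = k1 + 10 * n := by omega
    have hkr : (k : ℝ) = k1 + 10 * n := by rw [hkk]; push_cast; ring
    rw [← hk1']
    have hsj : s ≤ j := by
      have h1 := (hJj j hj).1
      have h2 : ((10 * n : ℕ) : ℝ) ≤ j := by push_cast; nlinarith
      have h3 : 10 * n ≤ j := by exact_mod_cast h2
      omega
    have h1 : cW 2 k1 (fun v => s + sg v = j) = (k1.choose (j - s) : ℝ) := by
      rw [← s2_card]
      exact cW_congr fun v _ => by omega
    rw [h1]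
    obtain ⟨ε, hε⟩ : ∃ ε : ℝ, ε = 5 / (n : ℝ) ^ 2 := ⟨_, rfl⟩
    have hε0 : 0 ≤ ε := by rw [hε]; positivity
    have h2 := s2_ratio k1 ε hε0 (10 * n) s j (2 * R) hs hsj (by
      have h3 := hJj j hj
      rw [abs_le]
      push_cast
      constructor <;> linarith [h3.1, h3.2]) (by
      have h4 : (k : ℝ) / 2 ≤ k1 + 1 := by nlinarith
      have h5 : ε * (k / 2) ≤ ε * (k1 + 1) := mul_le_mul_of_nonneg_left h4 hε0
      refine le_trans ?_ h5
      have h6 : ε * (k / 2) = 5 / 2 * R := by rw [hε, hR]; ring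
      rw [h6]
      have h7 : 10 * (n : ℝ) ≤ R / 2 := by
        rw [hR, div_div, le_div_iff₀ (by positivity)]
        nlinarith
      push_cast
      linarith)
    rw [← hkk] at h2
    refine h2.trans ?_
    have h8 : (1 + ε) ^ (10 * n) ≤ 2 := by
      have h9 : (1 + ε) ^ (10 * n) ≤ Real.exp (ε * (10 * n : ℕ)) := by
        rw [mul_comm ε, Real.exp_nat_mul]
        exact pow_le_pow_left₀ (by linarith) (by linarith [Real.add_one_le_exp ε]) _
      refine h9.trans ?_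
      have h10 : ε * (10 * n : ℕ) ≤ 1 / 2 := by
        rw [hε]
        push_cast
        rw [div_mul_eq_mul_div, div_le_iff₀ (by positivity)]
        nlinarith
      have h11 : Real.exp (ε * (10 * n : ℕ)) ≤ Real.exp (1 / 2) := Real.exp_le_exp.2 h10
      refine h11.trans ?_
      have h12 : Real.exp (1 / 2) ^ 2 = Real.exp 1 := by
        rw [← Real.exp_nat_mul]; norm_num
      have h13 := Real.exp_one_lt_d9
      nlinarith [Real.exp_pos (1 / 2)]
    rw [div_pow]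
    have hch : (0 : ℝ) ≤ (k.choose j : ℝ) := by positivity
    have h2p : (0 : ℝ) < 2 ^ (10 * n) := by positivity
    rw [div_mul_eq_mul_div]
    exact div_le_div_of_nonneg_right (mul_le_mul_of_nonneg_right h8 hch) h2p.le
  have hcore := s2_core (r := r) (K := 8 * K1) he' (show n ≤ 10 * n by omega) h10n J hJm hlj hratio
  refine hcore.trans ?_
  -- the four terms
  have t1 : cW 2 k (fun w => R < |(sg w : ℝ) - (1 - 1 / ((2 : ℕ) : ℝ)) * k|) ≤ 2 ^ k * (1 / n) := by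
    refine (chebyshev (d := 2) (by norm_num) k hR0).trans ?_
    push_cast
    refine mul_le_mul_of_nonneg_left ?_ (by positivity)
    rw [hR, div_pow, ← pow_mul, div_div_eq_mul_div, div_le_div_iff₀ (by positivity) hn0r]
    have h1 : (k : ℝ) * (n : ℝ) ^ (2 * 2) * n = k * (n : ℝ) ^ 5 := by ring
    rw [h1, one_mul, sq]
    refine mul_le_mul_of_nonneg_left ?_ hk0.le
    refine le_trans ?_ hk1
    exact pow_le_pow_right₀ (by linarith) (by norm_num)
  have t2 : ∑ j ∈ J, 2 * Osc 2 3 r e k j j n ≤ 2 ^ k * (1024 * C / n) := by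
    have h1 : ∀ j ∈ J, 2 * Osc 2 3 r e k j j n ≤ 2 * (C * 2 ^ k / (n : ℝ) ^ 9) := by
      intro j hj
      have h2 := hC2 j n (by omega) (hlj j hj) e ((pow_dvd_pow _ (by have := ((hJm j).1 hj).1; omega)).trans he) k j le_rfl
      have h3 : (n : ℝ) ^ (-(9 : ℝ)) = 1 / (n : ℝ) ^ 9 := by
        rw [Real.rpow_neg hn0r.le, one_div]
        congr 1
        exact_mod_cast Real.rpow_natCast (n : ℝ) 9
      rw [h3] at h2
      push_cast at h2
      refine mul_le_mul_of_nonneg_left (h2.trans (le_of_eq ?_)) (by norm_num)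
      ring
    refine (Finset.sum_le_sum h1).trans ?_
    rw [Finset.sum_const, nsmul_eq_mul]
    have h2 : (J.card : ℝ) ≤ k + 1 := by
      have : J.card ≤ k + 1 := by
        rw [hJ]
        exact (Finset.card_filter_le _ _).trans (by rw [Finset.card_range])
      exact_mod_cast this
    calc (J.card : ℝ) * (2 * (C * 2 ^ k / (n : ℝ) ^ 9)) ≤ (2 * 256 * (n : ℝ) ^ 8) * (2 * (C * 2 ^ k / (n : ℝ) ^ 9)) :=
          mul_le_mul_of_nonneg_right (h2.trans hk2) (by positivity)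
      _ = 2 ^ k * (1024 * C / n) := by
        field_simp
        ring
  have t3 : 4 * cW 2 k (fun w => sg (w.take (10 * n)) < n) ≤ 2 ^ k * (4 / n) := by
    have hkk : k = 10 * n + (k - 10 * n) := by omega
    have h1 : cW 2 k (fun w => sg (w.take (10 * n)) < n) = cW 2 (10 * n) (fun u => sg u < n) * 2 ^ (k - 10 * n) := by
      conv_lhs => rw [hkk]
      have := cW_take 2 (10 * n) (k - 10 * n) (fun u => sg u < n)
      push_cast at this
      exact this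
    have h2 := few_nonzero (d := 2) (by norm_num) (t := 10 * n) (k := n) (by omega)
    push_cast at h2
    have h3 : (9 / 10 : ℝ) ^ (10 * n) ≤ 1 / n := by
      rw [pow_mul]
      have h4 : ((9 / 10 : ℝ) ^ 10) ^ n ≤ (1 / 2) ^ n := pow_le_pow_left₀ (by positivity) (by norm_num) n
      refine h4.trans ?_
      rw [div_pow, one_pow]
      refine one_div_le_one_div_of_le hn0r ?_
      exact_mod_cast (Nat.lt_two_pow_self (n := n)).le
    have h5 : (2 : ℝ) ^ k = 2 ^ (10 * n) * 2 ^ (k - 10 * n) := by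
      rw [← pow_add]
      congr 1
    rw [h1]
    calc 4 * (cW 2 (10 * n) (fun u => sg u < n) * 2 ^ (k - 10 * n))
        ≤ 4 * ((2 ^ (10 * n) * (1 / n)) * 2 ^ (k - 10 * n)) := by
          refine mul_le_mul_of_nonneg_left (mul_le_mul_of_nonneg_right ?_ (by positivity)) (by norm_num)
          exact h2.trans (mul_le_mul_of_nonneg_left h3 (by positivity))
      _ = 2 ^ k * (4 / n) := by rw [h5]; ring
  have t4 : 8 * 2 ^ k * (∑ Y ∈ Finset.range (3 ^ n), if 8 * K1 / 8 < 3 ^ n * nu 2 3 r n Y then nu 2 3 r n Y else 0) ≤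
      8 * 2 ^ k * (δ / 16) := by
    refine mul_le_mul_of_nonneg_left ?_ (by positivity)
    have h1 := hui n hnl
    rw [show 8 * K1 / 8 = K1 by ring]
    exact h1
  have t5 : (5 + 1024 * C) / n ≤ δ / 2 := by
    rw [div_le_iff₀ hn0r]
    have h1 : (5 + 1024 * C) * 2 / δ ≤ n := hn0.trans (by exact_mod_cast hnn0)
    rw [div_le_iff₀ hδ] at h1
    linarith
  have t6 : 2 ^ k * (1 / (n : ℝ)) + 2 ^ k * (1024 * C / n) + 2 ^ k * (4 / n) = 2 ^ k * ((5 + 1024 * C) / n) := by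
    ring
  have t7 : (2 : ℝ) ^ k * ((5 + 1024 * C) / n) ≤ 2 ^ k * (δ / 2) := mul_le_mul_of_nonneg_left t5 (by positivity)
  linarith

/-- (S2) -/
theorem s2 (hstd : POSB.Std 2 3 r) : S2Stmt r := s2_of hstd.mix

end Pool.Agent.Helper28.PR
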