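import Pool.Agent.Helper28.PR.Defs
import Pool.Agent.Helper52.Tao.A1

/-!
# PRIMES, block S3: the words with the same end point are distributed modulo the primes `q ≤ k`
-/

set_option autoImplicit false

namespace Pool.Agent.Helper28.PR

open Filter Topology
open Pool.Agent.Helper68.Moeller Pool.Agent.Helper52.Tao Pool.Agent.Helper8.LQ

variable {r : ℤ → ℤ}

theorem s3_ad (hr : r 1 = 1 ∨ r 1 = -1) {q : ℕ} (hq : q.Prime) (h5 : 5 ≤ q) : Ad 2 r q := by
  refine ⟨hq.pos, ?_, ?_⟩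
  · rw [Nat.coprime_primes hq Nat.prime_two]
    omega
  · rintro p hp - ⟨h1, -⟩
    have h2 : (p : ℤ) ∣ 1 := by
      rcases hr with h | h <;> rw [h] at h1
      · simpa using h1
      · simpa using h1
    have h3 : p ∣ 1 := by exact_mod_cast h2
    exact hp.one_lt.ne' (Nat.dvd_one.1 h3)

/-- The end points and the offsets modulo `M`. -/
theorem s3_dvd {k : ℕ} {M e : ℤ} (he : M ∣ ((2 : ℕ) : ℤ) * e - 1) {w w' : List ℕ} (hw : w.length = k)
    (hw' : w'.length = k) : M ∣ Off 2 3 r w' - Off 2 3 r w ↔ M ∣ F 3 r e w - F 3 r e w' := by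
  have h1 := F_modEq (m := 3) (r := r) he w
  have h2 := F_modEq (m := 3) (r := r) he w'
  rw [hw] at h1
  rw [hw'] at h2
  have h3 : M ∣ ((2 : ℕ) : ℤ) ^ k * e ^ k - 1 := by
    rw [← mul_pow]
    refine he.trans ?_
    simpa using sub_dvd_pow_sub_pow (((2 : ℕ) : ℤ) * e) 1 k
  constructor
  · intro h
    have e1 : F 3 r e w - F 3 r e w' = (F 3 r e w + e ^ k * Off 2 3 r w) - (F 3 r e w' + e ^ k * Off 2 3 r w') +
        e ^ k * (Off 2 3 r w' - Off 2 3 r w) := by ring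
    rw [e1]
    exact dvd_add (dvd_sub h1 h2) (Dvd.dvd.mul_left h _)
  · intro h
    have e1 : Off 2 3 r w' - Off 2 3 r w = ((2 : ℕ) : ℤ) ^ k * ((F 3 r e w' + e ^ k * Off 2 3 r w') -
        (F 3 r e w + e ^ k * Off 2 3 r w) + (F 3 r e w - F 3 r e w')) -
        (Off 2 3 r w' - Off 2 3 r w) * (((2 : ℕ) : ℤ) ^ k * e ^ k - 1) := by ring
    rw [e1]
    exact dvd_sub (Dvd.dvd.mul_left (dvd_add (dvd_sub h2 h1) h) _) (Dvd.dvd.mul_left h3 _)

/-- The bad words for one number of ones and one modulus. -/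
theorem s3_one {k S q : ℕ} {e : ℤ} (hq : 0 < q) (he : ((q * 3 ^ (S + 0) : ℕ) : ℤ) ∣ ((2 : ℕ) : ℤ) * e - 1) :
    cW 2 k (fun w => sg w = S ∧ 2 * mult r k w / q < multq r k q w) ≤ 2 * OscQ 2 3 r e k S (S + 0) S q := by
  classical
  set M : ℕ := q * 3 ^ (S + 0) with hM
  have hM0 : 0 < M := by rw [hM]; positivity
  have hM3 : ((3 : ℕ) : ℤ) ^ S ∣ ((M : ℕ) : ℤ) := by
    rw [hM]
    push_cast
    exact Dvd.intro_left _ rfl
  have he3 : ((3 : ℕ) : ℤ) ^ S ∣ ((2 : ℕ) : ℤ) * e - 1 := hM3.trans he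
  set a : ℕ → ℝ := fun X => cW 2 k (fun w => sg w = S ∧ ((3 : ℕ) : ℤ) ^ S ∣ (X : ℤ) - F 3 r e w) with ha
  set aq : ℕ → ℝ := fun X => cW 2 k (fun w => sg w = S ∧ ((M : ℕ) : ℤ) ∣ (X : ℤ) - F 3 r e w) with haq
  have hosc : OscQ 2 3 r e k S (S + 0) S q = ∑ X ∈ Finset.range M, |aq X - a X / q| := by
    unfold OscQ
    refine Finset.sum_congr rfl fun X _ => ?_
    simp [ha, haq, hM]
  have hstep : cW 2 k (fun w => sg w = S ∧ 2 * mult r k w / q < multq r k q w) ≤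
      cW 2 k (fun w => ∃ X ∈ Finset.range M, (sg w = S ∧ ((M : ℕ) : ℤ) ∣ (X : ℤ) - F 3 r e w) ∧ 2 * a X / q < aq X) := by
    refine cW_mono fun w hw h => ?_
    obtain ⟨hS, hlt⟩ := h
    have hMz : (0 : ℤ) < (M : ℤ) := by exact_mod_cast hM0
    have h0 : 0 ≤ F 3 r e w % (M : ℤ) := Int.emod_nonneg _ hMz.ne'
    have h1 : F 3 r e w % (M : ℤ) < M := Int.emod_lt_of_pos _ hMz
    have h2 : (((F 3 r e w % (M : ℤ)).toNat : ℕ) : ℤ) = F 3 r e w % (M : ℤ) := Int.toNat_of_nonneg h0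
    have hX : ((M : ℕ) : ℤ) ∣ (((F 3 r e w % (M : ℤ)).toNat : ℕ) : ℤ) - F 3 r e w := by
      rw [h2]
      refine ⟨-(F 3 r e w / (M : ℤ)), ?_⟩
      have := Int.emod_add_mul_ediv (F 3 r e w) (M : ℤ)
      linarith
    refine ⟨(F 3 r e w % (M : ℤ)).toNat, Finset.mem_range.2 (by omega), ⟨hS, hX⟩, ?_⟩
    have e1 : a (F 3 r e w % (M : ℤ)).toNat = mult r k w := by
      refine cW_congr fun w' hw' => ?_
      unfold Rel
      rw [hS]
      refine and_congr Iff.rfl ?_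
      have h3 := s3_dvd (r := r) he3 (length_of_mem_W hw) (length_of_mem_W hw')
      have h4 : (3 : ℤ) ^ S = ((3 : ℕ) : ℤ) ^ S := by norm_num
      rw [h4, h3]
      have h5 := hM3.trans hX
      constructor
      · intro h
        have := dvd_sub h h5
        have e5 : (((F 3 r e w % (M : ℤ)).toNat : ℕ) : ℤ) - F 3 r e w' - ((((F 3 r e w % (M : ℤ)).toNat : ℕ) : ℤ) - F 3 r e w) =
            F 3 r e w - F 3 r e w' := by ring
        rwa [e5] at this
      · intro h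
        have := dvd_add h h5
        have e5 : F 3 r e w - F 3 r e w' + ((((F 3 r e w % (M : ℤ)).toNat : ℕ) : ℤ) - F 3 r e w) =
            (((F 3 r e w % (M : ℤ)).toNat : ℕ) : ℤ) - F 3 r e w' := by ring
        rwa [e5] at this
    have e2 : aq (F 3 r e w % (M : ℤ)).toNat = multq r k q w := by
      refine cW_congr fun w' hw' => ?_
      rw [hS]
      refine and_congr Iff.rfl ?_
      have h3 := s3_dvd (r := r) he (length_of_mem_W hw) (length_of_mem_W hw')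
      have h4 : (3 : ℤ) ^ S * (q : ℤ) = ((M : ℕ) : ℤ) := by
        rw [hM]
        push_cast
        ring
      rw [h4, h3]
      constructor
      · intro h
        have := dvd_sub h hX
        have e5 : (((F 3 r e w % (M : ℤ)).toNat : ℕ) : ℤ) - F 3 r e w' - ((((F 3 r e w % (M : ℤ)).toNat : ℕ) : ℤ) - F 3 r e w) =
            F 3 r e w - F 3 r e w' := by ring
        rwa [e5] at this
      · intro h
        have := dvd_add h hX
        have e5 : F 3 r e w - F 3 r e w' + ((((F 3 r e w % (M : ℤ)).toNat : ℕ) : ℤ) - F 3 r e w) =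
            (((F 3 r e w % (M : ℤ)).toNat : ℕ) : ℤ) - F 3 r e w' := by ring
        rwa [e5] at this
    rw [e1, e2]
    exact hlt
  refine hstep.trans ((cW_exists_le 2 k (Finset.range M) _).trans ?_)
  rw [hosc, Finset.mul_sum]
  refine Finset.sum_le_sum fun X _ => ?_
  by_cases hX : 2 * a X / q < aq X
  · have h1 : cW 2 k (fun w => (sg w = S ∧ ((M : ℕ) : ℤ) ∣ (X : ℤ) - F 3 r e w) ∧ 2 * a X / q < aq X) ≤ aq X :=
      cW_mono fun w _ h => h.1
    have h2 : aq X - a X / q ≤ |aq X - a X / q| := le_abs_self _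
    have h3 : 2 * a X / q = 2 * (a X / q) := by ring
    linarith
  · have h1 : cW 2 k (fun w => (sg w = S ∧ ((M : ℕ) : ℤ) ∣ (X : ℤ) - F 3 r e w) ∧ 2 * a X / q < aq X) = 0 := by
      unfold cW
      simp [hX]
    rw [h1]
    positivity

/-- (S3) -/
theorem s3 (hmix : MixQ 2 3 r) (hr : r 1 = 1 ∨ r 1 = -1) : S3Stmt r := by
  classical
  obtain ⟨κ, C, hκ, hC, hmx⟩ := hmix 5
  have hlog : ∀ᶠ k : ℕ in atTop, Real.log k ≤ κ / 3 * k := by
    have h1 := Real.isLittleO_log_id_atTop.bound (show 0 < κ / 3 by positivity)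
    have h2 := tendsto_natCast_atTop_atTop (R := ℝ) |>.eventually h1
    filter_upwards [h2, eventually_ge_atTop 1] with k hk hk1
    have hk0 : (0 : ℝ) ≤ k := Nat.cast_nonneg k
    have h3 : Real.log k ≤ ‖Real.log (k : ℝ)‖ := Real.le_norm_self _
    have h4 : ‖id (k : ℝ)‖ = k := by simp
    rw [h4] at hk
    linarith
  obtain ⟨k1, hk1⟩ := eventually_atTop.1 hlog
  refine ⟨max k1 (max 3 ⌈1944 * C⌉₊), fun k hk => ?_⟩
  have hka : k1 ≤ k := (le_max_left _ _).trans hk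
  have hkb : 3 ≤ k := ((le_max_left _ _).trans (le_max_right _ _)).trans hk
  have hkc : 1944 * C ≤ k := by
    have h1 : ⌈1944 * C⌉₊ ≤ k := ((le_max_right _ _).trans (le_max_right _ _)).trans hk
    exact (Nat.le_ceil _).trans (by exact_mod_cast h1)
  have hkpos : (0 : ℝ) < k := by exact_mod_cast (by omega : 0 < k)
  have hk1' : (1 : ℝ) ≤ k := by exact_mod_cast (by omega : 1 ≤ k)
  have hlk := hk1 k hka
  set B : ℝ := 486 * C * 2 ^ k / (k : ℝ) ^ 5 with hB
  have hB0 : 0 ≤ B := by rw [hB]; positivity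
  -- one pair
  have hone : ∀ p ∈ Finset.range (k + 1) ×ˢ Finset.range (k + 1), cW 2 k (fun w => (k ≤ 3 * p.1 ∧ p.2.Prime ∧ 5 ≤ p.2) ∧
      sg w = p.1 ∧ 2 * mult r k w / (p.2 : ℕ) < multq r k p.2 w) ≤ B := by
    rintro ⟨S, q⟩ hp
    rw [Finset.mem_product, Finset.mem_range, Finset.mem_range] at hp
    obtain ⟨hp1, hp2⟩ := hp
    simp only at hp1 hp2 ⊢
    by_cases hc : k ≤ 3 * S ∧ q.Prime ∧ 5 ≤ q
    · obtain ⟨hS, hq, h5⟩ := hc
      have hS1 : 1 ≤ S := by omega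
      have hqo : Odd q := hq.odd_of_ne_two (by omega)
      have hMo : Odd (q * 3 ^ (S + 0)) := hqo.mul (Odd.pow (by decide))
      obtain ⟨u, hu⟩ := hMo
      have he : ((q * 3 ^ (S + 0) : ℕ) : ℤ) ∣ ((2 : ℕ) : ℤ) * (u + 1 : ℤ) - 1 := by
        rw [hu]
        push_cast
        refine ⟨1, by ring⟩
      have hSr : (k : ℝ) ≤ 3 * S := by exact_mod_cast hS
      have hlq : Real.log ((q * 3 ^ 0 : ℕ) : ℝ) ≤ κ * S := by
        have h1 : Real.log ((q * 3 ^ 0 : ℕ) : ℝ) ≤ Real.log k := by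
          rw [pow_zero, mul_one]
          refine Real.log_le_log (by exact_mod_cast hq.pos) ?_
          exact_mod_cast (by omega : q ≤ k)
        have h2 : κ / 3 * k ≤ κ * S := by nlinarith
        linarith
      have h1 := hmx S 0 q (s3_ad hr hq h5) hS1 hlq (u + 1 : ℤ) he k
      have h2 := s3_one (r := r) (k := k) (S := S) (q := q) (e := (u + 1 : ℤ)) hq.pos he
      have h3 : cW 2 k (fun w => (k ≤ 3 * S ∧ q.Prime ∧ 5 ≤ q) ∧
          sg w = S ∧ 2 * mult r k w / (q : ℕ) < multq r k q w) ≤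
          cW 2 k (fun w => sg w = S ∧ 2 * mult r k w / q < multq r k q w) := cW_mono fun w _ h => h.2
      have hSpos : (0 : ℝ) < S := by exact_mod_cast (by omega : 0 < S)
      have h4 : (S : ℝ) ^ (-(5 : ℝ)) = 1 / (S : ℝ) ^ 5 := by
        rw [Real.rpow_neg hSpos.le, one_div]
        congr 1
        exact_mod_cast Real.rpow_natCast (S : ℝ) 5
      have h5' : 1 / (S : ℝ) ^ 5 ≤ 243 / (k : ℝ) ^ 5 := by
        rw [div_le_div_iff₀ (by positivity) (by positivity)]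
        have : (k : ℝ) ^ 5 ≤ (3 * S) ^ 5 := pow_le_pow_left₀ hkpos.le hSr 5
        nlinarith
      have h6 : 2 * (C * ((2 : ℕ) : ℝ) ^ k * (S : ℝ) ^ (-(5 : ℝ))) ≤ B := by
        rw [h4, hB]
        have h7 : 0 ≤ C * (2 : ℝ) ^ k := by positivity
        have h8 := mul_le_mul_of_nonneg_left h5' h7
        have e1 : 486 * C * 2 ^ k / (k : ℝ) ^ 5 = 2 * (C * 2 ^ k * (243 / (k : ℝ) ^ 5)) := by ring
        rw [e1]
        push_cast
        linarith
      exact h3.trans (h2.trans ((mul_le_mul_of_nonneg_left h1 (by norm_num)).trans h6))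
    · have h1 : cW 2 k (fun w => (k ≤ 3 * S ∧ q.Prime ∧ 5 ≤ q) ∧
          sg w = S ∧ 2 * mult r k w / (q : ℕ) < multq r k q w) = 0 := by
        unfold cW
        simp only [hc, false_and]
        simp
      rw [h1]
      exact hB0
  have hall : cW 2 k (fun w => k ≤ 3 * sg w ∧ ∃ q : ℕ, q.Prime ∧ 5 ≤ q ∧ q ≤ k ∧ 2 * mult r k w / q < multq r k q w) ≤
      cW 2 k (fun w => ∃ p ∈ Finset.range (k + 1) ×ˢ Finset.range (k + 1), (k ≤ 3 * p.1 ∧ p.2.Prime ∧ 5 ≤ p.2) ∧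
        sg w = p.1 ∧ 2 * mult r k w / (p.2 : ℕ) < multq r k p.2 w) := by
    refine cW_mono fun w hw h => ?_
    obtain ⟨h1, q, h2, h3, h4, h5⟩ := h
    have h6 : sg w ≤ k := (sg_le_length w).trans (length_of_mem_W hw).le
    exact ⟨(sg w, q), Finset.mem_product.2 ⟨Finset.mem_range.2 (by simp only; omega), Finset.mem_range.2 (by simp only; omega)⟩,
      ⟨h1, h2, h3⟩, rfl, h5⟩
  refine hall.trans ((cW_exists_le 2 k _ _).trans ((Finset.sum_le_card_nsmul _ _ B hone).trans ?_))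
  rw [Finset.card_product, Finset.card_range, nsmul_eq_mul]
  push_cast
  have h1 : ((k : ℝ) + 1) * (k + 1) ≤ 4 * (k : ℝ) ^ 2 := by nlinarith
  refine (mul_le_mul_of_nonneg_right h1 hB0).trans ?_
  rw [hB, div_eq_mul_inv, div_eq_mul_inv]
  have e1 : 4 * (k : ℝ) ^ 2 * (486 * C * 2 ^ k * ((k : ℝ) ^ 5)⁻¹) = (1944 * C) * 2 ^ k / (k : ℝ) ^ 3 := by
    field_simp
    ring
  rw [e1]
  rw [div_le_iff₀ (by positivity)]
  have e2 : (2 : ℝ) ^ k * (k : ℝ)⁻¹ * (k : ℝ) ^ 3 = (k : ℝ) ^ 2 * 2 ^ k := by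
    field_simp
  rw [e2]
  refine mul_le_mul_of_nonneg_right ?_ (by positivity)
  nlinarith

end Pool.Agent.Helper28.PR
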