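import Pool.Agent.Helper28.PR.DefsG
import Pool.Agent.Helper28.POSB.Inv
import Pool.Agent.Helper8.LQ.MIXq
import Pool.Agent.Helper8.LQ.FDq

/-!
# PRIMES (MP_fd8838_nt), block S3g: the related words are distributed modulo the primes `q0 ≤ q ≤ k`
-/

set_option autoImplicit false

namespace Pool.Agent.Helper28.PR

open Pool.Agent.Helper68.Moeller Pool.Agent.Helper52.Tao Pool.Agent.Helper8.LQ Filter Topology

/-- Congruences of `F` and of `Off` modulo a divisor of the modulus. -/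
private theorem cong85 {d m : ℕ} {r : ℤ → ℤ} {e M D X : ℤ} (he : M ∣ (d : ℤ) * e - 1) (hD : D ∣ M) {k : ℕ} {w w' : List ℕ}
    (hw : w.length = k) (hw' : w'.length = k) (hX : M ∣ X - F m r e w) :
    D ∣ X - F m r e w' ↔ D ∣ Off d m r w' - Off d m r w := by
  have h1 : D ∣ F m r e w + e ^ k * Off d m r w := hw ▸ hD.trans (F_modEq he w)
  have h2 : D ∣ F m r e w' + e ^ k * Off d m r w' := hw' ▸ hD.trans (F_modEq he w')
  have h3 : D ∣ X - F m r e w := hD.trans hX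
  have hc : IsCoprime D e := by
    obtain ⟨c, hc⟩ := hD.trans he
    exact ⟨-c, d, by linarith⟩
  have hck : IsCoprime D (e ^ k) := hc.pow_right
  have h4 : X - F m r e w' = (X - F m r e w) + (F m r e w + e ^ k * Off d m r w) -
      (F m r e w' + e ^ k * Off d m r w') + e ^ k * (Off d m r w' - Off d m r w) := by ring
  have h5 : D ∣ (X - F m r e w) + (F m r e w + e ^ k * Off d m r w) - (F m r e w' + e ^ k * Off d m r w') :=
    dvd_sub (dvd_add h3 h1) h2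
  rw [h4, (Int.dvd_add_right h5)]
  exact ⟨fun h => hck.dvd_of_dvd_mul_left h, fun h => Dvd.dvd.mul_left h _⟩

private theorem osc85 {d m : ℕ} {r : ℤ → ℤ} {q S k : ℕ} (hm : 0 < m) (hq : 0 < q) {e : ℤ}
    (he : ((q * m ^ (S + 0) : ℕ) : ℤ) ∣ (d : ℤ) * e - 1) :
    cW d k (fun w => sg w = S ∧ 2 * multg d m r k w / q < multqg d m r k q w) ≤
      2 * OscQ d m r e k S (S + 0) S q := by
  classical
  have hM0 : 0 < q * m ^ (S + 0) := by positivity
  have h1 : cW d k (fun w => sg w = S ∧ 2 * multg d m r k w / q < multqg d m r k q w) ≤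
      ∑ X ∈ Finset.range (q * m ^ (S + 0)), cW d k (fun w => (sg w = S ∧ ((q * m ^ (S + 0) : ℕ) : ℤ) ∣ (X : ℤ) - F m r e w) ∧
        2 * multg d m r k w / q < multqg d m r k q w) := by
    refine le_trans ?_ (cW_exists_le d k _ _)
    refine cW_mono fun w _ ⟨hw1, hw2⟩ => ?_
    have hMz : (0 : ℤ) < ((q * m ^ (S + 0) : ℕ) : ℤ) := by exact_mod_cast hM0
    have ha : 0 ≤ F m r e w % ((q * m ^ (S + 0) : ℕ) : ℤ) := Int.emod_nonneg _ hMz.ne'
    have hb : F m r e w % ((q * m ^ (S + 0) : ℕ) : ℤ) < ((q * m ^ (S + 0) : ℕ) : ℤ) := Int.emod_lt_of_pos _ hMz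
    refine ⟨(F m r e w % ((q * m ^ (S + 0) : ℕ) : ℤ)).toNat, ?_, ⟨hw1, ?_⟩, hw2⟩
    · rw [Finset.mem_range, Int.toNat_lt ha]
      exact hb
    · rw [Int.toNat_of_nonneg ha]
      have := Int.emod_add_mul_ediv (F m r e w) ((q * m ^ (S + 0) : ℕ) : ℤ)
      exact ⟨-(F m r e w / ((q * m ^ (S + 0) : ℕ) : ℤ)), by linarith⟩
  refine h1.trans ?_
  unfold OscQ
  rw [Finset.mul_sum]
  refine Finset.sum_le_sum fun X _ => ?_
  by_cases hex : ∃ w ∈ W d k, (sg w = S ∧ ((q * m ^ (S + 0) : ℕ) : ℤ) ∣ (X : ℤ) - F m r e w) ∧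
      2 * multg d m r k w / q < multqg d m r k q w
  · obtain ⟨w0, hw0, ⟨hs, hX⟩, hbad⟩ := hex
    have hl := length_of_mem_W hw0
    have e1 : multg d m r k w0 = cW d k (fun w => sg w = S ∧ (m : ℤ) ^ S ∣ (X : ℤ) - F m r e w) := by
      unfold multg Relg
      rw [hs]
      refine cW_congr fun w' hw' => and_congr_right fun _ => ?_
      exact (cong85 he (by push_cast; exact Dvd.intro_left _ rfl) hl (length_of_mem_W hw') hX).symm
    have e2 : multqg d m r k q w0 =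
        cW d k (fun w => sg w = S ∧ ((q * m ^ (S + 0) : ℕ) : ℤ) ∣ (X : ℤ) - F m r e w) := by
      unfold multqg
      rw [hs]
      refine cW_congr fun w' hw' => and_congr_right fun _ => ?_
      rw [cong85 he (dvd_refl _) hl (length_of_mem_W hw') hX]
      push_cast
      rw [Nat.add_zero, mul_comm]
    rw [e1, e2] at hbad
    have e3 : ((q * m ^ (S + 0 - S) : ℕ) : ℝ) = q := by simp
    rw [e3]
    have h2 : cW d k (fun w => (sg w = S ∧ ((q * m ^ (S + 0) : ℕ) : ℤ) ∣ (X : ℤ) - F m r e w) ∧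
        2 * multg d m r k w / q < multqg d m r k q w) ≤
        cW d k (fun w => sg w = S ∧ ((q * m ^ (S + 0) : ℕ) : ℤ) ∣ (X : ℤ) - F m r e w) :=
      cW_mono fun w _ h => h.1
    have h3 := le_abs_self (cW d k (fun w => sg w = S ∧ ((q * m ^ (S + 0) : ℕ) : ℤ) ∣ (X : ℤ) - F m r e w) -
      cW d k (fun w => sg w = S ∧ (m : ℤ) ^ S ∣ (X : ℤ) - F m r e w) / q)
    rw [mul_div_assoc] at hbad
    linarith
  · have h2 : cW d k (fun w => (sg w = S ∧ ((q * m ^ (S + 0) : ℕ) : ℤ) ∣ (X : ℤ) - F m r e w) ∧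
        2 * multg d m r k w / q < multqg d m r k q w) = cW d k (fun _ => False) := by
      refine cW_congr fun w hw => ⟨fun h => hex ⟨w, hw, h⟩, fun h => h.elim⟩
    rw [h2]
    have h3 : cW d k (fun _ => False) = 0 := by simp [cW]
    rw [h3]
    positivity

/-- (S3g) -/
theorem s3g_of {d m : ℕ} {r : ℤ → ℤ} (hd : 2 ≤ d) (hdm : d < m) (hco : Nat.Coprime m d) (hr : Admissible d m r)
    (hmix : MixQ d m r) : S3gStmt d m r := by
  classical
  obtain ⟨κ, C, hκ, hC, hM⟩ := hmix 5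
  have hd0 : (0 : ℝ) < d := by exact_mod_cast (by omega : 0 < d)
  -- all large primes are admissible
  have hr1 : r 1 ≠ 0 := by
    intro h0
    have h1 := hr 1 one_pos (by exact_mod_cast hd)
    rw [h0, mul_one] at h1
    have h2 : (d : ℤ) ∣ m := by
      have := h1.dvd
      simpa using this
    have h3 : d ∣ m := by exact_mod_cast h2
    have h4 := Nat.dvd_gcd h3 (dvd_refl d)
    rw [hco.gcd_eq_one] at h4
    have := Nat.le_of_dvd one_pos h4
    omega
  have hAd : ∀ q : ℕ, q.Prime → max d (r 1 * ((d : ℤ) - 1)).natAbs + 1 ≤ q → Ad d r q := by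
    intro q hq hq0
    have hqd : d < q := by have := le_max_left d (r 1 * ((d : ℤ) - 1)).natAbs; omega
    have hqr : (r 1 * ((d : ℤ) - 1)).natAbs < q := by
      have := le_max_right d (r 1 * ((d : ℤ) - 1)).natAbs; omega
    refine ⟨hq.pos, ?_, fun p hp hpq hb => ?_⟩
    · rw [Nat.Prime.coprime_iff_not_dvd hq]
      exact fun h => absurd (Nat.le_of_dvd (by omega) h) (by omega)
    · have hpq' : p = q := (Nat.prime_dvd_prime_iff_eq hp hq).1 hpq
      subst hpq'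
      have h1 := hb.1
      have h2 : r 1 * ((d : ℤ) - 1) ≠ 0 := mul_ne_zero hr1 (by omega)
      have h3 : p ≤ (r 1 * ((d : ℤ) - 1)).natAbs := Nat.le_of_dvd (Int.natAbs_pos.2 h2) (Int.natCast_dvd.1 h1)
      omega
  refine ⟨max d (r 1 * ((d : ℤ) - 1)).natAbs + 1, ?_⟩
  -- the sizes
  have ev1 : ∀ᶠ k : ℕ in atTop, Real.log k ≤ κ / 3 * k := by
    have h1 := (Real.isLittleO_log_id_atTop.comp_tendsto tendsto_natCast_atTop_atTop).bound (by positivity : 0 < κ / 3)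
    filter_upwards [h1, eventually_ge_atTop 1] with k hk hk1
    have hk1' : (1 : ℝ) ≤ k := by exact_mod_cast hk1
    simp only [Function.comp_apply, id_eq, Real.norm_eq_abs] at hk
    rwa [abs_of_nonneg (Real.log_nonneg hk1'), abs_of_nonneg (by positivity)] at hk
  have ev2 : ∀ᶠ k : ℕ in atTop, 2 * C * 243 * 4 ≤ (k : ℝ) ^ 2 :=
    ((tendsto_pow_atTop two_ne_zero).comp tendsto_natCast_atTop_atTop).eventually_ge_atTop _
  obtain ⟨k0, hk0⟩ := eventually_atTop.1 ((ev1.and ev2).and (eventually_ge_atTop 1))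
  refine ⟨k0, fun k hk => ?_⟩
  obtain ⟨⟨h1, h2⟩, hk1⟩ := hk0 k hk
  have hkr : (1 : ℝ) ≤ k := by exact_mod_cast hk1
  have hkp : (0 : ℝ) < k := by linarith
  have hdk : (0 : ℝ) < (d : ℝ) ^ k := by positivity
  -- one pair
  have hpair : ∀ S q : ℕ, k ≤ 3 * S → q.Prime → max d (r 1 * ((d : ℤ) - 1)).natAbs + 1 ≤ q → q ≤ k →
      cW d k (fun w => sg w = S ∧ 2 * multg d m r k w / q < multqg d m r k q w) ≤ 2 * C * 243 * (d : ℝ) ^ k / (k : ℝ) ^ 5 := by
    intro S q hS hq hq0 hqk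
    have hS1 : 1 ≤ S := by omega
    have hSr : (k : ℝ) / 3 ≤ S := by
      have : (k : ℝ) ≤ 3 * S := by exact_mod_cast hS
      linarith
    have hcop : Nat.Coprime (q * m ^ (S + 0)) d :=
      Nat.Coprime.mul_left (hAd q hq hq0).2.1 (hco.pow_left _)
    obtain ⟨e, he⟩ : ∃ e : ℤ, ((q * m ^ (S + 0) : ℕ) : ℤ) ∣ (d : ℤ) * e - 1 := by
      obtain ⟨a, b, hab⟩ := (Nat.isCoprime_iff_coprime.2 hcop)
      exact ⟨b, -a, by linarith⟩
    have hlog : Real.log ((q * m ^ 0 : ℕ) : ℝ) ≤ κ * S := by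
      rw [pow_zero, mul_one]
      have hq1 : (1 : ℝ) ≤ q := by exact_mod_cast hq.one_lt.le
      have h3 : Real.log q ≤ Real.log k := Real.log_le_log (by linarith) (by exact_mod_cast hqk)
      have h4 : κ / 3 * k ≤ κ * S := by nlinarith
      linarith
    have h3 := hM S 0 q (hAd q hq hq0) hS1 hlog e he k
    have h4 := osc85 (r := r) (k := k) (by omega : 0 < m) hq.pos he
    have h5 : (S : ℝ) ^ (-5 : ℝ) ≤ 243 / (k : ℝ) ^ 5 := by
      rw [Real.rpow_neg (by positivity)]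
      have h6 : ((k : ℝ) / 3) ^ 5 ≤ (S : ℝ) ^ (5 : ℝ) := by
        rw [show (5 : ℝ) = ((5 : ℕ) : ℝ) by norm_num, Real.rpow_natCast]
        exact pow_le_pow_left₀ (by positivity) hSr 5
      have h7 : (0 : ℝ) < ((k : ℝ) / 3) ^ 5 := by positivity
      calc ((S : ℝ) ^ (5 : ℝ))⁻¹ ≤ (((k : ℝ) / 3) ^ 5)⁻¹ := inv_anti₀ h7 h6
        _ = 243 / (k : ℝ) ^ 5 := by
            field_simp
            norm_num
    calc cW d k (fun w => sg w = S ∧ 2 * multg d m r k w / q < multqg d m r k q w)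
        ≤ 2 * (C * (d : ℝ) ^ k * (S : ℝ) ^ (-5 : ℝ)) := h4.trans (by linarith)
      _ ≤ 2 * (C * (d : ℝ) ^ k * (243 / (k : ℝ) ^ 5)) := by gcongr
      _ = 2 * C * 243 * (d : ℝ) ^ k / (k : ℝ) ^ 5 := by ring
  -- the union
  have hun : cW d k (fun w => k ≤ 3 * sg w ∧ ∃ q : ℕ, q.Prime ∧ max d (r 1 * ((d : ℤ) - 1)).natAbs + 1 ≤ q ∧ q ≤ k ∧
      2 * multg d m r k w / q < multqg d m r k q w) ≤
      ∑ p ∈ Finset.range (k + 1) ×ˢ Finset.Icc 1 k, cW d k (fun w => (k ≤ 3 * p.1 ∧ p.2.Prime ∧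
        max d (r 1 * ((d : ℤ) - 1)).natAbs + 1 ≤ p.2) ∧ sg w = p.1 ∧ 2 * multg d m r k w / p.2 < multqg d m r k p.2 w) := by
    refine le_trans ?_ (cW_exists_le d k _ _)
    refine cW_mono fun w hw ⟨hw1, q, hq1, hq2, hq3, hq4⟩ => ?_
    have hl := sg_le_length w
    rw [length_of_mem_W hw] at hl
    refine ⟨(sg w, q), ?_, ⟨hw1, hq1, hq2⟩, rfl, hq4⟩
    rw [Finset.mem_product, Finset.mem_range, Finset.mem_Icc]
    exact ⟨by omega, hq1.one_lt.le, hq3⟩
  refine hun.trans ((Finset.sum_le_card_nsmul _ _ (2 * C * 243 * (d : ℝ) ^ k / (k : ℝ) ^ 5) ?_).trans ?_)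
  · rintro ⟨S, q⟩ hp
    rw [Finset.mem_product, Finset.mem_range, Finset.mem_Icc] at hp
    by_cases hc : k ≤ 3 * S ∧ q.Prime ∧ max d (r 1 * ((d : ℤ) - 1)).natAbs + 1 ≤ q
    · refine le_trans (cW_mono fun w _ h => h.2) (hpair S q hc.1 hc.2.1 hc.2.2 hp.2.2)
    · have h3 : cW d k (fun w => (k ≤ 3 * (S, q).1 ∧ (S, q).2.Prime ∧
          max d (r 1 * ((d : ℤ) - 1)).natAbs + 1 ≤ (S, q).2) ∧ sg w = (S, q).1 ∧
          2 * multg d m r k w / (S, q).2 < multqg d m r k (S, q).2 w) = cW d k (fun _ => False) :=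
        cW_congr fun w _ => ⟨fun h => hc h.1, fun h => h.elim⟩
      rw [h3]
      have h4 : cW d k (fun _ => False) = 0 := by simp [cW]
      rw [h4]
      positivity
  · rw [Finset.card_product, Finset.card_range, Nat.card_Icc, nsmul_eq_mul]
    have h3 : (((k + 1) * (k + 1 - 1) : ℕ) : ℝ) ≤ 2 * (k : ℝ) ^ 2 := by
      rw [Nat.add_sub_cancel]
      push_cast
      nlinarith
    calc (((k + 1) * (k + 1 - 1) : ℕ) : ℝ) * (2 * C * 243 * (d : ℝ) ^ k / (k : ℝ) ^ 5)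
        ≤ 2 * (k : ℝ) ^ 2 * (2 * C * 243 * (d : ℝ) ^ k / (k : ℝ) ^ 5) := by gcongr
      _ = (2 * C * 243 * 2) / (k : ℝ) ^ 2 * ((d : ℝ) ^ k / k) := by
          field_simp
      _ ≤ 1 * ((d : ℝ) ^ k / k) := by
          refine mul_le_mul_of_nonneg_right ?_ (by positivity)
          rw [div_le_one (by positivity)]
          nlinarith
      _ = (d : ℝ) ^ k / k := one_mul _

theorem s3g {d m : ℕ} {r : ℤ → ℤ} (hstd : POSB.Std d m r) : S3gStmt d m r :=
  s3g_of hstd.hd hstd.hdm hstd.hco hstd.hr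
    (mixQ hstd.hd hstd.hdm hstd.hco hstd.hw hstd.hr (fourier_decayQ hstd.hd hstd.hdm hstd.hco hstd.hw hstd.hr))

end Pool.Agent.Helper28.PR
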