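import Pool.Agent.Helper28.PR.DefsG
import Pool.Agent.Helper85.PW.FL

/-!
# PRIMES, block S1: pairs of primes in a residue class

The sieve of Brun and Hooley (`Helper85.SV.sieve_upper`) in dimension two.
-/

set_option autoImplicit false

namespace Pool.Agent.Helper28.PR

open Finset Filter
open Pool.Agent.Helper85.SV

/-! ## Counting in residue classes -/

private theorem base24 (u H M c : ℕ) (hM : 0 < M) :
    |(((Ioc u (u + H)).filter (fun n => n ≡ c [MOD M])).card : ℝ) - (H : ℝ) / M| ≤ 1 := by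
  have h1 : ((((Ioc u (u + H)).filter (fun n => n ≡ c [MOD M])).card : ℤ) : ℤ) =
      max (⌊(((u + H : ℕ) : ℚ) - c) / M⌋ - ⌊((u : ℚ) - c) / M⌋) 0 :=
    Nat.Ioc_filter_modEq_card u (u + H) hM c
  have hM0 : (0 : ℚ) < M := by exact_mod_cast hM
  have e : (((u + H : ℕ) : ℚ) - c) / M = ((u : ℚ) - c) / M + H / M := by
    push_cast
    ring
  rw [e] at h1
  have a1 := Int.floor_le (((u : ℚ) - c) / M)
  have a2 := Int.lt_floor_add_one (((u : ℚ) - c) / M)
  have b1 := Int.floor_le (((u : ℚ) - c) / M + H / M)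
  have b2 := Int.lt_floor_add_one (((u : ℚ) - c) / M + H / M)
  have h0 : (0 : ℚ) ≤ H / M := by positivity
  have hge : ⌊((u : ℚ) - c) / M⌋ ≤ ⌊((u : ℚ) - c) / M + H / M⌋ := Int.floor_le_floor (by linarith)
  rw [max_eq_left (by omega)] at h1
  have h2 : ((((Ioc u (u + H)).filter (fun n => n ≡ c [MOD M])).card : ℤ) : ℚ) =
      (⌊((u : ℚ) - c) / M + H / M⌋ : ℚ) - (⌊((u : ℚ) - c) / M⌋ : ℚ) := by
    rw [h1]
    push_cast
    ring
  have h3 : |((((Ioc u (u + H)).filter (fun n => n ≡ c [MOD M])).card : ℤ) : ℚ) - (H : ℚ) / M| ≤ 1 := by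
    rw [h2, abs_le]
    constructor <;> linarith
  have h4 := (Rat.cast_le (K := ℝ)).2 h3
  push_cast at h4
  exact h4

private theorem cnt24 (u H : ℕ) (R : ℕ → Finset ℕ) (S : Finset ℕ) (hS : ∀ p ∈ S, p.Prime)
    (hR : ∀ p ∈ S, ∀ r ∈ R p, r < p) : ∀ M c : ℕ, 0 < M → (∀ p ∈ S, Nat.Coprime M p) →
    |(((Ioc u (u + H)).filter (fun n => n ≡ c [MOD M] ∧ ∀ p ∈ S, n % p ∈ R p)).card : ℝ) -
      (H : ℝ) / M * ∏ p ∈ S, ((R p).card : ℝ) / p| ≤ ∏ p ∈ S, ((R p).card : ℝ) := by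
  classical
  induction S using Finset.induction_on with
  | empty =>
    intro M c hM _
    have h := base24 u H M c hM
    simpa using h
  | insert p S hpS ih =>
    intro M c hM hco
    have hp : p.Prime := hS p (mem_insert_self p S)
    have hp0 : 0 < p := hp.pos
    have hMp : Nat.Coprime M p := hco p (mem_insert_self p S)
    have hS' : ∀ q ∈ S, q.Prime := fun q hq => hS q (mem_insert_of_mem hq)
    have hR' : ∀ q ∈ S, ∀ r ∈ R q, r < q := fun q hq => hR q (mem_insert_of_mem hq)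
    have hco' : ∀ q ∈ S, Nat.Coprime (M * p) q := by
      intro q hq
      refine Nat.Coprime.mul_left (hco q (mem_insert_of_mem hq)) ?_
      refine (Nat.coprime_primes hp (hS' q hq)).2 ?_
      rintro rfl
      exact hpS hq
    obtain ⟨cr, hcr⟩ : ∃ cr : ℕ → ℕ, ∀ r, cr r ≡ c [MOD M] ∧ cr r ≡ r [MOD p] :=
      ⟨fun r => (Nat.chineseRemainder hMp c r : ℕ), fun r => (Nat.chineseRemainder hMp c r).2⟩
    have hset : (Ioc u (u + H)).filter (fun n => n ≡ c [MOD M] ∧ ∀ q ∈ insert p S, n % q ∈ R q) =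
        (R p).biUnion (fun r => (Ioc u (u + H)).filter (fun n => n ≡ cr r [MOD M * p] ∧ ∀ q ∈ S, n % q ∈ R q)) := by
      ext n
      rw [mem_biUnion]
      constructor
      · intro hn
        obtain ⟨h1, h2, h3⟩ := mem_filter.1 hn
        refine ⟨n % p, h3 p (mem_insert_self p S), mem_filter.2 ⟨h1, ?_, fun q hq => h3 q (mem_insert_of_mem hq)⟩⟩
        refine (Nat.modEq_and_modEq_iff_modEq_mul hMp).1 ⟨h2.trans (hcr _).1.symm, ?_⟩
        exact (Nat.mod_modEq n p).symm.trans (hcr _).2.symm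
      · rintro ⟨r, hr, hn⟩
        obtain ⟨h1, h2, h3⟩ := mem_filter.1 hn
        obtain ⟨h4, h5⟩ := (Nat.modEq_and_modEq_iff_modEq_mul hMp).2 h2
        refine mem_filter.2 ⟨h1, h4.trans (hcr r).1, fun q hq => ?_⟩
        rcases mem_insert.1 hq with rfl | hq
        · have h6 : n % q = r % q := h5.trans (hcr r).2
          rw [h6, Nat.mod_eq_of_lt (hR q (mem_insert_self q S) r hr)]
          exact hr
        · exact h3 q hq
    have hdisj : ∀ r ∈ R p, ∀ r' ∈ R p, r ≠ r' →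
        Disjoint ((Ioc u (u + H)).filter (fun n => n ≡ cr r [MOD M * p] ∧ ∀ q ∈ S, n % q ∈ R q))
          ((Ioc u (u + H)).filter (fun n => n ≡ cr r' [MOD M * p] ∧ ∀ q ∈ S, n % q ∈ R q)) := by
      intro r hr r' hr' hne
      rw [disjoint_left]
      intro n hn hn'
      have h1 := ((Nat.modEq_and_modEq_iff_modEq_mul hMp).2 (mem_filter.1 hn).2.1).2.trans (hcr r).2
      have h2 := ((Nat.modEq_and_modEq_iff_modEq_mul hMp).2 (mem_filter.1 hn').2.1).2.trans (hcr r').2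
      have h3 : r % p = r' % p := h1.symm.trans h2
      rw [Nat.mod_eq_of_lt (hR p (mem_insert_self p S) r hr),
        Nat.mod_eq_of_lt (hR p (mem_insert_self p S) r' hr')] at h3
      exact hne h3
    rw [hset, card_biUnion hdisj, prod_insert hpS, prod_insert hpS]
    push_cast
    have h1 : ∀ r ∈ R p, |(((Ioc u (u + H)).filter (fun n => n ≡ cr r [MOD M * p] ∧ ∀ q ∈ S, n % q ∈ R q)).card : ℝ) -
        (H : ℝ) / ((M * p : ℕ) : ℝ) * ∏ q ∈ S, ((R q).card : ℝ) / q| ≤ ∏ q ∈ S, ((R q).card : ℝ) :=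
      fun r _ => ih hS' hR' (M * p) (cr r) (Nat.mul_pos hM hp0) hco'
    have h2 : (H : ℝ) / M * (((R p).card : ℝ) / p * ∏ q ∈ S, ((R q).card : ℝ) / q) =
        ∑ r ∈ R p, (H : ℝ) / ((M * p : ℕ) : ℝ) * ∏ q ∈ S, ((R q).card : ℝ) / q := by
      rw [sum_const, nsmul_eq_mul]
      push_cast
      have : (p : ℝ) ≠ 0 := by exact_mod_cast hp0.ne'
      have : (M : ℝ) ≠ 0 := by exact_mod_cast hM.ne'
      field_simp
    rw [h2, ← sum_sub_distrib]
    refine (abs_sum_le_sum_abs _ _).trans ((sum_le_sum h1).trans (le_of_eq ?_))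
    rw [sum_const, nsmul_eq_mul]

/-! ## The level -/

private theorem half24 (r : ℕ) : ∑ j ∈ range r, (1 : ℝ) / 2 ^ j ≤ 2 := by
  have key : ∀ r : ℕ, ∑ j ∈ range r, (1 : ℝ) / 2 ^ j ≤ 2 - 2 / 2 ^ r := by
    intro r
    induction r with
    | zero => norm_num
    | succ r ih =>
      rw [sum_range_succ, pow_succ]
      have h : (2 : ℝ) / (2 ^ r * 2) = 1 / 2 ^ r := by field_simp
      have h2 : (2 : ℝ) / 2 ^ r = 1 / 2 ^ r + 1 / 2 ^ r := by ring
      rw [h]
      linarith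
  have := key r
  have h : (0 : ℝ) ≤ 2 / 2 ^ r := by positivity
  linarith

private theorem half24' (r : ℕ) : ∑ j ∈ range r, (j : ℝ) / 2 ^ j ≤ 2 := by
  have key : ∀ r : ℕ, ∑ j ∈ range r, (j : ℝ) / 2 ^ j ≤ 2 - (2 * r + 2) / 2 ^ r := by
    intro r
    induction r with
    | zero => norm_num
    | succ r ih =>
      rw [sum_range_succ, pow_succ]
      have h : (2 * ((r + 1 : ℕ) : ℝ) + 2) / (2 ^ r * 2) = (r + 2) / 2 ^ r := by
        push_cast
        field_simp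
        ring
      rw [h]
      have h2 : ((2 : ℝ) * r + 2) / 2 ^ r = (r + 2) / 2 ^ r + r / 2 ^ r := by ring
      linarith
  have := key r
  have h : (0 : ℝ) ≤ (2 * r + 2) / 2 ^ r := by positivity
  linarith

private theorem level24 {P : Finset ℕ} {z : ℝ} (hz : 1 < z) (hP : ∀ p ∈ P, p.Prime ∧ (p : ℝ) < z) {r : ℕ}
    (hc : (range (r + 1)).biUnion (blk P (Real.log z)) = P) {S : Finset ℕ} (hS : S ⊆ P)
    (hcard : ∀ j ∈ range (r + 1), (S ∩ blk P (Real.log z) j).card ≤ 2 * j + 1) :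
    ((∏ p ∈ S, p : ℕ) : ℝ) ≤ z ^ 6 := by
  have hZ : 0 < Real.log z := Real.log_pos hz
  have hpos : ∀ p ∈ S, (0 : ℝ) < p := fun p hp => by exact_mod_cast (hP p (hS hp)).1.pos
  have h1 : Real.log (∏ p ∈ S, (p : ℝ)) ≤ 6 * Real.log z := by
    rw [Real.log_prod fun p hp => (hpos p hp).ne']
    have e : S = (range (r + 1)).biUnion (fun j => S ∩ blk P (Real.log z) j) := by
      rw [← inter_biUnion, hc]
      exact (inter_eq_left.2 hS).symm
    rw [e, sum_biUnion fun i _ j _ hij => (blk_disj P _ hij).mono inter_subset_right inter_subset_right]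
    have h2 : ∀ j ∈ range (r + 1), ∑ p ∈ S ∩ blk P (Real.log z) j, Real.log (p : ℝ) ≤
        Real.log z * (1 / 2 ^ j) + 2 * Real.log z * (j / 2 ^ j) := by
      intro j hj
      have h3 : ∑ p ∈ S ∩ blk P (Real.log z) j, Real.log (p : ℝ) ≤
          (S ∩ blk P (Real.log z) j).card • (Real.log z / 2 ^ j) := by
        refine sum_le_card_nsmul _ _ _ fun p hp => ?_
        have := (mem_filter.1 (mem_inter.1 hp).2).2.1
        rw [le_div_iff₀ (by positivity), mul_comm]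
        exact this.le
      rw [nsmul_eq_mul] at h3
      have h4 : ((S ∩ blk P (Real.log z) j).card : ℝ) ≤ 2 * j + 1 := by exact_mod_cast hcard j hj
      have h5 := mul_le_mul_of_nonneg_right h4 (show 0 ≤ Real.log z / 2 ^ j by positivity)
      refine (h3.trans h5).trans (le_of_eq ?_)
      field_simp
      ring
    refine (sum_le_sum h2).trans ?_
    rw [sum_add_distrib, ← mul_sum, ← mul_sum]
    have h6 := mul_le_mul_of_nonneg_left (half24 (r + 1)) hZ.le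
    have h7 := mul_le_mul_of_nonneg_left (half24' (r + 1)) (show 0 ≤ 2 * Real.log z by positivity)
    linarith
  have h8 : (0 : ℝ) < ∏ p ∈ S, (p : ℝ) := prod_pos hpos
  rw [Nat.cast_prod, ← Real.exp_log h8]
  refine (Real.exp_le_exp.2 h1).trans (le_of_eq ?_)
  rw [mul_comm, Real.exp_mul, Real.exp_log (by linarith)]
  have : (6 : ℝ) = ((6 : ℕ) : ℝ) := by norm_num
  rw [this, Real.rpow_natCast]

/-! ## The main term -/

private theorem odd_sum24 (x : ℝ) (hx : 0 ≤ x) (r : ℕ) :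
    ∑ j ∈ range r, x ^ (2 * j + 1) / ((2 * j + 1).factorial : ℝ) ≤ Real.exp x := by
  have h1 := Real.sum_le_exp_of_nonneg hx (2 * r + 1)
  refine le_trans ?_ h1
  rw [← sum_image (g := fun j : ℕ => 2 * j + 1) (f := fun i : ℕ => x ^ i / (i.factorial : ℝ))]
  · refine sum_le_sum_of_subset_of_nonneg ?_ fun i _ _ => by positivity
    intro i hi
    obtain ⟨j, hj, rfl⟩ := mem_image.1 hi
    have := mem_range.1 hj
    exact mem_range.2 (by omega)
  · intro i _ j _ hij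
    have : 2 * i + 1 = 2 * j + 1 := hij
    omega

/-- The main term of the sieve is at most a constant times the product. -/
private theorem main24 {P : Finset ℕ} (hP : ∀ p ∈ P, p.Prime) {w : ℕ → ℝ}
    (hw0 : ∀ p ∈ P, 0 ≤ w p) (hw1 : ∀ p ∈ P, w p ≤ 2 / 3) (hw2 : ∀ p ∈ P, w p ≤ 2 * (1 / (p : ℝ))) (Z : ℝ) (r : ℕ) :
    ∏ j ∈ range r, ms w (blk P Z j) (2 * j) ≤
      Real.exp (Real.exp (6 * Ls) * Real.exp (2 * Ls)) * ∏ j ∈ range r, ∏ p ∈ blk P Z j, (1 - w p) := by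
  have hsub : ∀ j, ∀ p ∈ blk P Z j, p ∈ P := fun j p hp => (mem_filter.1 hp).1
  have hsum : ∀ j, ∑ p ∈ blk P Z j, w p ≤ 2 * Ls := by
    intro j
    have h1 := blk_sum_le hP Z j
    have h2 : ∑ p ∈ blk P Z j, w p ≤ ∑ p ∈ blk P Z j, 2 * (1 / (p : ℝ)) := sum_le_sum fun p hp => hw2 p (hsub j p hp)
    rw [← mul_sum] at h2
    linarith
  have hx : ∀ j, Real.exp (-(6 * Ls)) ≤ ∏ p ∈ blk P Z j, (1 - w p) := by
    intro j
    have hpos : ∀ p ∈ blk P Z j, (0 : ℝ) < 1 - w p := fun p hp => by linarith [hw1 p (hsub j p hp)]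
    rw [← Real.exp_log (prod_pos hpos), Real.log_prod (fun p hp => (hpos p hp).ne')]
    refine Real.exp_le_exp.2 ?_
    have h2 : ∑ p ∈ blk P Z j, -(3 * w p) ≤ ∑ p ∈ blk P Z j, Real.log (1 - w p) := by
      refine sum_le_sum fun p hp => ?_
      have h3 := Real.one_sub_inv_le_log_of_pos (hpos p hp)
      refine le_trans ?_ h3
      have h4 := hw0 p (hsub j p hp)
      have h5 := hw1 p (hsub j p hp)
      have h6 : (1 - w p)⁻¹ ≤ 1 + 3 * w p := by
        rw [inv_le_comm₀ (hpos p hp) (by linarith), inv_le_iff_one_le_mul₀ (by linarith)]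
        nlinarith
      linarith
    rw [sum_neg_distrib, ← mul_sum] at h2
    linarith [hsum j]
  have hms : ∀ j ∈ range r, ms w (blk P Z j) (2 * j) ≤ (∏ p ∈ blk P Z j, (1 - w p)) *
      Real.exp (Real.exp (6 * Ls) * ((2 * Ls) ^ (2 * j + 1) / ((2 * j + 1).factorial : ℝ))) := by
    intro j _
    have h1 := (bonf (w := w) (P := blk P Z j) (fun p hp => ⟨hw0 p (hsub j p hp), by linarith [hw1 p (hsub j p hp)]⟩) (2 * j)).2
    rw [(even_two_mul j).neg_one_pow, one_mul] at h1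
    have h2 := es_le (w := w) (P := blk P Z j) (fun p hp => hw0 p (hsub j p hp)) (2 * j + 1)
    have h3 : (∑ p ∈ blk P Z j, w p) ^ (2 * j + 1) / ((2 * j + 1).factorial : ℝ) ≤
        (2 * Ls) ^ (2 * j + 1) / ((2 * j + 1).factorial : ℝ) :=
      div_le_div_of_nonneg_right (pow_le_pow_left₀ (sum_nonneg fun p hp => hw0 p (hsub j p hp)) (hsum j) _) (by positivity)
    obtain ⟨a, ha⟩ : ∃ a : ℝ, a = (2 * Ls) ^ (2 * j + 1) / ((2 * j + 1).factorial : ℝ) := ⟨_, rfl⟩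
    have ha0 : 0 ≤ a := by rw [ha]; have := Ls_pos; positivity
    rw [← ha] at h3 ⊢
    have hxj := hx j
    obtain ⟨x, hxx⟩ : ∃ x : ℝ, x = ∏ p ∈ blk P Z j, (1 - w p) := ⟨_, rfl⟩
    rw [← hxx] at h1 hxj ⊢
    have hx0 : 0 < x := lt_of_lt_of_le (Real.exp_pos _) hxj
    have h4 : a ≤ x * (Real.exp (6 * Ls) * a) := by
      have h5 : 1 ≤ x * Real.exp (6 * Ls) := by
        have h6 := mul_le_mul_of_nonneg_right hxj (Real.exp_pos (6 * Ls)).le
        rwa [← Real.exp_add, neg_add_cancel, Real.exp_zero] at h6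
      nlinarith
    have h7 := Real.add_one_le_exp (Real.exp (6 * Ls) * a)
    have h8 := mul_le_mul_of_nonneg_left h7 hx0.le
    linarith
  have hms0 : ∀ j ∈ range r, 0 ≤ ms w (blk P Z j) (2 * j) := by
    intro j _
    have h1 := (bonf (w := w) (P := blk P Z j) (fun p hp => ⟨hw0 p (hsub j p hp), by linarith [hw1 p (hsub j p hp)]⟩) (2 * j)).1
    rw [(even_two_mul j).neg_one_pow, one_mul] at h1
    linarith [hx j, Real.exp_pos (-(6 * Ls))]
  refine (prod_le_prod hms0 hms).trans ?_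
  rw [prod_mul_distrib, ← Real.exp_sum, ← mul_sum, mul_comm]
  refine mul_le_mul_of_nonneg_right (Real.exp_le_exp.2 (mul_le_mul_of_nonneg_left ?_ (Real.exp_pos _).le)) ?_
  · exact odd_sum24 (2 * Ls) (by have := Ls_pos; positivity) r
  · exact prod_nonneg fun j _ => (Real.exp_pos _).le.trans (hx j)

/-! ## The product -/

/-- The residues `0` and `-h` modulo `p`. -/
private def Rs (h : ℤ) (p : ℕ) : Finset ℕ := {0, ((-h) % (p : ℤ)).toNat}

/-- The odd primes up to `N`. -/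
private def PO (N : ℕ) : Finset ℕ := (Icc 3 N).filter Nat.Prime

private theorem mem_PO {N p : ℕ} : p ∈ PO N ↔ p.Prime ∧ 3 ≤ p ∧ p ≤ N := by
  unfold PO
  rw [mem_filter, mem_Icc]
  tauto

private theorem Rs_le (h : ℤ) (p : ℕ) : (Rs h p).card ≤ 2 := card_le_two

private theorem Rs_ge (h : ℤ) (p : ℕ) : 1 ≤ (Rs h p).card :=
  card_pos.2 ⟨0, by unfold Rs; exact mem_insert_self _ _⟩

private theorem Rs_two {h : ℤ} {p : ℕ} (hp : 0 < p) (hd : ¬ (p : ℤ) ∣ h) : (Rs h p).card = 2 := by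
  unfold Rs
  rw [card_pair]
  intro h0
  have hp' : (p : ℤ) ≠ 0 := by exact_mod_cast hp.ne'
  have h1 := Int.emod_nonneg (-h) hp'
  have h2 : (-h) % (p : ℤ) = 0 := by omega
  exact hd ((Int.dvd_neg).1 (Int.dvd_of_emod_eq_zero h2))

private theorem Rs_lt (h : ℤ) {p : ℕ} (hp : 0 < p) : ∀ r ∈ Rs h p, r < p := by
  intro r hr
  unfold Rs at hr
  rw [mem_insert, mem_singleton] at hr
  rcases hr with rfl | rfl
  · exact hp
  · have hp' : (0 : ℤ) < p := by exact_mod_cast hp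
    have h1 := Int.emod_nonneg (-h) hp'.ne'
    have h2 := Int.emod_lt_of_pos (-h) hp'
    omega

private theorem fac_pos {p : ℕ} (hp : p.Prime) : 0 < 1 - 1 / (p : ℝ) ∧ 1 - 1 / (p : ℝ) ≤ 1 := by
  have h1 : (1 : ℝ) < p := by exact_mod_cast hp.one_lt
  constructor
  · rw [sub_pos, div_lt_one (by linarith)]
    exact h1
  · have : 0 ≤ 1 / (p : ℝ) := by positivity
    linarith

private theorem tot_eq {n : ℕ} (hn : 0 < n) :
    (n : ℝ) / (Nat.totient n : ℝ) = ∏ p ∈ n.primeFactors, (1 - 1 / (p : ℝ))⁻¹ := by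
  have hn' : (n : ℝ) ≠ 0 := by exact_mod_cast hn.ne'
  have h1 : ((Nat.totient n : ℕ) : ℝ) = (n : ℝ) * ∏ p ∈ n.primeFactors, (1 - 1 / (p : ℝ)) := by
    have h2 := congrArg (fun x : ℚ => (x : ℝ)) (Nat.totient_eq_mul_prod_factors n)
    push_cast at h2
    rw [h2]
    congr 1
    exact prod_congr rfl fun p _ => by rw [one_div]
  rw [h1, prod_inv_distrib, ← div_div, div_self hn', one_div]

private theorem one_le_tot {n : ℕ} (hn : 0 < n) : 1 ≤ (n : ℝ) / (Nat.totient n : ℝ) := by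
  rw [tot_eq hn]
  refine Finset.one_le_prod fun p hp => ?_
  obtain ⟨h1, h2⟩ := fac_pos (Nat.prime_of_mem_primeFactors hp)
  exact (one_le_inv₀ h1).2 h2

/-- The part of the product which comes from the divisors of `n`. -/
private theorem part24 {n : ℕ} (hn : 0 < n) (N : ℕ) :
    ∏ p ∈ PO N, (if p ∣ n then (1 - 1 / (p : ℝ))⁻¹ else 1) ≤ (n : ℝ) / (Nat.totient n : ℝ) := by
  rw [tot_eq hn, ← prod_filter]
  refine prod_le_prod_of_subset_of_one_le ?_ ?_ ?_
  · intro p hp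
    obtain ⟨h1, h2⟩ := mem_filter.1 hp
    exact Nat.mem_primeFactors.2 ⟨(mem_PO.1 h1).1, h2, hn.ne'⟩
  · intro p hp
    exact (inv_pos.2 (fac_pos (mem_PO.1 (mem_filter.1 hp).1).1).1).le
  · intro p hp _
    obtain ⟨h1, h2⟩ := fac_pos (Nat.prime_of_mem_primeFactors hp)
    exact (one_le_inv₀ h1).2 h2

private theorem prod24 : ∃ C : ℝ, 0 < C ∧ ∀ (N q : ℕ) (h : ℤ), h ≠ 0 → 0 < q → 3 ≤ N →
    ∏ p ∈ (PO N).filter (fun p => ¬ p ∣ q), (1 - ((Rs h p).card : ℝ) / p) ≤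
      C * ((q / Nat.totient q) ^ 2 * sing h) / Real.log ((N : ℝ) + 1) ^ 2 := by
  obtain ⟨C, hC0, hC⟩ := Pool.Agent.Helper66.AF.mertens_lower
  refine ⟨(2 * Real.exp (C + 1 / 2)) ^ 2, by positivity, fun N q h hh hq hN => ?_⟩
  have hN3 : (3 : ℝ) ≤ N := by exact_mod_cast hN
  have hlogN : 0 < Real.log N := Real.log_pos (by linarith)
  have hlogN1 : 0 < Real.log ((N : ℝ) + 1) := Real.log_pos (by linarith)
  have hlog2 : Real.log ((N : ℝ) + 1) ≤ 2 * Real.log N := by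
    have h1 : (N : ℝ) + 1 ≤ N ^ 2 := by nlinarith
    have h2 := Real.log_le_log (by linarith) h1
    rwa [Real.log_pow, Nat.cast_ofNat] at h2
  have hnat : 0 < h.natAbs := Int.natAbs_pos.2 hh
  -- the local factors
  have hloc : ∀ p ∈ PO N, (if ¬ p ∣ q then 1 - ((Rs h p).card : ℝ) / p else 1) ≤
      (1 - 1 / (p : ℝ)) ^ 2 * ((if p ∣ h.natAbs then (1 - 1 / (p : ℝ))⁻¹ else 1) *
        (if p ∣ q then (1 - 1 / (p : ℝ))⁻¹ else 1) ^ 2) := by
    intro p hp
    obtain ⟨hpp, hp3, -⟩ := mem_PO.1 hp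
    have hp0 : (0 : ℝ) < p := by exact_mod_cast hpp.pos
    obtain ⟨h1, h2⟩ := fac_pos hpp
    have hg : (1 : ℝ) ≤ if p ∣ h.natAbs then (1 - 1 / (p : ℝ))⁻¹ else 1 := by
      split_ifs
      · exact (one_le_inv₀ h1).2 h2
      · exact le_rfl
    by_cases hpq : p ∣ q
    · rw [if_neg (not_not.2 hpq), if_pos hpq]
      have h3 : (1 - 1 / (p : ℝ)) ^ 2 * ((if p ∣ h.natAbs then (1 - 1 / (p : ℝ))⁻¹ else 1) * (1 - 1 / (p : ℝ))⁻¹ ^ 2) =
          if p ∣ h.natAbs then (1 - 1 / (p : ℝ))⁻¹ else 1 := by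
        have h4 : (1 - 1 / (p : ℝ)) ^ 2 * (1 - 1 / (p : ℝ))⁻¹ ^ 2 = 1 := by
          rw [← mul_pow, mul_inv_cancel₀ h1.ne', one_pow]
        calc _ = ((1 - 1 / (p : ℝ)) ^ 2 * (1 - 1 / (p : ℝ))⁻¹ ^ 2) *
            (if p ∣ h.natAbs then (1 - 1 / (p : ℝ))⁻¹ else 1) := by ring
          _ = _ := by rw [h4, one_mul]
      rw [h3]
      exact hg
    · rw [if_pos hpq, if_neg hpq, one_pow, mul_one]
      split_ifs with hd
      · have h3 : (1 : ℝ) ≤ (Rs h p).card := by exact_mod_cast Rs_ge h p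
        have h4 : 1 / (p : ℝ) ≤ ((Rs h p).card : ℝ) / p := div_le_div_of_nonneg_right h3 hp0.le
        have h5 : (1 - 1 / (p : ℝ)) ^ 2 * (1 - 1 / (p : ℝ))⁻¹ = 1 - 1 / (p : ℝ) := by
          rw [sq, mul_assoc, mul_inv_cancel₀ h1.ne', mul_one]
        rw [h5]
        linarith
      · rw [Rs_two hpp.pos (fun h6 => hd (Int.natCast_dvd.1 h6)), mul_one]
        have h6 : (1 - 1 / (p : ℝ)) ^ 2 = 1 - 2 / p + 1 / (p : ℝ) ^ 2 := by
          field_simp
          ring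
        rw [h6]
        have h7 : (0 : ℝ) ≤ 1 / (p : ℝ) ^ 2 := by positivity
        push_cast
        linarith
  have hnn : ∀ p ∈ PO N, 0 ≤ (if ¬ p ∣ q then 1 - ((Rs h p).card : ℝ) / p else 1) := by
    intro p hp
    obtain ⟨hpp, hp3, -⟩ := mem_PO.1 hp
    have hp3' : (3 : ℝ) ≤ p := by exact_mod_cast hp3
    have h1 : ((Rs h p).card : ℝ) ≤ 2 := by exact_mod_cast Rs_le h p
    split_ifs
    · norm_num
    · rw [sub_nonneg, div_le_one (by linarith)]
      linarith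
  have h1 := prod_le_prod hnn hloc
  rw [prod_mul_distrib, prod_mul_distrib, prod_pow, prod_pow, ← prod_filter] at h1
  -- the product over all odd primes
  have h2 : ∏ p ∈ PO N, (1 - 1 / (p : ℝ)) ≤ Real.exp (C + 1 / 2) / Real.log N := by
    have h3 : ∏ p ∈ PO N, (1 - 1 / (p : ℝ)) ≤ ∏ p ∈ PO N, Real.exp (-(1 / (p : ℝ))) := by
      refine prod_le_prod (fun p hp => (fac_pos (mem_PO.1 hp).1).1.le) fun p _ => ?_
      exact Real.one_sub_le_exp_neg _
    rw [← Real.exp_sum, sum_neg_distrib] at h3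
    have h4 := hC N hN
    have h5 : ∑ p ∈ Pool.Agent.Helper5.RM.PP N, (1 : ℝ) / p ≤ 1 / 2 + ∑ p ∈ PO N, (1 : ℝ) / p := by
      have h6 : Pool.Agent.Helper5.RM.PP N ⊆ insert 2 (PO N) := by
        intro p hp
        obtain ⟨h7, h8⟩ := mem_filter.1 hp
        rcases eq_or_ne p 2 with rfl | h9
        · exact mem_insert_self _ _
        · refine mem_insert_of_mem (mem_PO.2 ⟨h8, ?_, (mem_Icc.1 h7).2⟩)
          have := h8.two_le
          omega
      have h10 : (2 : ℕ) ∉ PO N := fun h11 => by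
        have := (mem_PO.1 h11).2.1
        omega
      refine (sum_le_sum_of_subset_of_nonneg h6 fun p _ _ => by positivity).trans (le_of_eq ?_)
      rw [sum_insert h10]
      norm_num
    refine h3.trans ?_
    have e : Real.exp (C + 1 / 2) / Real.log N = Real.exp (C + 1 / 2 - Real.log (Real.log N)) := by
      rw [Real.exp_sub, Real.exp_log hlogN]
    rw [e]
    refine Real.exp_le_exp.2 ?_
    linarith
  have h2' : ∏ p ∈ PO N, (1 - 1 / (p : ℝ)) ≤ 2 * Real.exp (C + 1 / 2) / Real.log ((N : ℝ) + 1) := by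
    refine h2.trans ?_
    rw [div_le_div_iff₀ hlogN hlogN1]
    have := mul_le_mul_of_nonneg_left hlog2 (Real.exp_pos (C + 1 / 2)).le
    linarith
  have h0 : 0 ≤ ∏ p ∈ PO N, (1 - 1 / (p : ℝ)) := prod_nonneg fun p hp => (fac_pos (mem_PO.1 hp).1).1.le
  have h12 := pow_le_pow_left₀ h0 h2' 2
  have h13 := part24 hnat N
  have h14 := part24 hq N
  have hk0 : ∀ n : ℕ, 0 ≤ ∏ p ∈ PO N, (if p ∣ n then (1 - 1 / (p : ℝ))⁻¹ else 1) := by
    intro n
    refine prod_nonneg fun p hp => ?_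
    split_ifs
    · exact (inv_pos.2 (fac_pos (mem_PO.1 hp).1).1).le
    · norm_num
  have h15 := pow_le_pow_left₀ (hk0 q) h14 2
  have hs : ((h.natAbs : ℕ) : ℝ) / (Nat.totient h.natAbs : ℝ) = sing h := rfl
  rw [hs] at h13
  have hs0 : 0 ≤ sing h := (hk0 _).trans h13
  refine h1.trans ?_
  have h16 : (∏ p ∈ PO N, (if p ∣ h.natAbs then (1 - 1 / (p : ℝ))⁻¹ else 1)) *
      (∏ p ∈ PO N, (if p ∣ q then (1 - 1 / (p : ℝ))⁻¹ else 1)) ^ 2 ≤
      sing h * ((q : ℝ) / (Nat.totient q : ℝ)) ^ 2 := mul_le_mul h13 h15 (by positivity) hs0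
  have h17 := mul_le_mul h12 h16 (mul_nonneg (hk0 _) (by positivity)) (by positivity)
  refine h17.trans (le_of_eq ?_)
  rw [div_pow]
  ring

/-! ## The sieve -/

/-- The contribution of the error terms. -/
private theorem err24 {P : Finset ℕ} {z : ℝ} (hz : 1 < z) (hP : ∀ p ∈ P, p.Prime ∧ (p : ℝ) < z) {r : ℕ}
    (hc : (range (r + 1)).biUnion (blk P (Real.log z)) = P) (E : Finset ℕ → ℝ)
    (hE : ∀ S ⊆ P, E S ≤ ((∏ p ∈ S, p : ℕ) : ℝ)) (F : Finset (Finset ℕ))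
    (hF : ∀ S ∈ F, S ⊆ P ∧ ∀ j ∈ range (r + 1), (S ∩ blk P (Real.log z) j).card ≤ 2 * j + 1) :
    ∑ S ∈ F, E S ≤ z ^ 12 := by
  have hmem : ∀ S ∈ F, S ⊆ P ∧ ((∏ p ∈ S, p : ℕ) : ℝ) ≤ z ^ 6 := by
    intro S hS
    exact ⟨(hF S hS).1, level24 hz hP hc (hF S hS).1 (hF S hS).2⟩
  have h1 : ∑ S ∈ F, E S ≤ F.card • z ^ 6 :=
    sum_le_card_nsmul _ _ _ fun S hS => (hE S (hmem S hS).1).trans (hmem S hS).2
  have h2 : (F.card : ℝ) ≤ z ^ 6 := by
    have h3 : F.card ≤ (Icc 1 ⌊z ^ 6⌋₊).card := by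
      refine card_le_card_of_injOn (fun S => ∏ p ∈ S, p) ?_ ?_
      · intro S hS
        obtain ⟨h4, h5⟩ := hmem S hS
        exact mem_coe.2 (mem_Icc.2 ⟨prod_pos fun p hp => (hP p (h4 hp)).1.pos, Nat.le_floor h5⟩)
      · intro S hS T hT hST
        have h3 : ∏ p ∈ S, p = ∏ p ∈ T, p := hST
        rw [← Nat.primeFactors_prod fun p hp => (hP p ((hmem S hS).1 hp)).1,
          ← Nat.primeFactors_prod fun p hp => (hP p ((hmem T hT).1 hp)).1, h3]
    rw [Nat.card_Icc, Nat.add_sub_cancel] at h3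
    exact (Nat.cast_le.2 h3).trans (Nat.floor_le (by positivity))
  rw [nsmul_eq_mul] at h1
  have h4 : (0 : ℝ) ≤ z ^ 6 := by positivity
  calc ∑ S ∈ F, E S ≤ F.card * z ^ 6 := h1
    _ ≤ z ^ 6 * z ^ 6 := mul_le_mul_of_nonneg_right h2 h4
    _ = z ^ 12 := by ring

theorem s1g : S1gStmt := by
  classical
  obtain ⟨C1, hC1, hprod⟩ := prod24
  obtain ⟨MT, hMT⟩ : ∃ MT : ℝ, MT = Real.exp (Real.exp (6 * Ls) * Real.exp (2 * Ls)) := ⟨_, rfl⟩
  have hMT0 : 0 < MT := by rw [hMT]; exact Real.exp_pos _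
  refine ⟨2304 * (MT * C1 + 2 ^ 24), 3 ^ 48, by positivity, fun q b u H h hH hq hqH hHu hb hh hhH => ?_⟩
  have hHr : (3 : ℝ) ^ 48 ≤ H := by exact_mod_cast hH
  have hH0 : (0 : ℝ) < H := lt_of_lt_of_le (by positivity) hHr
  have hq0 : (0 : ℝ) < q := by exact_mod_cast hq
  -- the level of the sieve
  obtain ⟨y, hy⟩ : ∃ y : ℝ, y = (H : ℝ) ^ ((1 : ℝ) / 48) := ⟨_, rfl⟩
  have hy0 : 0 ≤ y := by rw [hy]; positivity
  have hy48 : y ^ 48 = H := by
    rw [hy, ← Real.rpow_natCast, ← Real.rpow_mul hH0.le]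
    norm_num
  have hy3 : 3 ≤ y := by
    by_contra hc
    have := pow_lt_pow_left₀ (not_le.1 hc) hy0 (show 48 ≠ 0 by norm_num)
    linarith
  obtain ⟨N, hN⟩ : ∃ N : ℕ, N = ⌊y⌋₊ := ⟨_, rfl⟩
  have hNy : (N : ℝ) ≤ y := by rw [hN]; exact Nat.floor_le hy0
  have hyN : y < (N : ℝ) + 1 := by rw [hN]; exact Nat.lt_floor_add_one y
  have hN3 : 3 ≤ N := by rw [hN]; exact Nat.le_floor (by exact_mod_cast hy3)
  have hN3r : (3 : ℝ) ≤ N := by exact_mod_cast hN3
  obtain ⟨z, hz⟩ : ∃ z : ℝ, z = (N : ℝ) + 1 := ⟨_, rfl⟩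
  have hz4 : 4 ≤ z := by rw [hz]; linarith
  have hz48 : (H : ℝ) ≤ z ^ 48 := by
    rw [← hy48, hz]
    exact pow_le_pow_left₀ hy0 hyN.le 48
  have hzN : z ≤ 2 * N := by rw [hz]; linarith
  have hN48 : (N : ℝ) ^ 48 ≤ H := by
    rw [← hy48]
    exact pow_le_pow_left₀ (by positivity) hNy 48
  have hz48' : z ^ 48 ≤ 2 ^ 48 * H := by
    have h1 := pow_le_pow_left₀ (show 0 ≤ z by linarith) hzN 48
    rw [mul_pow] at h1
    have h2 := mul_le_mul_of_nonneg_left hN48 (show (0 : ℝ) ≤ 2 ^ 48 by positivity)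
    linarith
  have hZ : 0 < Real.log z := Real.log_pos (by linarith)
  have hl2 : 0 < Real.log 2 := Real.log_pos (by norm_num)
  have hlogH : Real.log H ≤ 48 * Real.log z := by
    have h1 := Real.log_le_log hH0 hz48
    rwa [Real.log_pow, Nat.cast_ofNat] at h1
  have hlogH0 : 0 < Real.log H := Real.log_pos (by
    have : (1 : ℝ) < 3 ^ 48 := by norm_num
    linarith)
  have hNH : 2 * N < H := by
    have h1 : N ^ 48 ≤ H := by exact_mod_cast hN48
    have h2 : 2 * N < N ^ 48 := by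
      calc 2 * N < N * N := Nat.mul_lt_mul_of_pos_right (by omega) (by omega)
        _ = N ^ 2 := (sq N).symm
        _ ≤ N ^ 48 := Nat.pow_le_pow_right (by omega) (by norm_num)
    omega
  -- the primes of the sieve
  obtain ⟨P, hPd⟩ : ∃ P : Finset ℕ, P = (PO N).filter (fun p => ¬ p ∣ q) := ⟨_, rfl⟩
  have hPm : ∀ p ∈ P, p.Prime ∧ 3 ≤ p ∧ p ≤ N ∧ ¬ p ∣ q := by
    intro p hp
    rw [hPd] at hp
    obtain ⟨h1, h2⟩ := mem_filter.1 hp
    obtain ⟨h3, h4, h5⟩ := mem_PO.1 h1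
    exact ⟨h3, h4, h5, h2⟩
  have hP : ∀ p ∈ P, p.Prime ∧ (p : ℝ) < z := by
    intro p hp
    obtain ⟨h1, -, h3, -⟩ := hPm p hp
    have : (p : ℝ) ≤ N := by exact_mod_cast h3
    exact ⟨h1, by rw [hz]; linarith⟩
  obtain ⟨r, hr⟩ : ∃ r : ℕ, Real.log z ≤ 2 ^ (r + 1) * Real.log 2 := by
    obtain ⟨r, hr⟩ := pow_unbounded_of_one_lt (Real.log z / Real.log 2) (show (1 : ℝ) < 2 by norm_num)
    refine ⟨r, ?_⟩
    rw [div_lt_iff₀ hl2] at hr
    refine hr.le.trans (mul_le_mul_of_nonneg_right ?_ hl2.le)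
    exact pow_le_pow_right₀ (by norm_num) (Nat.le_succ r)
  have hP' : ∀ p ∈ P, p.Prime ∧ Real.log p < Real.log z := fun p hp =>
    ⟨(hP p hp).1, Real.log_lt_log (by exact_mod_cast (hP p hp).1.pos) (hP p hp).2⟩
  have hcov := blk_cover hP' hr
  have hmain := sieve_upper (range (r + 1)) (blk P (Real.log z)) (fun i _ j _ hij => blk_disj P _ hij)
    (fun j => 2 * j) (fun j _ => even_two_mul j) ((Ioc u (u + H)).filter (fun n => n ≡ b [MOD q]))
    (fun n => P.filter (fun p => n % p ∈ Rs h p)) ((H : ℝ) / q) (fun p => ((Rs h p).card : ℝ) / p)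
    (fun S => ∏ p ∈ S, ((Rs h p).card : ℝ)) (by
      intro S hS _
      rw [hcov] at hS
      have e1 : ((Ioc u (u + H)).filter (fun n => n ≡ b [MOD q])).filter
          (fun n => S ⊆ P.filter (fun p => n % p ∈ Rs h p)) =
          (Ioc u (u + H)).filter (fun n => n ≡ b [MOD q] ∧ ∀ p ∈ S, n % p ∈ Rs h p) := by
        rw [filter_filter]
        refine filter_congr fun n _ => and_congr_right fun _ => ?_
        constructor
        · intro h1 p hp
          exact (mem_filter.1 (h1 hp)).2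
        · intro h1 p hp
          exact mem_filter.2 ⟨hS hp, h1 p hp⟩
      rw [e1]
      refine cnt24 u H (Rs h) S (fun p hp => (hPm p (hS hp)).1)
        (fun p hp => Rs_lt h (hPm p (hS hp)).1.pos) q b hq fun p hp => ?_
      exact ((Nat.Prime.coprime_iff_not_dvd (hPm p (hS hp)).1).2 (hPm p (hS hp)).2.2.2).symm)
  have herr := err24 (by linarith) hP hcov (fun S => ∏ p ∈ S, ((Rs h p).card : ℝ)) (by
    intro S hS
    rw [Nat.cast_prod]
    refine prod_le_prod (fun p _ => by positivity) fun p hp => ?_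
    have h1 := Rs_le h p
    have h2 := (hPm p (hS hp)).2.1
    exact_mod_cast (show (Rs h p).card ≤ p by omega))
  rw [hcov] at hmain
  have herr := herr _ (fun S hS => ⟨mem_powerset.1 (mem_filter.1 hS).1, (mem_filter.1 hS).2⟩)
  have hmain := hmain.trans (add_le_add_right herr _)
  have hw3 : ∀ p ∈ P, (3 : ℝ) ≤ p := fun p hp => by exact_mod_cast (hPm p hp).2.1
  have hms := main24 (P := P) (fun p hp => (hP p hp).1) (w := fun p => ((Rs h p).card : ℝ) / p)
    (fun p _ => by positivity)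
    (fun p hp => by
      have h1 : ((Rs h p).card : ℝ) ≤ 2 := by exact_mod_cast Rs_le h p
      have h2 := hw3 p hp
      rw [div_le_div_iff₀ (by linarith) (by norm_num)]
      linarith)
    (fun p hp => by
      have h1 : ((Rs h p).card : ℝ) ≤ 2 := by exact_mod_cast Rs_le h p
      have h2 := hw3 p hp
      rw [mul_one_div]
      exact div_le_div_of_nonneg_right h1 (by linarith)) (Real.log z) (r + 1)
  rw [← prod_biUnion fun i _ j _ hij => blk_disj P _ hij, hcov, ← hMT] at hms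
  have hpr := hprod N q h hh hq hN3
  rw [← hPd, ← hz] at hpr
  -- the primes of the set survive
  have hsurv : {p : ℕ | p.Prime ∧ u < p ∧ p ≤ u + H ∧ p ≡ b [MOD q] ∧ ∃ p' : ℕ, p'.Prime ∧ (p' : ℤ) = p + h} ⊆
      ↑(((Ioc u (u + H)).filter (fun n => n ≡ b [MOD q])).filter
        (fun n => P.filter (fun p => n % p ∈ Rs h p) = ∅)) := by
    rintro p ⟨hp, hup, hpu, hpb, p', hp', hpp⟩
    refine mem_coe.2 (mem_filter.2 ⟨mem_filter.2 ⟨mem_Ioc.2 ⟨hup, hpu⟩, hpb⟩, ?_⟩)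
    rw [filter_eq_empty_iff]
    intro l hl hmem
    obtain ⟨hlp, hl3, hlN, -⟩ := hPm l hl
    unfold Rs at hmem
    rw [mem_insert, mem_singleton] at hmem
    rcases hmem with h1 | h1
    · have h2 := (Nat.prime_dvd_prime_iff_eq hlp hp).1 (Nat.dvd_of_mod_eq_zero h1)
      omega
    · have hl0 : (0 : ℤ) < l := by exact_mod_cast hlp.pos
      have h2 := Int.emod_nonneg (-h) hl0.ne'
      have h3 : ((p % l : ℕ) : ℤ) = (-h) % (l : ℤ) := by
        rw [h1]
        omega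
      rw [Int.natCast_mod] at h3
      have h4 : (l : ℤ) ∣ p - (-h) := Int.ModEq.dvd (Int.ModEq.symm h3)
      have h5 : (l : ℤ) ∣ (p' : ℤ) := by
        rw [hpp]
        simpa using h4
      have h6 := (Nat.prime_dvd_prime_iff_eq hlp hp').1 (Int.natCast_dvd_natCast.1 h5)
      subst h6
      have h7 : |h| < H := by
        have : (0 : ℤ) ≤ |h| := abs_nonneg h
        have hHp : (0 : ℤ) < H := by omega
        linarith
      have h8 := neg_abs_le h
      have hNH' : 2 * (N : ℤ) < H := by exact_mod_cast hNH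
      have hlN' : (l : ℤ) ≤ N := by exact_mod_cast hlN
      have hHu' : (H : ℤ) ≤ u := by exact_mod_cast hHu
      have hup' : (u : ℤ) < p := by exact_mod_cast hup
      linarith
  have hcard : ({p : ℕ | p.Prime ∧ u < p ∧ p ≤ u + H ∧ p ≡ b [MOD q] ∧
      ∃ p' : ℕ, p'.Prime ∧ (p' : ℤ) = p + h}.ncard : ℝ) ≤
      ((((Ioc u (u + H)).filter (fun n => n ≡ b [MOD q])).filter
        (fun n => P.filter (fun p => n % p ∈ Rs h p) = ∅)).card : ℝ) := by
    have h1 := Set.ncard_le_ncard hsurv (Finset.finite_toSet _)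
    rw [Set.ncard_coe_finset] at h1
    exact_mod_cast h1
  -- the final inequality
  obtain ⟨X, hX⟩ : ∃ X : ℝ, X = (H : ℝ) / q := ⟨_, rfl⟩
  have hX0 : 0 < X := by rw [hX]; positivity
  obtain ⟨G, hG⟩ : ∃ G : ℝ, G = ((q : ℝ) / Nat.totient q) ^ 2 * sing h := ⟨_, rfl⟩
  have hs1 : 1 ≤ sing h := one_le_tot (Int.natAbs_pos.2 hh)
  have hq1 : 1 ≤ (q : ℝ) / Nat.totient q := one_le_tot hq
  have hG1 : 1 ≤ G := by
    rw [hG]
    nlinarith [one_le_pow₀ hq1 (n := 2)]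
  have hGs : G ≤ ((q : ℝ) / Nat.totient q) ^ 2 * sing h ^ 2 := by
    rw [hG]
    refine mul_le_mul_of_nonneg_left ?_ (by positivity)
    nlinarith
  rw [← hX] at hmain
  rw [← hG] at hpr
  have hL2 : Real.log H ^ 2 ≤ 2304 * Real.log z ^ 2 := by
    have h1 := pow_le_pow_left₀ hlogH0.le hlogH 2
    rw [mul_pow] at h1
    norm_num at h1 ⊢
    exact h1
  have hm1 : X * ∏ j ∈ range (r + 1), ms (fun p => ((Rs h p).card : ℝ) / p) (blk P (Real.log z) j) (2 * j) ≤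
      2304 * (MT * C1) * G * (X / Real.log H ^ 2) := by
    have h1 : ∏ j ∈ range (r + 1), ms (fun p => ((Rs h p).card : ℝ) / p) (blk P (Real.log z) j) (2 * j) ≤
        MT * (C1 * G / Real.log z ^ 2) := hms.trans (mul_le_mul_of_nonneg_left hpr hMT0.le)
    have h2 : C1 * G / Real.log z ^ 2 ≤ 2304 * (C1 * G) / Real.log H ^ 2 := by
      rw [div_le_div_iff₀ (by positivity) (by positivity)]
      have h3 := mul_le_mul_of_nonneg_left hL2 (show 0 ≤ C1 * G by positivity)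
      linarith
    have h3 := mul_le_mul_of_nonneg_left (h1.trans (mul_le_mul_of_nonneg_left h2 hMT0.le)) hX0.le
    refine h3.trans (le_of_eq ?_)
    ring
  have hXH : (H : ℝ) ≤ X ^ 2 := by
    have h1 : (q : ℝ) ^ 2 ≤ H := by exact_mod_cast hqH
    rw [hX, div_pow, le_div_iff₀ (by positivity)]
    nlinarith
  have hz14 : z ^ 14 ≤ 2 ^ 24 * X := by
    have h1 : (z ^ 14) ^ 2 ≤ (2 ^ 24 * X) ^ 2 := by
      calc (z ^ 14) ^ 2 = z ^ 28 := by ring
        _ ≤ z ^ 48 := pow_le_pow_right₀ (by linarith) (by norm_num)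
        _ ≤ 2 ^ 48 * H := hz48'
        _ ≤ 2 ^ 48 * X ^ 2 := mul_le_mul_of_nonneg_left hXH (by positivity)
        _ = (2 ^ 24 * X) ^ 2 := by ring
    exact (pow_le_pow_iff_left₀ (by positivity) (by positivity) (by norm_num)).1 h1
  have hz12 : z ^ 12 ≤ 2304 * 2 ^ 24 * (X / Real.log H ^ 2) := by
    rw [← mul_div_assoc, le_div_iff₀ (by positivity)]
    have h1 : Real.log z ≤ z := by
      have := Real.log_le_sub_one_of_pos (show 0 < z by linarith)
      linarith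
    have h2 := pow_le_pow_left₀ hZ.le h1 2
    have h3 : z ^ 12 * Real.log H ^ 2 ≤ z ^ 12 * (2304 * z ^ 2) :=
      mul_le_mul_of_nonneg_left (by linarith) (by positivity)
    calc z ^ 12 * Real.log H ^ 2 ≤ z ^ 12 * (2304 * z ^ 2) := h3
      _ = 2304 * z ^ 14 := by ring
      _ ≤ 2304 * (2 ^ 24 * X) := mul_le_mul_of_nonneg_left hz14 (by norm_num)
      _ = 2304 * 2 ^ 24 * X := by ring
  have hfin : ((((Ioc u (u + H)).filter (fun n => n ≡ b [MOD q])).filter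
        (fun n => P.filter (fun p => n % p ∈ Rs h p) = ∅)).card : ℝ) ≤
      2304 * (MT * C1) * G * (X / Real.log H ^ 2) + 2304 * 2 ^ 24 * (X / Real.log H ^ 2) :=
    hmain.trans (add_le_add hm1 hz12)
  refine hcard.trans (hfin.trans ?_)
  obtain ⟨Yv, hYv⟩ : ∃ Yv : ℝ, Yv = X / Real.log H ^ 2 := ⟨_, rfl⟩
  have hY0 : 0 ≤ Yv := by rw [hYv]; positivity
  rw [← hYv]
  have e2 : (H : ℝ) / (q * Real.log H ^ 2) = Yv := by
    rw [hYv, hX, div_div]
  rw [e2]
  obtain ⟨G2, hG2⟩ : ∃ G2 : ℝ, G2 = ((q : ℝ) / Nat.totient q) ^ 2 * sing h ^ 2 := ⟨_, rfl⟩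
  rw [← hG2] at hGs
  have e3 : 2304 * (MT * C1 + 2 ^ 24) * ((q : ℝ) / Nat.totient q) ^ 2 * sing h ^ 2 * Yv =
      2304 * (MT * C1 + 2 ^ 24) * G2 * Yv := by rw [hG2]; ring
  rw [e3]
  have h4 : 2304 * (MT * C1) * G + 2304 * 2 ^ 24 ≤ 2304 * (MT * C1 + 2 ^ 24) * G2 := by
    have h5 : MT * C1 * G ≤ MT * C1 * G2 := mul_le_mul_of_nonneg_left hGs (by positivity)
    linarith
  have h6 := mul_le_mul_of_nonneg_right h4 hY0
  linarith

theorem s1 : S1Stmt := by
  obtain ⟨C, H0, hC, h1⟩ := s1g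
  refine ⟨C * 4, H0, by positivity, fun k b u H h hH hk hHu hb hh hhH => ?_⟩
  have hco : Nat.Coprime b (2 ^ k) := Nat.Coprime.pow_right k (Nat.coprime_two_right.2 (Nat.odd_iff.2 hb))
  have h2 := h1 (2 ^ k) b u H h hH Nat.one_le_two_pow hk hHu hco hh hhH
  have h3 : (((2 ^ k : ℕ) : ℝ) / (Nat.totient (2 ^ k) : ℝ)) ^ 2 ≤ 4 := by
    have h4 : ((2 ^ k : ℕ) : ℝ) / (Nat.totient (2 ^ k) : ℝ) ≤ 2 := by
      have h5 : (0 : ℝ) < (Nat.totient (2 ^ k) : ℝ) := by exact_mod_cast Nat.totient_pos.2 (by positivity)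
      rw [div_le_iff₀ h5]
      have h6 : 2 ^ k ≤ 2 * Nat.totient (2 ^ k) := by
        rcases Nat.eq_zero_or_pos k with rfl | hk0
        · simp
        · rw [Nat.totient_prime_pow Nat.prime_two hk0]
          have h7 : 2 ^ k = 2 * 2 ^ (k - 1) := by
            rw [← pow_succ']
            congr 1
            omega
          omega
      exact_mod_cast h6
    have h5 : 0 ≤ ((2 ^ k : ℕ) : ℝ) / (Nat.totient (2 ^ k) : ℝ) := by positivity
    nlinarith
  refine h2.trans ?_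
  push_cast at h3 ⊢
  have h8 : (0 : ℝ) ≤ C * (sing h ^ 2 * (H / (2 ^ k * Real.log H ^ 2))) := by positivity
  have h9 := mul_le_mul_of_nonneg_right h3 h8
  linarith

end Pool.Agent.Helper28.PR
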