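import Pool.Agent.Helper28.PR.Defs

/-!
# PRIMES (MP_fd8838_nt), block S4: the singular series on average

`sing h ^ 2 ≤ exp (4 ∑_{q ∣ h} 1 / q)`. The primes `q < B` give a constant, the primes `q > k` at most `2`, and the
primes between them are treated by the convexity of `exp` with the weights `8 / (q log q)`.
-/

set_option autoImplicit false

namespace Pool.Agent.Helper28.PR

open Finset

/-! ## The weights -/

/-- The primes of a dyadic block. -/
lemma s4_block (F : Finset ℕ) (l : ℕ) (hF : ∀ q ∈ F, q.Prime ∧ 2 ^ l ≤ q ∧ q < 2 ^ (l + 1)) :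
    l * F.card ≤ 4 * 2 ^ l := by
  have h1 : (2 ^ l) ^ F.card ≤ ∏ q ∈ F, q := by
    rw [← Finset.prod_const]
    exact Finset.prod_le_prod' (fun q hq => (hF q hq).2.1)
  have h2 : ∏ q ∈ F, q ≤ primorial (2 ^ (l + 1)) := by
    unfold primorial
    refine Finset.prod_le_prod_of_subset_of_one_le' ?_ ?_
    · intro q hq
      simp only [Finset.mem_filter, Finset.mem_range]
      exact ⟨by have := (hF q hq).2.2; omega, (hF q hq).1⟩
    · intro q hq _
      simp only [Finset.mem_filter] at hq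
      exact hq.2.one_lt.le
  have h3 : (2 ^ l) ^ F.card ≤ 4 ^ (2 ^ (l + 1)) := h1.trans (h2.trans (primorial_le_four_pow _))
  rw [← pow_mul] at h3
  have h4 : (4 : ℕ) ^ (2 ^ (l + 1)) = 2 ^ (4 * 2 ^ l) := by
    rw [show (4 : ℕ) = 2 ^ 2 by norm_num, ← pow_mul, pow_succ]
    congr 1
    ring
  rw [h4] at h3
  exact (Nat.pow_le_pow_iff_right (by norm_num)).1 h3

/-- The weight of a prime. -/
noncomputable def s4_a (q : ℕ) : ℝ := 8 / (q * Real.log q)

lemma s4_a_pos {q : ℕ} (hq : 2 ≤ q) : 0 < s4_a q := by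
  unfold s4_a
  have h1 : (2 : ℝ) ≤ q := by exact_mod_cast hq
  have h2 : 0 < Real.log q := Real.log_pos (by linarith)
  positivity

lemma s4_block_sum (F : Finset ℕ) (l : ℕ) (hl : 1 ≤ l)
    (hF : ∀ q ∈ F, q.Prime ∧ 2 ^ l ≤ q ∧ q < 2 ^ (l + 1)) :
    ∑ q ∈ F, s4_a q ≤ 64 * ((l : ℝ) ^ 2)⁻¹ := by
  have hl' : (1 : ℝ) ≤ l := by exact_mod_cast hl
  have h1 : ∀ q ∈ F, s4_a q ≤ 16 / (2 ^ l * l) := by
    intro q hq
    have h2 : (2 : ℝ) ^ l ≤ q := by exact_mod_cast (hF q hq).2.1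
    have h3 : (l : ℝ) * (1 / 2) ≤ Real.log q := by
      have h4 : Real.log ((2 : ℝ) ^ l) ≤ Real.log q := Real.log_le_log (by positivity) h2
      rw [Real.log_pow] at h4
      have h5 : (1 / 2 : ℝ) ≤ Real.log 2 := by have := Real.log_two_gt_d9; linarith
      nlinarith
    have h6 : (2 : ℝ) ^ l * (l * (1 / 2)) ≤ q * Real.log q := by
      apply mul_le_mul h2 h3 (by positivity) (by positivity)
    unfold s4_a
    calc (8 : ℝ) / (q * Real.log q) ≤ 8 / ((2 : ℝ) ^ l * (l * (1 / 2))) := by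
          apply div_le_div_of_nonneg_left (by norm_num) (by positivity) h6
      _ = 16 / (2 ^ l * l) := by
          field_simp
          norm_num
  calc ∑ q ∈ F, s4_a q ≤ ∑ _q ∈ F, (16 : ℝ) / (2 ^ l * l) := Finset.sum_le_sum h1
    _ = F.card * (16 / (2 ^ l * l)) := by rw [Finset.sum_const, nsmul_eq_mul]
    _ ≤ 64 * ((l : ℝ) ^ 2)⁻¹ := by
        have h2 : (l : ℝ) * F.card ≤ 4 * 2 ^ l := by exact_mod_cast s4_block F l hF
        have h3 : (F.card : ℝ) * (16 / (2 ^ l * l)) = ((l : ℝ) * F.card) * (16 / (2 ^ l * l ^ 2)) := by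
          field_simp
        rw [h3]
        calc ((l : ℝ) * F.card) * (16 / (2 ^ l * l ^ 2)) ≤ (4 * 2 ^ l) * (16 / (2 ^ l * l ^ 2)) :=
              mul_le_mul_of_nonneg_right h2 (by positivity)
          _ = 64 * ((l : ℝ) ^ 2)⁻¹ := by
              field_simp
              norm_num

/-- The weights of the large primes have sum at most `1`. -/
lemma s4_weights : ∃ B : ℕ, 2 ≤ B ∧ ∀ F : Finset ℕ, (∀ q ∈ F, q.Prime ∧ B ≤ q) → ∑ q ∈ F, s4_a q ≤ 1 := by
  obtain ⟨L, hL⟩ : ∃ L : ℕ, L = 127 := ⟨_, rfl⟩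
  refine ⟨2 ^ (L + 1), ?_, ?_⟩
  · calc 2 = 2 ^ 1 := by norm_num
      _ ≤ 2 ^ (L + 1) := Nat.pow_le_pow_right (by norm_num) (by omega)
  intro F hF
  have hmap : ∀ q ∈ F, Nat.log 2 q ∈ Finset.Ioo L (Nat.log 2 (F.sup id) + 1) := by
    intro q hq
    rw [Finset.mem_Ioo]
    have hq0 : q ≠ 0 := (hF q hq).1.ne_zero
    constructor
    · have := (Nat.le_log_iff_pow_le (b := 2) (by norm_num) hq0).2 (hF q hq).2
      omega
    · have h1 : q ≤ F.sup id := Finset.le_sup (f := id) hq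
      have := Nat.log_mono_right (b := 2) h1
      omega
  rw [← Finset.sum_fiberwise_of_maps_to hmap]
  calc ∑ j ∈ Finset.Ioo L (Nat.log 2 (F.sup id) + 1), ∑ q ∈ F with Nat.log 2 q = j, s4_a q
      ≤ ∑ j ∈ Finset.Ioo L (Nat.log 2 (F.sup id) + 1), 64 * ((j : ℝ) ^ 2)⁻¹ := by
        apply Finset.sum_le_sum
        intro j hj
        rw [Finset.mem_Ioo] at hj
        apply s4_block_sum _ j (by omega)
        intro q hq
        rw [Finset.mem_filter] at hq
        have hq0 : q ≠ 0 := (hF q hq.1).1.ne_zero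
        refine ⟨(hF q hq.1).1, ?_, ?_⟩
        · rw [← hq.2]; exact Nat.pow_log_le_self 2 hq0
        · rw [← hq.2]; exact Nat.lt_pow_succ_log_self (by norm_num) q
    _ = 64 * ∑ j ∈ Finset.Ioo L (Nat.log 2 (F.sup id) + 1), ((j : ℝ) ^ 2)⁻¹ := by rw [Finset.mul_sum]
    _ ≤ 64 * (2 / ((L : ℝ) + 1)) := by
        apply mul_le_mul_of_nonneg_left (sum_Ioo_inv_sq_le (α := ℝ) L _) (by norm_num)
    _ ≤ 1 := by
        rw [hL]
        norm_num

/-! ## The convexity of the exponential -/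

lemma s4_jensen (F : Finset ℕ) (a x : ℕ → ℝ) (ha : ∀ q ∈ F, 0 < a q) (hx : ∀ q ∈ F, 0 ≤ x q)
    (hA : ∑ q ∈ F, a q ≤ 1) :
    Real.exp (∑ q ∈ F, x q) ≤ 1 + ∑ q ∈ F, a q * (Real.exp (x q / a q) - 1) := by
  set S := ∑ q ∈ F, x q with hS
  set A := ∑ q ∈ F, a q with hAdef
  have hS0 : 0 ≤ S := Finset.sum_nonneg hx
  have h1 : ∀ q ∈ F, Real.exp S * (a q + x q - a q * S) ≤ a q * Real.exp (x q / a q) := by
    intro q hq
    have h2 := Real.add_one_le_exp (x q / a q - S)
    have h3 : Real.exp (x q / a q) = Real.exp S * Real.exp (x q / a q - S) := by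
      rw [← Real.exp_add]; congr 1; ring
    have h4 : Real.exp S * (x q / a q - S + 1) ≤ Real.exp (x q / a q) := by
      rw [h3]; exact mul_le_mul_of_nonneg_left h2 (Real.exp_pos _).le
    have h5 := mul_le_mul_of_nonneg_left h4 (ha q hq).le
    have h6 : a q * (Real.exp S * (x q / a q - S + 1)) = Real.exp S * (a q + x q - a q * S) := by
      have := (ha q hq).ne'
      field_simp
      ring
    linarith
  have h2 : Real.exp S * (A + S - A * S) ≤ ∑ q ∈ F, a q * Real.exp (x q / a q) := by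
    calc Real.exp S * (A + S - A * S) = ∑ q ∈ F, Real.exp S * (a q + x q - a q * S) := by
          rw [← Finset.mul_sum]
          congr 1
          rw [Finset.sum_sub_distrib, Finset.sum_add_distrib, ← Finset.sum_mul]
      _ ≤ _ := Finset.sum_le_sum h1
  have h3 : ∑ q ∈ F, a q * (Real.exp (x q / a q) - 1) = (∑ q ∈ F, a q * Real.exp (x q / a q)) - A := by
    rw [hAdef, ← Finset.sum_sub_distrib]
    apply Finset.sum_congr rfl
    intro q _
    ring
  rw [h3]
  have h4 : Real.exp S * (1 - S) ≤ 1 := by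
    have h5 := Real.add_one_le_exp (-S)
    have h6 : Real.exp S * Real.exp (-S) = 1 := by rw [← Real.exp_add]; simp
    nlinarith [Real.exp_pos S]
  have h5 : 0 ≤ (1 - A) * (1 - Real.exp S * (1 - S)) := mul_nonneg (by linarith) (by linarith)
  nlinarith [h2, h5]

/-! ## The singular series -/

lemma s4_factor {p : ℕ} (hp : p.Prime) : 0 < (1 - (p : ℝ)⁻¹) ∧ (1 - (p : ℝ)⁻¹)⁻¹ ≤ Real.exp (2 / p) := by
  have h1 : (2 : ℝ) ≤ p := by exact_mod_cast hp.two_le
  have h2 : (p : ℝ)⁻¹ ≤ 1 / 2 := by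
    rw [inv_eq_one_div]
    exact one_div_le_one_div_of_le (by norm_num) h1
  have h3 : 0 < (p : ℝ)⁻¹ := by positivity
  refine ⟨by linarith, ?_⟩
  have h4 : (1 - (p : ℝ)⁻¹)⁻¹ ≤ 1 + 2 * (p : ℝ)⁻¹ := by
    rw [inv_le_iff_one_le_mul₀ (by linarith)]
    nlinarith
  have h5 := Real.add_one_le_exp (2 / (p : ℝ))
  have h6 : 2 / (p : ℝ) = 2 * (p : ℝ)⁻¹ := by rw [div_eq_mul_inv]
  rw [h6] at h5 ⊢
  linarith

lemma s4_sing_eq (h : ℤ) (hh : h ≠ 0) : sing h = ∏ p ∈ h.natAbs.primeFactors, (1 - (p : ℝ)⁻¹)⁻¹ := by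
  unfold sing
  set n := h.natAbs with hn
  have hn0 : n ≠ 0 := by rw [hn]; exact Int.natAbs_ne_zero.2 hh
  have h1 : ((Nat.totient n : ℕ) : ℝ) = n * ∏ p ∈ n.primeFactors, (1 - (p : ℝ)⁻¹) := by
    have h2 := Nat.totient_eq_mul_prod_factors n
    have h3 : (((Nat.totient n : ℕ) : ℚ) : ℝ) = (((n : ℚ) * ∏ p ∈ n.primeFactors, (1 - (p : ℚ)⁻¹) : ℚ) : ℝ) := by
      rw [h2]
    push_cast at h3
    exact h3
  rw [h1, Finset.prod_inv_distrib]
  have h4 : (n : ℝ) ≠ 0 := by exact_mod_cast hn0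
  have h5 : (∏ p ∈ n.primeFactors, (1 - (p : ℝ)⁻¹)) ≠ 0 := by
    rw [Finset.prod_ne_zero_iff]
    intro p hp
    exact (s4_factor (Nat.prime_of_mem_primeFactors hp)).1.ne'
  field_simp

lemma s4_sing_le (h : ℤ) (hh : h ≠ 0) :
    sing h ^ 2 ≤ Real.exp (∑ p ∈ h.natAbs.primeFactors, 4 / (p : ℝ)) := by
  rw [s4_sing_eq h hh]
  have h1 : ∏ p ∈ h.natAbs.primeFactors, (1 - (p : ℝ)⁻¹)⁻¹ ≤ ∏ p ∈ h.natAbs.primeFactors, Real.exp (2 / p) := by
    apply Finset.prod_le_prod
    · intro p hp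
      exact (inv_pos.2 (s4_factor (Nat.prime_of_mem_primeFactors hp)).1).le
    · intro p hp
      exact (s4_factor (Nat.prime_of_mem_primeFactors hp)).2
  rw [← Real.exp_sum] at h1
  have h0 : 0 ≤ ∏ p ∈ h.natAbs.primeFactors, (1 - (p : ℝ)⁻¹)⁻¹ := by
    apply Finset.prod_nonneg
    intro p hp
    exact (inv_pos.2 (s4_factor (Nat.prime_of_mem_primeFactors hp)).1).le
  calc (∏ p ∈ h.natAbs.primeFactors, (1 - (p : ℝ)⁻¹)⁻¹) ^ 2
      ≤ (Real.exp (∑ p ∈ h.natAbs.primeFactors, 2 / (p : ℝ))) ^ 2 := pow_le_pow_left₀ h0 h1 2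
    _ = Real.exp (∑ p ∈ h.natAbs.primeFactors, 4 / (p : ℝ)) := by
        rw [← Real.exp_nat_mul, Finset.mul_sum]
        congr 1
        apply Finset.sum_congr rfl
        intro p _
        push_cast
        ring

/-- The number of the prime factors. -/
lemma s4_omega (n k : ℕ) (hn : n ≠ 0) (hk : n ≤ 3 ^ k) : n.primeFactors.card ≤ 2 * k := by
  have h1 : 2 ^ n.primeFactors.card ≤ ∏ p ∈ n.primeFactors, p := by
    rw [← Finset.prod_const]
    exact Finset.prod_le_prod' (fun p hp => (Nat.prime_of_mem_primeFactors hp).two_le)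
  have h2 : ∏ p ∈ n.primeFactors, p ≤ n := Nat.le_of_dvd (Nat.pos_of_ne_zero hn) (Nat.prod_primeFactors_dvd n)
  have h3 : 2 ^ n.primeFactors.card ≤ 2 ^ (2 * k) := by
    calc 2 ^ n.primeFactors.card ≤ 3 ^ k := (h1.trans h2).trans hk
      _ ≤ 4 ^ k := Nat.pow_le_pow_left (by norm_num) k
      _ = 2 ^ (2 * k) := by rw [pow_mul]; norm_num
  exact (Nat.pow_le_pow_iff_right (by norm_num)).1 h3

/-- The primes between `B` and `k`. -/
def s4_Q (B k : ℕ) : Finset ℕ := {q ∈ Finset.Icc B k | q.Prime}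

/-- The terms of the middle primes. -/
noncomputable def s4_x (h : ℤ) (q : ℕ) : ℝ := if (q : ℤ) ∣ h then 4 / (q : ℝ) else 0

lemma s4_split (B k : ℕ) (hk : 2 ≤ k) (h : ℤ) (hh : h ≠ 0) (hle : |h| ≤ 3 ^ k) :
    ∑ p ∈ h.natAbs.primeFactors, 4 / (p : ℝ) ≤ 4 * B + 8 + ∑ q ∈ s4_Q B k, s4_x h q := by
  set n := h.natAbs with hn
  have hn0 : n ≠ 0 := by rw [hn]; exact Int.natAbs_ne_zero.2 hh
  have hnk : n ≤ 3 ^ k := by
    have h1 : ((n : ℕ) : ℤ) = |h| := by rw [hn]; exact Int.natCast_natAbs h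
    have h2 : ((n : ℕ) : ℤ) ≤ ((3 ^ k : ℕ) : ℤ) := by rw [h1]; push_cast; exact hle
    exact_mod_cast h2
  rw [← Finset.sum_filter_add_sum_filter_not n.primeFactors (fun p => p < B)]
  have e1 : ∑ p ∈ n.primeFactors with p < B, 4 / (p : ℝ) ≤ 4 * B := by
    calc ∑ p ∈ n.primeFactors with p < B, 4 / (p : ℝ) ≤ ∑ p ∈ n.primeFactors with p < B, (4 : ℝ) := by
          apply Finset.sum_le_sum
          intro p hp
          rw [Finset.mem_filter] at hp
          have h1 : (1 : ℝ) ≤ p := by exact_mod_cast (Nat.prime_of_mem_primeFactors hp.1).one_lt.le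
          rw [div_le_iff₀ (by linarith)]
          nlinarith
      _ = 4 * ((n.primeFactors.filter (fun p => p < B)).card : ℝ) := by
          rw [Finset.sum_const, nsmul_eq_mul, mul_comm]
      _ ≤ 4 * B := by
          have h1 : (n.primeFactors.filter (fun p => p < B)).card ≤ B := by
            calc (n.primeFactors.filter (fun p => p < B)).card ≤ (Finset.range B).card := by
                  apply Finset.card_le_card
                  intro p hp
                  rw [Finset.mem_filter] at hp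
                  exact Finset.mem_range.2 hp.2
              _ = B := Finset.card_range B
          have h2 : ((n.primeFactors.filter (fun p => p < B)).card : ℝ) ≤ B := by exact_mod_cast h1
          linarith
  rw [← Finset.sum_filter_add_sum_filter_not (n.primeFactors.filter (fun p => ¬ p < B)) (fun p => k < p)]
  have e2 : ∑ p ∈ (n.primeFactors.filter (fun p => ¬ p < B)) with k < p, 4 / (p : ℝ) ≤ 8 := by
    have hk0 : (0 : ℝ) < k := by exact_mod_cast (by omega : 0 < k)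
    calc ∑ p ∈ (n.primeFactors.filter (fun p => ¬ p < B)) with k < p, 4 / (p : ℝ)
        ≤ ∑ p ∈ (n.primeFactors.filter (fun p => ¬ p < B)) with k < p, (4 / k : ℝ) := by
          apply Finset.sum_le_sum
          intro p hp
          rw [Finset.mem_filter] at hp
          have h1 : (k : ℝ) ≤ p := by exact_mod_cast hp.2.le
          exact div_le_div_of_nonneg_left (by norm_num) hk0 h1
      _ = (((n.primeFactors.filter (fun p => ¬ p < B)).filter (fun p => k < p)).card : ℝ) * (4 / k) := by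
          rw [Finset.sum_const, nsmul_eq_mul]
      _ ≤ (2 * k) * (4 / k) := by
          apply mul_le_mul_of_nonneg_right _ (by positivity)
          have h1 : ((n.primeFactors.filter (fun p => ¬ p < B)).filter (fun p => k < p)).card ≤ 2 * k :=
            ((Finset.card_filter_le _ _).trans (Finset.card_filter_le _ _)).trans (s4_omega n k hn0 hnk)
          exact_mod_cast h1
      _ = 8 := by
          field_simp
          norm_num
  have e3 : ∑ p ∈ (n.primeFactors.filter (fun p => ¬ p < B)) with ¬ k < p, 4 / (p : ℝ)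
      ≤ ∑ q ∈ s4_Q B k, s4_x h q := by
    calc ∑ p ∈ (n.primeFactors.filter (fun p => ¬ p < B)) with ¬ k < p, 4 / (p : ℝ)
        = ∑ p ∈ (n.primeFactors.filter (fun p => ¬ p < B)) with ¬ k < p, s4_x h p := by
          apply Finset.sum_congr rfl
          intro p hp
          rw [Finset.mem_filter, Finset.mem_filter] at hp
          have h1 : p ∣ n := Nat.dvd_of_mem_primeFactors hp.1.1
          have h2 : (p : ℤ) ∣ h := Int.natCast_dvd.2 h1
          unfold s4_x
          rw [if_pos h2]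
      _ ≤ ∑ q ∈ s4_Q B k, s4_x h q := by
          apply Finset.sum_le_sum_of_subset_of_nonneg
          · intro p hp
            rw [Finset.mem_filter, Finset.mem_filter] at hp
            unfold s4_Q
            rw [Finset.mem_filter, Finset.mem_Icc]
            exact ⟨⟨by omega, by omega⟩, Nat.prime_of_mem_primeFactors hp.1.1⟩
          · intro q _ _
            unfold s4_x
            split_ifs
            · positivity
            · exact le_refl 0
  linarith

lemma s4_exp (h : ℤ) (q : ℕ) (hq : 2 ≤ q) :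
    s4_a q * (Real.exp (s4_x h q / s4_a q) - 1) ≤ if (q : ℤ) ∣ h then s4_a q * Real.sqrt q else 0 := by
  have hq' : (2 : ℝ) ≤ q := by exact_mod_cast hq
  have hlog : 0 < Real.log q := Real.log_pos (by linarith)
  have ha := s4_a_pos hq
  unfold s4_x
  by_cases hd : (q : ℤ) ∣ h
  · rw [if_pos hd, if_pos hd]
    have h1 : (4 / (q : ℝ)) / s4_a q = Real.log q / 2 := by
      unfold s4_a
      field_simp
      norm_num
    have h2 : Real.exp (Real.log q / 2) = Real.sqrt q := by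
      rw [Real.sqrt_eq_rpow, Real.rpow_def_of_pos (by linarith)]
      congr 1
      ring
    rw [h1, h2]
    nlinarith
  · rw [if_neg hd, if_neg hd]
    simp

/-- Block S4. -/
theorem s4 : S4Stmt := by
  obtain ⟨B, hB2, hB⟩ := s4_weights
  refine ⟨Real.exp (4 * (B + 5 : ℕ) + 8) * 17, by positivity, ?_⟩
  intro ι s h k N hk hs hcard hdiv
  classical
  set B' := B + 5 with hB'
  have hN : 0 ≤ N := le_trans (Nat.cast_nonneg _) hcard
  have hQ : ∀ q ∈ s4_Q B' k, q.Prime ∧ B ≤ q ∧ 5 ≤ q ∧ q ≤ k := by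
    intro q hq
    unfold s4_Q at hq
    rw [Finset.mem_filter, Finset.mem_Icc] at hq
    exact ⟨hq.2, by omega, by omega, hq.1.2⟩
  have hA : ∑ q ∈ s4_Q B' k, s4_a q ≤ 1 := hB _ (fun q hq => ⟨(hQ q hq).1, (hQ q hq).2.1⟩)
  have h1 : ∀ i ∈ s, sing (h i) ^ 2 ≤ Real.exp (4 * B' + 8) *
      (1 + ∑ q ∈ s4_Q B' k, if (q : ℤ) ∣ h i then s4_a q * Real.sqrt q else 0) := by
    intro i hi
    calc sing (h i) ^ 2 ≤ Real.exp (∑ p ∈ (h i).natAbs.primeFactors, 4 / (p : ℝ)) := s4_sing_le _ (hs i hi).1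
      _ ≤ Real.exp (4 * B' + 8 + ∑ q ∈ s4_Q B' k, s4_x (h i) q) :=
          Real.exp_le_exp.2 (s4_split B' k hk (h i) (hs i hi).1 (hs i hi).2)
      _ = Real.exp (4 * B' + 8) * Real.exp (∑ q ∈ s4_Q B' k, s4_x (h i) q) := by rw [Real.exp_add]
      _ ≤ _ := by
          apply mul_le_mul_of_nonneg_left _ (Real.exp_pos _).le
          have h2 := s4_jensen (s4_Q B' k) s4_a (s4_x (h i))
            (fun q hq => s4_a_pos (hQ q hq).1.two_le)
            (fun q _ => by unfold s4_x; split_ifs <;> [positivity; exact le_refl 0]) hA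
          refine h2.trans ?_
          have h3 : ∑ q ∈ s4_Q B' k, s4_a q * (Real.exp (s4_x (h i) q / s4_a q) - 1) ≤
              ∑ q ∈ s4_Q B' k, if (q : ℤ) ∣ h i then s4_a q * Real.sqrt q else 0 :=
            Finset.sum_le_sum (fun q hq => s4_exp (h i) q (hQ q hq).1.two_le)
          linarith
  have h2 : ∑ i ∈ s, ∑ q ∈ s4_Q B' k, (if (q : ℤ) ∣ h i then s4_a q * Real.sqrt q else 0) ≤ 2 * N := by
    rw [Finset.sum_comm]
    calc ∑ q ∈ s4_Q B' k, ∑ i ∈ s, (if (q : ℤ) ∣ h i then s4_a q * Real.sqrt q else 0)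
        = ∑ q ∈ s4_Q B' k, (({i ∈ s | (q : ℤ) ∣ h i} : Finset ι).card : ℝ) * (s4_a q * Real.sqrt q) := by
          apply Finset.sum_congr rfl
          intro q _
          rw [← Finset.sum_filter, Finset.sum_const, nsmul_eq_mul]
      _ ≤ ∑ q ∈ s4_Q B' k, (2 * N) * s4_a q := by
          apply Finset.sum_le_sum
          intro q hq
          obtain ⟨hp, _, h5, hqk⟩ := hQ q hq
          have h3 := hdiv q hp h5 hqk
          have hq' : (1 : ℝ) ≤ q := by exact_mod_cast hp.one_lt.le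
          have ha := s4_a_pos hp.two_le
          have h4 : Real.sqrt q ≤ q := by
            rw [Real.sqrt_le_left (by linarith)]
            nlinarith
          calc (({i ∈ s | (q : ℤ) ∣ h i} : Finset ι).card : ℝ) * (s4_a q * Real.sqrt q)
              ≤ (2 * N / q) * (s4_a q * q) := by
                apply mul_le_mul h3 (mul_le_mul_of_nonneg_left h4 ha.le) (by positivity) (by positivity)
            _ = (2 * N) * s4_a q := by
                field_simp
      _ = (2 * N) * ∑ q ∈ s4_Q B' k, s4_a q := by rw [Finset.mul_sum]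
      _ ≤ 2 * N := by nlinarith
  calc ∑ i ∈ s, sing (h i) ^ 2 ≤ ∑ i ∈ s, Real.exp (4 * B' + 8) *
      (1 + ∑ q ∈ s4_Q B' k, if (q : ℤ) ∣ h i then s4_a q * Real.sqrt q else 0) := Finset.sum_le_sum h1
    _ = Real.exp (4 * B' + 8) * ((s.card : ℝ) +
        ∑ i ∈ s, ∑ q ∈ s4_Q B' k, (if (q : ℤ) ∣ h i then s4_a q * Real.sqrt q else 0)) := by
        rw [← Finset.mul_sum, Finset.sum_add_distrib, Finset.sum_const, nsmul_eq_mul, mul_one]
    _ ≤ Real.exp (4 * B' + 8) * (17 * N) := by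
        apply mul_le_mul_of_nonneg_left _ (Real.exp_pos _).le
        linarith
    _ = Real.exp (4 * B' + 8) * 17 * N := by ring

end Pool.Agent.Helper28.PR
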