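import Pool.Agent.Helper28.PR.SingAv
import Pool.Agent.Helper28.PR.DefsG

/-!
# PRIMES, general maps, block S4g: the singular series on average
-/

set_option autoImplicit false

namespace Pool.Agent.Helper28.PR

open Finset

/-- The number of the prime factors. -/
lemma s4g_omega (n k M : ℕ) (hn : n ≠ 0) (hk : n ≤ M ^ k) : n.primeFactors.card ≤ M * k := by
  have h1 : 2 ^ n.primeFactors.card ≤ ∏ p ∈ n.primeFactors, p := by
    rw [← Finset.prod_const]
    exact Finset.prod_le_prod' (fun p hp => (Nat.prime_of_mem_primeFactors hp).two_le)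
  have h2 : ∏ p ∈ n.primeFactors, p ≤ n := Nat.le_of_dvd (Nat.pos_of_ne_zero hn) (Nat.prod_primeFactors_dvd n)
  have h3 : 2 ^ n.primeFactors.card ≤ 2 ^ (M * k) := by
    calc 2 ^ n.primeFactors.card ≤ M ^ k := (h1.trans h2).trans hk
      _ ≤ (2 ^ M) ^ k := Nat.pow_le_pow_left Nat.lt_two_pow_self.le k
      _ = 2 ^ (M * k) := by rw [pow_mul]
  exact (Nat.pow_le_pow_iff_right (by norm_num)).1 h3

lemma s4g_split (B k M : ℕ) (hk : 2 ≤ k) (h : ℤ) (hh : h ≠ 0) (hle : |h| ≤ (M : ℤ) ^ k) :
    ∑ p ∈ h.natAbs.primeFactors, 4 / (p : ℝ) ≤ 4 * B + 4 * M + ∑ q ∈ s4_Q B k, s4_x h q := by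
  set n := h.natAbs with hn
  have hn0 : n ≠ 0 := by rw [hn]; exact Int.natAbs_ne_zero.2 hh
  have hnk : n ≤ M ^ k := by
    have h1 : ((n : ℕ) : ℤ) = |h| := by rw [hn]; exact Int.natCast_natAbs h
    have h2 : ((n : ℕ) : ℤ) ≤ ((M ^ k : ℕ) : ℤ) := by rw [h1]; push_cast; exact hle
    exact_mod_cast h2
  rw [← Finset.sum_filter_add_sum_filter_not n.primeFactors (fun p => p < B)]
  have e1 : ∑ p ∈ n.primeFactors with p < B, 4 / (p : ℝ) ≤ 4 * B := by
    calc ∑ p ∈ n.primeFactors with p < B, 4 / (p : ℝ) ≤ ∑ p ∈ n.primeFactors with p < B, (4 : ℝ) := by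
          apply Finset.sum_le_sum
          intro p hp
          rw [Finset.mem_filter] at hp
          have h1 : (1 : ℝ) ≤ p := by exact_mod_cast (Nat.prime_of_mem_primeFactors hp.1).one_lt.le
          rw [div_le_iff₀ (by linarith)]
          nlinarith
      _ = 4 * ((n.primeFactors.filter (fun p => p < B)).card : ℝ) := by
          rw [Finset.sum_const, nsmul_eq_mul, mul_comm]
      _ ≤ 4 * B := by
          have h1 : (n.primeFactors.filter (fun p => p < B)).card ≤ B := by
            calc (n.primeFactors.filter (fun p => p < B)).card ≤ (Finset.range B).card := by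
                  apply Finset.card_le_card
                  intro p hp
                  rw [Finset.mem_filter] at hp
                  exact Finset.mem_range.2 hp.2
              _ = B := Finset.card_range B
          have h2 : ((n.primeFactors.filter (fun p => p < B)).card : ℝ) ≤ B := by exact_mod_cast h1
          linarith
  rw [← Finset.sum_filter_add_sum_filter_not (n.primeFactors.filter (fun p => ¬ p < B)) (fun p => k < p)]
  have e2 : ∑ p ∈ (n.primeFactors.filter (fun p => ¬ p < B)) with k < p, 4 / (p : ℝ) ≤ 4 * M := by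
    have hk0 : (0 : ℝ) < k := by exact_mod_cast (by omega : 0 < k)
    calc ∑ p ∈ (n.primeFactors.filter (fun p => ¬ p < B)) with k < p, 4 / (p : ℝ)
        ≤ ∑ p ∈ (n.primeFactors.filter (fun p => ¬ p < B)) with k < p, (4 / k : ℝ) := by
          apply Finset.sum_le_sum
          intro p hp
          rw [Finset.mem_filter] at hp
          have h1 : (k : ℝ) ≤ p := by exact_mod_cast hp.2.le
          exact div_le_div_of_nonneg_left (by norm_num) hk0 h1
      _ = (((n.primeFactors.filter (fun p => ¬ p < B)).filter (fun p => k < p)).card : ℝ) * (4 / k) := by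
          rw [Finset.sum_const, nsmul_eq_mul]
      _ ≤ (M * k) * (4 / k) := by
          apply mul_le_mul_of_nonneg_right _ (by positivity)
          have h1 : ((n.primeFactors.filter (fun p => ¬ p < B)).filter (fun p => k < p)).card ≤ M * k :=
            ((Finset.card_filter_le _ _).trans (Finset.card_filter_le _ _)).trans (s4g_omega n k M hn0 hnk)
          exact_mod_cast h1
      _ = 4 * M := by
          field_simp
  have e3 : ∑ p ∈ (n.primeFactors.filter (fun p => ¬ p < B)) with ¬ k < p, 4 / (p : ℝ)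
      ≤ ∑ q ∈ s4_Q B k, s4_x h q := by
    calc ∑ p ∈ (n.primeFactors.filter (fun p => ¬ p < B)) with ¬ k < p, 4 / (p : ℝ)
        = ∑ p ∈ (n.primeFactors.filter (fun p => ¬ p < B)) with ¬ k < p, s4_x h p := by
          apply Finset.sum_congr rfl
          intro p hp
          rw [Finset.mem_filter, Finset.mem_filter] at hp
          have h1 : p ∣ n := Nat.dvd_of_mem_primeFactors hp.1.1
          have h2 : (p : ℤ) ∣ h := Int.natCast_dvd.2 h1
          unfold s4_x
          rw [if_pos h2]
      _ ≤ ∑ q ∈ s4_Q B k, s4_x h q := by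
          apply Finset.sum_le_sum_of_subset_of_nonneg
          · intro p hp
            rw [Finset.mem_filter, Finset.mem_filter] at hp
            unfold s4_Q
            rw [Finset.mem_filter, Finset.mem_Icc]
            exact ⟨⟨by omega, by omega⟩, Nat.prime_of_mem_primeFactors hp.1.1⟩
          · intro q _ _
            unfold s4_x
            split_ifs
            · positivity
            · exact le_refl 0
  linarith

/-- Block S4g. -/
theorem s4g : S4gStmt := by
  intro q0 M
  obtain ⟨B, hB2, hB⟩ := s4_weights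
  refine ⟨Real.exp (4 * (B + q0 : ℕ) + 4 * M) * 3, by positivity, ?_⟩
  intro ι s h k N hk hs hcard hdiv
  classical
  set B' := B + q0 with hB'
  have hN : 0 ≤ N := le_trans (Nat.cast_nonneg _) hcard
  have hQ : ∀ q ∈ s4_Q B' k, q.Prime ∧ B ≤ q ∧ q0 ≤ q ∧ q ≤ k := by
    intro q hq
    unfold s4_Q at hq
    rw [Finset.mem_filter, Finset.mem_Icc] at hq
    exact ⟨hq.2, by omega, by omega, hq.1.2⟩
  have hA : ∑ q ∈ s4_Q B' k, s4_a q ≤ 1 := hB _ (fun q hq => ⟨(hQ q hq).1, (hQ q hq).2.1⟩)
  have h1 : ∀ i ∈ s, sing (h i) ^ 2 ≤ Real.exp (4 * B' + 4 * M) *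
      (1 + ∑ q ∈ s4_Q B' k, if (q : ℤ) ∣ h i then s4_a q * Real.sqrt q else 0) := by
    intro i hi
    calc sing (h i) ^ 2 ≤ Real.exp (∑ p ∈ (h i).natAbs.primeFactors, 4 / (p : ℝ)) := s4_sing_le _ (hs i hi).1
      _ ≤ Real.exp (4 * B' + 4 * M + ∑ q ∈ s4_Q B' k, s4_x (h i) q) :=
          Real.exp_le_exp.2 (s4g_split B' k M hk (h i) (hs i hi).1 (hs i hi).2)
      _ = Real.exp (4 * B' + 4 * M) * Real.exp (∑ q ∈ s4_Q B' k, s4_x (h i) q) := by rw [Real.exp_add]
      _ ≤ _ := by
          apply mul_le_mul_of_nonneg_left _ (Real.exp_pos _).le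
          have h2 := s4_jensen (s4_Q B' k) s4_a (s4_x (h i))
            (fun q hq => s4_a_pos (hQ q hq).1.two_le)
            (fun q _ => by unfold s4_x; split_ifs <;> [positivity; exact le_refl 0]) hA
          refine h2.trans ?_
          have h3 : ∑ q ∈ s4_Q B' k, s4_a q * (Real.exp (s4_x (h i) q / s4_a q) - 1) ≤
              ∑ q ∈ s4_Q B' k, if (q : ℤ) ∣ h i then s4_a q * Real.sqrt q else 0 :=
            Finset.sum_le_sum (fun q hq => s4_exp (h i) q (hQ q hq).1.two_le)
          linarith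
  have h2 : ∑ i ∈ s, ∑ q ∈ s4_Q B' k, (if (q : ℤ) ∣ h i then s4_a q * Real.sqrt q else 0) ≤ 2 * N := by
    rw [Finset.sum_comm]
    calc ∑ q ∈ s4_Q B' k, ∑ i ∈ s, (if (q : ℤ) ∣ h i then s4_a q * Real.sqrt q else 0)
        = ∑ q ∈ s4_Q B' k, (({i ∈ s | (q : ℤ) ∣ h i} : Finset ι).card : ℝ) * (s4_a q * Real.sqrt q) := by
          apply Finset.sum_congr rfl
          intro q _
          rw [← Finset.sum_filter, Finset.sum_const, nsmul_eq_mul]
      _ ≤ ∑ q ∈ s4_Q B' k, (2 * N) * s4_a q := by
          apply Finset.sum_le_sum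
          intro q hq
          obtain ⟨hp, _, h5, hqk⟩ := hQ q hq
          have h3 := hdiv q hp h5 hqk
          have hq' : (1 : ℝ) ≤ q := by exact_mod_cast hp.one_lt.le
          have ha := s4_a_pos hp.two_le
          have h4 : Real.sqrt q ≤ q := by
            rw [Real.sqrt_le_left (by linarith)]
            nlinarith
          calc (({i ∈ s | (q : ℤ) ∣ h i} : Finset ι).card : ℝ) * (s4_a q * Real.sqrt q)
              ≤ (2 * N / q) * (s4_a q * q) := by
                apply mul_le_mul h3 (mul_le_mul_of_nonneg_left h4 ha.le) (by positivity) (by positivity)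
            _ = (2 * N) * s4_a q := by
                field_simp
      _ = (2 * N) * ∑ q ∈ s4_Q B' k, s4_a q := by rw [Finset.mul_sum]
      _ ≤ 2 * N := by nlinarith
  calc ∑ i ∈ s, sing (h i) ^ 2 ≤ ∑ i ∈ s, Real.exp (4 * B' + 4 * M) *
      (1 + ∑ q ∈ s4_Q B' k, if (q : ℤ) ∣ h i then s4_a q * Real.sqrt q else 0) := Finset.sum_le_sum h1
    _ = Real.exp (4 * B' + 4 * M) * ((s.card : ℝ) +
        ∑ i ∈ s, ∑ q ∈ s4_Q B' k, (if (q : ℤ) ∣ h i then s4_a q * Real.sqrt q else 0)) := by
        rw [← Finset.mul_sum, Finset.sum_add_distrib, Finset.sum_const, nsmul_eq_mul, mul_one]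
    _ ≤ Real.exp (4 * B' + 4 * M) * (3 * N) := by
        apply mul_le_mul_of_nonneg_left _ (Real.exp_pos _).le
        linarith
    _ = Real.exp (4 * B' + 4 * M) * 3 * N := by ring

end Pool.Agent.Helper28.PR
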