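import Pool.Agent.Helper28.PR.F7
import Pool.Agent.Helper28.PR.MultA
import Pool.Agent.Helper28.PR.MultB
import Pool.Agent.Helper28.PR.MultBg
import Pool.Agent.Helper28.PR.SingAv
import Pool.Agent.Helper28.PR.SingAvG
import Pool.Agent.Helper28.PR.Pairs
import Pool.Agent.Helper28.NL.All
import Pool.Agent.Helper34.HO.End

/-!
# PRIMES: everything together
-/

set_option autoImplicit false

namespace Pool.Agent.Helper28.PR

open Filter Topology
open Pool.Agent.Helper68.Moeller Pool.Agent.Helper52.Tao Pool.Agent.Helper8.ND Pool.Agent.Helper8 Pool.Agent.Helper91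
  Pool.Agent.Helper8.LQ

variable {d m : ℕ} {r : ℤ → ℤ} {ρ : ℤ}

theorem mixQ_std (h : POSB.Std d m r) : MixQ d m r :=
  mixQ h.hd h.hdm h.hco h.hw h.hr (fourier_decayQ h.hd h.hdm h.hco h.hw h.hr)

theorem s5g_all (h : POSB.Std d m r) (h2 : S2gStmt d m r) : S5gStmt d m r :=
  s5g h.hd h.hdm h.gam h.hco h.hr s1g h2 (s3g h) s4g

theorem s5_all (hr : Admissible 2 3 r) (h1 : r 1 = 1 ∨ r 1 = -1) : S5Stmt r :=
  s5 hr h1 s1 (s2 (NL.std_of hr)) (s3 (mixQ_std (NL.std_of hr)) h1) s4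

/-- **The primes of invariant sets.** -/
theorem inv_all (hr : Admissible 2 3 r) (h1 : r 1 = 1 ∨ r 1 = -1) : ∃ c : ℝ, 0 < c ∧ ∀ z D : ℝ, 0 ≤ z → 0 < D → ∃ X : ℝ,
    ∀ G : Set ℤ, TInv 2 3 r G z → (∀ᶠ x in atTop, D ≤ fd G x) → ∀ x : ℝ, X ≤ x →
      c * D * (x / Real.log x) ≤ np (fun p => (p : ℤ) ∈ G) x := by
  have hT : T 2 3 r = T 2 3 (fun _ => r 1) := CO.T_eq
  have hc := NL.adm_const hr
  obtain ⟨c, hc0, h⟩ := inv_primes (ρ := r 1) h1 (NL.level_of (NL.std_of hc)) (NL.flow_of (NL.std_of hc))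
    Pool.Agent.Helper34.HO.pw (s5_all (r := fun _ => r 1) hc h1)
  refine ⟨c, hc0, fun z D hz hD => ?_⟩
  obtain ⟨X, hX⟩ := h z D hz hD
  exact ⟨X, fun G hG hGD x hx => hX G (fun n hn => by rw [← hT]; exact hG n hn) hGD x hx⟩

end Pool.Agent.Helper28.PR
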