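import Pool.Agent.Helper28.PR.T1

/-!
# PRIMES, block S5, part 2: the second moment for one number of odd steps
-/

set_option autoImplicit false

namespace Pool.Agent.Helper28.PR

open Filter Topology
open Pool.Agent.Helper68.Moeller Pool.Agent.Helper52.Tao Pool.Agent.Helper8.ND Pool.Agent.Helper91.PL

variable {r : ℤ → ℤ}

open Classical in
theorem card_le_cW {t : ℕ} {s : Finset (List ℕ)} {P : List ℕ → Prop} (h : ∀ w ∈ s, w ∈ W 2 t ∧ P w) :
    (s.card : ℝ) ≤ cW 2 t P := by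
  unfold cW
  exact Nat.cast_le.2 (Finset.card_le_card fun w hw => Finset.mem_filter.2 (h w hw))

theorem cs_fiber {α β : Type*} [DecidableEq β] (Q : Finset α) (f : α → β) :
    (Q.card : ℝ) ^ 2 ≤ (Q.image f).card * (((Q ×ˢ Q).filter (fun x => f x.2 = f x.1)).card : ℝ) := by
  have h1 : (Q.card : ℝ) = ∑ M ∈ Q.image f, ((Q.filter (fun p => f p = M)).card : ℝ) := by
    rw [Finset.card_eq_sum_card_image f Q]
    push_cast
    rfl
  have h2 : (((Q ×ˢ Q).filter (fun x => f x.2 = f x.1)).card : ℝ) =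
      ∑ M ∈ Q.image f, ((Q.filter (fun p => f p = M)).card : ℝ) ^ 2 := by
    have h3 : ((Q ×ˢ Q).filter (fun x => f x.2 = f x.1)).card =
        ∑ M ∈ Q.image f, (((Q ×ˢ Q).filter (fun x => f x.2 = f x.1)).filter (fun x => f x.1 = M)).card := by
      refine Finset.card_eq_sum_card_fiberwise fun x hx => ?_
      rw [Finset.mem_coe, Finset.mem_filter, Finset.mem_product] at hx
      exact Finset.mem_coe.2 (Finset.mem_image_of_mem f hx.1.1)
    rw [h3]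
    push_cast
    refine Finset.sum_congr rfl fun M _ => ?_
    have h4 : ((Q ×ˢ Q).filter (fun x => f x.2 = f x.1)).filter (fun x => f x.1 = M) =
        (Q.filter (fun p => f p = M)) ×ˢ (Q.filter (fun p => f p = M)) := by
      ext x
      simp only [Finset.mem_filter, Finset.mem_product]
      constructor
      · rintro ⟨⟨⟨a, b⟩, c⟩, e⟩
        exact ⟨⟨a, e⟩, b, c.trans e⟩
      · rintro ⟨⟨a, e⟩, b, c⟩
        exact ⟨⟨⟨a, b⟩, c.trans e.symm⟩, e⟩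
    rw [h4, Finset.card_product]
    push_cast
    ring
  rw [h1, h2]
  exact sq_sum_le_card_mul_sum_sq

open Classical in
/-- The pairs of primes with the same end point. -/
theorem pair_count (hadm : Admissible 2 3 r) {k j : ℕ} {P Q : Finset ℕ} {G : Finset (List ℕ)} {β γ : ℝ}
    (hPp : ∀ p ∈ P, p.Prime) (hQP : Q ⊆ P) (hQG : ∀ p ∈ Q, wd 2 3 r k (p : ℤ) ∈ G) (hGj : ∀ w ∈ G, sg w = j)
    (hγ0 : 0 ≤ γ)
    (hβ : ∀ w ∈ G, ((P.filter (fun p : ℕ => wd 2 3 r k (p : ℤ) = w)).card : ℝ) ≤ β)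
    (hγ : ∀ w ∈ G, ∀ w' ∈ W 2 k, Rel r w' w → hh r w' w ≠ 0 →
      ((P.filter (fun p : ℕ => wd 2 3 r k (p : ℤ) = w ∧ ∃ p' : ℕ, p'.Prime ∧ (p' : ℤ) = p + hh r w' w)).card : ℝ) ≤
        γ * sing (hh r w' w) ^ 2) :
    (((Q ×ˢ Q).filter (fun x : ℕ × ℕ => (T 2 3 r)^[k] (x.2 : ℤ) = (T 2 3 r)^[k] (x.1 : ℤ))).card : ℝ) ≤
      ∑ w ∈ G.filter (fun w => ∃ p ∈ P, wd 2 3 r k (p : ℤ) = w),
        (β + γ * ∑ w' ∈ (W 2 k).filter (fun w' => Rel r w' w ∧ w' ≠ w), sing (hh r w' w) ^ 2) := by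
  set S := (Q ×ˢ Q).filter (fun x : ℕ × ℕ => (T 2 3 r)^[k] (x.2 : ℤ) = (T 2 3 r)^[k] (x.1 : ℤ)) with hS
  set G' := G.filter (fun w => ∃ p ∈ P, wd 2 3 r k (p : ℤ) = w) with hG'
  have hmemS : ∀ x ∈ S, x.1 ∈ Q ∧ x.2 ∈ Q ∧ Rel r (wd 2 3 r k (x.2 : ℤ)) (wd 2 3 r k (x.1 : ℤ)) ∧
      (x.2 : ℤ) = x.1 + hh r (wd 2 3 r k (x.2 : ℤ)) (wd 2 3 r k (x.1 : ℤ)) := by
    intro x hx
    rw [hS, Finset.mem_filter, Finset.mem_product] at hx
    obtain ⟨⟨h1, h2⟩, h3⟩ := hx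
    have hs : sg (wd 2 3 r k (x.2 : ℤ)) = sg (wd 2 3 r k (x.1 : ℤ)) := by
      rw [hGj _ (hQG _ h1), hGj _ (hQG _ h2)]
    obtain ⟨h4, h5⟩ := hh_of hadm hs h3
    exact ⟨h1, h2, h4, h5⟩
  -- split by the word of `p`
  have h1 : S.card = ∑ w ∈ G', (S.filter (fun x => wd 2 3 r k (x.1 : ℤ) = w)).card := by
    refine Finset.card_eq_sum_card_fiberwise fun x hx => ?_
    have h := hmemS x hx
    rw [hG', Finset.mem_coe, Finset.mem_filter]
    exact ⟨hQG _ h.1, x.1, hQP h.1, rfl⟩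
  rw [h1]
  push_cast
  refine Finset.sum_le_sum fun w hw => ?_
  rw [hG', Finset.mem_filter] at hw
  obtain ⟨hwG, p0, hp0, hp0w⟩ := hw
  set s := (W 2 k).filter (fun w' => Rel r w' w ∧ w' ≠ w) with hs
  -- split by the word of `p'`
  have h2 : (S.filter (fun x => wd 2 3 r k (x.1 : ℤ) = w)).card ≤
      ((S.filter (fun x => wd 2 3 r k (x.1 : ℤ) = w)).filter (fun x => wd 2 3 r k (x.2 : ℤ) = w)).card +
      ∑ w' ∈ s, ((S.filter (fun x => wd 2 3 r k (x.1 : ℤ) = w)).filter (fun x => wd 2 3 r k (x.2 : ℤ) = w')).card := by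
    rw [← Finset.card_filter_add_card_filter_not (s := S.filter (fun x => wd 2 3 r k (x.1 : ℤ) = w))
      (fun x => wd 2 3 r k (x.2 : ℤ) = w)]
    refine Nat.add_le_add_left ?_ _
    have h3 : ((S.filter (fun x => wd 2 3 r k (x.1 : ℤ) = w)).filter (fun x => ¬ wd 2 3 r k (x.2 : ℤ) = w)).card =
        ∑ w' ∈ s, (((S.filter (fun x => wd 2 3 r k (x.1 : ℤ) = w)).filter (fun x => ¬ wd 2 3 r k (x.2 : ℤ) = w)).filter
          (fun x => wd 2 3 r k (x.2 : ℤ) = w')).card := by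
      refine Finset.card_eq_sum_card_fiberwise fun x hx => ?_
      rw [Finset.mem_coe, Finset.mem_filter, Finset.mem_filter] at hx
      obtain ⟨⟨h3, h4⟩, h5⟩ := hx
      obtain ⟨h6, h7, h8, h9⟩ := hmemS x h3
      rw [hs, Finset.mem_coe, Finset.mem_filter]
      rw [h4] at h8
      exact ⟨wd_mem le_rfl r k _, h8, h5⟩
    rw [h3]
    refine Finset.sum_le_sum fun w' _ => Finset.card_le_card ?_
    intro x hx
    rw [Finset.mem_filter, Finset.mem_filter] at hx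
    exact Finset.mem_filter.2 ⟨hx.1.1, hx.2⟩
  have h3 : (((S.filter (fun x => wd 2 3 r k (x.1 : ℤ) = w)).filter (fun x => wd 2 3 r k (x.2 : ℤ) = w)).card : ℝ) ≤ β := by
    refine le_trans (Nat.cast_le.2 (Finset.card_le_card_of_injOn (fun x => x.1) ?_ ?_)) (hβ w hwG)
    · intro x hx
      rw [Finset.mem_coe, Finset.mem_filter, Finset.mem_filter] at hx
      obtain ⟨⟨h3, h4⟩, h5⟩ := hx
      rw [Finset.mem_coe, Finset.mem_filter]
      exact ⟨hQP (hmemS x h3).1, h4⟩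
    · intro x hx x' hx' he
      rw [Finset.mem_coe, Finset.mem_filter, Finset.mem_filter] at hx hx'
      obtain ⟨⟨h3, h4⟩, h5⟩ := hx
      obtain ⟨⟨h3', h4'⟩, h5'⟩ := hx'
      have a := (hmemS x h3).2.2.2
      have a' := (hmemS x' h3').2.2.2
      rw [h4, h5] at a
      rw [h4', h5'] at a'
      have he' : x.1 = x'.1 := he
      refine Prod.ext he' ?_
      have : (x.2 : ℤ) = x'.2 := by rw [a, a', he']
      exact_mod_cast this
  have h4 : ∀ w' ∈ s, (((S.filter (fun x => wd 2 3 r k (x.1 : ℤ) = w)).filter (fun x => wd 2 3 r k (x.2 : ℤ) = w')).card : ℝ) ≤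
      γ * sing (hh r w' w) ^ 2 := by
    intro w' hw'
    rw [hs, Finset.mem_filter] at hw'
    obtain ⟨hw1, hw2, hw3⟩ := hw'
    have hne : hh r w' w ≠ 0 := by
      have := hh_ne (n := (p0 : ℤ)) hadm hw1 (by rw [hp0w]; exact hw2) (by rw [hp0w]; exact hw3)
      rwa [hp0w] at this
    refine le_trans (Nat.cast_le.2 (Finset.card_le_card_of_injOn (fun x => x.1) ?_ ?_)) (hγ w hwG w' hw1 hw2 hne)
    · intro x hx
      rw [Finset.mem_coe, Finset.mem_filter, Finset.mem_filter] at hx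
      obtain ⟨⟨h3, h4⟩, h5⟩ := hx
      obtain ⟨a1, a2, a3, a4⟩ := hmemS x h3
      rw [h4, h5] at a4
      rw [Finset.mem_coe, Finset.mem_filter]
      exact ⟨hQP a1, h4, x.2, hPp _ (hQP a2), a4⟩
    · intro x hx x' hx' he
      rw [Finset.mem_coe, Finset.mem_filter, Finset.mem_filter] at hx hx'
      obtain ⟨⟨h3, h4⟩, h5⟩ := hx
      obtain ⟨⟨h3', h4'⟩, h5'⟩ := hx'
      have a := (hmemS x h3).2.2.2
      have a' := (hmemS x' h3').2.2.2
      rw [h4, h5] at a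
      rw [h4', h5'] at a'
      have he' : x.1 = x'.1 := he
      refine Prod.ext he' ?_
      have : (x.2 : ℤ) = x'.2 := by rw [a, a', he']
      exact_mod_cast this
  calc ((S.filter (fun x => wd 2 3 r k (x.1 : ℤ) = w)).card : ℝ)
      ≤ (((S.filter (fun x => wd 2 3 r k (x.1 : ℤ) = w)).filter (fun x => wd 2 3 r k (x.2 : ℤ) = w)).card : ℝ) +
        ∑ w' ∈ s, (((S.filter (fun x => wd 2 3 r k (x.1 : ℤ) = w)).filter (fun x => wd 2 3 r k (x.2 : ℤ) = w')).card : ℝ) := by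
        exact_mod_cast h2
    _ ≤ β + ∑ w' ∈ s, γ * sing (hh r w' w) ^ 2 := add_le_add h3 (Finset.sum_le_sum h4)
    _ = _ := by rw [Finset.mul_sum]

open Classical in
/-- The number of the end points in `B`. -/
theorem fiber_count (hadm : Admissible 2 3 r) (hr : r 1 = 1 ∨ r 1 = -1) {k j y H : ℕ} {Q : Finset ℕ} {a : ℝ} (B : Set ℤ)
    (hQ : ∀ p ∈ Q, y + 3 ^ k < p ∧ p + 3 ^ k ≤ y + H ∧ sg (wd 2 3 r k (p : ℤ)) = j ∧ a ≤ mult r k (wd 2 3 r k (p : ℤ)) ∧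
      (T 2 3 r)^[k] (p : ℤ) ∈ B) :
    ((Q.image (fun p : ℕ => (T 2 3 r)^[k] (p : ℤ))).card : ℝ) * a ≤
      (((Finset.Ioc (y : ℤ) (y + H)).filter (fun n => (T 2 3 r)^[k] n ∈ B ∧ sg (wd 2 3 r k n) = j)).card : ℝ) := by
  set I := (Finset.Ioc (y : ℤ) (y + H)).filter (fun n => (T 2 3 r)^[k] n ∈ B ∧ sg (wd 2 3 r k n) = j) with hI
  set M := Q.image (fun p : ℕ => (T 2 3 r)^[k] (p : ℤ)) with hM
  have h1 : ∑ b ∈ M, (((I.filter (fun n => (T 2 3 r)^[k] n = b)).card : ℕ) : ℝ) ≤ (I.card : ℝ) := by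
    have h2 : ∑ b ∈ M, (I.filter (fun n => (T 2 3 r)^[k] n = b)).card ≤ I.card := by
      rw [← Finset.card_biUnion]
      · refine Finset.card_le_card fun n hn => ?_
        rw [Finset.mem_biUnion] at hn
        obtain ⟨b, -, hb⟩ := hn
        exact (Finset.mem_filter.1 hb).1
      · intro b _ b' _ hbb
        rw [Function.onFun, Finset.disjoint_left]
        intro n hn hn'
        exact hbb ((Finset.mem_filter.1 hn).2.symm.trans (Finset.mem_filter.1 hn').2)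
    exact_mod_cast h2
  refine le_trans ?_ h1
  rw [← nsmul_eq_mul, ← Finset.sum_const]
  refine Finset.sum_le_sum fun b hb => ?_
  rw [hM, Finset.mem_image] at hb
  obtain ⟨p, hp, rfl⟩ := hb
  obtain ⟨h2, h3, h4, h5, h6⟩ := hQ p hp
  refine h5.trans ?_
  unfold mult cW
  refine Nat.cast_le.2 (Finset.card_le_card_of_injOn (fun w' => (p : ℤ) + hh r w' (wd 2 3 r k (p : ℤ))) ?_ ?_)
  · intro w' hw'
    rw [Finset.mem_coe, Finset.mem_filter] at hw'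
    obtain ⟨a1, a2⟩ := hw'
    obtain ⟨a3, a4⟩ := hh_spec hadm a1 a2
    have a5 := abs_le.1 (hh_le hr (wd_mem (m := 3) le_rfl r k (p : ℤ)) a1)
    have h2' : (y : ℤ) + 3 ^ k < p := by exact_mod_cast h2
    have h3' : (p : ℤ) + 3 ^ k ≤ y + H := by exact_mod_cast h3
    rw [Finset.mem_coe, Finset.mem_filter, hI, Finset.mem_filter, Finset.mem_Ioc]
    refine ⟨⟨⟨by linarith, by linarith⟩, ?_, ?_⟩, a4⟩
    · rw [a4]
      exact h6
    · rw [a3, a2.1]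
      exact h4
  · intro w' hw' w'' hw'' he
    rw [Finset.mem_coe, Finset.mem_filter] at hw' hw''
    have b1 := (hh_spec hadm hw'.1 hw'.2).1
    have b2 := (hh_spec hadm hw''.1 hw''.2).1
    have he' : (p : ℤ) + hh r w' (wd 2 3 r k (p : ℤ)) = (p : ℤ) + hh r w'' (wd 2 3 r k (p : ℤ)) := he
    rw [← b1, ← b2, he']

open Classical in
/-- **One level.** -/
theorem one_level (hadm : Admissible 2 3 r) (hr : r 1 = 1 ∨ r 1 = -1) {k j y H : ℕ} (hk : 2 ≤ k) {C4 : ℝ} (hC4 : 0 ≤ C4)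
    (hS4 : ∀ (ι : Type) (s : Finset ι) (h : ι → ℤ) (k : ℕ) (N : ℝ), 2 ≤ k →
      (∀ i ∈ s, h i ≠ 0 ∧ |h i| ≤ 3 ^ k) → (s.card : ℝ) ≤ N →
      (∀ q : ℕ, q.Prime → 5 ≤ q → q ≤ k → (({i ∈ s | (q : ℤ) ∣ h i} : Finset ι).card : ℝ) ≤ 2 * N / q) →
        ∑ i ∈ s, sing (h i) ^ 2 ≤ C4 * N)
    {P Q : Finset ℕ} {G : Finset (List ℕ)} {β γ a b : ℝ} (B : Set ℤ)
    (hP : ∀ p ∈ P, p.Prime) (hQP : Q ⊆ P) (hGW : G ⊆ W 2 k)
    (hQ : ∀ p ∈ Q, y + 3 ^ k < p ∧ p + 3 ^ k ≤ y + H ∧ wd 2 3 r k (p : ℤ) ∈ G ∧ (T 2 3 r)^[k] (p : ℤ) ∈ B)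
    (hG : ∀ w ∈ G, sg w = j ∧ a ≤ mult r k w ∧ mult r k w ≤ b ∧
      ∀ q : ℕ, q.Prime → 5 ≤ q → q ≤ k → multq r k q w ≤ 2 * mult r k w / q)
    (hβ0 : 0 ≤ β) (hγ0 : 0 ≤ γ) (hb0 : 0 ≤ b)
    (hβ : ∀ w ∈ G, ((P.filter (fun p : ℕ => wd 2 3 r k (p : ℤ) = w)).card : ℝ) ≤ β)
    (hγ : ∀ w ∈ G, ∀ w' ∈ W 2 k, Rel r w' w → hh r w' w ≠ 0 →
      ((P.filter (fun p : ℕ => wd 2 3 r k (p : ℤ) = w ∧ ∃ p' : ℕ, p'.Prime ∧ (p' : ℤ) = p + hh r w' w)).card : ℝ) ≤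
        γ * sing (hh r w' w) ^ 2) :
    (Q.card : ℝ) ^ 2 * a ≤
      (((Finset.Ioc (y : ℤ) (y + H)).filter (fun n => (T 2 3 r)^[k] n ∈ B ∧ sg (wd 2 3 r k n) = j)).card : ℝ) *
        (G.card * (β + γ * (C4 * b))) := by
  have h1 := cs_fiber Q (fun p : ℕ => (T 2 3 r)^[k] (p : ℤ))
  have h2 := pair_count (k := k) (j := j) hadm hP hQP (fun p hp => (hQ p hp).2.2.1) (fun w hw => (hG w hw).1) hγ0 hβ hγ
  have h3 := fiber_count (k := k) (j := j) (y := y) (H := H) (Q := Q) (a := a) hadm hr B (fun p hp => by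
    obtain ⟨a1, a2, a3, a4⟩ := hQ p hp
    exact ⟨a1, a2, (hG _ a3).1, (hG _ a3).2.1, a4⟩)
  have h4 : ∑ w ∈ G.filter (fun w => ∃ p ∈ P, wd 2 3 r k (p : ℤ) = w),
        (β + γ * ∑ w' ∈ (W 2 k).filter (fun w' => Rel r w' w ∧ w' ≠ w), sing (hh r w' w) ^ 2) ≤
        G.card * (β + γ * (C4 * b)) := by
    have h5 : ∀ w ∈ G.filter (fun w => ∃ p ∈ P, wd 2 3 r k (p : ℤ) = w),
        (β + γ * ∑ w' ∈ (W 2 k).filter (fun w' => Rel r w' w ∧ w' ≠ w), sing (hh r w' w) ^ 2) ≤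
        β + γ * (C4 * b) := by
      intro w hw
      rw [Finset.mem_filter] at hw
      obtain ⟨hwG, p0, hp0, hp0w⟩ := hw
      obtain ⟨g1, g2, g3, g4⟩ := hG w hwG
      have hwW := hGW hwG
      have h6 := hS4 (List ℕ) ((W 2 k).filter (fun w' => Rel r w' w ∧ w' ≠ w)) (fun w' => hh r w' w) k (mult r k w) hk
        (fun w' hw' => by
          rw [Finset.mem_filter] at hw'
          refine ⟨?_, hh_le hr hwW hw'.1⟩
          have := hh_ne (n := (p0 : ℤ)) hadm hw'.1 (by rw [hp0w]; exact hw'.2.1) (by rw [hp0w]; exact hw'.2.2)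
          rwa [hp0w] at this)
        (by
          unfold mult cW
          refine Nat.cast_le.2 (Finset.card_le_card fun w' hw' => ?_)
          rw [Finset.mem_filter] at hw' ⊢
          exact ⟨hw'.1, hw'.2.1⟩)
        (fun q hq h5 hqk => by
          refine le_trans ?_ (g4 q hq h5 hqk)
          unfold multq
          refine card_le_cW fun w' hw' => ?_
          rw [Finset.mem_filter, Finset.mem_filter] at hw'
          refine ⟨hw'.1.1, hw'.1.2.1.1, ?_⟩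
          rw [← three_hh hw'.1.2.1]
          exact mul_dvd_mul_left _ hw'.2)
      have h7 : C4 * mult r k w ≤ C4 * b := mul_le_mul_of_nonneg_left g3 hC4
      have h8 := mul_le_mul_of_nonneg_left (h6.trans h7) hγ0
      linarith
    refine (Finset.sum_le_sum h5).trans ?_
    rw [Finset.sum_const, nsmul_eq_mul]
    refine mul_le_mul_of_nonneg_right ?_ (by positivity)
    exact_mod_cast Finset.card_le_card (Finset.filter_subset _ _)
  set E : ℝ := (((Finset.Ioc (y : ℤ) (y + H)).filter (fun n => (T 2 3 r)^[k] n ∈ B ∧ sg (wd 2 3 r k n) = j)).card : ℝ) with hE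
  have h5 := h2.trans h4
  have hX : 0 ≤ G.card * (β + γ * (C4 * b)) := by positivity
  rcases le_or_gt a 0 with ha | ha
  · have : (Q.card : ℝ) ^ 2 * a ≤ 0 := mul_nonpos_of_nonneg_of_nonpos (by positivity) ha
    have hE0 : 0 ≤ E := by rw [hE]; positivity
    have := mul_nonneg hE0 hX
    linarith
  · calc (Q.card : ℝ) ^ 2 * a ≤ ((Q.image (fun p : ℕ => (T 2 3 r)^[k] (p : ℤ))).card *
          (((Q ×ˢ Q).filter (fun x : ℕ × ℕ => (T 2 3 r)^[k] (x.2 : ℤ) = (T 2 3 r)^[k] (x.1 : ℤ))).card : ℝ)) * a :=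
        mul_le_mul_of_nonneg_right h1 ha.le
      _ = ((Q.image (fun p : ℕ => (T 2 3 r)^[k] (p : ℤ))).card * a) *
          (((Q ×ˢ Q).filter (fun x : ℕ × ℕ => (T 2 3 r)^[k] (x.2 : ℤ) = (T 2 3 r)^[k] (x.1 : ℤ))).card : ℝ) := by ring
      _ ≤ E * (G.card * (β + γ * (C4 * b))) := by
        refine mul_le_mul h3 h5 (by positivity) ?_
        rw [hE]
        positivity

end Pool.Agent.Helper28.PR
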