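import Pool.Agent.Helper28.PR.DefsG
import Pool.Agent.Helper28.PR.T2

/-!
# PRIMES, general maps, part 1: pairs of points with the same end point
-/

set_option autoImplicit false

namespace Pool.Agent.Helper28.PR

open Filter Topology
open Pool.Agent.Helper68.Moeller Pool.Agent.Helper52.Tao Pool.Agent.Helper8.ND Pool.Agent.Helper91.PL

variable {d m : ℕ} {r : ℤ → ℤ}

theorem hhg_le (hd : 2 ≤ d) (hdm : d < m) {B₀ : ℕ} (hB : ∀ j : ℤ, 0 < j → j < (d : ℤ) → |r j| ≤ B₀) {t : ℕ}
    {w w' : List ℕ} (hw : w ∈ W d t) (hw' : w' ∈ W d t) : |hhg d m r w' w| ≤ 2 * B₀ * (m : ℤ) ^ t := by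
  have h1 := abs_Off_le hd hdm hB hw
  have h2 := abs_Off_le hd hdm hB hw'
  have h5 : |Off d m r w' - Off d m r w| ≤ 2 * B₀ * (m : ℤ) ^ t := by
    have := abs_sub (Off d m r w') (Off d m r w)
    linarith
  unfold hhg
  exact le_trans (Int.abs_ediv_le_abs _ _) h5

theorem three_hhg {w w' : List ℕ} (h : Relg d m r w' w) :
    (m : ℤ) ^ sg w * hhg d m r w' w = Off d m r w' - Off d m r w := Int.mul_ediv_cancel' h.2

/-- The point with the word `w'` and the same end point. -/
theorem hhg_spec (hd : 2 ≤ d) (hco : Nat.Coprime m d) (hadm : Admissible d m r) {k : ℕ} {n : ℤ} {w' : List ℕ}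
    (hw' : w' ∈ W d k) (h : Relg d m r w' (wd d m r k n)) :
    wd d m r k (n + hhg d m r w' (wd d m r k n)) = w' ∧
      (T d m r)^[k] (n + hhg d m r w' (wd d m r k n)) = (T d m r)^[k] n := by
  refine wd_unique hd hco hadm hw' ?_
  have h1 := wd_spec (d := d) (m := m) hd hadm k n
  have h2 := three_hhg h
  rw [h.1, mul_add, h2, h1]
  ring

/-- Two points with the same end point and as many non-zero digits. -/
theorem hhg_of (hd : 2 ≤ d) (hm : 0 < m) (hadm : Admissible d m r) {k : ℕ} {n n' : ℤ}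
    (hs : sg (wd d m r k n') = sg (wd d m r k n)) (hT : (T d m r)^[k] n' = (T d m r)^[k] n) :
    Relg d m r (wd d m r k n') (wd d m r k n) ∧ n' = n + hhg d m r (wd d m r k n') (wd d m r k n) := by
  have h1 := wd_spec (d := d) (m := m) hd hadm k n
  have h2 := wd_spec (d := d) (m := m) hd hadm k n'
  rw [hT, h1, hs] at h2
  have h3 : (m : ℤ) ^ sg (wd d m r k n) * (n' - n) = Off d m r (wd d m r k n') - Off d m r (wd d m r k n) := by
    linear_combination -h2
  have hR : Relg d m r (wd d m r k n') (wd d m r k n) := ⟨hs, ⟨_, h3.symm⟩⟩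
  refine ⟨hR, ?_⟩
  have h4 := three_hhg hR
  have h5 : (m : ℤ) ^ sg (wd d m r k n) ≠ 0 := by positivity
  have h6 : n' - n = hhg d m r (wd d m r k n') (wd d m r k n) := mul_left_cancel₀ h5 (h3.trans h4.symm)
  linarith

theorem hhg_ne (hd : 2 ≤ d) (hco : Nat.Coprime m d) (hadm : Admissible d m r) {k : ℕ} {n : ℤ} {w' : List ℕ}
    (hw' : w' ∈ W d k) (h : Relg d m r w' (wd d m r k n)) (hne : w' ≠ wd d m r k n) :
    hhg d m r w' (wd d m r k n) ≠ 0 := by
  intro h0
  have h1 := (hhg_spec hd hco hadm hw' h).1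
  rw [h0, add_zero] at h1
  exact hne h1.symm

theorem cW_zerog {t : ℕ} {P : List ℕ → Prop} (h : ∀ w ∈ W d t, ¬ P w) : cW d t P = 0 := by
  have h1 : cW d t P ≤ cW d t (fun _ => False) := cW_mono fun w hw hP => (h w hw hP)
  have h2 : cW d t (fun _ => False) = 0 := by simp [cW]
  exact le_antisymm (h1.trans h2.le) (cW_nonneg _ _ _)

/-- The number of words with `j` non-zero digits. -/
theorem card_sgg (hd : 1 ≤ d) (k j : ℕ) : cW d k (fun w => sg w = j) = k.choose j * ((d : ℝ) - 1) ^ j := by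
  obtain ⟨b, rfl⟩ : ∃ b, d = b + 1 := ⟨d - 1, by omega⟩
  induction k generalizing j with
  | zero =>
    classical
    rw [cW_eq_sum, sum_W_zero]
    rcases j with _ | j <;> simp
  | succ k ih =>
    classical
    rw [cW_eq_sum, sum_W_succ, Finset.sum_range_succ']
    simp only [sg_cons, nz_zero, nz_of_ne (Nat.succ_ne_zero _), zero_add]
    have h0 := ih j
    rw [cW_eq_sum] at h0
    rw [h0, Finset.sum_const, Finset.card_range, nsmul_eq_mul]
    rcases j with _ | j
    · have : ∑ w ∈ W (b + 1) k, (if 1 + sg w = 0 then (1 : ℝ) else 0) = 0 := by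
        refine Finset.sum_eq_zero fun w _ => ?_
        rw [if_neg (by omega)]
      rw [this]
      simp
    · have h1 := ih j
      rw [cW_eq_sum] at h1
      have : ∑ w ∈ W (b + 1) k, (if 1 + sg w = j + 1 then (1 : ℝ) else 0) =
          ∑ w ∈ W (b + 1) k, (if sg w = j then (1 : ℝ) else 0) := by
        refine Finset.sum_congr rfl fun w _ => ?_
        congr 1
        exact propext (by omega)
      rw [this, h1, Nat.choose_succ_succ]
      push_cast
      ring

/-- Few words have a small multiplicity. -/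
theorem low_multg (hd : 2 ≤ d) (hm : 0 < m) (k : ℕ) {κ : ℝ} (hκ : 0 ≤ κ) :
    cW d k (fun w => multg d m r k w < κ * rhg d m k w) ≤ κ * (d : ℝ) ^ k := by
  classical
  have hd1 : (0 : ℝ) ≤ (d : ℝ) - 1 := by
    have : (2 : ℝ) ≤ d := by exact_mod_cast hd
    linarith
  have hm0 : (0 : ℝ) < m := by exact_mod_cast hm
  obtain ⟨ρ, hρ⟩ : ∃ ρ : ℕ → ℝ, ρ = fun j => (k.choose j : ℝ) * ((d : ℝ) - 1) ^ j / (m : ℝ) ^ j := ⟨_, rfl⟩
  have hρ0 : ∀ j, 0 ≤ ρ j := fun j => by rw [hρ]; positivity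
  have h1 : cW d k (fun w => multg d m r k w < κ * rhg d m k w) ≤
      cW d k (fun w => ∃ j ∈ Finset.range (k + 1), ∃ X ∈ Finset.range (m ^ j),
        sg w = j ∧ (m : ℤ) ^ j ∣ Off d m r w - X ∧ multg d m r k w < κ * ρ j) := by
    refine cW_mono fun w hw hP => ?_
    have hl := sg_le_length w
    rw [length_of_mem_W hw] at hl
    have h3 : (0 : ℤ) < (m : ℤ) ^ sg w := by positivity
    refine ⟨sg w, Finset.mem_range.2 (by omega), (Off d m r w % (m : ℤ) ^ sg w).toNat, ?_, rfl, ?_, ?_⟩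
    · rw [Finset.mem_range]
      have h4 := Int.emod_lt_of_pos (Off d m r w) h3
      have h5 := Int.emod_nonneg (Off d m r w) h3.ne'
      zify
      rw [Int.toNat_of_nonneg h5]
      exact_mod_cast h4
    · have h5 := Int.emod_nonneg (Off d m r w) h3.ne'
      rw [Int.toNat_of_nonneg h5]
      exact Int.dvd_self_sub_emod
    · rw [hρ]
      exact hP
  refine h1.trans ((cW_exists_le _ _ _ _).trans ?_)
  have h2 : ∀ j ∈ Finset.range (k + 1), cW d k (fun w => ∃ X ∈ Finset.range (m ^ j),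
        sg w = j ∧ (m : ℤ) ^ j ∣ Off d m r w - X ∧ multg d m r k w < κ * ρ j) ≤
          κ * (k.choose j * ((d : ℝ) - 1) ^ j) := by
    intro j _
    refine (cW_exists_le _ _ _ _).trans ?_
    have h3 : ∀ X ∈ Finset.range (m ^ j), cW d k (fun w => sg w = j ∧ (m : ℤ) ^ j ∣ Off d m r w - X ∧
        multg d m r k w < κ * ρ j) ≤ κ * ρ j := by
      intro X _
      by_cases hex : ∃ w ∈ W d k, sg w = j ∧ (m : ℤ) ^ j ∣ Off d m r w - X ∧ multg d m r k w < κ * ρ j
      · obtain ⟨w0, _, h4, h5, h6⟩ := hex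
        refine le_trans (cW_mono fun w _ hw => ?_) h6.le
        obtain ⟨h7, h8, -⟩ := hw
        refine ⟨h7.trans h4.symm, ?_⟩
        rw [h4]
        have := dvd_sub h8 h5
        rwa [sub_sub_sub_cancel_right] at this
      · push Not at hex
        have : cW d k (fun w => sg w = j ∧ (m : ℤ) ^ j ∣ Off d m r w - X ∧ multg d m r k w < κ * ρ j) = 0 := by
          refine cW_zerog ?_
          rintro w hw ⟨h4, h5, h6⟩
          exact absurd h6 (not_lt.2 (hex w hw h4 h5))
        rw [this]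
        exact mul_nonneg hκ (hρ0 j)
    refine (Finset.sum_le_sum h3).trans ?_
    rw [Finset.sum_const, Finset.card_range, nsmul_eq_mul, hρ]
    push_cast
    have : (0 : ℝ) < (m : ℝ) ^ j := by positivity
    field_simp
    exact le_refl _
  refine (Finset.sum_le_sum h2).trans ?_
  rw [← Finset.mul_sum]
  have h3 : ∑ j ∈ Finset.range (k + 1), ((k.choose j : ℝ) * ((d : ℝ) - 1) ^ j) = (d : ℝ) ^ k := by
    have := add_pow ((d : ℝ) - 1) 1 k
    rw [sub_add_cancel] at this
    rw [this]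
    refine Finset.sum_congr rfl fun j _ => ?_
    rw [one_pow, mul_one, mul_comm]
  rw [h3]

/-- Few words are light. -/
theorem lightg (hd : 2 ≤ d) (hm : 2 ≤ m) (k : ℕ) {L : ℝ} (hL : 0 ≤ L) (J : ℕ) :
    cW d k (fun w => sg w ≤ J ∧ rhg d m k w < L) ≤ (m : ℝ) ^ (J + 1) * L := by
  classical
  have hm2 : (2 : ℝ) ≤ m := by exact_mod_cast hm
  obtain ⟨ρ, hρ⟩ : ∃ ρ : ℕ → ℝ, ρ = fun j => (k.choose j : ℝ) * ((d : ℝ) - 1) ^ j / (m : ℝ) ^ j := ⟨_, rfl⟩
  have h1 : cW d k (fun w => sg w ≤ J ∧ rhg d m k w < L) ≤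
      cW d k (fun w => ∃ j ∈ Finset.range (J + 1), sg w = j ∧ ρ j < L) := by
    refine cW_mono fun w _ hP => ⟨sg w, Finset.mem_range.2 (by omega), rfl, ?_⟩
    rw [hρ]
    exact hP.2
  refine h1.trans ((cW_exists_le _ _ _ _).trans ?_)
  have h2 : ∀ j ∈ Finset.range (J + 1), cW d k (fun w => sg w = j ∧ ρ j < L) ≤ (m : ℝ) ^ j * L := by
    intro j _
    have h3j : (0 : ℝ) < (m : ℝ) ^ j := by positivity
    by_cases h : ρ j < L
    · refine (cW_mono fun w _ hw => hw.1).trans ?_
      rw [card_sgg (by omega)]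
      rw [hρ] at h
      simp only at h
      rw [div_lt_iff₀ h3j] at h
      linarith
    · have : cW d k (fun w => sg w = j ∧ ρ j < L) = 0 := by
        refine cW_zerog ?_
        rintro w hw ⟨-, h4⟩
        exact h h4
      rw [this]
      positivity
  refine (Finset.sum_le_sum h2).trans ?_
  rw [← Finset.sum_mul]
  refine mul_le_mul_of_nonneg_right ?_ hL
  have h3 := geom_sum_eq (x := (m : ℝ)) (by linarith) (J + 1)
  rw [h3]
  have : (0 : ℝ) < (m : ℝ) ^ (J + 1) := by positivity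
  rw [div_le_iff₀ (by linarith)]
  nlinarith

end Pool.Agent.Helper28.PR
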