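import Pool.Agent.Helper28.PR.T3

/-!
# PRIMES, block S5, part 4: the transference
-/

set_option autoImplicit false

namespace Pool.Agent.Helper28.PR

open Filter Topology
open Pool.Agent.Helper68.Moeller Pool.Agent.Helper52.Tao Pool.Agent.Helper8.ND Pool.Agent.Helper91.PL

variable {r : ℤ → ℤ}

theorem loglog_tendsto : Tendsto (fun y : ℕ => Real.log (Real.log (y : ℝ))) atTop atTop :=
  Real.tendsto_log_atTop.comp (Real.tendsto_log_atTop.comp tendsto_natCast_atTop_atTop)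

theorem ky_tendsto : Tendsto (fun y : ℕ => ky (y : ℝ)) atTop atTop := by
  unfold ky
  exact tendsto_nat_ceil_atTop.comp (loglog_tendsto.const_mul_atTop (by norm_num : (0 : ℝ) < 10))

theorem ky_small {θ : ℝ} (hθ : 0 < θ) (A : ℝ) (hA : 0 ≤ A) :
    ∀ᶠ y : ℕ in atTop, A * 4 ^ ky (y : ℝ) * Real.log y ≤ (y : ℝ) ^ θ := by
  have h1 := isLittleO_log_rpow_rpow_atTop (10 * Real.log 4 + 1) hθ
  have h2 := (h1.bound (show (0 : ℝ) < 1 / (4 * A + 1) by positivity))
  have h3 := (tendsto_natCast_atTop_atTop (R := ℝ)).eventually h2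
  filter_upwards [h3, loglog_tendsto.eventually_ge_atTop 0, (tendsto_natCast_atTop_atTop (R := ℝ)).eventually_ge_atTop 3] with y hy hll hy3
  have hly : 0 < Real.log y := Real.log_pos (by linarith)
  rw [Real.norm_of_nonneg (Real.rpow_nonneg hly.le _), Real.norm_of_nonneg (Real.rpow_nonneg (by linarith) _)] at hy
  have hk : (ky (y : ℝ) : ℝ) ≤ 10 * Real.log (Real.log y) + 1 := (Nat.ceil_lt_add_one (by positivity)).le
  have h4 : (4 : ℝ) ^ ky (y : ℝ) ≤ 4 * Real.log y ^ (10 * Real.log 4) := by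
    rw [← Real.rpow_natCast]
    calc (4 : ℝ) ^ ((ky (y : ℝ) : ℕ) : ℝ) ≤ (4 : ℝ) ^ (10 * Real.log (Real.log y) + 1) :=
        Real.rpow_le_rpow_of_exponent_le (by norm_num) hk
      _ = 4 * Real.log y ^ (10 * Real.log 4) := by
        rw [Real.rpow_add (by norm_num), Real.rpow_one, Real.rpow_def_of_pos (by norm_num : (0 : ℝ) < 4),
          Real.rpow_def_of_pos hly]
        rw [mul_comm]
        congr 2
        ring
  have h5 : Real.log y ^ (10 * Real.log 4 + 1) = Real.log y ^ (10 * Real.log 4) * Real.log y := by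
    rw [Real.rpow_add hly, Real.rpow_one]
  rw [h5] at hy
  have h6 : 0 ≤ Real.log y ^ (10 * Real.log 4) * Real.log y := by positivity
  have h7 : (0 : ℝ) < 4 * A + 1 := by positivity
  calc A * 4 ^ ky (y : ℝ) * Real.log y ≤ A * (4 * Real.log y ^ (10 * Real.log 4)) * Real.log y :=
      mul_le_mul_of_nonneg_right (mul_le_mul_of_nonneg_left h4 hA) hly.le
    _ = 4 * A * (Real.log y ^ (10 * Real.log 4) * Real.log y) := by ring
    _ ≤ (4 * A + 1) * (1 / (4 * A + 1) * (y : ℝ) ^ θ) := by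
      refine mul_le_mul (by linarith) hy h6 (by positivity)
    _ = (y : ℝ) ^ θ := by field_simp

theorem log_le_ky {y : ℕ} (hy : 2 ≤ y) : Real.log y ≤ Real.exp ((ky (y : ℝ) : ℝ) / 10) := by
  have hly : 0 < Real.log y := Real.log_pos (by exact_mod_cast (by omega : 1 < y))
  rw [← Real.log_le_iff_le_exp hly]
  have : 10 * Real.log (Real.log y) ≤ (ky (y : ℝ) : ℝ) := Nat.le_ceil _
  linarith

theorem small_k {η : ℝ} (hη : 0 < η) : ∃ k0 : ℕ, ∀ k : ℕ, k0 ≤ k → ∀ L : ℝ, L ≤ Real.exp ((k : ℝ) / 10) →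
    2 ^ k * (2500 / k) + 3 ^ (13 * k / 25 + 1) * L + 2 ^ k / (k : ℝ) ≤ η * 2 ^ k := by
  have he : 3 ^ 13 * Real.exp (5 / 2) ≤ 6 / 10 * 2 ^ 25 := by
    have h1 : Real.exp (5 / 2) ^ 2 = Real.exp 1 ^ 5 := by
      rw [← Real.exp_nat_mul, ← Real.exp_nat_mul]
      norm_num
    have h2 := Real.exp_one_lt_d9
    have h3 : Real.exp 1 ^ 5 ≤ 149 := by
      calc Real.exp 1 ^ 5 ≤ 2.7182818286 ^ 5 := pow_le_pow_left₀ (Real.exp_pos _).le h2.le 5
        _ ≤ 149 := by norm_num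
    have h4 : Real.exp (5 / 2) ≤ 12.21 := by
      refine le_of_sq_le_sq ?_ (by norm_num)
      rw [h1]
      refine h3.trans (by norm_num)
    calc 3 ^ 13 * Real.exp (5 / 2) ≤ 3 ^ 13 * 12.21 := by
          exact mul_le_mul_of_nonneg_left h4 (by norm_num)
      _ ≤ _ := by norm_num
  have t1 : Tendsto (fun k : ℕ => 3 ^ 14 * Real.exp (5 / 2) * (6 / 10 : ℝ) ^ (k / 25)) atTop (𝓝 0) := by
    have := ((tendsto_pow_atTop_nhds_zero_of_lt_one (by norm_num) (by norm_num : (6 / 10 : ℝ) < 1)).comp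
      (Nat.tendsto_div_const_atTop (by norm_num : (25 : ℕ) ≠ 0))).const_mul (3 ^ 14 * Real.exp (5 / 2))
    rw [mul_zero] at this
    exact this
  have t2 : Tendsto (fun k : ℕ => 2501 / (k : ℝ)) atTop (𝓝 0) := tendsto_const_div_atTop_nhds_zero_nat 2501
  have t3 := t1.add t2
  rw [add_zero] at t3
  obtain ⟨k0, hk0⟩ := eventually_atTop.1 (t3.eventually (gt_mem_nhds hη))
  refine ⟨k0, fun k hk L hL => ?_⟩
  have h1 := hk0 k hk
  have h2k : (0 : ℝ) < 2 ^ k := by positivity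
  have h2 : 3 ^ (13 * k / 25 + 1) * L ≤ 3 ^ 14 * Real.exp (5 / 2) * (6 / 10 : ℝ) ^ (k / 25) * 2 ^ k := by
    obtain ⟨a, b, hb, hkab⟩ : ∃ a b : ℕ, b < 25 ∧ k = 25 * a + b := ⟨k / 25, k % 25, Nat.mod_lt _ (by norm_num), by omega⟩
    have e1 : k / 25 = a := by omega
    have e2 : 13 * k / 25 + 1 ≤ 13 * a + 14 := by omega
    have e3 : (3 : ℝ) ^ (13 * k / 25 + 1) ≤ 3 ^ (13 * a + 14) := pow_le_pow_right₀ (by norm_num) e2
    have e4 : Real.exp ((k : ℝ) / 10) ≤ Real.exp (5 / 2) ^ (a + 1) := by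
      rw [← Real.exp_nat_mul]
      apply Real.exp_le_exp.2
      have hb' : (b : ℝ) ≤ 25 := by exact_mod_cast hb.le
      rw [hkab]
      push_cast
      linarith
    have e5 : (2 : ℝ) ^ (25 * a) ≤ 2 ^ k := pow_le_pow_right₀ (by norm_num) (by omega)
    have hexp := Real.exp_pos (5 / 2)
    rw [e1]
    calc 3 ^ (13 * k / 25 + 1) * L ≤ 3 ^ (13 * k / 25 + 1) * Real.exp ((k : ℝ) / 10) :=
          mul_le_mul_of_nonneg_left hL (by positivity)
      _ ≤ 3 ^ (13 * a + 14) * Real.exp (5 / 2) ^ (a + 1) := mul_le_mul e3 e4 (Real.exp_pos _).le (by positivity)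
      _ = 3 ^ 14 * Real.exp (5 / 2) * (3 ^ 13 * Real.exp (5 / 2)) ^ a := by
          rw [mul_pow, ← pow_mul, pow_add, pow_succ]
          ring
      _ ≤ 3 ^ 14 * Real.exp (5 / 2) * (6 / 10 * 2 ^ 25) ^ a := by
          refine mul_le_mul_of_nonneg_left (pow_le_pow_left₀ (by positivity) he a) (by positivity)
      _ = 3 ^ 14 * Real.exp (5 / 2) * (6 / 10 : ℝ) ^ a * 2 ^ (25 * a) := by
          rw [mul_pow, ← pow_mul]
          ring
      _ ≤ _ := mul_le_mul_of_nonneg_left e5 (by positivity)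
  have h3 : 2 ^ k * (2500 / (k : ℝ)) + 2 ^ k / (k : ℝ) = 2501 / (k : ℝ) * 2 ^ k := by ring
  nlinarith [mul_lt_mul_of_pos_right h1 h2k]

open Classical in
/-- **Transference.** -/
theorem s5 (hadm : Admissible 2 3 r) (hr : r 1 = 1 ∨ r 1 = -1) (h1 : S1Stmt) (h2 : S2Stmt r) (h3 : S3Stmt r) (h4 : S4Stmt) :
    S5Stmt r := by
  obtain ⟨Cs, H0, hCs, h1⟩ := h1
  obtain ⟨k3, h3⟩ := h3
  obtain ⟨C4, hC4, h4⟩ := h4
  obtain ⟨Cb, hCb, hbt⟩ := word_primes
  suffices H : ∀ θ η : ℝ, 0 < θ → θ ≤ 1 → 0 < η → ∃ ε : ℝ, 0 < ε ∧ ∃ Y : ℕ, ∀ y H : ℕ, Y ≤ y →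
      (y : ℝ) ^ θ ≤ H → H ≤ y → ∀ B : Set ℤ,
      ({n : ℤ | (y : ℤ) < n ∧ n ≤ y + H ∧ (T 2 3 r)^[ky y] n ∈ B}.ncard : ℝ) ≤ ε * H →
      ({p : ℕ | p.Prime ∧ y < p ∧ p ≤ y + H ∧ (T 2 3 r)^[ky y] (p : ℤ) ∈ B}.ncard : ℝ) ≤ η * (H / Real.log y) by
    intro θ η hθ hη
    obtain ⟨ε, hε, Y, hY⟩ := H (min θ 1) η (lt_min hθ one_pos) (min_le_right _ _) hη
    refine ⟨ε, hε, max Y 1, fun y H hy hH hHy B hB => ?_⟩
    refine hY y H ((le_max_left _ _).trans hy) (le_trans ?_ hH) hHy B hB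
    have : (1 : ℝ) ≤ y := by exact_mod_cast (le_max_right _ _).trans hy
    exact Real.rpow_le_rpow_of_exponent_le this (min_le_left _ _)
  intro θ η hθ hθ1 hη
  set C1 : ℝ := Cb / θ with hC1d
  have hC1 : 0 < C1 := by rw [hC1d]; positivity
  set κ : ℝ := η / (8 * C1) with hκd
  have hκ : 0 < κ := by rw [hκd]; positivity
  obtain ⟨K, k2, hK, h2⟩ := h2 κ hκ
  obtain ⟨k5, hk5⟩ := small_k (η := κ) hκ
  set D : ℝ := (C1 + Cs / θ ^ 2 * (C4 * K)) / κ with hDd
  have hD : 0 < D := by rw [hDd]; positivity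
  set ε : ℝ := (η / 4) ^ 2 / D with hεd
  have hε : 0 < ε := by rw [hεd]; positivity
  set A : ℝ := 16 / η + 2 + H0 with hAd
  have hA0 : 0 ≤ A := by rw [hAd]; positivity
  obtain ⟨Y1, hY1⟩ := eventually_atTop.1 ((ky_small hθ A hA0).and (ky_tendsto.eventually_ge_atTop (max (max k2 k3) (max k5 2))))
  refine ⟨ε, hε, max Y1 3, fun y H hy hH hHy B hB => ?_⟩
  obtain ⟨hsm, hkk⟩ := hY1 y ((le_max_left _ _).trans hy)
  have hy3 : 3 ≤ y := (le_max_right _ _).trans hy
  set k := ky (y : ℝ) with hkd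
  have hkk2 : k2 ≤ k := (le_max_left _ _).trans ((le_max_left _ _).trans hkk)
  have hkk3 : k3 ≤ k := (le_max_right _ _).trans ((le_max_left _ _).trans hkk)
  have hkk5 : k5 ≤ k := (le_max_left _ _).trans ((le_max_right _ _).trans hkk)
  have hk2 : 2 ≤ k := (le_max_right _ _).trans ((le_max_right _ _).trans hkk)
  have hy0 : (0 : ℝ) < y := by exact_mod_cast (by omega : 0 < y)
  have hyR : (3 : ℝ) ≤ y := by exact_mod_cast hy3
  have hL1 : 1 ≤ Real.log y := by
    rw [Real.le_log_iff_exp_le hy0]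
    have := Real.exp_one_lt_d9
    linarith
  set L : ℝ := Real.log y with hLd
  have hL0 : 0 < L := by linarith
  have h2k : (0 : ℝ) < 2 ^ k := by positivity
  have h4k : (1 : ℝ) ≤ 4 ^ k := one_le_pow₀ (by norm_num)
  have h4L : 4 ^ k ≤ 4 ^ k * L := by nlinarith
  have hHR : (0 : ℝ) < H := lt_of_lt_of_le (Real.rpow_pos_of_pos hy0 _) hH
  have hA1 : A * (4 ^ k * L) ≤ (y : ℝ) ^ θ := by rw [← mul_assoc]; exact hsm
  have hA2 : 0 ≤ 16 / η := by positivity
  have hH0' : (0 : ℝ) ≤ H0 := Nat.cast_nonneg _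
  have f1 : 2 * (4 : ℝ) ^ k ≤ (y : ℝ) ^ θ := by
    refine le_trans ?_ hA1
    rw [hAd]
    nlinarith
  have f2 : H0 ≤ H := by
    have : (H0 : ℝ) ≤ H := by
      refine le_trans ?_ (hA1.trans hH)
      have h41 : (1 : ℝ) ≤ 4 ^ k * L := h4k.trans h4L
      rw [hAd]
      nlinarith
    exact_mod_cast this
  have f3 : 2 * (3 : ℝ) ^ k ≤ η / 8 * (H / L) := by
    have a1 : (3 : ℝ) ^ k ≤ 4 ^ k := pow_le_pow_left₀ (by norm_num) (by norm_num) k
    have a2 : 16 / η * (4 ^ k * L) ≤ H := by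
      refine le_trans ?_ (hA1.trans hH)
      rw [hAd]
      have h41 : (0 : ℝ) ≤ 4 ^ k * L := by positivity
      nlinarith
    have a3 : 16 / η * 4 ^ k ≤ H / L := by
      rw [le_div_iff₀ hL0]
      linarith
    calc 2 * (3 : ℝ) ^ k ≤ 2 * 4 ^ k := by linarith
      _ = η / 8 * (16 / η * 4 ^ k) := by field_simp; norm_num
      _ ≤ _ := mul_le_mul_of_nonneg_left a3 (by positivity)
  have f4 : (4 : ℝ) ^ k ≤ (y : ℝ) ^ θ := by linarith
  -- the primes
  set P := (Finset.Ioc y (y + H)).filter Nat.Prime with hPd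
  have hPp : ∀ p ∈ P, p.Prime := fun p hp => (Finset.mem_filter.1 hp).2
  set β : ℝ := C1 * (H / (2 ^ k * L)) with hβd
  have hβ0 : 0 ≤ β := by rw [hβd]; positivity
  have hβ : ∀ w : List ℕ, ((P.filter (fun p : ℕ => wd 2 3 r k (p : ℤ) = w)).card : ℝ) ≤ β := fun w =>
    hbt r hadm θ k y H hθ (by omega) (by omega) f4 hH hHy w
  set γ : ℝ := Cs / θ ^ 2 * (H / (2 ^ k * L ^ 2)) with hγd
  have hγ0 : 0 ≤ γ := by rw [hγd]; positivity
  have hγ : ∀ w ∈ W 2 k, ∀ w' ∈ W 2 k, hh r w' w ≠ 0 →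
      ((P.filter (fun p : ℕ => wd 2 3 r k (p : ℤ) = w ∧ ∃ p' : ℕ, p'.Prime ∧ (p' : ℤ) = p + hh r w' w)).card : ℝ) ≤
        γ * sing (hh r w' w) ^ 2 := fun w hw w' hw' hne =>
    word_pairs hCs h1 hadm hr hθ (by omega) (by omega) f1 hH hHy f2 hw hw' hne
  -- the good words with `j` ones
  set G : ℕ → Finset (List ℕ) := fun j => (W 2 k).filter (fun w => Gd r k κ K L w ∧ sg w = j) with hGd
  set Q : ℕ → Finset ℕ := fun j => P.filter (fun p : ℕ => (y + 3 ^ k < p ∧ p + 3 ^ k ≤ y + H) ∧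
    Gd r k κ K L (wd 2 3 r k (p : ℤ)) ∧ (T 2 3 r)^[k] (p : ℤ) ∈ B ∧ sg (wd 2 3 r k (p : ℤ)) = j) with hQd
  set E : ℕ → ℝ := fun j => (((Finset.Ioc (y : ℤ) (y + H)).filter
    (fun n => (T 2 3 r)^[k] n ∈ B ∧ sg (wd 2 3 r k n) = j)).card : ℝ) with hEd
  have hE0 : ∀ j, 0 ≤ E j := fun j => by rw [hEd]; positivity
  have hlev : ∀ j ∈ Finset.range (k + 1), ((Q j).card : ℝ) ≤ Real.sqrt (D * (H / (2 ^ k * L ^ 2))) *
      (Real.sqrt (E j) * Real.sqrt ((G j).card : ℝ)) := by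
    intro j _
    set ρ : ℝ := (k.choose j : ℝ) / 3 ^ j with hρd
    have hρ0 : 0 ≤ ρ := by rw [hρd]; positivity
    rcases lt_or_ge ρ L with hρL | hρL
    · have hQe : Q j = ∅ := by
        rw [Finset.eq_empty_iff_forall_notMem]
        intro p hp
        rw [hQd] at hp
        simp only [Finset.mem_filter] at hp
        obtain ⟨-, -, ⟨g1, -⟩, -, g2⟩ := hp
        unfold rh at g1
        rw [g2] at g1
        exact absurd g1 (not_le.2 hρL)
      rw [hQe, Finset.card_empty]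
      push_cast
      positivity
    · have hρpos : 0 < ρ := lt_of_lt_of_le hL0 hρL
      have h5 := one_level (r := r) (k := k) (j := j) (y := y) (H := H) hadm hr hk2 hC4.le h4 (P := P) (Q := Q j) (G := G j)
        (β := β) (γ := γ) (a := κ * ρ) (b := K * ρ) B hPp (Finset.filter_subset _ _) (Finset.filter_subset _ _)
        (fun p hp => by
          rw [hQd] at hp
          simp only [Finset.mem_filter] at hp
          obtain ⟨-, ⟨g1, g2⟩, g3, g4, g5⟩ := hp
          refine ⟨g1, g2, ?_, g4⟩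
          rw [hGd]
          simp only [Finset.mem_filter]
          exact ⟨wd_mem le_rfl r k _, g3, g5⟩)
        (fun w hw => by
          rw [hGd] at hw
          simp only [Finset.mem_filter] at hw
          obtain ⟨-, ⟨g1, g2, g3, g4⟩, g5⟩ := hw
          unfold rh at g2 g3
          rw [g5] at g2 g3
          exact ⟨g5, g2, g3, g4⟩)
        hβ0 hγ0 (by positivity) (fun w _ => hβ w)
        (fun w hw w' hw' _ hne => hγ w (Finset.filter_subset _ _ hw) w' hw' hne)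
      have h6 : β + γ * (C4 * (K * ρ)) ≤ κ * ρ * (D * (H / (2 ^ k * L ^ 2))) := by
        have e1 : κ * ρ * (D * (H / (2 ^ k * L ^ 2))) = ρ * (C1 * (H / (2 ^ k * L ^ 2))) + γ * (C4 * (K * ρ)) := by
          rw [hDd, hγd]
          field_simp
        have e2 : β ≤ ρ * (C1 * (H / (2 ^ k * L ^ 2))) := by
          rw [hβd]
          have e3 : (H : ℝ) / (2 ^ k * L) = L * (H / (2 ^ k * L ^ 2)) := by field_simp
          rw [e3]
          have e4 : 0 ≤ C1 * (H / (2 ^ k * L ^ 2)) := by positivity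
          nlinarith
        rw [e1]
        linarith
      have h7 : ((Q j).card : ℝ) ^ 2 ≤ D * (H / (2 ^ k * L ^ 2)) * (E j * (G j).card) := by
        have h8 : ((Q j).card : ℝ) ^ 2 * (κ * ρ) ≤ (D * (H / (2 ^ k * L ^ 2)) * (E j * (G j).card)) * (κ * ρ) := by
          refine h5.trans ?_
          calc E j * ((G j).card * (β + γ * (C4 * (K * ρ)))) ≤ E j * ((G j).card * (κ * ρ * (D * (H / (2 ^ k * L ^ 2))))) :=
                mul_le_mul_of_nonneg_left (mul_le_mul_of_nonneg_left h6 (by positivity)) (hE0 j)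
            _ = _ := by ring
        exact le_of_mul_le_mul_right h8 (by positivity)
      rw [← Real.sqrt_mul (hE0 j), ← Real.sqrt_mul (by positivity)]
      exact Real.le_sqrt_of_sq_le h7
  have hsum : ∑ j ∈ Finset.range (k + 1), ((Q j).card : ℝ) ≤ η / 4 * (H / L) := by
    have hES : ∑ j ∈ Finset.range (k + 1), E j ≤ ε * H := by
      refine le_trans ?_ hB
      have e1 : ∑ j ∈ Finset.range (k + 1), ((Finset.Ioc (y : ℤ) (y + H)).filter
          (fun n => (T 2 3 r)^[k] n ∈ B ∧ sg (wd 2 3 r k n) = j)).card ≤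
          ((Finset.Ioc (y : ℤ) (y + H)).filter (fun n => (T 2 3 r)^[k] n ∈ B)).card := by
        rw [← Finset.card_biUnion]
        · refine Finset.card_le_card fun n hn => ?_
          rw [Finset.mem_biUnion] at hn
          obtain ⟨j, -, hj⟩ := hn
          rw [Finset.mem_filter] at hj ⊢
          exact ⟨hj.1, hj.2.1⟩
        · intro j _ j' _ hjj
          rw [Function.onFun, Finset.disjoint_left]
          intro n hn hn'
          exact hjj ((Finset.mem_filter.1 hn).2.2.symm.trans (Finset.mem_filter.1 hn').2.2)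
      have e2 : {n : ℤ | (y : ℤ) < n ∧ n ≤ y + H ∧ (T 2 3 r)^[k] n ∈ B} =
          (((Finset.Ioc (y : ℤ) (y + H)).filter (fun n => (T 2 3 r)^[k] n ∈ B) : Finset ℤ) : Set ℤ) := by
        ext n
        simp only [Set.mem_setOf_eq, Finset.coe_filter, Finset.mem_Ioc]
        tauto
      rw [e2, Set.ncard_coe_finset]
      simp only [hEd]
      exact_mod_cast e1
    have hGS : ∑ j ∈ Finset.range (k + 1), ((G j).card : ℝ) ≤ 2 ^ k := by
      have e1 : ∑ j ∈ Finset.range (k + 1), (G j).card ≤ (W 2 k).card := by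
        rw [← Finset.card_biUnion]
        · refine Finset.card_le_card fun w hw => ?_
          rw [Finset.mem_biUnion] at hw
          obtain ⟨j, -, hj⟩ := hw
          exact Finset.filter_subset _ _ hj
        · intro j _ j' _ hjj
          rw [Function.onFun, Finset.disjoint_left]
          intro w hw hw'
          exact hjj ((Finset.mem_filter.1 hw).2.2.symm.trans (Finset.mem_filter.1 hw').2.2)
      rw [card_W] at e1
      exact_mod_cast e1
    calc ∑ j ∈ Finset.range (k + 1), ((Q j).card : ℝ)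
        ≤ ∑ j ∈ Finset.range (k + 1), Real.sqrt (D * (H / (2 ^ k * L ^ 2))) *
          (Real.sqrt (E j) * Real.sqrt ((G j).card : ℝ)) := Finset.sum_le_sum hlev
      _ = Real.sqrt (D * (H / (2 ^ k * L ^ 2))) * ∑ j ∈ Finset.range (k + 1),
          (Real.sqrt (E j) * Real.sqrt ((G j).card : ℝ)) := by rw [Finset.mul_sum]
      _ ≤ Real.sqrt (D * (H / (2 ^ k * L ^ 2))) * (Real.sqrt (∑ j ∈ Finset.range (k + 1), E j) *
          Real.sqrt (∑ j ∈ Finset.range (k + 1), ((G j).card : ℝ))) := by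
          refine mul_le_mul_of_nonneg_left ?_ (Real.sqrt_nonneg _)
          exact Real.sum_sqrt_mul_sqrt_le _ hE0 (fun j => by positivity)
      _ ≤ Real.sqrt (D * (H / (2 ^ k * L ^ 2))) * (Real.sqrt (ε * H) * Real.sqrt (2 ^ k)) := by
          refine mul_le_mul_of_nonneg_left ?_ (Real.sqrt_nonneg _)
          exact mul_le_mul (Real.sqrt_le_sqrt hES) (Real.sqrt_le_sqrt hGS) (Real.sqrt_nonneg _) (Real.sqrt_nonneg _)
      _ = Real.sqrt ((η / 4 * (H / L)) ^ 2) := by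
          rw [← Real.sqrt_mul (by positivity), ← Real.sqrt_mul (by positivity)]
          congr 1
          rw [hεd]
          field_simp
      _ = η / 4 * (H / L) := Real.sqrt_sq (by positivity)
  -- the bad words
  have hbadw := bad_count (r := r) (k := k) (by omega) (κ := κ) (K := K) (L := L) (δ := κ) hκ.le hL0.le (h2 k hkk2) (h3 k hkk3)
  have hsmall := hk5 k hkk5 L (log_le_ky (by omega))
  have hbadp : ((P.filter (fun p : ℕ => ¬ Gd r k κ K L (wd 2 3 r k (p : ℤ)))).card : ℝ) ≤ 3 * η / 8 * (H / L) := by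
    have e1 : (P.filter (fun p : ℕ => ¬ Gd r k κ K L (wd 2 3 r k (p : ℤ)))).card =
        ∑ w ∈ (W 2 k).filter (fun w => ¬ Gd r k κ K L w),
          ((P.filter (fun p : ℕ => ¬ Gd r k κ K L (wd 2 3 r k (p : ℤ)))).filter (fun p : ℕ => wd 2 3 r k (p : ℤ) = w)).card := by
      refine Finset.card_eq_sum_card_fiberwise fun p hp => ?_
      rw [Finset.mem_coe, Finset.mem_filter] at hp
      exact Finset.mem_coe.2 (Finset.mem_filter.2 ⟨wd_mem le_rfl r k _, hp.2⟩)
    have e2 : ((P.filter (fun p : ℕ => ¬ Gd r k κ K L (wd 2 3 r k (p : ℤ)))).card : ℝ) ≤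
        cW 2 k (fun w => ¬ Gd r k κ K L w) * β := by
      rw [e1]
      push_cast
      have e3 : ∀ w ∈ (W 2 k).filter (fun w => ¬ Gd r k κ K L w),
          ((((P.filter (fun p : ℕ => ¬ Gd r k κ K L (wd 2 3 r k (p : ℤ)))).filter
            (fun p : ℕ => wd 2 3 r k (p : ℤ) = w)).card : ℕ) : ℝ) ≤ β := by
        intro w _
        refine le_trans (Nat.cast_le.2 (Finset.card_le_card ?_)) (hβ w)
        intro p hp
        rw [Finset.mem_filter, Finset.mem_filter] at hp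
        exact Finset.mem_filter.2 ⟨hp.1.1, hp.2⟩
      refine (Finset.sum_le_sum e3).trans ?_
      rw [Finset.sum_const, nsmul_eq_mul]
      exact mul_le_mul_of_nonneg_right (card_le_cW fun w hw => Finset.mem_filter.1 hw) hβ0
    refine e2.trans ?_
    have e4 : cW 2 k (fun w => ¬ Gd r k κ K L w) ≤ 3 * κ * 2 ^ k := by linarith
    calc cW 2 k (fun w => ¬ Gd r k κ K L w) * β ≤ 3 * κ * 2 ^ k * β := mul_le_mul_of_nonneg_right e4 hβ0
      _ = 3 * η / 8 * (H / L) := by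
        rw [hβd, hκd]
        field_simp
  -- the primes near the end points
  have hend : ((P.filter (fun p : ℕ => ¬ (y + 3 ^ k < p ∧ p + 3 ^ k ≤ y + H))).card : ℝ) ≤ 2 * 3 ^ k := by
    have e1 : P.filter (fun p : ℕ => ¬ (y + 3 ^ k < p ∧ p + 3 ^ k ≤ y + H)) ⊆
        Finset.Ioc y (y + 3 ^ k) ∪ Finset.Ioc (y + H - 3 ^ k) (y + H) := by
      intro p hp
      rw [Finset.mem_filter, hPd, Finset.mem_filter, Finset.mem_Ioc] at hp
      obtain ⟨⟨⟨a1, a2⟩, a3⟩, a4⟩ := hp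
      rw [Finset.mem_union, Finset.mem_Ioc, Finset.mem_Ioc]
      by_cases h : y + 3 ^ k < p
      · right
        have : ¬ (p + 3 ^ k ≤ y + H) := fun h' => a4 ⟨h, h'⟩
        omega
      · left
        omega
    have e2 := (Finset.card_le_card e1).trans (Finset.card_union_le _ _)
    rw [Nat.card_Ioc, Nat.card_Ioc] at e2
    have e3 : y + 3 ^ k - y + (y + H - (y + H - 3 ^ k)) ≤ 2 * 3 ^ k := by omega
    exact_mod_cast e2.trans e3
  -- the sum
  have htot : {p : ℕ | p.Prime ∧ y < p ∧ p ≤ y + H ∧ (T 2 3 r)^[k] (p : ℤ) ∈ B} ⊆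
      (((P.filter (fun p : ℕ => ¬ (y + 3 ^ k < p ∧ p + 3 ^ k ≤ y + H))) ∪
        (P.filter (fun p : ℕ => ¬ Gd r k κ K L (wd 2 3 r k (p : ℤ)))) ∪ (Finset.range (k + 1)).biUnion Q : Finset ℕ) : Set ℕ) := by
    rintro p ⟨a1, a2, a3, a4⟩
    have hpP : p ∈ P := Finset.mem_filter.2 ⟨Finset.mem_Ioc.2 ⟨a2, a3⟩, a1⟩
    rw [Finset.mem_coe, Finset.mem_union, Finset.mem_union]
    by_cases c1 : y + 3 ^ k < p ∧ p + 3 ^ k ≤ y + H
    · by_cases c2 : Gd r k κ K L (wd 2 3 r k (p : ℤ))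
      · right
        rw [Finset.mem_biUnion]
        have hl := sg_le_length (wd 2 3 r k (p : ℤ))
        rw [length_of_mem_W (wd_mem le_rfl r k (p : ℤ))] at hl
        refine ⟨sg (wd 2 3 r k (p : ℤ)), Finset.mem_range.2 (by omega), ?_⟩
        rw [hQd]
        exact Finset.mem_filter.2 ⟨hpP, c1, c2, a4, rfl⟩
      · left; right
        exact Finset.mem_filter.2 ⟨hpP, c2⟩
    · left; left
      exact Finset.mem_filter.2 ⟨hpP, c1⟩
  have hcard := Set.ncard_le_ncard htot (Finset.finite_toSet _)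
  rw [Set.ncard_coe_finset] at hcard
  have hcard2 := hcard.trans ((Finset.card_union_le _ _).trans (Nat.add_le_add ((Finset.card_union_le _ _)) Finset.card_biUnion_le))
  have hcard3 : ({p : ℕ | p.Prime ∧ y < p ∧ p ≤ y + H ∧ (T 2 3 r)^[k] (p : ℤ) ∈ B}.ncard : ℝ) ≤
      (((P.filter (fun p : ℕ => ¬ (y + 3 ^ k < p ∧ p + 3 ^ k ≤ y + H))).card : ℝ) +
      ((P.filter (fun p : ℕ => ¬ Gd r k κ K L (wd 2 3 r k (p : ℤ)))).card : ℝ)) +
      ∑ j ∈ Finset.range (k + 1), ((Q j).card : ℝ) := by exact_mod_cast hcard2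
  have hHL : 0 ≤ H / L := by positivity
  nlinarith [hcard3, hend, f3, hbadp, hsum]

end Pool.Agent.Helper28.PR
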