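import Pool.Agent.Helper28.PR.G2
import Pool.Agent.Helper28.PR.T4
import Pool.Agent.Helper91.PL.VC

/-!
# PRIMES, general maps, part 3: the bad words and the classes
-/

set_option autoImplicit false

namespace Pool.Agent.Helper28.PR

open Filter Topology
open Pool.Agent.Helper68.Moeller Pool.Agent.Helper52.Tao Pool.Agent.Helper8.ND Pool.Agent.Helper91.PL

variable {d m : ℕ} {r : ℤ → ℤ}

/-- The good words. -/
def Gdg (d m : ℕ) (r : ℤ → ℤ) (k q0 : ℕ) (κ K L : ℝ) (w : List ℕ) : Prop :=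
  L ≤ rhg d m k w ∧ κ * rhg d m k w ≤ multg d m r k w ∧ multg d m r k w ≤ K * rhg d m k w ∧
    ∀ q : ℕ, q.Prime → q0 ≤ q → q ≤ k → multqg d m r k q w ≤ 2 * multg d m r k w / q

theorem bad_countg (hd : 2 ≤ d) (hdm : d < m) {k q0 : ℕ} (hk : 1 ≤ k) {κ K L δ δ₀ : ℝ} (hκ : 0 ≤ κ) (hL : 0 ≤ L)
    (hδ₀ : 0 < δ₀) (hδ₁ : δ₀ ≤ 1 / 6)
    (h2 : cW d k (fun w => K * rhg d m k w < multg d m r k w) ≤ δ * (d : ℝ) ^ k)
    (h3 : cW d k (fun w => k ≤ 3 * sg w ∧ ∃ q : ℕ, q.Prime ∧ q0 ≤ q ∧ q ≤ k ∧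
      2 * multg d m r k w / q < multqg d m r k q w) ≤ (d : ℝ) ^ k / k) :
    cW d k (fun w => ¬ Gdg d m r k q0 κ K L w) ≤
      (d : ℝ) ^ k * (1 / (δ₀ ^ 2 * k)) + (m : ℝ) ^ (⌊(1 - 1 / (d : ℝ) + δ₀) * k⌋₊ + 1) * L + (d : ℝ) ^ k / k +
        κ * (d : ℝ) ^ k + δ * (d : ℝ) ^ k := by
  have hk0 : (0 : ℝ) < k := by exact_mod_cast hk
  have hd2 : (2 : ℝ) ≤ d := by exact_mod_cast hd
  have hinv : 1 / (d : ℝ) ≤ 1 / 2 := by
    rw [div_le_div_iff₀ (by linarith) (by norm_num)]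
    linarith
  have e1 := chebyshev (d := d) hd k (R := δ₀ * k) (by positivity)
  have e2 := lightg (d := d) (m := m) hd (by omega) k hL ⌊(1 - 1 / (d : ℝ) + δ₀) * k⌋₊
  have e4 := low_multg (r := r) (d := d) (m := m) hd (by omega) k hκ
  have e1' : cW d k (fun w => δ₀ * k < |(sg w : ℝ) - (1 - 1 / (d : ℝ)) * k|) ≤ (d : ℝ) ^ k * (1 / (δ₀ ^ 2 * k)) := by
    refine e1.trans (le_of_eq ?_)
    field_simp
  refine le_trans (cW_mono (Q := fun w => ((((δ₀ * k < |(sg w : ℝ) - (1 - 1 / (d : ℝ)) * k|) ∨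
    (sg w ≤ ⌊(1 - 1 / (d : ℝ) + δ₀) * k⌋₊ ∧ rhg d m k w < L)) ∨
    (k ≤ 3 * sg w ∧ ∃ q : ℕ, q.Prime ∧ q0 ≤ q ∧ q ≤ k ∧ 2 * multg d m r k w / q < multqg d m r k q w)) ∨
    (multg d m r k w < κ * rhg d m k w)) ∨
    (K * rhg d m k w < multg d m r k w)) ?_) ?_
  · intro w hw hbad
    by_contra hcon
    push Not at hcon
    obtain ⟨⟨⟨⟨c1, c2⟩, c3⟩, c4⟩, c5⟩ := hcon
    apply hbad
    obtain ⟨c6, c7⟩ := abs_le.1 c1
    have c8 : k ≤ 3 * sg w := by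
      have h8 : (1 / 2 : ℝ) * k ≤ (1 - 1 / (d : ℝ)) * k := mul_le_mul_of_nonneg_right (by linarith) hk0.le
      have h9 : δ₀ * k ≤ 1 / 6 * k := mul_le_mul_of_nonneg_right hδ₁ hk0.le
      have : (k : ℝ) ≤ 3 * sg w := by linarith
      exact_mod_cast this
    have c9 : sg w ≤ ⌊(1 - 1 / (d : ℝ) + δ₀) * k⌋₊ := by
      apply Nat.le_floor
      linarith
    exact ⟨c2 c9, c4, c5, fun q hq h5 hqk => c3 c8 q hq h5 hqk⟩
  · refine (cW_or_le _ _ _ _).trans (add_le_add ((cW_or_le _ _ _ _).trans (add_le_add ((cW_or_le _ _ _ _).trans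
      (add_le_add ((cW_or_le _ _ _ _).trans (add_le_add e1' e2)) h3)) e4)) h2)

theorem tot_pow (hd : 2 ≤ d) {k : ℕ} (hk : 1 ≤ k) : (d : ℝ) ^ k ≤ d * (Nat.totient (d ^ k) : ℝ) := by
  have h1 := Nat.totient_mul_prod_primeFactors (d ^ k)
  have h2 := Nat.totient_mul_prod_primeFactors d
  rw [Nat.primeFactors_pow d (by omega)] at h1
  have hpos : 0 < ∏ p ∈ d.primeFactors, p := Finset.prod_pos fun p hp => (Nat.prime_of_mem_primeFactors hp).pos
  have h3 : d ^ k * (Nat.totient d * ∏ p ∈ d.primeFactors, p) = d * (Nat.totient (d ^ k) * ∏ p ∈ d.primeFactors, p) := by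
    rw [h1, h2]
    ring
  have h4 : d ^ k * Nat.totient d = d * Nat.totient (d ^ k) := by
    rw [← mul_assoc, ← mul_assoc] at h3
    exact Nat.eq_of_mul_eq_mul_right hpos h3
  have h5 : 1 ≤ Nat.totient d := Nat.totient_pos.2 (by omega)
  have h6 : d ^ k ≤ d * Nat.totient (d ^ k) := by
    rw [← h4]
    exact Nat.le_mul_of_pos_right _ h5
  exact_mod_cast h6

theorem cop_of {y p k : ℕ} (hp : p.Prime) (hdy : d ≤ y) (hd : 2 ≤ d) (hpy : y < p) : Nat.Coprime p (d ^ k) := by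
  refine Nat.Coprime.pow_right k ?_
  rw [Nat.Prime.coprime_iff_not_dvd hp]
  intro h
  have := Nat.le_of_dvd (by omega) h
  omega

open Classical in
/-- The primes of one word. -/
theorem word_primesg : ∃ C : ℝ, 0 < C ∧ ∀ (d m : ℕ) (r : ℤ → ℤ), 2 ≤ d → Nat.Coprime m d → Admissible d m r →
    ∀ (θ : ℝ) (k y H : ℕ), 0 < θ → 1 ≤ k → 2 ≤ y → d ≤ y →
    ((d : ℝ) ^ k) ^ 2 ≤ (y : ℝ) ^ θ → (y : ℝ) ^ θ ≤ H → H ≤ y → ∀ w : List ℕ,
    ((((Finset.Ioc y (y + H)).filter Nat.Prime).filter (fun p : ℕ => wd d m r k (p : ℤ) = w)).card : ℝ) ≤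
      C * d / θ * (H / ((d : ℝ) ^ k * Real.log y)) := by
  obtain ⟨C, hC, h⟩ := Pool.Agent.Helper5.RS.bt_ap
  refine ⟨2 * C, by positivity, fun d m r hd hco hadm θ k y H hθ hk hy hdy h4 hH hHy w => ?_⟩
  have hy0 : (0 : ℝ) < y := by exact_mod_cast (by omega : 0 < y)
  have hy1 : (1 : ℝ) < y := by exact_mod_cast (by omega : 1 < y)
  have hd2 : (2 : ℝ) ≤ d := by exact_mod_cast hd
  have hly : 0 < Real.log y := Real.log_pos hy1
  have hdk : (0 : ℝ) < (d : ℝ) ^ k := by positivity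
  by_cases hne : ∃ p ∈ (Finset.Ioc y (y + H)).filter Nat.Prime, wd d m r k (p : ℤ) = w
  · obtain ⟨p0, hp0, hw⟩ := hne
    rw [Finset.mem_filter, Finset.mem_Ioc] at hp0
    have hcop : Nat.Coprime p0 (d ^ k) := cop_of hp0.2 hdy hd hp0.1.1
    have hkk : (2 : ℝ) ≤ (d : ℝ) ^ k := by
      have h1 : (d : ℝ) ^ 1 ≤ (d : ℝ) ^ k := pow_le_pow_right₀ (by linarith) hk
      rw [pow_one] at h1
      linarith
    have hHk : 2 * d ^ k ≤ H := by
      have : (2 : ℝ) * (d : ℝ) ^ k ≤ H := by nlinarith [h4.trans hH]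
      exact_mod_cast this
    have hdk1 : 1 ≤ d ^ k := Nat.one_le_pow _ _ (by omega)
    have h5 := h (d ^ k) p0 y H hdk1 hcop hHk
    have h6 : ((((Finset.Ioc y (y + H)).filter Nat.Prime).filter (fun p : ℕ => wd d m r k (p : ℤ) = w)).card : ℝ) ≤
        (((Finset.Ioc y (y + H)).filter (fun p => p.Prime ∧ p ≡ p0 [MOD d ^ k])).card : ℝ) := by
      refine Nat.cast_le.2 (Finset.card_le_card fun p hp => ?_)
      rw [Finset.mem_filter, Finset.mem_filter] at hp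
      rw [Finset.mem_filter]
      refine ⟨hp.1.1, hp.1.2, ?_⟩
      have h7 := vc_dvd (d := d) (m := m) hd hco hadm (i := k) (b := (p0 : ℤ)) (b' := (p : ℤ)) (by rw [hw, hp.2])
      refine (Nat.modEq_iff_dvd.2 ?_)
      exact_mod_cast h7
    refine h6.trans (h5.trans ?_)
    have h7 : (d : ℝ) ^ k / d ≤ (Nat.totient (d ^ k) : ℝ) := by
      rw [div_le_iff₀ (by linarith), mul_comm]
      exact tot_pow hd hk
    have h8 : θ / 2 * Real.log y ≤ Real.log ((H : ℝ) / ((d ^ k : ℕ) : ℝ)) := by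
      rw [← Real.log_rpow hy0]
      refine Real.log_le_log (Real.rpow_pos_of_pos hy0 _) ?_
      rw [le_div_iff₀ (by positivity)]
      have e : (y : ℝ) ^ θ = (y : ℝ) ^ (θ / 2) * (y : ℝ) ^ (θ / 2) := by
        rw [← Real.rpow_add hy0]
        congr 1
        ring
      have h9 : (d : ℝ) ^ k ≤ (y : ℝ) ^ (θ / 2) := by
        rw [e, sq] at h4
        exact nonneg_le_nonneg_of_sq_le_sq (Real.rpow_nonneg hy0.le _) h4
      push_cast
      calc (y : ℝ) ^ (θ / 2) * (d : ℝ) ^ k ≤ (y : ℝ) ^ (θ / 2) * (y : ℝ) ^ (θ / 2) :=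
          mul_le_mul_of_nonneg_left h9 (Real.rpow_nonneg hy0.le _)
        _ = (y : ℝ) ^ θ := e.symm
        _ ≤ H := hH
    have h10 : (d : ℝ) ^ k / d * (θ / 2 * Real.log y) ≤ (Nat.totient (d ^ k) : ℝ) * Real.log ((H : ℝ) / ((d ^ k : ℕ) : ℝ)) :=
      mul_le_mul h7 h8 (by positivity) (by positivity)
    calc C * ((H : ℝ) / ((Nat.totient (d ^ k) : ℝ) * Real.log ((H : ℝ) / ((d ^ k : ℕ) : ℝ))))
        ≤ C * ((H : ℝ) / ((d : ℝ) ^ k / d * (θ / 2 * Real.log y))) := by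
          refine mul_le_mul_of_nonneg_left ?_ hC.le
          exact div_le_div_of_nonneg_left (by positivity) (by positivity) h10
      _ = 2 * C * d / θ * (H / ((d : ℝ) ^ k * Real.log y)) := by field_simp
  · push Not at hne
    have : ((Finset.Ioc y (y + H)).filter Nat.Prime).filter (fun p : ℕ => wd d m r k (p : ℤ) = w) = ∅ := by
      rw [Finset.filter_eq_empty_iff]
      exact fun p hp => hne p hp
    rw [this, Finset.card_empty]
    push_cast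
    positivity

open Classical in
/-- The pairs of primes of one pair of words. -/
theorem word_pairsg {C : ℝ} {H0 : ℕ} (hC : 0 < C) (h1 : ∀ q b u H : ℕ, ∀ h : ℤ, H0 ≤ H → 1 ≤ q → q ^ 2 ≤ H → H ≤ u →
    Nat.Coprime b q → h ≠ 0 → 2 * |h| ≤ H →
    ({p : ℕ | p.Prime ∧ u < p ∧ p ≤ u + H ∧ p ≡ b [MOD q] ∧
      ∃ p' : ℕ, p'.Prime ∧ (p' : ℤ) = p + h}.ncard : ℝ) ≤
        C * (q / Nat.totient q) ^ 2 * sing h ^ 2 * (H / (q * Real.log H ^ 2)))
    (hd : 2 ≤ d) (hco : Nat.Coprime m d) (hadm : Admissible d m r) {θ : ℝ} {k y H D : ℕ} (hθ : 0 < θ) (hk : 1 ≤ k)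
    (hy : 2 ≤ y) (hdy : d ≤ y) (hD : ∀ w ∈ W d k, ∀ w' ∈ W d k, |hhg d m r w' w| ≤ (D : ℤ)) (hDH : 2 * D ≤ H)
    (h4 : ((d : ℝ) ^ k) ^ 2 ≤ (y : ℝ) ^ θ) (hH : (y : ℝ) ^ θ ≤ H) (hHy : H ≤ y) (hH0 : H0 ≤ H) {w w' : List ℕ} (hw : w ∈ W d k)
    (hw' : w' ∈ W d k) (hne : hhg d m r w' w ≠ 0) :
    ((((Finset.Ioc y (y + H)).filter Nat.Prime).filter (fun p : ℕ => wd d m r k (p : ℤ) = w ∧
      ∃ p' : ℕ, p'.Prime ∧ (p' : ℤ) = p + hhg d m r w' w)).card : ℝ) ≤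
      C * d ^ 2 / θ ^ 2 * (H / ((d : ℝ) ^ k * Real.log y ^ 2)) * sing (hhg d m r w' w) ^ 2 := by
  have hy0 : (0 : ℝ) < y := by exact_mod_cast (by omega : 0 < y)
  have hy1 : (1 : ℝ) < y := by exact_mod_cast (by omega : 1 < y)
  have hly : 0 < Real.log y := Real.log_pos hy1
  have hd2 : (2 : ℝ) ≤ d := by exact_mod_cast hd
  have hdk : (0 : ℝ) < (d : ℝ) ^ k := by positivity
  have hs : 0 ≤ sing (hhg d m r w' w) ^ 2 := sq_nonneg _
  by_cases hne2 : ∃ p ∈ (Finset.Ioc y (y + H)).filter Nat.Prime, wd d m r k (p : ℤ) = w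
  · obtain ⟨p0, hp0, hpw⟩ := hne2
    rw [Finset.mem_filter, Finset.mem_Ioc] at hp0
    have hcop : Nat.Coprime p0 (d ^ k) := cop_of hp0.2 hdy hd hp0.1.1
    have hq : (d ^ k) ^ 2 ≤ H := by
      have : ((d : ℝ) ^ k) ^ 2 ≤ H := h4.trans hH
      exact_mod_cast this
    have hh2 : 2 * |hhg d m r w' w| ≤ H := by
      have a1 := hD _ hw _ hw'
      have a4 : (2 : ℤ) * D ≤ H := by exact_mod_cast hDH
      linarith
    have hdk1 : 1 ≤ d ^ k := Nat.one_le_pow _ _ (by omega)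
    have h5 := h1 (d ^ k) p0 y H (hhg d m r w' w) hH0 hdk1 hq hHy hcop hne hh2
    have hfin : {p : ℕ | p.Prime ∧ y < p ∧ p ≤ y + H ∧ p ≡ p0 [MOD d ^ k] ∧
      ∃ p' : ℕ, p'.Prime ∧ (p' : ℤ) = p + hhg d m r w' w}.Finite :=
      (Set.finite_Icc 0 (y + H)).subset fun p hp => ⟨Nat.zero_le _, hp.2.2.1⟩
    have h6 : ((((Finset.Ioc y (y + H)).filter Nat.Prime).filter (fun p : ℕ => wd d m r k (p : ℤ) = w ∧
        ∃ p' : ℕ, p'.Prime ∧ (p' : ℤ) = p + hhg d m r w' w)).card : ℝ) ≤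
        ({p : ℕ | p.Prime ∧ y < p ∧ p ≤ y + H ∧ p ≡ p0 [MOD d ^ k] ∧
          ∃ p' : ℕ, p'.Prime ∧ (p' : ℤ) = p + hhg d m r w' w}.ncard : ℝ) := by
      rw [← Set.ncard_coe_finset]
      refine Nat.cast_le.2 (Set.ncard_le_ncard ?_ hfin)
      intro p hp
      rw [Finset.mem_coe, Finset.mem_filter, Finset.mem_filter, Finset.mem_Ioc] at hp
      refine ⟨hp.1.2, hp.1.1.1, hp.1.1.2, ?_, hp.2.2⟩
      have h7 := vc_dvd (d := d) (m := m) hd hco hadm (i := k) (b := (p0 : ℤ)) (b' := (p : ℤ)) (by rw [hpw, hp.2.1])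
      refine (Nat.modEq_iff_dvd.2 ?_)
      exact_mod_cast h7
    have h7 : θ * Real.log y ≤ Real.log H := by
      rw [← Real.log_rpow hy0]
      exact Real.log_le_log (Real.rpow_pos_of_pos hy0 _) hH
    have h8 : (θ * Real.log y) ^ 2 ≤ Real.log H ^ 2 := pow_le_pow_left₀ (by positivity) h7 2
    have h10 : (((d ^ k : ℕ) : ℝ) / (Nat.totient (d ^ k) : ℝ)) ^ 2 ≤ (d : ℝ) ^ 2 := by
      refine pow_le_pow_left₀ (by positivity) ?_ 2
      have ht : (0 : ℝ) < Nat.totient (d ^ k) := by exact_mod_cast Nat.totient_pos.2 (by omega)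
      rw [div_le_iff₀ ht]
      push_cast
      exact tot_pow hd hk
    refine h6.trans (h5.trans ?_)
    have h9 : (H : ℝ) / (((d ^ k : ℕ) : ℝ) * Real.log H ^ 2) ≤ H / ((d : ℝ) ^ k * (θ * Real.log y) ^ 2) := by
      push_cast
      exact div_le_div_of_nonneg_left (by positivity) (by positivity) (mul_le_mul_of_nonneg_left h8 hdk.le)
    have h11 : (0 : ℝ) ≤ H / (((d ^ k : ℕ) : ℝ) * Real.log H ^ 2) := by positivity
    calc C * (((d ^ k : ℕ) : ℝ) / (Nat.totient (d ^ k) : ℝ)) ^ 2 * sing (hhg d m r w' w) ^ 2 *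
          ((H : ℝ) / (((d ^ k : ℕ) : ℝ) * Real.log H ^ 2))
        ≤ C * (d : ℝ) ^ 2 * sing (hhg d m r w' w) ^ 2 * ((H : ℝ) / (((d ^ k : ℕ) : ℝ) * Real.log H ^ 2)) := by
          refine mul_le_mul_of_nonneg_right (mul_le_mul_of_nonneg_right (mul_le_mul_of_nonneg_left h10 hC.le) hs) h11
      _ ≤ C * (d : ℝ) ^ 2 * sing (hhg d m r w' w) ^ 2 * (H / ((d : ℝ) ^ k * (θ * Real.log y) ^ 2)) :=
          mul_le_mul_of_nonneg_left h9 (by positivity)
      _ = C * d ^ 2 / θ ^ 2 * (H / ((d : ℝ) ^ k * Real.log y ^ 2)) * sing (hhg d m r w' w) ^ 2 := by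
          field_simp
  · push Not at hne2
    have : ((Finset.Ioc y (y + H)).filter Nat.Prime).filter (fun p : ℕ => wd d m r k (p : ℤ) = w ∧
        ∃ p' : ℕ, p'.Prime ∧ (p' : ℤ) = p + hhg d m r w' w) = ∅ := by
      rw [Finset.filter_eq_empty_iff]
      exact fun p hp h => hne2 p hp h.1
    rw [this, Finset.card_empty]
    push_cast
    positivity

theorem kyg_tendsto {K : ℕ} (hK : 0 < K) : Tendsto (fun y : ℕ => kyg K (y : ℝ)) atTop atTop := by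
  unfold kyg
  exact tendsto_nat_ceil_atTop.comp (loglog_tendsto.const_mul_atTop (by exact_mod_cast hK))

theorem kyg_small {K : ℕ} (hK : 0 < K) {θ : ℝ} (hθ : 0 < θ) (A : ℝ) (hA : 0 ≤ A) {M : ℕ} (hM : 1 ≤ M) :
    ∀ᶠ y : ℕ in atTop, A * (M : ℝ) ^ kyg K (y : ℝ) * Real.log y ≤ (y : ℝ) ^ θ := by
  have hM0 : (0 : ℝ) < M := by exact_mod_cast hM
  have hM1 : (1 : ℝ) ≤ M := by exact_mod_cast hM
  have hK0 : (0 : ℝ) < K := by exact_mod_cast hK
  have h1 := isLittleO_log_rpow_rpow_atTop (K * Real.log M + 1) hθ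
  have h2 := (h1.bound (show (0 : ℝ) < 1 / (M * A + 1) by positivity))
  have h3 := (tendsto_natCast_atTop_atTop (R := ℝ)).eventually h2
  filter_upwards [h3, loglog_tendsto.eventually_ge_atTop 0, (tendsto_natCast_atTop_atTop (R := ℝ)).eventually_ge_atTop 3] with y hy hll hy3
  have hly : 0 < Real.log y := Real.log_pos (by linarith)
  rw [Real.norm_of_nonneg (Real.rpow_nonneg hly.le _), Real.norm_of_nonneg (Real.rpow_nonneg (by linarith) _)] at hy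
  have hk : (kyg K (y : ℝ) : ℝ) ≤ K * Real.log (Real.log y) + 1 := (Nat.ceil_lt_add_one (by positivity)).le
  have h4 : (M : ℝ) ^ kyg K (y : ℝ) ≤ M * Real.log y ^ (K * Real.log M) := by
    rw [← Real.rpow_natCast]
    calc (M : ℝ) ^ ((kyg K (y : ℝ) : ℕ) : ℝ) ≤ (M : ℝ) ^ (K * Real.log (Real.log y) + 1) :=
        Real.rpow_le_rpow_of_exponent_le hM1 hk
      _ = M * Real.log y ^ (K * Real.log M) := by
        rw [Real.rpow_add hM0, Real.rpow_one, Real.rpow_def_of_pos hM0, Real.rpow_def_of_pos hly]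
        rw [mul_comm]
        congr 2
        ring
  have h5 : Real.log y ^ (K * Real.log M + 1) = Real.log y ^ (K * Real.log M) * Real.log y := by
    rw [Real.rpow_add hly, Real.rpow_one]
  rw [h5] at hy
  have h6 : 0 ≤ Real.log y ^ (K * Real.log M) * Real.log y := by positivity
  calc A * (M : ℝ) ^ kyg K (y : ℝ) * Real.log y ≤ A * (M * Real.log y ^ (K * Real.log M)) * Real.log y :=
      mul_le_mul_of_nonneg_right (mul_le_mul_of_nonneg_left h4 hA) hly.le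
    _ = M * A * (Real.log y ^ (K * Real.log M) * Real.log y) := by ring
    _ ≤ (M * A + 1) * (1 / (M * A + 1) * (y : ℝ) ^ θ) := by
      refine mul_le_mul (by linarith) hy h6 (by positivity)
    _ = (y : ℝ) ^ θ := by field_simp

theorem log_le_kyg {K : ℕ} (hK : 0 < K) {y : ℕ} (hy : 2 ≤ y) : Real.log y ≤ Real.exp ((kyg K (y : ℝ) : ℝ) / K) := by
  have hly : 0 < Real.log y := Real.log_pos (by exact_mod_cast (by omega : 1 < y))
  have hK0 : (0 : ℝ) < K := by exact_mod_cast hK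
  rw [← Real.log_le_iff_le_exp hly]
  have : K * Real.log (Real.log y) ≤ (kyg K (y : ℝ) : ℝ) := Nat.le_ceil _
  rw [le_div_iff₀ hK0]
  linarith

/-- The choice of the constants. -/
theorem small_kg (hd : 2 ≤ d) (hdm : d < m) (hg : 0 < gam d m) : ∃ (δ₀ : ℝ) (K : ℕ), 0 < δ₀ ∧ δ₀ ≤ 1 / 6 ∧ 0 < K ∧
    ∀ η : ℝ, 0 < η → ∃ k0 : ℕ, ∀ k : ℕ, k0 ≤ k → ∀ L : ℝ, 0 ≤ L → L ≤ Real.exp ((k : ℝ) / K) →
    (d : ℝ) ^ k * (1 / (δ₀ ^ 2 * k)) + (m : ℝ) ^ (⌊(1 - 1 / (d : ℝ) + δ₀) * k⌋₊ + 1) * L + (d : ℝ) ^ k / k ≤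
      η * (d : ℝ) ^ k := by
  have hd2 : (2 : ℝ) ≤ d := by exact_mod_cast hd
  have hm2 : (2 : ℝ) < m := by
    have : (d : ℝ) < m := by exact_mod_cast hdm
    linarith
  have hlm : 0 < Real.log m := Real.log_pos (by linarith)
  obtain ⟨δ₀, hδ₀⟩ : ∃ δ₀ : ℝ, δ₀ = min (1 / 6) (gam d m / (4 * Real.log m)) := ⟨_, rfl⟩
  obtain ⟨K, hK⟩ := exists_nat_gt (4 / gam d m)
  have hδ0 : 0 < δ₀ := by rw [hδ₀]; positivity
  have hδ1 : δ₀ ≤ 1 / 6 := by rw [hδ₀]; exact min_le_left _ _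
  have hδ2 : δ₀ * Real.log m ≤ gam d m / 4 := by
    have : δ₀ ≤ gam d m / (4 * Real.log m) := by rw [hδ₀]; exact min_le_right _ _
    calc δ₀ * Real.log m ≤ gam d m / (4 * Real.log m) * Real.log m := mul_le_mul_of_nonneg_right this hlm.le
      _ = gam d m / 4 := by field_simp
  have hK0 : (0 : ℝ) < K := lt_trans (by positivity) hK
  have hK1 : 1 / (K : ℝ) ≤ gam d m / 4 := by
    rw [div_le_iff₀ hK0]
    rw [div_lt_iff₀ hg] at hK
    linarith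
  refine ⟨δ₀, K, hδ0, hδ1, by exact_mod_cast hK0, fun η hη => ?_⟩
  have t1 : Tendsto (fun k : ℕ => (m : ℝ) * Real.exp (-(gam d m / 2)) ^ k) atTop (𝓝 0) := by
    have := (tendsto_pow_atTop_nhds_zero_of_lt_one (Real.exp_pos (-(gam d m / 2))).le
      (by rw [Real.exp_lt_one_iff]; linarith)).const_mul (m : ℝ)
    rw [mul_zero] at this
    exact this
  have t2 : Tendsto (fun k : ℕ => (1 / δ₀ ^ 2 + 1) / (k : ℝ)) atTop (𝓝 0) := tendsto_const_div_atTop_nhds_zero_nat _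
  have t3 := t1.add t2
  rw [add_zero] at t3
  obtain ⟨k0, hk0⟩ := eventually_atTop.1 ((t3.eventually (gt_mem_nhds hη)).and (eventually_ge_atTop 1))
  refine ⟨k0, fun k hk L hL0 hL => ?_⟩
  obtain ⟨h1, hk1⟩ := hk0 k hk
  have hkR : (0 : ℝ) < k := by exact_mod_cast hk1
  have hdk : (0 : ℝ) < (d : ℝ) ^ k := by positivity
  have hinv : 1 / (d : ℝ) ≤ 1 / 2 := by
    rw [div_le_div_iff₀ (by linarith) (by norm_num)]
    linarith
  have hfl : (⌊(1 - 1 / (d : ℝ) + δ₀) * k⌋₊ : ℝ) ≤ (1 - 1 / (d : ℝ) + δ₀) * k :=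
    Nat.floor_le (mul_nonneg (by linarith) hkR.le)
  have h2 : (m : ℝ) ^ (⌊(1 - 1 / (d : ℝ) + δ₀) * k⌋₊ + 1) * L ≤ (m : ℝ) * Real.exp (-(gam d m / 2)) ^ k * (d : ℝ) ^ k := by
    have e1 : (m : ℝ) ^ (⌊(1 - 1 / (d : ℝ) + δ₀) * k⌋₊ + 1) = m * Real.exp (⌊(1 - 1 / (d : ℝ) + δ₀) * k⌋₊ * Real.log m) := by
      rw [pow_succ, mul_comm, Real.exp_nat_mul, Real.exp_log (by linarith)]
    have e2 : (d : ℝ) ^ k = Real.exp (k * Real.log d) := by
      rw [Real.exp_nat_mul, Real.exp_log (by linarith)]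
    have e3 : Real.exp (-(gam d m / 2)) ^ k = Real.exp (k * (-(gam d m / 2))) := by rw [Real.exp_nat_mul]
    rw [e1, e2, e3]
    calc m * Real.exp (⌊(1 - 1 / (d : ℝ) + δ₀) * k⌋₊ * Real.log m) * L
        ≤ m * Real.exp ((1 - 1 / (d : ℝ) + δ₀) * k * Real.log m) * Real.exp ((k : ℝ) / K) := by
          refine mul_le_mul (mul_le_mul_of_nonneg_left (Real.exp_le_exp.2 (mul_le_mul_of_nonneg_right hfl hlm.le)) (by linarith))
            hL hL0 (by positivity)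
      _ = m * Real.exp ((1 - 1 / (d : ℝ) + δ₀) * k * Real.log m + (k : ℝ) / K) := by rw [Real.exp_add]; ring
      _ ≤ m * Real.exp (k * (-(gam d m / 2)) + k * Real.log d) := by
          refine mul_le_mul_of_nonneg_left (Real.exp_le_exp.2 ?_) (by linarith)
          have e4 : (1 - 1 / (d : ℝ) + δ₀) * k * Real.log m + (k : ℝ) / K =
            k * ((1 - 1 / (d : ℝ)) * Real.log m + δ₀ * Real.log m + 1 / K) := by ring
          have e5 : k * (-(gam d m / 2)) + k * Real.log d = k * (Real.log d - gam d m / 2) := by ring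
          rw [e4, e5]
          refine mul_le_mul_of_nonneg_left ?_ hkR.le
          have e6 : gam d m = Real.log d - (1 - 1 / (d : ℝ)) * Real.log m := rfl
          linarith
      _ = m * Real.exp (k * (-(gam d m / 2))) * Real.exp (k * Real.log d) := by rw [Real.exp_add]; ring
  have h3 : (d : ℝ) ^ k * (1 / (δ₀ ^ 2 * k)) + (d : ℝ) ^ k / k = (1 / δ₀ ^ 2 + 1) / (k : ℝ) * (d : ℝ) ^ k := by
    field_simp
  nlinarith [mul_lt_mul_of_pos_right h1 hdk]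

end Pool.Agent.Helper28.PR
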