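import Pool.Agent.Helper28.PR.MultA
import Pool.Agent.Helper28.PR.DefsG

/-!
# PRIMES (MP_fd8838_nt), block S2 for general maps: most words have a bounded multiplicity
-/

set_option autoImplicit false

namespace Pool.Agent.Helper28.PR

open Pool.Agent.Helper68.Moeller Pool.Agent.Helper52.Tao Pool.Agent.Helper8.ND
  Pool.Agent.Helper8.CL Pool.Agent.Helper91.PL Filter Topology

/-- The number of the words with `j` non-zero digits. -/
theorem s2g_card {d : ℕ} (hd : 2 ≤ d) (k j : ℕ) :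
    cW d k (fun w => sg w = j) = (k.choose j : ℝ) * ((d : ℝ) - 1) ^ j := by
  classical
  obtain ⟨c, rfl⟩ : ∃ c, d = c + 2 := ⟨d - 2, by omega⟩
  have h := card_sg_eq c k j
  have h1 : ((1 + Polynomial.X) + Polynomial.C c * Polynomial.X : Polynomial ℕ) =
      ((1 + Polynomial.X) : Polynomial ℕ).comp (Polynomial.C (c + 1) * Polynomial.X) := by
    simp only [Polynomial.add_comp, Polynomial.one_comp, Polynomial.X_comp, Polynomial.C_add, Polynomial.C_1]
    ring
  rw [h1, ← Polynomial.pow_comp, Polynomial.comp_C_mul_X_coeff, Polynomial.coeff_one_add_X_pow] at h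
  have h2 : cW (c + 2) k (fun w => sg w = j) = ((((W (c + 2) k).filter (fun w => sg w = j)).card : ℕ) : ℝ) := by
    unfold cW
    congr!
  rw [h2, h]
  push_cast
  ring

/-- Removing `t` digits divides a binomial probability near the mean by almost `d ^ t`. -/
theorem s2g_ratio {d : ℕ} (hd : 2 ≤ d) (k0 : ℕ) (ε : ℝ) (hε : 0 ≤ ε) (t : ℕ) : ∀ (s j : ℕ) (D : ℝ), s ≤ t → s ≤ j →
    |(d : ℝ) * (j : ℝ) - ((d : ℝ) - 1) * ((k0 : ℝ) + t)| ≤ D → D + ((d : ℝ) - 1) * t ≤ ε * (k0 + 1) →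
      (k0.choose (j - s) : ℝ) * ((d : ℝ) - 1) ^ (j - s) ≤
        ((1 + ε) / d) ^ t * (((k0 + t).choose j : ℝ) * ((d : ℝ) - 1) ^ j) := by
  have hd2 : (2 : ℝ) ≤ d := by exact_mod_cast hd
  have hd0 : (0 : ℝ) < d := by linarith
  obtain ⟨q, hq⟩ : ∃ q : ℝ, q = (d : ℝ) - 1 := ⟨_, rfl⟩
  have hq1 : 1 ≤ q := by linarith
  have hdq : (d : ℝ) = q + 1 := by linarith
  rw [← hq]
  induction t with
  | zero =>
    intro s j D hs _ _ _
    obtain rfl : s = 0 := by omega
    simp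
  | succ t ih =>
    intro s j D hs hsj hD hDt
    rw [abs_le] at hD
    push_cast at hD hDt
    have hk0 : (0 : ℝ) ≤ k0 := by positivity
    have ht0 : (0 : ℝ) ≤ t := by positivity
    have hD0 : 0 ≤ D := by linarith [hD.1, hD.2]
    have hqt : 0 ≤ q * t := by positivity
    -- the factor of one step
    have hfac : D ≤ ε * ((k0 : ℝ) + t + 1) := by
      have : ε * (k0 + 1) ≤ ε * (k0 + t + 1) := mul_le_mul_of_nonneg_left (by linarith) hε
      linarith
    rcases Nat.eq_zero_or_pos s with rfl | hs0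
    · -- remove a zero
      have h1 := ih 0 j (D + q) (Nat.zero_le _) (Nat.zero_le _) (by
        rw [abs_le]
        constructor
        · linarith [hD.1]
        · linarith [hD.2])
        (by linarith)
      refine h1.trans ?_
      rw [pow_succ, mul_assoc]
      refine mul_le_mul_of_nonneg_left ?_ (by positivity)
      rw [show k0 + (t + 1) = (k0 + t) + 1 by ring]
      rcases Nat.lt_or_ge (k0 + t + 1) j with hj | hj
      · rw [Nat.choose_eq_zero_of_lt (show k0 + t < j by omega)]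
        rw [Nat.cast_zero, zero_mul]
        positivity
      · have h2 := Nat.choose_mul_succ_eq (k0 + t) j
        have h3 : ((k0 + t).choose j : ℝ) * ((k0 : ℝ) + t + 1) =
            ((k0 + t + 1).choose j : ℝ) * ((k0 : ℝ) + t + 1 - j) := by
          have h4 : (((k0 + t).choose j * (k0 + t + 1) : ℕ) : ℝ) =
              (((k0 + t + 1).choose j * (k0 + t + 1 - j) : ℕ) : ℝ) := by exact_mod_cast h2
          rw [Nat.cast_mul, Nat.cast_mul, Nat.cast_sub hj] at h4
          push_cast at h4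
          exact h4
        have hC0 : (0 : ℝ) ≤ ((k0 + t + 1).choose j : ℝ) := by positivity
        have hp : (0 : ℝ) < (k0 : ℝ) + t + 1 := by positivity
        have h6 : ((k0 + t).choose j : ℝ) ≤ (1 + ε) / d * ((k0 + t + 1).choose j : ℝ) := by
          refine le_of_mul_le_mul_right ?_ hp
          rw [h3]
          have h5 : (k0 : ℝ) + t + 1 - j ≤ (1 + ε) / d * ((k0 : ℝ) + t + 1) := by
            rw [div_mul_eq_mul_div, le_div_iff₀ hd0]
            nlinarith [hD.1]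
          calc ((k0 + t + 1).choose j : ℝ) * ((k0 : ℝ) + t + 1 - j)
              ≤ ((k0 + t + 1).choose j : ℝ) * ((1 + ε) / d * ((k0 : ℝ) + t + 1)) :=
                mul_le_mul_of_nonneg_left h5 hC0
            _ = (1 + ε) / d * ((k0 + t + 1).choose j : ℝ) * ((k0 : ℝ) + t + 1) := by ring
        calc ((k0 + t).choose j : ℝ) * q ^ j ≤ (1 + ε) / d * ((k0 + t + 1).choose j : ℝ) * q ^ j :=
              mul_le_mul_of_nonneg_right h6 (by positivity)
          _ = (1 + ε) / d * (((k0 + t + 1).choose j : ℝ) * q ^ j) := by ring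
    · -- remove a one
      obtain ⟨s', rfl⟩ : ∃ s', s = s' + 1 := ⟨s - 1, by omega⟩
      obtain ⟨j', rfl⟩ : ∃ j', j = j' + 1 := ⟨j - 1, by omega⟩
      push_cast at hD
      have h1 := ih s' j' (D + q) (by omega) (by omega) (by
        rw [abs_le]
        constructor
        · linarith [hD.1]
        · linarith [hD.2])
        (by linarith)
      rw [show j' + 1 - (s' + 1) = j' - s' by omega]
      refine h1.trans ?_
      rw [pow_succ, mul_assoc]
      refine mul_le_mul_of_nonneg_left ?_ (by positivity)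
      rw [show k0 + (t + 1) = (k0 + t) + 1 by ring]
      have h2 := Nat.add_one_mul_choose_eq (k0 + t) j'
      have h3 : ((k0 : ℝ) + t + 1) * ((k0 + t).choose j' : ℝ) =
          ((k0 + t + 1).choose (j' + 1) : ℝ) * ((j' : ℝ) + 1) := by exact_mod_cast h2
      have hC0 : (0 : ℝ) ≤ ((k0 + t + 1).choose (j' + 1) : ℝ) := by positivity
      have hp : (0 : ℝ) < (k0 : ℝ) + t + 1 := by positivity
      have h6 : ((k0 + t).choose j' : ℝ) ≤ (1 + ε) / d * q * ((k0 + t + 1).choose (j' + 1) : ℝ) := by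
        refine le_of_mul_le_mul_left ?_ hp
        rw [h3]
        have h5 : (j' : ℝ) + 1 ≤ (1 + ε) / d * q * ((k0 : ℝ) + t + 1) := by
          have e1 : (1 + ε) / d * q * ((k0 : ℝ) + t + 1) = ((1 + ε) * q * ((k0 : ℝ) + t + 1)) / d := by ring
          rw [e1, le_div_iff₀ hd0]
          have h7 : D ≤ q * (ε * ((k0 : ℝ) + t + 1)) := by
            have h8 : 0 ≤ ε * ((k0 : ℝ) + t + 1) := by positivity
            nlinarith
          nlinarith [hD.2]
        calc ((k0 + t + 1).choose (j' + 1) : ℝ) * ((j' : ℝ) + 1)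
            ≤ ((k0 + t + 1).choose (j' + 1) : ℝ) * ((1 + ε) / d * q * ((k0 : ℝ) + t + 1)) :=
              mul_le_mul_of_nonneg_left h5 hC0
          _ = ((k0 : ℝ) + t + 1) * ((1 + ε) / d * q * ((k0 + t + 1).choose (j' + 1) : ℝ)) := by ring
      calc ((k0 + t).choose j' : ℝ) * q ^ j' ≤
            (1 + ε) / d * q * ((k0 + t + 1).choose (j' + 1) : ℝ) * q ^ j' :=
            mul_le_mul_of_nonneg_right h6 (by positivity)
        _ = (1 + ε) / d * (((k0 + t + 1).choose (j' + 1) : ℝ) * q ^ (j' + 1)) := by rw [pow_succ]; ring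

variable {d m : ℕ} {r : ℤ → ℤ}

/-- Related words in terms of `F`. -/
theorem s2g_rel {k : ℕ} {e : ℤ} (he : (m : ℤ) ^ k ∣ (d : ℤ) * e - 1) {w w' : List ℕ} (hw : w ∈ W d k)
    (hw' : w' ∈ W d k) {j : ℕ} (hj : j ≤ k) :
    (m : ℤ) ^ j ∣ Off d m r w' - Off d m r w ↔ (m : ℤ) ^ j ∣ F m r e w' - F m r e w := by
  have he' : (m : ℤ) ^ j ∣ (d : ℤ) * e - 1 := (pow_dvd_pow _ hj).trans he
  have h1 := F_modEq (d := d) (m := m) (r := r) he' w
  have h2 := F_modEq (d := d) (m := m) (r := r) he' w'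
  rw [length_of_mem_W hw] at h1
  rw [length_of_mem_W hw'] at h2
  have h3 : (m : ℤ) ^ j ∣ (d : ℤ) ^ k * e ^ k - 1 := by
    rw [← mul_pow]
    have h4 : (d : ℤ) * e - 1 ∣ ((d : ℤ) * e) ^ k - 1 := by simpa using sub_dvd_pow_sub_pow ((d : ℤ) * e) 1 k
    exact he'.trans h4
  constructor
  · intro h
    have h5 : F m r e w' - F m r e w = (F m r e w' + e ^ k * Off d m r w') - (F m r e w + e ^ k * Off d m r w) -
        e ^ k * (Off d m r w' - Off d m r w) := by ring
    rw [h5]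
    exact _root_.dvd_sub (_root_.dvd_sub h2 h1) (h.mul_left _)
  · intro h
    have h5 : Off d m r w' - Off d m r w = (d : ℤ) ^ k * (((F m r e w' + e ^ k * Off d m r w') -
        (F m r e w + e ^ k * Off d m r w)) - (F m r e w' - F m r e w)) -
        ((d : ℤ) ^ k * e ^ k - 1) * (Off d m r w' - Off d m r w) := by ring
    rw [h5]
    exact _root_.dvd_sub ((_root_.dvd_sub (_root_.dvd_sub h2 h1) h).mul_left _) (h3.mul_right _)

/-- The multiplicity as a count of the words with a given residue. -/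
theorem s2g_mult {k : ℕ} {e : ℤ} (he : (m : ℤ) ^ k ∣ (d : ℤ) * e - 1) {w : List ℕ} (hw : w ∈ W d k) {X : ℕ}
    (hX : (m : ℤ) ^ sg w ∣ (X : ℤ) - F m r e w) : multg d m r k w = MX2.p d m r e k (sg w) (sg w) X := by
  have hj : sg w ≤ k := by
    have := sg_le_length w
    rwa [length_of_mem_W hw] at this
  unfold multg MX2.p
  refine cW_congr fun w' hw' => ?_
  unfold Relg
  refine and_congr_right fun _ => ?_
  rw [s2g_rel he hw hw' hj]
  have h1 : (X : ℤ) - F m r e w' = ((X : ℤ) - F m r e w) - (F m r e w' - F m r e w) := by ring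
  constructor
  · intro h
    have h2 := _root_.dvd_sub hX h
    rwa [← h1] at h2
  · intro h
    have h2 := _root_.dvd_sub hX h
    have h3 : ((X : ℤ) - F m r e w) - ((X : ℤ) - F m r e w') = F m r e w' - F m r e w := by ring
    rwa [h3] at h2

/-- The words with `j` non-zero digits and a large multiplicity. -/
theorem s2g_level (hm : 0 < m) {k : ℕ} {e : ℤ} (he : (m : ℤ) ^ k ∣ (d : ℤ) * e - 1) (j : ℕ) (V : ℝ) :
    cW d k (fun w => sg w = j ∧ V < multg d m r k w) ≤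
      ∑ X ∈ Finset.range (m ^ j), if V < MX2.p d m r e k j j X then MX2.p d m r e k j j X else 0 := by
  classical
  rw [← Finset.sum_filter]
  refine le_trans ?_ (cW_exists_le d k _ (fun X w => sg w = j ∧ (m : ℤ) ^ j ∣ ((X : ℕ) : ℤ) - F m r e w))
  refine cW_mono fun w hw hw2 => ?_
  obtain ⟨hsj, hV⟩ := hw2
  have h3 : (0 : ℤ) < (m : ℤ) ^ j := by positivity
  refine ⟨(F m r e w % (m : ℤ) ^ j).toNat, ?_, hsj, ?_⟩
  · have h1 : (((F m r e w % (m : ℤ) ^ j).toNat : ℕ) : ℤ) = F m r e w % (m : ℤ) ^ j :=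
      Int.toNat_of_nonneg (Int.emod_nonneg _ h3.ne')
    have h2 : (m : ℤ) ^ sg w ∣ (((F m r e w % (m : ℤ) ^ j).toNat : ℕ) : ℤ) - F m r e w := by
      rw [h1, hsj]
      exact Int.dvd_sub_self_of_emod_eq rfl
    rw [Finset.mem_filter, Finset.mem_range]
    constructor
    · have h4 : F m r e w % (m : ℤ) ^ j < (m : ℤ) ^ j := Int.emod_lt_of_pos _ h3
      rw [← h1] at h4
      exact_mod_cast h4
    · have h5 := s2g_mult he hw h2
      rw [hsj] at h5
      rwa [h5] at hV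
  · have h1 : (((F m r e w % (m : ℤ) ^ j).toNat : ℕ) : ℤ) = F m r e w % (m : ℤ) ^ j :=
      Int.toNat_of_nonneg (Int.emod_nonneg _ h3.ne')
    rw [h1]
    exact Int.dvd_sub_self_of_emod_eq (a := F m r e w) (b := (m : ℤ) ^ j) rfl

/-- From the residues modulo `m ^ j` to the residues modulo `m ^ l`. -/
theorem s2g_osc (hm : 0 < m) {k j l : ℕ} {e : ℤ} (hlj : l ≤ j) (V : ℝ) :
    (∑ X ∈ Finset.range (m ^ j), if V < MX2.p d m r e k j j X then MX2.p d m r e k j j X else 0) ≤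
      2 * Osc d m r e k j j l +
        ∑ Y ∈ Finset.range (m ^ l),
          if V / 2 * (m : ℝ) ^ (j - l) < MX2.p d m r e k j l Y then 2 * MX2.p d m r e k j l Y else 0 := by
  have hlift := MX2.sum_p_lift (m := m) hm hlj
    (fun Y => if V / 2 * (m : ℝ) ^ (j - l) < MX2.p d m r e k j l Y then 2 * MX2.p d m r e k j l Y else 0)
    (fun X => by simp only [MX2.p_add_pow le_rfl])
  rw [← hlift, MX2.Osc_eq, Finset.mul_sum, ← Finset.sum_add_distrib]
  refine Finset.sum_le_sum fun X _ => ?_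
  have hp0 := MX2.p_nonneg (d := d) (m := m) (r := r) (e := e) (t := k) (S := j) j X
  have hg0 := MX2.p_nonneg (d := d) (m := m) (r := r) (e := e) (t := k) (S := j) l X
  obtain ⟨a, ha⟩ : ∃ a : ℝ, a = MX2.p d m r e k j j X := ⟨_, rfl⟩
  obtain ⟨g, hg⟩ : ∃ g : ℝ, g = MX2.p d m r e k j l X := ⟨_, rfl⟩
  rw [← ha] at hp0 ⊢
  rw [← hg] at hg0 ⊢
  have hm0 : (0 : ℝ) < m := by exact_mod_cast hm
  have h3 : (0 : ℝ) < (m : ℝ) ^ (j - l) := by positivity
  obtain ⟨g', hg'⟩ : ∃ g' : ℝ, g' = g / (m : ℝ) ^ (j - l) := ⟨_, rfl⟩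
  have hgg : g = g' * (m : ℝ) ^ (j - l) := by rw [hg']; field_simp
  have hg'0 : 0 ≤ g' := by rw [hg']; exact div_nonneg hg0 h3.le
  rw [← hg']
  have habs := neg_abs_le (a - g')
  have habs2 := le_abs_self (a - g')
  have habs3 := abs_nonneg (a - g')
  by_cases hV : V < a
  · rw [if_pos hV]
    by_cases hV2 : V / 2 * (m : ℝ) ^ (j - l) < g
    · rw [if_pos hV2]
      have : 2 * g / (m : ℝ) ^ (j - l) = 2 * g' := by rw [hg']; ring
      rw [this]
      linarith
    · rw [if_neg hV2, zero_div]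
      have h5 : g' ≤ V / 2 := by
        rw [hg', div_le_iff₀ h3]
        exact not_lt.1 hV2
      linarith
  · rw [if_neg hV]
    by_cases hV2 : V / 2 * (m : ℝ) ^ (j - l) < g
    · rw [if_pos hV2]
      have : 2 * g / (m : ℝ) ^ (j - l) = 2 * g' := by rw [hg']; ring
      rw [this]
      linarith
    · rw [if_neg hV2, zero_div]
      linarith

/-- The head of the word determines the residue modulo `m ^ l`. -/
theorem s2g_head (hco : Nat.Coprime m d) {k j l t : ℕ} {e : ℤ} (he : (m : ℤ) ^ k ∣ (d : ℤ) * e - 1) (hlt : l ≤ t)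
    (htk : t ≤ k) {c : ℝ}
    (hratio : ∀ s : ℕ, s ≤ t → cW d (k - t) (fun v => s + sg v = j) ≤ c / (d : ℝ) ^ t) (Y : ℕ) :
    MX2.p d m r e k j l Y ≤ c * nut d m r t l Y +
      cW d k (fun w => (sg w = j ∧ sg (w.take t) < l) ∧ Hit d m r l (Y : ℤ) w) := by
  classical
  have hkt : k = t + (k - t) := by omega
  have h1 : MX2.p d m r e k j l Y = cW d k (fun w => sg w = j ∧ Hit d m r l (Y : ℤ) w) := by
    unfold MX2.p
    refine cW_congr fun w hw => and_congr_right fun _ => ?_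
    exact dt_hit_iff he (hlt.trans htk) hw _
  have h2 : cW d k (fun w => sg w = j ∧ Hit d m r l (Y : ℤ) w) ≤
      cW d k (fun w => (sg w = j ∧ Hit d m r l (Y : ℤ) w) ∧ l ≤ sg (w.take t)) +
        cW d k (fun w => (sg w = j ∧ sg (w.take t) < l) ∧ Hit d m r l (Y : ℤ) w) := by
    refine le_trans (cW_mono fun w _ hw => ?_) (cW_or_le _ _ _ _)
    rcases Nat.lt_or_ge (sg (w.take t)) l with h | h
    · exact Or.inr ⟨⟨hw.1, h⟩, hw.2⟩
    · exact Or.inl ⟨hw, h⟩
  rw [h1]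
  refine h2.trans (add_le_add ?_ le_rfl)
  -- the main part
  have h3 : cW d k (fun w => (sg w = j ∧ Hit d m r l (Y : ℤ) w) ∧ l ≤ sg (w.take t)) =
      ∑ u ∈ W d t, cW d (k - t) (fun v => (sg (u ++ v) = j ∧ Hit d m r l (Y : ℤ) (u ++ v)) ∧
        l ≤ sg ((u ++ v).take t)) := by
    conv_lhs => rw [hkt]
    rw [cW_add]
  rw [h3]
  have h4 : ∀ u ∈ W d t, cW d (k - t) (fun v => (sg (u ++ v) = j ∧ Hit d m r l (Y : ℤ) (u ++ v)) ∧
        l ≤ sg ((u ++ v).take t)) ≤ if l ≤ sg u ∧ Hit d m r l (Y : ℤ) u then c / (d : ℝ) ^ t else 0 := by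
    intro u hu
    have htake : ∀ v : List ℕ, (u ++ v).take t = u := by
      intro v
      rw [← length_of_mem_W hu]
      exact List.take_left
    have hsu : sg u ≤ t := by
      have := sg_le_length u
      rwa [length_of_mem_W hu] at this
    split_ifs with hif
    · refine le_trans (cW_mono fun v _ hv => ?_) (hratio (sg u) hsu)
      rw [← sg_append]
      exact hv.1.1
    · have h5 : cW d (k - t) (fun v => (sg (u ++ v) = j ∧ Hit d m r l (Y : ℤ) (u ++ v)) ∧
          l ≤ sg ((u ++ v).take t)) ≤ cW d (k - t) (fun _ => False) := by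
        refine cW_mono fun v _ hv => hif ?_
        rw [htake v] at hv
        exact ⟨hv.2, nua_hit_of_append (d := d) (m := m) hco hv.2 hv.1.2⟩
      refine h5.trans (le_of_eq ?_)
      simp [cW]
  refine (Finset.sum_le_sum h4).trans (le_of_eq ?_)
  unfold nut
  rw [cW_eq_sum, ← Finset.sum_filter, ← Finset.sum_filter, Finset.sum_const, Finset.sum_const, nsmul_eq_mul, nsmul_eq_mul]
  ring

/-- Uniform integrability of the densities of the limit law. -/
theorem s2g_ui (hd : 2 ≤ d) (hdm : d < m) (hco : Nat.Coprime m d) (hmix : Mixing d m r) {δ : ℝ} (hδ : 0 < δ) :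
    ∃ (K : ℝ) (l0 : ℕ), 0 < K ∧ ∀ l : ℕ, l0 ≤ l →
    (∑ Y ∈ Finset.range (m ^ l), if K < (m : ℝ) ^ l * nu d m r l Y then nu d m r l Y else 0) ≤ δ := by
  obtain ⟨k0, h0⟩ := nu_cauchy (d := d) (m := m) (r := r) hd hdm hco hmix (ε := δ / 2) (by positivity)
  have hm0 : (0 : ℝ) < m := by exact_mod_cast (show 0 < m by omega)
  refine ⟨2 * (m : ℝ) ^ k0, k0, by positivity, fun l hl => ?_⟩
  have h1 := h0 k0 l le_rfl hl
  have h2 : (∑ Y ∈ Finset.range (m ^ l),
      if 2 * (m : ℝ) ^ k0 < (m : ℝ) ^ l * nu d m r l Y then nu d m r l Y else 0) ≤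
      ∑ Y ∈ Finset.range (m ^ l), 2 * |nu d m r l Y - nu d m r k0 Y / (m : ℝ) ^ (l - k0)| := by
    refine Finset.sum_le_sum fun Y _ => ?_
    split_ifs with hY
    · have h3 : nu d m r k0 (Y : ℤ) ≤ 1 := nu_le_one _ _
      obtain ⟨A, hA⟩ : ∃ A : ℝ, A = (m : ℝ) ^ (l - k0) := ⟨_, rfl⟩
      obtain ⟨v, hv⟩ : ∃ v : ℝ, v = nu d m r l (Y : ℤ) := ⟨_, rfl⟩
      rw [← hA, ← hv]
      rw [← hv] at hY
      have h4 : A * (m : ℝ) ^ k0 = (m : ℝ) ^ l := by
        rw [hA, ← pow_add]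
        congr 1
        omega
      have h5 : (0 : ℝ) < A := by rw [hA]; positivity
      have h6 : nu d m r k0 (Y : ℤ) / A ≤ v / 2 := by
        rw [div_le_iff₀ h5]
        rw [← h4] at hY
        have h7 : (0 : ℝ) < (m : ℝ) ^ k0 := by positivity
        have h8 : 2 < A * v := by
          refine lt_of_mul_lt_mul_right ?_ h7.le
          linarith
        linarith
      have h7 := le_abs_self (v - nu d m r k0 Y / A)
      linarith
    · positivity
  refine h2.trans ?_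
  rw [← Finset.mul_sum]
  linarith

/-- Everything except the choice of the parameters. -/
theorem s2g_core (hd : 2 ≤ d) (hdm : d < m) (hco : Nat.Coprime m d) {k l t : ℕ} {e : ℤ} {R K : ℝ}
    (he : (m : ℤ) ^ k ∣ (d : ℤ) * e - 1) (hlt : l ≤ t) (htk : t ≤ k)
    (J : Finset ℕ) (hJ : ∀ j : ℕ, j ∈ J ↔ j < k + 1 ∧ |(j : ℝ) - (1 - 1 / (d : ℝ)) * k| ≤ R)
    (hlj : ∀ j ∈ J, l ≤ j) (hratio : ∀ j ∈ J, ∀ s : ℕ, s ≤ t →
      cW d (k - t) (fun v => s + sg v = j) ≤ 2 * ((k.choose j : ℝ) * ((d : ℝ) - 1) ^ j) / (d : ℝ) ^ t) :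
    cW d k (fun w => K * rhg d m k w < multg d m r k w) ≤
      cW d k (fun w => R < |(sg w : ℝ) - (1 - 1 / (d : ℝ)) * k|) + ∑ j ∈ J, 2 * Osc d m r e k j j l +
        4 * cW d k (fun w => sg (w.take t) < l) +
          8 * (d : ℝ) ^ k * ∑ Y ∈ Finset.range (m ^ l),
            if K / 8 < (m : ℝ) ^ l * nu d m r l Y then nu d m r l Y else 0 := by
  classical
  have hm : 0 < m := by omega
  have hm0 : (0 : ℝ) < m := by exact_mod_cast hm
  have hd2 : (2 : ℝ) ≤ d := by exact_mod_cast hd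
  -- the binomial weights
  obtain ⟨B, hB⟩ : ∃ B : ℕ → ℝ, B = fun j => (k.choose j : ℝ) * ((d : ℝ) - 1) ^ j := ⟨_, rfl⟩
  have hBj : ∀ j, (k.choose j : ℝ) * ((d : ℝ) - 1) ^ j = B j := fun j => by rw [hB]
  have hB0 : ∀ j, 0 ≤ B j := fun j => by
    rw [hB]
    have : (0 : ℝ) ≤ (d : ℝ) - 1 := by linarith
    positivity
  have hrh : ∀ w, rhg d m k w = B (sg w) / (m : ℝ) ^ sg w := fun w => by
    unfold rhg
    rw [hBj]
  simp only [hrh]
  simp only [hBj] at hratio
  -- the sum over the number of the non-zero digits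
  have hJ' : (Finset.range (k + 1)).filter (fun j : ℕ => j ∈ J) = J := by
    ext j
    rw [Finset.mem_filter, Finset.mem_range]
    exact ⟨fun h => h.2, fun h => ⟨((hJ j).1 h).1, h⟩⟩
  have h1 : cW d k (fun w => K * (B (sg w) / (m : ℝ) ^ sg w) < multg d m r k w) ≤
      cW d k (fun w => R < |(sg w : ℝ) - (1 - 1 / (d : ℝ)) * k|) +
        ∑ j ∈ J, cW d k (fun w => sg w = j ∧ K * (B j / (m : ℝ) ^ j) < multg d m r k w) := by
    have h2 := dt_fiber (d := d) k (fun j => j ∈ J) (fun w => K * (B (sg w) / (m : ℝ) ^ sg w) < multg d m r k w)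
    rw [hJ'] at h2
    have h3 : ∑ j ∈ J, cW d k (fun w => sg w = j ∧ K * (B j / (m : ℝ) ^ j) < multg d m r k w) =
        ∑ j ∈ J, cW d k (fun w => sg w = j ∧ K * (B (sg w) / (m : ℝ) ^ sg w) < multg d m r k w) := by
      refine Finset.sum_congr rfl fun j _ => cW_congr fun w _ => and_congr_right fun hw => ?_
      rw [hw]
    rw [h3, ← h2]
    refine le_trans (cW_mono fun w hw hw2 => ?_) (cW_or_le _ _ _ _)
    rcases lt_or_ge R |(sg w : ℝ) - (1 - 1 / (d : ℝ)) * k| with h | h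
    · exact Or.inl h
    · refine Or.inr ⟨(hJ _).2 ⟨?_, h⟩, hw2⟩
      have := sg_le_length w
      rw [length_of_mem_W hw] at this
      omega
  -- one `j`
  have h2 : ∀ j ∈ J, cW d k (fun w => sg w = j ∧ K * (B j / (m : ℝ) ^ j) < multg d m r k w) ≤
      2 * Osc d m r e k j j l + (4 * ∑ Y ∈ Finset.range (m ^ l),
        cW d k (fun w => (sg w = j ∧ sg (w.take t) < l) ∧ Hit d m r l (Y : ℤ) w) +
        8 * B j * ∑ Y ∈ Finset.range (m ^ l),
          if K / 8 < (m : ℝ) ^ l * nu d m r l Y then nu d m r l Y else 0) := by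
    intro j hj
    refine (s2g_level hm he j _).trans ((s2g_osc hm (hlj j hj) _).trans (add_le_add le_rfl ?_))
    rw [Finset.mul_sum, Finset.mul_sum, ← Finset.sum_add_distrib]
    refine Finset.sum_le_sum fun Y _ => ?_
    have h3 := s2g_head (r := r) hco he hlt htk (hratio j hj) Y
    have h4 : nut d m r t l (Y : ℤ) ≤ nu d m r l Y := nut_le_nu _ _ _
    have h5 : 0 ≤ nu d m r l (Y : ℤ) := nu_nonneg _ _
    have h6 : (0 : ℝ) ≤ B j := hB0 j
    have h7 := MX2.p_nonneg (d := d) (m := m) (r := r) (e := e) (t := k) (S := j) l Y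
    have h8 := cW_nonneg d k (fun w => (sg w = j ∧ sg (w.take t) < l) ∧ Hit d m r l (Y : ℤ) w)
    obtain ⟨g, hg⟩ : ∃ g : ℝ, g = MX2.p d m r e k j l Y := ⟨_, rfl⟩
    obtain ⟨ρ, hρ⟩ : ∃ ρ : ℝ, ρ = cW d k (fun w => (sg w = j ∧ sg (w.take t) < l) ∧ Hit d m r l (Y : ℤ) w) := ⟨_, rfl⟩
    obtain ⟨v, hv⟩ : ∃ v : ℝ, v = nu d m r l (Y : ℤ) := ⟨_, rfl⟩
    obtain ⟨b, hb⟩ : ∃ b : ℝ, b = B j := ⟨_, rfl⟩
    rw [← hg, ← hρ, ← hb] at h3
    rw [← hv] at h4 h5 ⊢
    rw [← hg] at h7 ⊢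
    rw [← hρ] at h8 ⊢
    rw [← hb] at h6 ⊢
    have h9 : g ≤ 2 * b * v + ρ := h3.trans (by
      have : 2 * b * nut d m r t l (Y : ℤ) ≤ 2 * b * v := mul_le_mul_of_nonneg_left h4 (by linarith)
      linarith)
    split_ifs with c1 c2 c2
    · rcases le_or_gt (g / 2) ρ with h | h
      · have : 0 ≤ 8 * b * v := by positivity
        linarith
      · linarith
    · rcases le_or_gt (g / 2) ρ with h | h
      · linarith
      · exfalso
        have h10 : g < 4 * b * v := by linarith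
        have h11 : K * (b / (m : ℝ) ^ j) / 2 * (m : ℝ) ^ (j - l) < 4 * b * v := c1.trans h10
        have h12 : (m : ℝ) ^ j = (m : ℝ) ^ (j - l) * (m : ℝ) ^ l := by
          rw [← pow_add]
          congr 1
          have := hlj j hj
          omega
        have h13 : K * (b / (m : ℝ) ^ j) / 2 * (m : ℝ) ^ (j - l) = K * b / 2 / (m : ℝ) ^ l := by
          rw [h12]
          field_simp
        rw [h13, div_lt_iff₀ (by positivity)] at h11
        have h14 : b ≠ 0 := by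
          rintro h
          rw [h] at h11
          simp at h11
        have h15 : 0 < b := lt_of_le_of_ne h6 (Ne.symm h14)
        apply c2
        refine lt_of_mul_lt_mul_left ?_ h15.le
        linarith
    · positivity
    · linarith
  -- the sum over `j`
  have h3 : ∑ j ∈ J, ∑ Y ∈ Finset.range (m ^ l),
      cW d k (fun w => (sg w = j ∧ sg (w.take t) < l) ∧ Hit d m r l (Y : ℤ) w) ≤ cW d k (fun w => sg (w.take t) < l) := by
    have h4 : ∀ j ∈ J, ∑ Y ∈ Finset.range (m ^ l),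
        cW d k (fun w => (sg w = j ∧ sg (w.take t) < l) ∧ Hit d m r l (Y : ℤ) w) ≤
          cW d k (fun w => sg w = j ∧ sg (w.take t) < l) := fun j _ =>
      dt_sum_hit_le (d := d) (m := m) hco k l _
    refine (Finset.sum_le_sum h4).trans ?_
    have h5 := dt_fiber (d := d) k (fun j => j ∈ J) (fun w => sg (w.take t) < l)
    rw [hJ'] at h5
    rw [← h5]
    exact cW_mono fun w _ hw => hw.2
  have h4 : ∑ j ∈ J, B j ≤ (d : ℝ) ^ k := by
    have h5 : ∑ j ∈ J, B j ≤ ∑ j ∈ Finset.range (k + 1), B j := by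
      refine Finset.sum_le_sum_of_subset_of_nonneg (fun j hj => ?_) fun j _ _ => hB0 j
      exact Finset.mem_range.2 ((hJ j).1 hj).1
    refine h5.trans (le_of_eq ?_)
    have h6 := add_pow ((d : ℝ) - 1) 1 k
    rw [sub_add_cancel] at h6
    rw [h6, hB]
    refine Finset.sum_congr rfl fun j _ => ?_
    rw [one_pow]
    ring
  obtain ⟨U, hU⟩ : ∃ U : ℝ, U = ∑ Y ∈ Finset.range (m ^ l),
    if K / 8 < (m : ℝ) ^ l * nu d m r l Y then nu d m r l Y else 0 := ⟨_, rfl⟩
  have hU0 : 0 ≤ U := by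
    rw [hU]
    refine Finset.sum_nonneg fun Y _ => ?_
    split_ifs
    · exact nu_nonneg _ _
    · exact le_rfl
  rw [← hU] at h2 ⊢
  have h5 := Finset.sum_le_sum h2
  rw [Finset.sum_add_distrib, Finset.sum_add_distrib, ← Finset.mul_sum, ← Finset.sum_mul, ← Finset.mul_sum] at h5
  have h6 : (∑ j ∈ J, 8 * B j) = 8 * ∑ j ∈ J, B j := by rw [Finset.mul_sum]
  have h7 : 8 * (∑ j ∈ J, B j) * U ≤ 8 * (d : ℝ) ^ k * U :=
    mul_le_mul_of_nonneg_right (by linarith) hU0
  have h8 : (∑ j ∈ J, 2 * Osc d m r e k j j l) = 2 * ∑ j ∈ J, Osc d m r e k j j l := by rw [Finset.mul_sum]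
  rw [h8]
  try rw [h6] at h5
  linarith

/-- (S2g) -/
theorem s2g_of (hd : 2 ≤ d) (hdm : d < m) (hco : Nat.Coprime m d) (hmix : Mixing d m r) : S2gStmt d m r := by
  classical
  intro δ hδ
  obtain ⟨K1, l0, hK1, hui⟩ := s2g_ui hd hdm hco hmix (δ := δ / 16) (by positivity)
  obtain ⟨C, hC, hC2⟩ := hmix 9
  obtain ⟨n0, hn0⟩ := exists_nat_ge ((5 + 1024 * C) * 2 / δ)
  have hd2 : (2 : ℝ) ≤ d := by exact_mod_cast hd
  have hd0 : (0 : ℝ) < d := by linarith
  refine ⟨8 * K1, (max (max l0 n0) (100 * d) + 1) ^ 8, by positivity, fun k hk => ?_⟩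
  obtain ⟨n, hn1, hn2⟩ := s2_root k
  have hnn : max (max l0 n0) (100 * d) ≤ n := by
    by_contra h
    push Not at h
    have h1 : (n + 1) ^ 8 ≤ (max (max l0 n0) (100 * d) + 1) ^ 8 := Nat.pow_le_pow_left (by omega) 8
    omega
  simp only [max_le_iff] at hnn
  obtain ⟨⟨hnl, hnn0⟩, hnd⟩ := hnn
  have hn100 : 100 ≤ n := by omega
  have hnr : (100 : ℝ) ≤ n := by exact_mod_cast hn100
  have hndr : 100 * (d : ℝ) ≤ n := by exact_mod_cast hnd
  have hn0r : (0 : ℝ) < n := by linarith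
  have hk1 : (n : ℝ) ^ 8 ≤ k := by exact_mod_cast hn1
  have hk2 : (k : ℝ) + 1 ≤ 2 * 256 * (n : ℝ) ^ 8 := by
    have h1 : k < (2 * n) ^ 8 := hn2.trans_le (Nat.pow_le_pow_left (by omega) 8)
    have h2 : (k : ℝ) < (2 * (n : ℝ)) ^ 8 := by exact_mod_cast h1
    have h3 : (1 : ℝ) ≤ (n : ℝ) ^ 8 := one_le_pow₀ (by linarith)
    nlinarith
  have hk0 : (0 : ℝ) < k := lt_of_lt_of_le (by positivity) hk1
  -- `k` is much larger than the powers of `n`
  have hn4 : (10 : ℝ) ^ 8 ≤ (n : ℝ) ^ 4 := by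
    calc (10 : ℝ) ^ 8 = 100 ^ 4 := by norm_num
      _ ≤ (n : ℝ) ^ 4 := pow_le_pow_left₀ (by norm_num) hnr 4
  have hkn4 : (10 : ℝ) ^ 8 * (n : ℝ) ^ 4 ≤ k := by
    refine le_trans ?_ hk1
    calc (10 : ℝ) ^ 8 * (n : ℝ) ^ 4 ≤ (n : ℝ) ^ 4 * (n : ℝ) ^ 4 := mul_le_mul_of_nonneg_right hn4 (by positivity)
      _ = (n : ℝ) ^ 8 := by ring
  have hkn3 : (10 : ℝ) ^ 10 * (n : ℝ) ^ 3 ≤ k := by
    refine le_trans ?_ hkn4
    have h1 : (0 : ℝ) ≤ (n : ℝ) ^ 3 := by positivity
    nlinarith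
  have hkdn3 : (10 : ℝ) ^ 8 * ((d : ℝ) * (n : ℝ) ^ 3) ≤ k := by
    refine le_trans ?_ hkn4
    have h1 : (0 : ℝ) ≤ (n : ℝ) ^ 3 := by positivity
    have h2 : (d : ℝ) ≤ n := by linarith
    have h3 : (d : ℝ) * (n : ℝ) ^ 3 ≤ n * (n : ℝ) ^ 3 := mul_le_mul_of_nonneg_right h2 h1
    nlinarith
  have hn3 : (n : ℝ) * 10 ^ 4 ≤ (n : ℝ) ^ 3 := by
    have : (10 : ℝ) ^ 4 ≤ (n : ℝ) ^ 2 := by nlinarith
    nlinarith
  have h10n : 10 * n ≤ k := by
    have h1 : (10 : ℝ) * n ≤ k := by nlinarith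
    exact_mod_cast h1
  obtain ⟨e, he⟩ := exists_e (d := d) (m := m) hco k
  obtain ⟨R, hR⟩ : ∃ R : ℝ, R = k / (n : ℝ) ^ 2 := ⟨_, rfl⟩
  have hR0 : 0 < R := by rw [hR]; positivity
  have hR4 : R * 10 ^ 4 ≤ k := by
    rw [hR, div_mul_eq_mul_div, div_le_iff₀ (by positivity)]
    have : (10 : ℝ) ^ 4 ≤ (n : ℝ) ^ 2 := by nlinarith
    exact mul_le_mul_of_nonneg_left this hk0.le
  obtain ⟨J, hJ⟩ : ∃ J : Finset ℕ, J = (Finset.range (k + 1)).filter
    (fun j : ℕ => |(j : ℝ) - (1 - 1 / (d : ℝ)) * k| ≤ R) := ⟨_, rfl⟩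
  have hJm : ∀ j : ℕ, j ∈ J ↔ j < k + 1 ∧ |(j : ℝ) - (1 - 1 / (d : ℝ)) * k| ≤ R := by
    intro j
    rw [hJ, Finset.mem_filter, Finset.mem_range]
  have hpk : (k : ℝ) / 2 ≤ (1 - 1 / (d : ℝ)) * k := by
    have h1 : 1 / (d : ℝ) ≤ 1 / 2 := one_div_le_one_div_of_le (by norm_num) hd2
    nlinarith
  have hJj : ∀ j ∈ J, k / 2 - R ≤ (j : ℝ) := by
    intro j hj
    have h1 := ((hJm j).1 hj).2
    rw [abs_le] at h1
    linarith [h1.1, h1.2]
  have hlj : ∀ j ∈ J, n ≤ j := by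
    intro j hj
    have h1 := hJj j hj
    have h2 : (n : ℝ) ≤ j := by nlinarith
    exact_mod_cast h2
  -- the ratio
  have hratio : ∀ j ∈ J, ∀ s : ℕ, s ≤ 10 * n →
      cW d (k - 10 * n) (fun v => s + sg v = j) ≤
        2 * ((k.choose j : ℝ) * ((d : ℝ) - 1) ^ j) / (d : ℝ) ^ (10 * n) := by
    intro j hj s hs
    obtain ⟨k1, hk1'⟩ : ∃ k1 : ℕ, k1 = k - 10 * n := ⟨_, rfl⟩
    have hkk : k = k1 + 10 * n := by omega
    have hkr : (k : ℝ) = k1 + 10 * n := by rw [hkk]; push_cast; ring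
    rw [← hk1']
    have hsj : s ≤ j := by
      have h1 := hJj j hj
      have h2 : ((10 * n : ℕ) : ℝ) ≤ j := by push_cast; nlinarith
      have h3 : 10 * n ≤ j := by exact_mod_cast h2
      omega
    have h1 : cW d k1 (fun v => s + sg v = j) = (k1.choose (j - s) : ℝ) * ((d : ℝ) - 1) ^ (j - s) := by
      rw [← s2g_card hd]
      exact cW_congr fun v _ => by omega
    rw [h1]
    obtain ⟨ε, hε⟩ : ∃ ε : ℝ, ε = (2 * (d : ℝ) + 1) / (n : ℝ) ^ 2 := ⟨_, rfl⟩
    have hε0 : 0 ≤ ε := by rw [hε]; positivity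
    have h2 := s2g_ratio hd k1 ε hε0 (10 * n) s j (d * R) hs hsj (by
      have h3 := ((hJm j).1 hj).2
      have h4 : (d : ℝ) * j - ((d : ℝ) - 1) * ((k1 : ℝ) + ((10 * n : ℕ) : ℝ)) =
          d * ((j : ℝ) - (1 - 1 / (d : ℝ)) * k) := by
        rw [hkr]
        push_cast
        field_simp
      rw [h4, abs_mul, abs_of_pos hd0]
      exact mul_le_mul_of_nonneg_left h3 hd0.le) (by
      have h4 : (k : ℝ) / 2 ≤ k1 + 1 := by nlinarith
      have h5 : ε * (k / 2) ≤ ε * (k1 + 1) := mul_le_mul_of_nonneg_left h4 hε0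
      refine le_trans ?_ h5
      have h6 : ε * (k / 2) = d * R + R / 2 := by rw [hε, hR]; ring
      rw [h6]
      have h7 : ((d : ℝ) - 1) * ((10 * n : ℕ) : ℝ) ≤ R / 2 := by
        rw [hR, div_div, le_div_iff₀ (by positivity)]
        push_cast
        have h8 : ((d : ℝ) - 1) * (10 * n) * ((n : ℝ) ^ 2 * 2) = 20 * (((d : ℝ) - 1) * (n : ℝ) ^ 3) := by ring
        rw [h8]
        have h9 : ((d : ℝ) - 1) * (n : ℝ) ^ 3 ≤ (d : ℝ) * (n : ℝ) ^ 3 :=
          mul_le_mul_of_nonneg_right (by linarith) (by positivity)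
        have h10 : (0 : ℝ) ≤ (d : ℝ) * (n : ℝ) ^ 3 := by positivity
        linarith
      linarith)
    rw [← hkk] at h2
    refine h2.trans ?_
    have h8 : (1 + ε) ^ (10 * n) ≤ 2 := by
      have h9 : (1 + ε) ^ (10 * n) ≤ Real.exp (ε * (10 * n : ℕ)) := by
        rw [mul_comm ε, Real.exp_nat_mul]
        exact pow_le_pow_left₀ (by linarith) (by linarith [Real.add_one_le_exp ε]) _
      refine h9.trans ?_
      have h10 : ε * (10 * n : ℕ) ≤ 1 / 2 := by
        rw [hε]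
        push_cast
        rw [div_mul_eq_mul_div, div_le_iff₀ (by positivity)]
        nlinarith
      have h11 : Real.exp (ε * (10 * n : ℕ)) ≤ Real.exp (1 / 2) := Real.exp_le_exp.2 h10
      refine h11.trans ?_
      have h12 : Real.exp (1 / 2) ^ 2 = Real.exp 1 := by
        rw [← Real.exp_nat_mul]; norm_num
      have h13 := Real.exp_one_lt_d9
      nlinarith [Real.exp_pos (1 / 2)]
    rw [div_pow]
    have hch : (0 : ℝ) ≤ (k.choose j : ℝ) * ((d : ℝ) - 1) ^ j := by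
      have : (0 : ℝ) ≤ (d : ℝ) - 1 := by linarith
      positivity
    have h2p : (0 : ℝ) < (d : ℝ) ^ (10 * n) := by positivity
    rw [div_mul_eq_mul_div]
    exact div_le_div_of_nonneg_right (mul_le_mul_of_nonneg_right h8 hch) h2p.le
  have hcore := s2g_core (r := r) (K := 8 * K1) hd hdm hco he (show n ≤ 10 * n by omega) h10n J hJm hlj hratio
  refine hcore.trans ?_
  -- the four terms
  have t1 : cW d k (fun w => R < |(sg w : ℝ) - (1 - 1 / (d : ℝ)) * k|) ≤ (d : ℝ) ^ k * (1 / n) := by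
    refine (chebyshev (d := d) hd k hR0).trans ?_
    refine mul_le_mul_of_nonneg_left ?_ (by positivity)
    rw [hR, div_pow, ← pow_mul, div_div_eq_mul_div, div_le_div_iff₀ (by positivity) hn0r]
    have h1 : (k : ℝ) * (n : ℝ) ^ (2 * 2) * n = k * (n : ℝ) ^ 5 := by ring
    rw [h1, one_mul, sq]
    refine mul_le_mul_of_nonneg_left ?_ hk0.le
    refine le_trans ?_ hk1
    exact pow_le_pow_right₀ (by linarith) (by norm_num)
  have t2 : ∑ j ∈ J, 2 * Osc d m r e k j j n ≤ (d : ℝ) ^ k * (1024 * C / n) := by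
    have h1 : ∀ j ∈ J, 2 * Osc d m r e k j j n ≤ 2 * (C * (d : ℝ) ^ k / (n : ℝ) ^ 9) := by
      intro j hj
      have h2 := hC2 j n (by omega) (hlj j hj) e ((pow_dvd_pow _ (by have := ((hJm j).1 hj).1; omega)).trans he) k j le_rfl
      have h3 : (n : ℝ) ^ (-(9 : ℝ)) = 1 / (n : ℝ) ^ 9 := by
        rw [Real.rpow_neg hn0r.le, one_div]
        congr 1
        exact_mod_cast Real.rpow_natCast (n : ℝ) 9
      rw [h3] at h2
      refine mul_le_mul_of_nonneg_left (h2.trans (le_of_eq ?_)) (by norm_num)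
      ring
    refine (Finset.sum_le_sum h1).trans ?_
    rw [Finset.sum_const, nsmul_eq_mul]
    have h2 : (J.card : ℝ) ≤ k + 1 := by
      have : J.card ≤ k + 1 := by
        rw [hJ]
        exact (Finset.card_filter_le _ _).trans (by rw [Finset.card_range])
      exact_mod_cast this
    calc (J.card : ℝ) * (2 * (C * (d : ℝ) ^ k / (n : ℝ) ^ 9)) ≤
          (2 * 256 * (n : ℝ) ^ 8) * (2 * (C * (d : ℝ) ^ k / (n : ℝ) ^ 9)) :=
          mul_le_mul_of_nonneg_right (h2.trans hk2) (by positivity)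
      _ = (d : ℝ) ^ k * (1024 * C / n) := by
        field_simp
        ring
  have t3 : 4 * cW d k (fun w => sg (w.take (10 * n)) < n) ≤ (d : ℝ) ^ k * (4 / n) := by
    have hkk : k = 10 * n + (k - 10 * n) := by omega
    have h1 : cW d k (fun w => sg (w.take (10 * n)) < n) =
        cW d (10 * n) (fun u => sg u < n) * (d : ℝ) ^ (k - 10 * n) := by
      conv_lhs => rw [hkk]
      exact cW_take d (10 * n) (k - 10 * n) (fun u => sg u < n)
    have h2 := few_nonzero (d := d) hd (t := 10 * n) (k := n) (by omega)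
    have h3 : (9 / 10 : ℝ) ^ (10 * n) ≤ 1 / n := by
      rw [pow_mul]
      have h4 : ((9 / 10 : ℝ) ^ 10) ^ n ≤ (1 / 2) ^ n := pow_le_pow_left₀ (by positivity) (by norm_num) n
      refine h4.trans ?_
      rw [div_pow, one_pow]
      refine one_div_le_one_div_of_le hn0r ?_
      exact_mod_cast (Nat.lt_two_pow_self (n := n)).le
    have h5 : (d : ℝ) ^ k = (d : ℝ) ^ (10 * n) * (d : ℝ) ^ (k - 10 * n) := by
      rw [← pow_add]
      congr 1
    rw [h1]
    calc 4 * (cW d (10 * n) (fun u => sg u < n) * (d : ℝ) ^ (k - 10 * n))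
        ≤ 4 * (((d : ℝ) ^ (10 * n) * (1 / n)) * (d : ℝ) ^ (k - 10 * n)) := by
          refine mul_le_mul_of_nonneg_left (mul_le_mul_of_nonneg_right ?_ (by positivity)) (by norm_num)
          exact h2.trans (mul_le_mul_of_nonneg_left h3 (by positivity))
      _ = (d : ℝ) ^ k * (4 / n) := by rw [h5]; ring
  have t4 : 8 * (d : ℝ) ^ k * (∑ Y ∈ Finset.range (m ^ n),
      if 8 * K1 / 8 < (m : ℝ) ^ n * nu d m r n Y then nu d m r n Y else 0) ≤ 8 * (d : ℝ) ^ k * (δ / 16) := by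
    refine mul_le_mul_of_nonneg_left ?_ (by positivity)
    have h1 := hui n hnl
    rw [show 8 * K1 / 8 = K1 by ring]
    exact h1
  have t5 : (5 + 1024 * C) / n ≤ δ / 2 := by
    rw [div_le_iff₀ hn0r]
    have h1 : (5 + 1024 * C) * 2 / δ ≤ n := hn0.trans (by exact_mod_cast hnn0)
    rw [div_le_iff₀ hδ] at h1
    linarith
  have t6 : (d : ℝ) ^ k * (1 / (n : ℝ)) + (d : ℝ) ^ k * (1024 * C / n) + (d : ℝ) ^ k * (4 / n) =
      (d : ℝ) ^ k * ((5 + 1024 * C) / n) := by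
    ring
  have t7 : (d : ℝ) ^ k * ((5 + 1024 * C) / n) ≤ (d : ℝ) ^ k * (δ / 2) := mul_le_mul_of_nonneg_left t5 (by positivity)
  linarith

/-- (S2g) -/
theorem s2g (hstd : POSB.Std d m r) : S2gStmt d m r := s2g_of hstd.hd hstd.hdm hstd.hco hstd.mix

end Pool.Agent.Helper28.PR
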