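import Pool.Agent.Helper28.PR.Defs
import Pool.Agent.Helper91.PL.VC
import Pool.Agent.Helper52.Tao.A1

/-!
# PRIMES, block S5, part 1: pairs of points with the same end point
-/

set_option autoImplicit false

namespace Pool.Agent.Helper28.PR

open Filter Topology
open Pool.Agent.Helper68.Moeller Pool.Agent.Helper52.Tao Pool.Agent.Helper8.ND Pool.Agent.Helper91.PL

variable {r : ℤ → ℤ}

/-- The offsets have a constant sign and are at most `3 ^ t - 2 ^ t`. -/
theorem off_bd (hr : r 1 = 1 ∨ r 1 = -1) (t : ℕ) : ∀ w ∈ W 2 t,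
    0 ≤ r 1 * Off 2 3 r w ∧ r 1 * Off 2 3 r w ≤ 3 ^ t - 2 ^ t := by
  have hr2 : r 1 * r 1 = 1 := by rcases hr with h | h <;> rw [h] <;> norm_num
  induction t with
  | zero =>
    intro w hw
    rw [mem_W] at hw
    have : w = [] := List.length_eq_zero_iff.1 hw.1
    subst this
    simp [Off]
  | succ t ih =>
    intro w hw
    rcases w with _ | ⟨a, u⟩
    · rw [mem_W] at hw
      simp at hw
    · rw [mem_W] at hw
      obtain ⟨h1, h2⟩ := hw
      have hl : u.length = t := by simpa using h1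
      have hu : u ∈ W 2 t := mem_W.2 ⟨hl, fun b hb => h2 b (by simp [hb])⟩
      obtain ⟨h3, h4⟩ := ih u hu
      have ha : a < 2 := h2 a (by simp)
      have hp : (2 : ℤ) ^ t ≤ 3 ^ t := pow_le_pow_left₀ (by norm_num) (by norm_num) t
      have hp0 : (0 : ℤ) < 2 ^ t := by positivity
      rw [Off, hl]
      rcases (by omega : a = 0 ∨ a = 1) with rfl | rfl
      · rw [nz_zero, rr_zero]
        push_cast
        rw [one_mul, mul_zero, add_zero, pow_succ, pow_succ]
        refine ⟨h3, ?_⟩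
        linarith
      · rw [nz_of_ne one_ne_zero, rr_of_ne one_ne_zero]
        push_cast
        have e : r 1 * (3 * Off 2 3 r u + 2 ^ t * r 1) = 3 * (r 1 * Off 2 3 r u) + 2 ^ t := by
          linear_combination (2 ^ t : ℤ) * hr2
        rw [e, pow_succ, pow_succ]
        constructor
        · linarith
        · linarith

theorem hh_le (hr : r 1 = 1 ∨ r 1 = -1) {t : ℕ} {w w' : List ℕ} (hw : w ∈ W 2 t) (hw' : w' ∈ W 2 t) :
    |hh r w' w| ≤ 3 ^ t := by
  obtain ⟨h1, h2⟩ := off_bd hr t w hw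
  obtain ⟨h3, h4⟩ := off_bd hr t w' hw'
  have hp0 : (0 : ℤ) < 2 ^ t := by positivity
  have h5 : |Off 2 3 r w' - Off 2 3 r w| ≤ 3 ^ t := by
    have e : |Off 2 3 r w' - Off 2 3 r w| = |r 1 * Off 2 3 r w' - r 1 * Off 2 3 r w| := by
      rw [← mul_sub, abs_mul]
      rcases hr with h | h <;> rw [h] <;> simp
    rw [e, abs_le]
    constructor <;> linarith
  unfold hh
  refine le_trans ?_ h5
  rcases abs_cases (Off 2 3 r w' - Off 2 3 r w) with ⟨h, _⟩ | ⟨h, _⟩
  all_goals exact Int.abs_ediv_le_abs _ _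

theorem three_hh {w w' : List ℕ} (h : Rel r w' w) :
    (3 : ℤ) ^ sg w * hh r w' w = Off 2 3 r w' - Off 2 3 r w := Int.mul_ediv_cancel' h.2

theorem rel_refl (w : List ℕ) : Rel r w w := ⟨rfl, by simp⟩

theorem rel_symm {w w' : List ℕ} (h : Rel r w' w) : Rel r w w' := by
  refine ⟨h.1.symm, ?_⟩
  rw [h.1, ← neg_sub]
  exact (dvd_neg).2 h.2

theorem rel_trans {w w' w'' : List ℕ} (h : Rel r w' w) (h' : Rel r w'' w') : Rel r w'' w := by
  refine ⟨h'.1.trans h.1, ?_⟩
  have h1 := h'.2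
  rw [h.1] at h1
  have := dvd_add h1 h.2
  rwa [sub_add_sub_cancel] at this

/-- The point with the word `w'` and the same end point. -/
theorem hh_spec (hadm : Admissible 2 3 r) {k : ℕ} {n : ℤ} {w' : List ℕ} (hw' : w' ∈ W 2 k)
    (h : Rel r w' (wd 2 3 r k n)) :
    wd 2 3 r k (n + hh r w' (wd 2 3 r k n)) = w' ∧
      (T 2 3 r)^[k] (n + hh r w' (wd 2 3 r k n)) = (T 2 3 r)^[k] n := by
  refine wd_unique le_rfl (by norm_num) hadm hw' ?_
  have h1 := wd_spec (d := 2) (m := 3) le_rfl hadm k n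
  have h2 := three_hh h
  push_cast at h1 ⊢
  rw [h.1, mul_add, h2, h1]
  ring

/-- Two points with the same end point and as many odd steps. -/
theorem hh_of (hadm : Admissible 2 3 r) {k : ℕ} {n n' : ℤ} (hs : sg (wd 2 3 r k n') = sg (wd 2 3 r k n))
    (hT : (T 2 3 r)^[k] n' = (T 2 3 r)^[k] n) :
    Rel r (wd 2 3 r k n') (wd 2 3 r k n) ∧ n' = n + hh r (wd 2 3 r k n') (wd 2 3 r k n) := by
  have h1 := wd_spec (d := 2) (m := 3) le_rfl hadm k n
  have h2 := wd_spec (d := 2) (m := 3) le_rfl hadm k n'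
  push_cast at h1 h2
  rw [hT, h1, hs] at h2
  have h3 : (3 : ℤ) ^ sg (wd 2 3 r k n) * (n' - n) = Off 2 3 r (wd 2 3 r k n') - Off 2 3 r (wd 2 3 r k n) := by
    linear_combination -h2
  have hR : Rel r (wd 2 3 r k n') (wd 2 3 r k n) := ⟨hs, ⟨_, h3.symm⟩⟩
  refine ⟨hR, ?_⟩
  have h4 := three_hh hR
  have h5 : (3 : ℤ) ^ sg (wd 2 3 r k n) ≠ 0 := by positivity
  have h6 : n' - n = hh r (wd 2 3 r k n') (wd 2 3 r k n) := mul_left_cancel₀ h5 (h3.trans h4.symm)
  linarith

theorem hh_ne (hadm : Admissible 2 3 r) {k : ℕ} {n : ℤ} {w' : List ℕ} (hw' : w' ∈ W 2 k)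
    (h : Rel r w' (wd 2 3 r k n)) (hne : w' ≠ wd 2 3 r k n) : hh r w' (wd 2 3 r k n) ≠ 0 := by
  intro h0
  have h1 := (hh_spec hadm hw' h).1
  rw [h0, add_zero] at h1
  exact hne h1.symm

theorem cW_zero {t : ℕ} {P : List ℕ → Prop} (h : ∀ w ∈ W 2 t, ¬ P w) : cW 2 t P = 0 := by
  have h1 : cW 2 t P ≤ cW 2 t (fun _ => False) := cW_mono fun w hw hP => (h w hw hP)
  have h2 : cW 2 t (fun _ => False) = 0 := by simp [cW]
  exact le_antisymm (h1.trans h2.le) (cW_nonneg _ _ _)

/-- The number of words with `j` ones. -/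
theorem card_sg (k j : ℕ) : cW 2 k (fun w => sg w = j) = k.choose j := by
  induction k generalizing j with
  | zero =>
    classical
    rw [cW_eq_sum, sum_W_zero]
    rcases j with _ | j <;> simp
  | succ k ih =>
    classical
    rw [cW_eq_sum, sum_W_succ, Finset.sum_range_succ, Finset.sum_range_one]
    simp only [sg_cons, nz_zero, nz_of_ne one_ne_zero, zero_add]
    have h0 := ih j
    rw [cW_eq_sum] at h0
    rw [h0]
    rcases j with _ | j
    · have : ∑ w ∈ W 2 k, (if 1 + sg w = 0 then (1 : ℝ) else 0) = 0 := by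
        refine Finset.sum_eq_zero fun w _ => ?_
        rw [if_neg (by omega)]
      rw [this]
      simp
    · have h1 := ih j
      rw [cW_eq_sum] at h1
      have : ∑ w ∈ W 2 k, (if 1 + sg w = j + 1 then (1 : ℝ) else 0) = ∑ w ∈ W 2 k, (if sg w = j then (1 : ℝ) else 0) := by
        refine Finset.sum_congr rfl fun w _ => ?_
        congr 1
        exact propext (by omega)
      rw [this, h1, Nat.choose_succ_succ]
      push_cast
      ring

/-- Few words have a small multiplicity. -/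
theorem low_mult (k : ℕ) {κ : ℝ} (hκ : 0 ≤ κ) :
    cW 2 k (fun w => mult r k w < κ * ((k.choose (sg w) : ℝ) / 3 ^ sg w)) ≤ κ * 2 ^ k := by
  classical
  have h1 : cW 2 k (fun w => mult r k w < κ * ((k.choose (sg w) : ℝ) / 3 ^ sg w)) ≤
      cW 2 k (fun w => ∃ j ∈ Finset.range (k + 1), ∃ X ∈ Finset.range (3 ^ j),
        sg w = j ∧ (3 : ℤ) ^ j ∣ Off 2 3 r w - X ∧ mult r k w < κ * ((k.choose j : ℝ) / 3 ^ j)) := by
    refine cW_mono fun w hw hP => ?_
    have hl := sg_le_length w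
    rw [length_of_mem_W hw] at hl
    have h3 : (0 : ℤ) < 3 ^ sg w := by positivity
    refine ⟨sg w, Finset.mem_range.2 (by omega), (Off 2 3 r w % 3 ^ sg w).toNat, ?_, rfl, ?_, hP⟩
    · rw [Finset.mem_range]
      have h4 := Int.emod_lt_of_pos (Off 2 3 r w) h3
      have h5 := Int.emod_nonneg (Off 2 3 r w) h3.ne'
      zify
      rw [Int.toNat_of_nonneg h5]
      exact_mod_cast h4
    · have h5 := Int.emod_nonneg (Off 2 3 r w) h3.ne'
      rw [Int.toNat_of_nonneg h5]
      exact Int.dvd_self_sub_emod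
  refine h1.trans ((cW_exists_le _ _ _ _).trans ?_)
  have h2 : ∀ j ∈ Finset.range (k + 1), cW 2 k (fun w => ∃ X ∈ Finset.range (3 ^ j),
        sg w = j ∧ (3 : ℤ) ^ j ∣ Off 2 3 r w - X ∧ mult r k w < κ * ((k.choose j : ℝ) / 3 ^ j)) ≤ κ * k.choose j := by
    intro j _
    refine (cW_exists_le _ _ _ _).trans ?_
    have h3 : ∀ X ∈ Finset.range (3 ^ j), cW 2 k (fun w => sg w = j ∧ (3 : ℤ) ^ j ∣ Off 2 3 r w - X ∧
        mult r k w < κ * ((k.choose j : ℝ) / 3 ^ j)) ≤ κ * ((k.choose j : ℝ) / 3 ^ j) := by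
      intro X _
      by_cases hex : ∃ w ∈ W 2 k, sg w = j ∧ (3 : ℤ) ^ j ∣ Off 2 3 r w - X ∧
        mult r k w < κ * ((k.choose j : ℝ) / 3 ^ j)
      · obtain ⟨w0, _, h4, h5, h6⟩ := hex
        refine le_trans (cW_mono fun w _ hw => ?_) h6.le
        obtain ⟨h7, h8, -⟩ := hw
        refine ⟨h7.trans h4.symm, ?_⟩
        rw [h4]
        have := dvd_sub h8 h5
        rwa [sub_sub_sub_cancel_right] at this
      · push Not at hex
        have : cW 2 k (fun w => sg w = j ∧ (3 : ℤ) ^ j ∣ Off 2 3 r w - X ∧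
            mult r k w < κ * ((k.choose j : ℝ) / 3 ^ j)) = 0 := by
          refine cW_zero ?_
          rintro w hw ⟨h4, h5, h6⟩
          exact absurd h6 (not_lt.2 (hex w hw h4 h5))
        rw [this]
        positivity
    refine (Finset.sum_le_sum h3).trans ?_
    rw [Finset.sum_const, Finset.card_range, nsmul_eq_mul]
    push_cast
    have : (0 : ℝ) < 3 ^ j := by positivity
    field_simp
    exact le_refl _
  refine (Finset.sum_le_sum h2).trans ?_
  rw [← Finset.mul_sum]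
  have h3 : ∑ j ∈ Finset.range (k + 1), ((k.choose j : ℕ) : ℝ) = 2 ^ k := by
    exact_mod_cast Nat.sum_range_choose k
  rw [h3]

/-- Few words are light. -/
theorem light (k : ℕ) {L : ℝ} (hL : 0 ≤ L) (J : ℕ) :
    cW 2 k (fun w => sg w ≤ J ∧ (k.choose (sg w) : ℝ) / 3 ^ sg w < L) ≤ 3 ^ (J + 1) * L := by
  classical
  have h1 : cW 2 k (fun w => sg w ≤ J ∧ (k.choose (sg w) : ℝ) / 3 ^ sg w < L) ≤
      cW 2 k (fun w => ∃ j ∈ Finset.range (J + 1), sg w = j ∧ (k.choose j : ℝ) / 3 ^ j < L) := by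
    refine cW_mono fun w _ hP => ⟨sg w, Finset.mem_range.2 (by omega), rfl, hP.2⟩
  refine h1.trans ((cW_exists_le _ _ _ _).trans ?_)
  have h2 : ∀ j ∈ Finset.range (J + 1), cW 2 k (fun w => sg w = j ∧ (k.choose j : ℝ) / 3 ^ j < L) ≤ 3 ^ j * L := by
    intro j _
    have h3j : (0 : ℝ) < 3 ^ j := by positivity
    by_cases h : (k.choose j : ℝ) / 3 ^ j < L
    · refine (cW_mono fun w _ hw => hw.1).trans ?_
      rw [card_sg]
      rw [div_lt_iff₀ h3j] at h
      linarith
    · have : cW 2 k (fun w => sg w = j ∧ (k.choose j : ℝ) / 3 ^ j < L) = 0 := by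
        refine cW_zero ?_
        rintro w hw ⟨-, h4⟩
        exact h h4
      rw [this]
      positivity
  refine (Finset.sum_le_sum h2).trans ?_
  rw [← Finset.sum_mul]
  refine mul_le_mul_of_nonneg_right ?_ hL
  have h3 := geom_sum_eq (x := (3 : ℝ)) (by norm_num) (J + 1)
  rw [h3]
  have : (0 : ℝ) < 3 ^ (J + 1) := by positivity
  rw [div_le_iff₀ (by norm_num)]
  linarith

end Pool.Agent.Helper28.PR
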