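import Pool.Agent.Helper28.PR.T2
import Pool.Agent.Helper5.RS.BTap

/-!
# PRIMES, block S5, part 3: the bad words and the classes
-/

set_option autoImplicit false

namespace Pool.Agent.Helper28.PR

open Filter Topology
open Pool.Agent.Helper68.Moeller Pool.Agent.Helper52.Tao Pool.Agent.Helper8.ND Pool.Agent.Helper91.PL

variable {r : ℤ → ℤ}

/-- The mean multiplicity. -/
noncomputable def rh (k : ℕ) (w : List ℕ) : ℝ := (k.choose (sg w) : ℝ) / 3 ^ sg w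

/-- The good words. -/
def Gd (r : ℤ → ℤ) (k : ℕ) (κ K L : ℝ) (w : List ℕ) : Prop :=
  L ≤ rh k w ∧ κ * rh k w ≤ mult r k w ∧ mult r k w ≤ K * rh k w ∧
    ∀ q : ℕ, q.Prime → 5 ≤ q → q ≤ k → multq r k q w ≤ 2 * mult r k w / q

theorem bad_count {k : ℕ} (hk : 1 ≤ k) {κ K L δ : ℝ} (hκ : 0 ≤ κ) (hL : 0 ≤ L)
    (h2 : cW 2 k (fun w => K * ((k.choose (sg w) : ℝ) / 3 ^ sg w) < mult r k w) ≤ δ * 2 ^ k)
    (h3 : cW 2 k (fun w => k ≤ 3 * sg w ∧ ∃ q : ℕ, q.Prime ∧ 5 ≤ q ∧ q ≤ k ∧ 2 * mult r k w / q < multq r k q w) ≤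
      2 ^ k / k) :
    cW 2 k (fun w => ¬ Gd r k κ K L w) ≤
      2 ^ k * (2500 / k) + 3 ^ (13 * k / 25 + 1) * L + 2 ^ k / k + κ * 2 ^ k + δ * 2 ^ k := by
  have hk0 : (0 : ℝ) < k := by exact_mod_cast hk
  have e1 := chebyshev (d := 2) le_rfl k (R := (k : ℝ) / 50) (by positivity)
  have e2 := light k hL (13 * k / 25)
  have e4 := low_mult (r := r) k hκ
  have e1' : cW 2 k (fun w => (k : ℝ) / 50 < |(sg w : ℝ) - (1 - 1 / ((2 : ℕ) : ℝ)) * k|) ≤ 2 ^ k * (2500 / k) := by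
    refine e1.trans (le_of_eq ?_)
    push_cast
    field_simp
    norm_num
  refine le_trans (cW_mono (Q := fun w => (((((k : ℝ) / 50 < |(sg w : ℝ) - (1 - 1 / ((2 : ℕ) : ℝ)) * k|) ∨
    (sg w ≤ 13 * k / 25 ∧ (k.choose (sg w) : ℝ) / 3 ^ sg w < L)) ∨
    (k ≤ 3 * sg w ∧ ∃ q : ℕ, q.Prime ∧ 5 ≤ q ∧ q ≤ k ∧ 2 * mult r k w / q < multq r k q w)) ∨
    (mult r k w < κ * ((k.choose (sg w) : ℝ) / 3 ^ sg w))) ∨
    (K * ((k.choose (sg w) : ℝ) / 3 ^ sg w) < mult r k w)) ?_) ?_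
  · intro w hw hbad
    by_contra hcon
    push Not at hcon
    obtain ⟨⟨⟨⟨c1, c2⟩, c3⟩, c4⟩, c5⟩ := hcon
    apply hbad
    push_cast at c1
    obtain ⟨c6, c7⟩ := abs_le.1 c1
    have c8 : k ≤ 3 * sg w := by
      have : (k : ℝ) ≤ 3 * sg w := by linarith
      exact_mod_cast this
    have c9 : sg w ≤ 13 * k / 25 := by
      rw [Nat.le_div_iff_mul_le (by norm_num)]
      have : (sg w : ℝ) * 25 ≤ 13 * k := by linarith
      exact_mod_cast this
    exact ⟨c2 c9, c4, c5, fun q hq h5 hqk => c3 c8 q hq h5 hqk⟩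
  · refine (cW_or_le _ _ _ _).trans (add_le_add ((cW_or_le _ _ _ _).trans (add_le_add ((cW_or_le _ _ _ _).trans
      (add_le_add ((cW_or_le _ _ _ _).trans (add_le_add e1' e2)) h3)) e4)) h2)

open Classical in
/-- The primes of one word. -/
theorem word_primes : ∃ C : ℝ, 0 < C ∧ ∀ r : ℤ → ℤ, Admissible 2 3 r → ∀ (θ : ℝ) (k y H : ℕ), 0 < θ → 1 ≤ k → 2 ≤ y →
    (4 : ℝ) ^ k ≤ (y : ℝ) ^ θ → (y : ℝ) ^ θ ≤ H → H ≤ y → ∀ w : List ℕ,
    ((((Finset.Ioc y (y + H)).filter Nat.Prime).filter (fun p : ℕ => wd 2 3 r k (p : ℤ) = w)).card : ℝ) ≤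
      C / θ * (H / (2 ^ k * Real.log y)) := by
  obtain ⟨C, hC, h⟩ := Pool.Agent.Helper5.RS.bt_ap
  refine ⟨4 * C, by positivity, fun r hadm θ k y H hθ hk hy h4 hH hHy w => ?_⟩
  have hy0 : (0 : ℝ) < y := by exact_mod_cast (by omega : 0 < y)
  have hy1 : (1 : ℝ) < y := by exact_mod_cast (by omega : 1 < y)
  have hly : 0 < Real.log y := Real.log_pos hy1
  have h2k : (0 : ℝ) < 2 ^ k := by positivity
  by_cases hne : ∃ p ∈ (Finset.Ioc y (y + H)).filter Nat.Prime, wd 2 3 r k (p : ℤ) = w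
  · obtain ⟨p0, hp0, hw⟩ := hne
    rw [Finset.mem_filter, Finset.mem_Ioc] at hp0
    have hodd : p0 % 2 = 1 := by
      rcases hp0.2.eq_two_or_odd with h | h
      · omega
      · exact h
    have hcop : Nat.Coprime p0 (2 ^ k) := Nat.Coprime.pow_right k (Nat.coprime_two_right.2 (Nat.odd_iff.2 hodd))
    have h44 : (4 : ℝ) ^ k = 2 ^ k * 2 ^ k := by rw [← mul_pow]; norm_num
    have hkk : (2 : ℝ) ≤ 2 ^ k := by
      have := pow_le_pow_right₀ (by norm_num : (1 : ℝ) ≤ 2) hk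
      linarith
    have hHk : 2 * 2 ^ k ≤ H := by
      have : (2 : ℝ) * 2 ^ k ≤ H := by nlinarith [h4.trans hH]
      exact_mod_cast this
    have h5 := h (2 ^ k) p0 y H Nat.one_le_two_pow hcop hHk
    have h6 : ((((Finset.Ioc y (y + H)).filter Nat.Prime).filter (fun p : ℕ => wd 2 3 r k (p : ℤ) = w)).card : ℝ) ≤
        (((Finset.Ioc y (y + H)).filter (fun p => p.Prime ∧ p ≡ p0 [MOD 2 ^ k])).card : ℝ) := by
      refine Nat.cast_le.2 (Finset.card_le_card fun p hp => ?_)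
      rw [Finset.mem_filter, Finset.mem_filter] at hp
      rw [Finset.mem_filter]
      refine ⟨hp.1.1, hp.1.2, ?_⟩
      have h7 := vc_dvd (d := 2) (m := 3) le_rfl (by norm_num) hadm (i := k) (b := (p0 : ℤ)) (b' := (p : ℤ)) (by rw [hw, hp.2])
      have h8 : ((p0 : ℤ) - p) = -((p : ℤ) - p0) := by ring
      rw [h8, dvd_neg] at h7
      refine (Nat.modEq_iff_dvd.2 ?_)
      have h9 := (dvd_neg).2 h7
      rw [neg_sub] at h9
      exact_mod_cast h9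
    refine h6.trans (h5.trans ?_)
    have h7 : (2 : ℝ) ^ k / 2 ≤ (Nat.totient (2 ^ k) : ℝ) := by
      obtain ⟨i, rfl⟩ : ∃ i, k = i + 1 := ⟨k - 1, by omega⟩
      rw [Nat.totient_prime_pow_succ Nat.prime_two]
      push_cast
      rw [pow_succ]
      linarith
    have h8 : θ / 2 * Real.log y ≤ Real.log ((H : ℝ) / ((2 ^ k : ℕ) : ℝ)) := by
      rw [← Real.log_rpow hy0]
      refine Real.log_le_log (Real.rpow_pos_of_pos hy0 _) ?_
      rw [le_div_iff₀ (by positivity)]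
      have h9 : (2 : ℝ) ^ k ≤ (y : ℝ) ^ (θ / 2) := by
        have e : (y : ℝ) ^ θ = (y : ℝ) ^ (θ / 2) * (y : ℝ) ^ (θ / 2) := by
          rw [← Real.rpow_add hy0]
          congr 1
          ring
        rw [e, h44] at h4
        exact nonneg_le_nonneg_of_sq_le_sq (Real.rpow_nonneg hy0.le _) h4
      have e : (y : ℝ) ^ θ = (y : ℝ) ^ (θ / 2) * (y : ℝ) ^ (θ / 2) := by
        rw [← Real.rpow_add hy0]
        congr 1
        ring
      push_cast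
      calc (y : ℝ) ^ (θ / 2) * 2 ^ k ≤ (y : ℝ) ^ (θ / 2) * (y : ℝ) ^ (θ / 2) :=
          mul_le_mul_of_nonneg_left h9 (Real.rpow_nonneg hy0.le _)
        _ = (y : ℝ) ^ θ := e.symm
        _ ≤ H := hH
    have h10 : 2 ^ k / 2 * (θ / 2 * Real.log y) ≤ (Nat.totient (2 ^ k) : ℝ) * Real.log ((H : ℝ) / ((2 ^ k : ℕ) : ℝ)) :=
      mul_le_mul h7 h8 (by positivity) (by positivity)
    calc C * ((H : ℝ) / ((Nat.totient (2 ^ k) : ℝ) * Real.log ((H : ℝ) / ((2 ^ k : ℕ) : ℝ))))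
        ≤ C * ((H : ℝ) / (2 ^ k / 2 * (θ / 2 * Real.log y))) := by
          refine mul_le_mul_of_nonneg_left ?_ hC.le
          exact div_le_div_of_nonneg_left (by positivity) (by positivity) h10
      _ = 4 * C / θ * (H / (2 ^ k * Real.log y)) := by field_simp; norm_num
  · push Not at hne
    have : ((Finset.Ioc y (y + H)).filter Nat.Prime).filter (fun p : ℕ => wd 2 3 r k (p : ℤ) = w) = ∅ := by
      rw [Finset.filter_eq_empty_iff]
      exact fun p hp => hne p hp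
    rw [this, Finset.card_empty]
    push_cast
    positivity

open Classical in
/-- The pairs of primes of one pair of words. -/
theorem word_pairs {C : ℝ} {H0 : ℕ} (hC : 0 < C) (h1 : ∀ k b u H : ℕ, ∀ h : ℤ, H0 ≤ H → (2 ^ k) ^ 2 ≤ H → H ≤ u →
    b % 2 = 1 → h ≠ 0 → 2 * |h| ≤ H →
    ({p : ℕ | p.Prime ∧ u < p ∧ p ≤ u + H ∧ p ≡ b [MOD 2 ^ k] ∧
      ∃ p' : ℕ, p'.Prime ∧ (p' : ℤ) = p + h}.ncard : ℝ) ≤
        C * sing h ^ 2 * (H / (2 ^ k * Real.log H ^ 2)))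
    (hadm : Admissible 2 3 r) (hr : r 1 = 1 ∨ r 1 = -1) {θ : ℝ} {k y H : ℕ} (hθ : 0 < θ) (hk : 1 ≤ k) (hy : 2 ≤ y)
    (h4 : 2 * (4 : ℝ) ^ k ≤ (y : ℝ) ^ θ) (hH : (y : ℝ) ^ θ ≤ H) (hHy : H ≤ y) (hH0 : H0 ≤ H) {w w' : List ℕ} (hw : w ∈ W 2 k)
    (hw' : w' ∈ W 2 k) (hne : hh r w' w ≠ 0) :
    ((((Finset.Ioc y (y + H)).filter Nat.Prime).filter (fun p : ℕ => wd 2 3 r k (p : ℤ) = w ∧
      ∃ p' : ℕ, p'.Prime ∧ (p' : ℤ) = p + hh r w' w)).card : ℝ) ≤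
      C / θ ^ 2 * (H / (2 ^ k * Real.log y ^ 2)) * sing (hh r w' w) ^ 2 := by
  have hy0 : (0 : ℝ) < y := by exact_mod_cast (by omega : 0 < y)
  have hy1 : (1 : ℝ) < y := by exact_mod_cast (by omega : 1 < y)
  have hly : 0 < Real.log y := Real.log_pos hy1
  have h2k : (0 : ℝ) < 2 ^ k := by positivity
  have hs : 0 ≤ sing (hh r w' w) ^ 2 := sq_nonneg _
  by_cases hne2 : ∃ p ∈ (Finset.Ioc y (y + H)).filter Nat.Prime, wd 2 3 r k (p : ℤ) = w
  · obtain ⟨p0, hp0, hpw⟩ := hne2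
    rw [Finset.mem_filter, Finset.mem_Ioc] at hp0
    have hodd : p0 % 2 = 1 := by
      rcases hp0.2.eq_two_or_odd with h | h
      · omega
      · exact h
    have h44 : (4 : ℝ) ^ k = (2 ^ k) ^ 2 := by rw [← pow_mul, mul_comm, pow_mul]; norm_num
    have hq : (2 ^ k) ^ 2 ≤ H := by
      have : ((2 : ℝ) ^ k) ^ 2 ≤ H := by
        rw [← h44]
        have : (0 : ℝ) < 4 ^ k := by positivity
        linarith
      exact_mod_cast this
    have hh2 : 2 * |hh r w' w| ≤ H := by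
      have a1 := hh_le hr hw hw'
      have a2 : (3 : ℝ) ^ k ≤ 4 ^ k := pow_le_pow_left₀ (by norm_num) (by norm_num) k
      have a3 : (2 : ℝ) * 3 ^ k ≤ H := by linarith
      have a4 : (2 : ℤ) * 3 ^ k ≤ H := by exact_mod_cast a3
      linarith
    have h5 := h1 k p0 y H (hh r w' w) hH0 hq hHy hodd hne hh2
    have hfin : {p : ℕ | p.Prime ∧ y < p ∧ p ≤ y + H ∧ p ≡ p0 [MOD 2 ^ k] ∧
      ∃ p' : ℕ, p'.Prime ∧ (p' : ℤ) = p + hh r w' w}.Finite :=
      (Set.finite_Icc 0 (y + H)).subset fun p hp => ⟨Nat.zero_le _, hp.2.2.1⟩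
    have h6 : ((((Finset.Ioc y (y + H)).filter Nat.Prime).filter (fun p : ℕ => wd 2 3 r k (p : ℤ) = w ∧
        ∃ p' : ℕ, p'.Prime ∧ (p' : ℤ) = p + hh r w' w)).card : ℝ) ≤
        ({p : ℕ | p.Prime ∧ y < p ∧ p ≤ y + H ∧ p ≡ p0 [MOD 2 ^ k] ∧
          ∃ p' : ℕ, p'.Prime ∧ (p' : ℤ) = p + hh r w' w}.ncard : ℝ) := by
      rw [← Set.ncard_coe_finset]
      refine Nat.cast_le.2 (Set.ncard_le_ncard ?_ hfin)
      intro p hp
      rw [Finset.mem_coe, Finset.mem_filter, Finset.mem_filter, Finset.mem_Ioc] at hp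
      refine ⟨hp.1.2, hp.1.1.1, hp.1.1.2, ?_, hp.2.2⟩
      have h7 := vc_dvd (d := 2) (m := 3) le_rfl (by norm_num) hadm (i := k) (b := (p0 : ℤ)) (b' := (p : ℤ)) (by rw [hpw, hp.2.1])
      refine (Nat.modEq_iff_dvd.2 ?_)
      exact_mod_cast h7
    have h7 : θ * Real.log y ≤ Real.log H := by
      rw [← Real.log_rpow hy0]
      exact Real.log_le_log (Real.rpow_pos_of_pos hy0 _) hH
    have h8 : (θ * Real.log y) ^ 2 ≤ Real.log H ^ 2 := pow_le_pow_left₀ (by positivity) h7 2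
    refine h6.trans (h5.trans ?_)
    have h9 : (H : ℝ) / (2 ^ k * Real.log H ^ 2) ≤ H / (2 ^ k * (θ * Real.log y) ^ 2) :=
      div_le_div_of_nonneg_left (by positivity) (by positivity) (mul_le_mul_of_nonneg_left h8 h2k.le)
    calc C * sing (hh r w' w) ^ 2 * ((H : ℝ) / (2 ^ k * Real.log H ^ 2))
        ≤ C * sing (hh r w' w) ^ 2 * (H / (2 ^ k * (θ * Real.log y) ^ 2)) :=
          mul_le_mul_of_nonneg_left h9 (by positivity)
      _ = C / θ ^ 2 * (H / (2 ^ k * Real.log y ^ 2)) * sing (hh r w' w) ^ 2 := by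
          field_simp
  · push Not at hne2
    have : ((Finset.Ioc y (y + H)).filter Nat.Prime).filter (fun p : ℕ => wd 2 3 r k (p : ℤ) = w ∧
        ∃ p' : ℕ, p'.Prime ∧ (p' : ℤ) = p + hh r w' w) = ∅ := by
      rw [Finset.filter_eq_empty_iff]
      exact fun p hp h => hne2 p hp h.1
    rw [this, Finset.card_empty]
    push_cast
    positivity

end Pool.Agent.Helper28.PR
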